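import Mathlib

/-! Beck–Fiala type rounding with weighted rows. -/

namespace Pool.Agent.Lib.MP_5049a2_lc

open Finset

/-- More unknowns than homogeneous equations: a nonzero solution. -/
lemma exists_kernel {α β : Type*} [Fintype α] [Fintype β] (M : β → α → ℝ)
    (h : Fintype.card β < Fintype.card α) :
    ∃ y : α → ℝ, y ≠ 0 ∧ ∀ b, ∑ a, M b a * y a = 0 := by
  classical
  have hli : ¬ LinearIndependent ℝ (fun a : α => (fun b => M b a : β → ℝ)) := by
    intro hl
    have := hl.fintype_card_le_finrank
    rw [Module.finrank_fintype_fun_eq_card] at this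
    omega
  rw [Fintype.not_linearIndependent_iff] at hli
  obtain ⟨g, hg, a, ha⟩ := hli
  refine ⟨g, fun h0 => ha (by simp [h0]), fun b => ?_⟩
  have := congrFun hg b
  simpa [Finset.sum_apply, mul_comm] using this

theorem bf_general {A O ι : Type*} [Fintype A] [Fintype O] [DecidableEq A] [DecidableEq O]
    (I : Finset ι) (c : ι → A → O → ℝ) (ω : ι → ℝ)
    (hc : ∀ i ∈ I, ∀ a o, 0 ≤ c i a o) (hω : ∀ i ∈ I, 0 < ω i)
    (hcol : ∀ a o, ∑ i ∈ I, c i a o / ω i ≤ 1 / 2) :
    ∀ (N : ℕ) (x : A → O → ℝ), (∀ a o, 0 ≤ x a o) → (∀ a, ∑ o, x a o = 1) →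
      (univ.filter fun q : A × O => 0 < x q.1 q.2).card ≤ N →
      ∃ ch : A → O, (∀ a, 0 < x a (ch a)) ∧
        ∀ i ∈ I, |∑ a, c i a (ch a) - ∑ a, ∑ o, x a o * c i a o| ≤ ω i := by
  classical
  -- small rows are automatically fine
  have small : ∀ (x : A → O → ℝ), (∀ a o, 0 ≤ x a o) → (∀ a, ∑ o, x a o = 1) →
      ∀ ch : A → O, (∀ a, 0 < x a (ch a)) → ∀ i ∈ I,
      |∑ a, c i a (ch a) - ∑ a, ∑ o, x a o * c i a o| ≤
        ∑ q ∈ univ.filter (fun q : A × O => 0 < x q.1 q.2 ∧ x q.1 q.2 < 1), c i q.1 q.2 := by
    intro x hx hs ch hch i hi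
    rw [← Finset.sum_sub_distrib]
    refine (Finset.abs_sum_le_sum_abs _ _).trans ?_
    rw [Finset.sum_filter, Fintype.sum_prod_type]
    refine Finset.sum_le_sum fun a _ => ?_
    have hle : ∀ o, x a o ≤ 1 := fun o => by
      rw [← hs a]; exact Finset.single_le_sum (fun o _ => hx a o) (mem_univ o)
    have hnn : 0 ≤ ∑ o, if 0 < x a o ∧ x a o < 1 then c i a o else 0 :=
      Finset.sum_nonneg fun o _ => by split_ifs; exacts [hc i hi a o, le_rfl]
    by_cases h1 : ∃ o, x a o = 1
    · obtain ⟨o, ho⟩ := h1
      have hz : ∀ o', o' ≠ o → x a o' = 0 := by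
        intro o' hne
        have h2 := hs a
        rw [← Finset.add_sum_erase _ _ (mem_univ o)] at h2
        have h3 : ∑ y ∈ univ.erase o, x a y = 0 := by linarith
        exact (Finset.sum_eq_zero_iff_of_nonneg (fun y _ => hx a y)).1 h3 o' (by simp [hne])
      have hco : ch a = o := by
        by_contra hne
        have := hch a
        rw [hz _ hne] at this
        exact lt_irrefl _ this
      have : ∑ o', x a o' * c i a o' = c i a o := by
        rw [Finset.sum_eq_single o (fun o' _ hne => by rw [hz o' hne, zero_mul]) (by simp), ho,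
          one_mul]
      rw [this, hco, sub_self, abs_zero]
      exact hnn
    · push Not at h1
      have hlt : ∀ o, x a o < 1 := fun o => lt_of_le_of_ne (hle o) (h1 o)
      have e1 : c i a (ch a) ≤ ∑ o, if 0 < x a o ∧ x a o < 1 then c i a o else 0 := by
        have := Finset.single_le_sum (f := fun o => if 0 < x a o ∧ x a o < 1 then c i a o else 0)
          (s := univ) (fun o _ => by split_ifs; exacts [hc i hi a o, le_rfl]) (mem_univ (ch a))
        simpa [hch a, hlt (ch a)] using this
      have e2 : ∑ o, x a o * c i a o ≤ ∑ o, if 0 < x a o ∧ x a o < 1 then c i a o else 0 := by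
        refine Finset.sum_le_sum fun o _ => ?_
        by_cases h0 : 0 < x a o
        · rw [if_pos ⟨h0, hlt o⟩]
          nlinarith [hc i hi a o, hle o]
        · have : x a o = 0 := le_antisymm (not_lt.1 h0) (hx a o)
          simp [this]
      have e3 : 0 ≤ ∑ o, x a o * c i a o :=
        Finset.sum_nonneg fun o _ => mul_nonneg (hx a o) (hc i hi a o)
      rw [abs_le]
      constructor <;> linarith [hc i hi a (ch a)]
  intro N
  induction N with
  | zero =>
    intro x hx hs hcard
    have hemp : ∀ a o, ¬ 0 < x a o := by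
      intro a o h
      have : (a, o) ∈ (univ.filter fun q : A × O => 0 < x q.1 q.2) := by simp [h]
      have h0 : (univ.filter fun q : A × O => 0 < x q.1 q.2) = ∅ := by
        simpa using Nat.le_zero.1 hcard
      rw [h0] at this
      simp at this
    have hA : IsEmpty A := by
      refine ⟨fun a => ?_⟩
      have := hs a
      rw [Finset.sum_eq_zero fun o _ => le_antisymm (not_lt.1 (hemp a o)) (hx a o)] at this
      exact zero_ne_one this
    refine ⟨fun a => hA.elim a, fun a => hA.elim a, fun i hi => ?_⟩
    simp [(hω i hi).le]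
  | succ N ih =>
    intro x hx hs hcard
    set Fl := univ.filter (fun q : A × O => 0 < x q.1 q.2 ∧ x q.1 q.2 < 1) with hFl
    have hex : ∀ a, ∃ o, 0 < x a o := by
      intro a
      by_contra h
      push Not at h
      have := hs a
      rw [Finset.sum_eq_zero fun o _ => le_antisymm (h o) (hx a o)] at this
      exact zero_ne_one this
    by_cases hF : Fl = ∅
    · choose ch hch using hex
      refine ⟨ch, hch, fun i hi => ?_⟩
      refine (small x hx hs ch hch i hi).trans ?_
      rw [← hFl, hF]
      simpa using (hω i hi).le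
    · set Big := I.filter (fun i => ω i < ∑ q ∈ Fl, c i q.1 q.2) with hBig
      set Ag := Fl.image Prod.fst with hAg
      have hFpos : 0 < Fl.card := card_pos.2 (nonempty_iff_ne_empty.2 hF)
      have hB : (Big.card : ℝ) < Fl.card / 2 := by
        by_cases hBe : Big = ∅
        · rw [hBe]; simp; exact nonempty_iff_ne_empty.2 hF
        have h1 : (Big.card : ℝ) < ∑ i ∈ Big, (∑ q ∈ Fl, c i q.1 q.2) / ω i := by
          rw [card_eq_sum_ones]; push_cast
          refine Finset.sum_lt_sum_of_nonempty (nonempty_iff_ne_empty.2 hBe) fun i hi => ?_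
          obtain ⟨hi1, hi2⟩ := mem_filter.1 hi
          rw [lt_div_iff₀ (hω i hi1)]; linarith
        have h2 : ∑ i ∈ Big, (∑ q ∈ Fl, c i q.1 q.2) / ω i ≤
            ∑ i ∈ I, (∑ q ∈ Fl, c i q.1 q.2) / ω i :=
          Finset.sum_le_sum_of_subset_of_nonneg (filter_subset _ _) fun i hi _ =>
            div_nonneg (Finset.sum_nonneg fun q _ => hc i hi _ _) (hω i hi).le
        have h3 : ∑ i ∈ I, (∑ q ∈ Fl, c i q.1 q.2) / ω i ≤ Fl.card / 2 := by
          simp_rw [Finset.sum_div]
          rw [Finset.sum_comm]
          calc ∑ q ∈ Fl, ∑ i ∈ I, c i q.1 q.2 / ω i ≤ ∑ q ∈ Fl, (1 / 2 : ℝ) :=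
                Finset.sum_le_sum fun q _ => hcol _ _
            _ = Fl.card / 2 := by simp; ring
        linarith
      have hA2 : 2 * Ag.card ≤ Fl.card := by
        rw [mul_comm]
        have h2 : ∀ a ∈ Ag, 2 ≤ (Fl.filter fun q => q.1 = a).card := by
          intro a ha
          obtain ⟨⟨a', o⟩, hq, rfl⟩ := mem_image.1 ha
          obtain ⟨-, h0, h1⟩ := mem_filter.1 hq
          simp only at h0 h1 ⊢
          have : ∃ o', o' ≠ o ∧ 0 < x a' o' := by
            by_contra hcon
            push Not at hcon
            have h2 := hs a'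
            rw [Finset.sum_eq_single o (fun o' _ hne => le_antisymm (hcon o' hne) (hx _ _))
              (by simp)] at h2
            linarith
          obtain ⟨o', hne, ho'⟩ := this
          have hlt : x a' o' < 1 := by
            have h2 := hs a'
            have h3 : x a' o + x a' o' ≤ ∑ y, x a' y := by
              rw [← Finset.sum_pair (f := x a') hne.symm]
              exact Finset.sum_le_sum_of_subset_of_nonneg (subset_univ _) fun y _ _ => hx _ _
            linarith
          have hsub : ({(a', o), (a', o')} : Finset (A × O)) ⊆ Fl.filter fun q => q.1 = a' := by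
            intro q hq'
            simp only [mem_insert, mem_singleton] at hq'
            rcases hq' with rfl | rfl
            · simp [hFl, h0, h1]
            · simp [hFl, ho', hlt]
          have := card_le_card hsub
          rwa [card_pair (by simp [hne.symm])] at this
        calc Ag.card * 2 = ∑ a ∈ Ag, 2 := by simp
          _ ≤ ∑ a ∈ Ag, (Fl.filter fun q => q.1 = a).card := Finset.sum_le_sum h2
          _ = Fl.card := (Finset.card_eq_sum_card_fiberwise
              (f := Prod.fst) (s := Fl) (t := Ag) (fun q hq => mem_image_of_mem _ hq)).symm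
      have hdim : Fintype.card (Big ⊕ Ag) < Fintype.card Fl := by
        simp only [Fintype.card_sum, Fintype.card_coe]
        have : (2 * Big.card : ℝ) < Fl.card := by linarith
        have : 2 * Big.card < Fl.card := by exact_mod_cast this
        omega
      obtain ⟨y, hy0, hy⟩ := exists_kernel (α := Fl) (β := Big ⊕ Ag)
        (fun b q => Sum.elim (fun i => c i.1 q.1.1 q.1.2) (fun a => if q.1.1 = a.1 then 1 else 0) b)
        hdim
      -- extend `y` by zero
      set z : A → O → ℝ := fun a o => if h : (a, o) ∈ Fl then y ⟨(a, o), h⟩ else 0 with hz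
      have hzsum : ∀ f : A → O → ℝ, ∑ a, ∑ o, z a o * f a o = ∑ q : Fl, f q.1.1 q.1.2 * y q := by
        intro f
        rw [← Fintype.sum_prod_type' (f := fun a o => z a o * f a o)]
        rw [← Finset.sum_subset (subset_univ Fl) (fun q _ hq => by simp [hz, hq])]
        rw [← Finset.sum_coe_sort Fl]
        refine Finset.sum_congr rfl fun q _ => ?_
        simp [hz, mul_comm]
      have hzag : ∀ a, ∑ o, z a o = 0 := by
        intro a
        by_cases ha : a ∈ Ag
        · have h1 := hy (Sum.inr ⟨a, ha⟩)
          have h2 := hzsum (fun a' _ => if a' = a then 1 else 0)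
          simp only [Sum.elim_inr] at h1
          rw [h1] at h2
          simpa using h2
        · refine Finset.sum_eq_zero fun o _ => ?_
          have : (a, o) ∉ Fl := fun h => ha (mem_image_of_mem _ h)
          simp [hz, this]
      have hzneg : ∃ q : A × O, z q.1 q.2 < 0 := by
        by_contra hcon
        push Not at hcon
        apply hy0
        funext q
        have h1 := (Finset.sum_eq_zero_iff_of_nonneg (fun o _ => hcon (q.1.1, o))).1
          (hzag q.1.1) q.1.2 (mem_univ _)
        simpa [hz] using h1
      set Ng := univ.filter (fun q : A × O => z q.1 q.2 < 0) with hNg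
      have hNe : Ng.Nonempty := by
        obtain ⟨q, hq⟩ := hzneg
        exact ⟨q, by simp [hNg, hq]⟩
      obtain ⟨q0, hq0, hmin⟩ := Finset.exists_min_image Ng (fun q => x q.1 q.2 / (-z q.1 q.2)) hNe
      have hq0' : z q0.1 q0.2 < 0 := (mem_filter.1 hq0).2
      set t := x q0.1 q0.2 / (-z q0.1 q0.2) with ht
      have ht0 : 0 ≤ t := div_nonneg (hx _ _) (by linarith)
      have hzx : ∀ a o, z a o ≠ 0 → 0 < x a o := by
        intro a o h
        have : (a, o) ∈ Fl := by
          by_contra hn
          simp [hz, hn] at h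
        exact (mem_filter.1 this).2.1
      set x' : A → O → ℝ := fun a o => x a o + t * z a o with hx'
      have hx'0 : ∀ a o, 0 ≤ x' a o := by
        intro a o
        by_cases h : z a o < 0
        · have h1 := hmin (a, o) (by simp [hNg, h])
          simp only at h1
          rw [le_div_iff₀ (by linarith)] at h1
          simp only [hx']; linarith
        · have := mul_nonneg ht0 (not_lt.1 h)
          simp only [hx']; linarith [hx a o]
      have hx's : ∀ a, ∑ o, x' a o = 1 := by
        intro a
        simp only [hx', Finset.sum_add_distrib, ← Finset.mul_sum, hs a, hzag a]; ring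
      have hsupp : ∀ a o, 0 < x' a o → 0 < x a o := by
        intro a o h
        by_cases hz0 : z a o = 0
        · simpa [hx', hz0] using h
        · exact hzx a o hz0
      have hcard' : (univ.filter fun q : A × O => 0 < x' q.1 q.2).card ≤ N := by
        have hss : (univ.filter fun q : A × O => 0 < x' q.1 q.2) ⊂
            (univ.filter fun q : A × O => 0 < x q.1 q.2) := by
          rw [Finset.ssubset_iff_of_subset (fun q hq => by
            simp only [mem_filter, mem_univ, true_and] at hq ⊢; exact hsupp _ _ hq)]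
          refine ⟨q0, by simp [hzx _ _ hq0'.ne], ?_⟩
          have : x' q0.1 q0.2 = 0 := by
            simp only [hx', ht]
            field_simp [hq0'.ne]
            ring
          simp [this]
        have := card_lt_card hss
        omega
      obtain ⟨ch, hch, herr⟩ := ih x' hx'0 hx's hcard'
      refine ⟨ch, fun a => hsupp _ _ (hch a), fun i hi => ?_⟩
      by_cases hb : i ∈ Big
      · have h1 := hy (Sum.inl ⟨i, hb⟩)
        simp only [Sum.elim_inl] at h1
        have h2 := hzsum (c i)
        rw [h1] at h2
        have h3 : ∑ a, ∑ o, x' a o * c i a o = ∑ a, ∑ o, x a o * c i a o := by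
          simp only [hx', add_mul, Finset.sum_add_distrib, mul_assoc, ← Finset.mul_sum, h2]
          ring
        rw [← h3]
        exact herr i hi
      · refine (small x hx hs ch (fun a => hsupp _ _ (hch a)) i hi).trans ?_
        by_contra hcon
        exact hb (mem_filter.2 ⟨hi, not_le.1 hcon⟩)

/-- Uniform version, rows given as a multiset of (coefficients, weight). -/
theorem bf_uniform {n : ℕ} (hn : 0 < n) (rows : Multiset ((Fin n → Fin n → ℝ) × ℝ))
    (hpos : ∀ ρ ∈ rows, 0 < ρ.2 ∧ ∀ a o, 0 ≤ ρ.1 a o)
    (hcol : ∀ a o, (rows.map fun ρ => ρ.1 a o / ρ.2).sum ≤ 1 / 2) :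
    ∃ ch : Fin n → Fin n, ∀ ρ ∈ rows,
      |∑ a, ρ.1 a (ch a) - (∑ a, ∑ o, ρ.1 a o) / n| ≤ ρ.2 := by
  classical
  have hn' : (0 : ℝ) < n := by exact_mod_cast hn
  obtain ⟨ch, -, h⟩ := bf_general (A := Fin n) (O := Fin n) rows.toFinset (fun ρ => ρ.1)
    (fun ρ => ρ.2) (fun ρ hρ => (hpos ρ (Multiset.mem_toFinset.1 hρ)).2)
    (fun ρ hρ => (hpos ρ (Multiset.mem_toFinset.1 hρ)).1)
    (fun a o => by
      refine le_trans ?_ (hcol a o)
      rw [Finset.sum_multiset_map_count]
      refine Finset.sum_le_sum fun ρ hρ => ?_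
      have h1 := hpos ρ (Multiset.mem_toFinset.1 hρ)
      have h2 : 1 ≤ rows.count ρ := Multiset.one_le_count_iff_mem.2 (Multiset.mem_toFinset.1 hρ)
      have h3 : (1 : ℝ) ≤ rows.count ρ := by exact_mod_cast h2
      have h4 : 0 ≤ ρ.1 a o / ρ.2 := div_nonneg (h1.2 a o) h1.1.le
      rw [nsmul_eq_mul]
      nlinarith)
    _ (fun _ _ => 1 / n) (fun _ _ => by positivity) (fun _ => by simp; field_simp) le_rfl
  refine ⟨ch, fun ρ hρ => ?_⟩
  have := h ρ (Multiset.mem_toFinset.2 hρ)
  convert this using 3
  rw [Finset.sum_div]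
  refine Finset.sum_congr rfl fun a _ => ?_
  rw [Finset.sum_div]
  refine Finset.sum_congr rfl fun o _ => by ring

end Pool.Agent.Lib.MP_5049a2_lc
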