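import Pool.Agent.Lib.MP_5049a2_lc.Hall

/-! Levels, breakpoints, slack and dust shares of an ordered instance. -/

namespace Pool.Agent.Lib.MP_5049a2_lc

open Finset

namespace Inst

variable {n : ℕ} (I : Inst n) (r : ℕ)

noncomputable def tau (a : Fin n) (h : ℕ) : ℕ :=
  ((range I.m).filter fun p => (h : ℝ) ≤ (r : ℝ) ^ 2 * I.w a p).card
noncomputable def lev (a : Fin n) (p : ℕ) : ℕ := ⌊(r : ℝ) ^ 2 * I.w a p⌋₊
noncomputable def T (a : Fin n) : ℕ := I.tau r a r
noncomputable def bigs (a j : Fin n) : Finset ℕ := (range (I.T r a)).filter fun p => I.bun a p = j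
noncomputable def pat (a j : Fin n) : Multiset ℕ := (I.bigs r a j).val.map (I.lev r a)
noncomputable def Ub (a' a j : Fin n) (t : ℕ) : ℕ :=
  ((I.bigs r a j).filter fun p => I.tau r a' (I.lev r a p) ≤ t).card
noncomputable def Brk (a : Fin n) : Finset ℕ := insert 0 ((Icc r (r ^ 2)).image (I.tau r a))
noncomputable def prev (a : Fin n) (t : ℕ) : ℕ := ((I.Brk r a).filter (· ≤ t)).sup id
noncomputable def d (a : Fin n) (t : ℕ) : ℕ := t - I.prev r a t
noncomputable def S (t : ℕ) : ℝ := (∑ a, (I.d r a t : ℝ)) / n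
noncomputable def V (a : Fin n) : ℝ := ∑ p ∈ Ico (I.T r a) I.m, I.w a p
noncomputable def sd (a j : Fin n) : ℝ :=
  ∑ p ∈ (Ico (I.T r a) I.m).filter (fun p => I.bun a p = j), I.w a p
noncomputable def sig (a j : Fin n) : ℝ :=
  if 1 / (r : ℝ) < I.sd r a j then (1 - 1 / r) * I.sd r a j / I.V r a else 0
noncomputable def off (a' a j : Fin n) (t : ℕ) : ℕ :=
  I.Ub r a' a j t + ⌊I.sig r a j * ((t - I.T r a' : ℕ) : ℝ)⌋₊

lemma lt_tau (a : Fin n) (h p : ℕ) :
    p < I.tau r a h ↔ p < I.m ∧ (h : ℝ) ≤ (r : ℝ) ^ 2 * I.w a p := by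
  have hdown : ∀ p q, p ≤ q → (h : ℝ) ≤ (r : ℝ) ^ 2 * I.w a q → (h : ℝ) ≤ (r : ℝ) ^ 2 * I.w a p :=
    fun p q hpq hq => hq.trans (mul_le_mul_of_nonneg_left (I.anti a hpq) (by positivity))
  constructor
  · intro hp
    by_contra hcon
    have hsub : ((range I.m).filter fun p => (h : ℝ) ≤ (r : ℝ) ^ 2 * I.w a p) ⊆ range p := by
      intro q hq
      obtain ⟨h1, h2⟩ := mem_filter.1 hq
      rw [mem_range] at h1 ⊢
      by_contra hqp
      exact hcon ⟨by omega, hdown p q (by omega) h2⟩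
    have := card_le_card hsub
    rw [card_range] at this
    unfold tau at hp
    omega
  · rintro ⟨h1, h2⟩
    have hsub : range (p + 1) ⊆
        ((range I.m).filter fun p => (h : ℝ) ≤ (r : ℝ) ^ 2 * I.w a p) := by
      intro q hq
      rw [mem_range] at hq
      exact mem_filter.2 ⟨mem_range.2 (by omega), hdown q p (by omega) h2⟩
    have := card_le_card hsub
    rw [card_range] at this
    exact this

lemma tau_le_m (a : Fin n) (h : ℕ) : I.tau r a h ≤ I.m := by
  unfold tau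
  exact (card_filter_le _ _).trans (card_range _).le

lemma tau_anti (a : Fin n) {h h' : ℕ} (hh : h ≤ h') : I.tau r a h' ≤ I.tau r a h := by
  by_contra hcon
  have h1 := (I.lt_tau r a h' (I.tau r a h)).1 (by omega)
  have h2 := (I.lt_tau r a h (I.tau r a h)).2 ⟨h1.1, le_trans (by exact_mod_cast hh) h1.2⟩
  omega

lemma w_le_one (a : Fin n) (p : ℕ) : I.w a p ≤ 1 := by
  by_cases hp : p < I.m
  · rw [← I.sum_one a (I.bun a p)]
    exact Finset.single_le_sum (f := I.w a) (fun q _ => I.nonneg a q) (by simp [hp])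
  · rw [I.zero a p (by omega)]; exact zero_le_one

lemma total (a : Fin n) : ∑ p ∈ range I.m, I.w a p = n := by
  rw [← Finset.sum_fiberwise_of_maps_to (s := range I.m) (t := univ) (g := I.bun a)
    (fun _ _ => mem_univ _)]
  simp [I.sum_one]

lemma lt_tau_lev (a : Fin n) {p : ℕ} (hp : p < I.m) : p < I.tau r a (I.lev r a p) :=
  (I.lt_tau r a _ p).2 ⟨hp, Nat.floor_le (mul_nonneg (by positivity) (I.nonneg a p))⟩

lemma le_lev (a : Fin n) {h p : ℕ} (hp : p < I.tau r a h) : h ≤ I.lev r a p :=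
  Nat.le_floor ((I.lt_tau r a h p).1 hp).2

lemma lev_le (a : Fin n) (p : ℕ) : I.lev r a p ≤ r ^ 2 := by
  have : (r : ℝ) ^ 2 * I.w a p ≤ ((r ^ 2 : ℕ) : ℝ) := by
    push_cast
    exact mul_le_of_le_one_right (by positivity) (I.w_le_one a p)
  have := Nat.floor_le_floor this
  rwa [Nat.floor_natCast] at this

lemma T_le_m (a : Fin n) : I.T r a ≤ I.m := I.tau_le_m r a r

lemma big_w {r : ℕ} (hr : 0 < r) (a : Fin n) {p : ℕ} (hp : p < I.T r a) : 1 / (r : ℝ) ≤ I.w a p := by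
  have h := ((I.lt_tau r a r p).1 hp).2
  have hr' : (0 : ℝ) < r := by exact_mod_cast hr
  rw [div_le_iff₀ hr']
  nlinarith

lemma w_T {r : ℕ} (hr : 0 < r) (a : Fin n) : I.w a (I.T r a) ≤ 1 / (r : ℝ) := by
  have hr' : (0 : ℝ) < r := by exact_mod_cast hr
  by_cases hp : I.T r a < I.m
  · have h := (I.lt_tau r a r (I.T r a)).not.1 (lt_irrefl _)
    push Not at h
    have := h hp
    rw [le_div_iff₀ hr']
    nlinarith
  · rw [I.zero a _ (by omega)]; positivity

lemma T_le {r : ℕ} (hr : 0 < r) (a : Fin n) : I.T r a ≤ r * n := by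
  have hr' : (0 : ℝ) < r := by exact_mod_cast hr
  have h1 : ∑ p ∈ range (I.T r a), (1 / (r : ℝ)) ≤ ∑ p ∈ range (I.T r a), I.w a p :=
    Finset.sum_le_sum fun p hp => I.big_w hr a (mem_range.1 hp)
  have h2 : ∑ p ∈ range (I.T r a), I.w a p ≤ ∑ p ∈ range I.m, I.w a p :=
    Finset.sum_le_sum_of_subset_of_nonneg (range_subset_range.2 (I.T_le_m r a))
      fun p _ _ => I.nonneg a p
  rw [I.total] at h2
  simp only [sum_const, card_range, nsmul_eq_mul] at h1
  have h3 : (I.T r a : ℝ) ≤ r * n := by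
    have : (I.T r a : ℝ) * (1 / r) ≤ n := h1.trans h2
    rw [mul_one_div, div_le_iff₀ hr'] at this
    linarith
  exact_mod_cast h3

lemma bigs_add_sd (a j : Fin n) : ∑ p ∈ I.bigs r a j, I.w a p + I.sd r a j = 1 := by
  rw [← I.sum_one a j]
  unfold bigs sd
  simp only [Finset.sum_filter]
  rw [range_eq_Ico, range_eq_Ico, Finset.sum_Ico_consecutive _ (Nat.zero_le _) (I.T_le_m r a)]

lemma sd_nonneg (a j : Fin n) : 0 ≤ I.sd r a j := Finset.sum_nonneg fun p _ => I.nonneg a p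

lemma sd_le_one (a j : Fin n) : I.sd r a j ≤ 1 := by
  have := I.bigs_add_sd r a j
  have h2 : 0 ≤ ∑ p ∈ I.bigs r a j, I.w a p := Finset.sum_nonneg fun p _ => I.nonneg a p
  linarith

lemma card_bigs {r : ℕ} (hr : 0 < r) (a j : Fin n) : (I.bigs r a j).card ≤ r := by
  have hr' : (0 : ℝ) < r := by exact_mod_cast hr
  have h1 : ∑ p ∈ I.bigs r a j, (1 / (r : ℝ)) ≤ ∑ p ∈ I.bigs r a j, I.w a p :=
    Finset.sum_le_sum fun p hp => I.big_w hr a (mem_range.1 (mem_filter.1 hp).1)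
  have h2 := I.bigs_add_sd r a j
  have h3 := I.sd_nonneg r a j
  simp only [sum_const, nsmul_eq_mul] at h1
  have h4 : ((I.bigs r a j).card : ℝ) * (1 / r) ≤ 1 := by linarith
  rw [mul_one_div, div_le_iff₀ hr', one_mul] at h4
  exact_mod_cast h4

lemma Ub_le {r : ℕ} (hr : 0 < r) (a' a j : Fin n) (t : ℕ) : I.Ub r a' a j t ≤ r :=
  (card_filter_le _ _).trans (I.card_bigs hr a j)

lemma Ub_mono (a' a j : Fin n) : Monotone (I.Ub r a' a j) := by
  intro s t hst
  exact card_le_card fun p hp => mem_filter.2 ⟨(mem_filter.1 hp).1, (mem_filter.1 hp).2.trans hst⟩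

lemma Ub_eq_countP (a' a j : Fin n) (t : ℕ) :
    I.Ub r a' a j t = (I.pat r a j).countP fun h => I.tau r a' h ≤ t := by
  unfold Ub pat
  rw [Multiset.countP_map]
  rfl

lemma card_Brk {r : ℕ} (hr : 0 < r) (a : Fin n) : (I.Brk r a).card ≤ r ^ 2 + 1 := by
  unfold Brk
  refine (card_insert_le _ _).trans ?_
  have := card_image_le (s := Icc r (r ^ 2)) (f := I.tau r a)
  rw [Nat.card_Icc] at this
  omega

lemma tau_lev_mem (a' a : Fin n) {p : ℕ} (hp : p < I.T r a) :
    I.tau r a' (I.lev r a p) ∈ I.Brk r a' :=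
  mem_insert_of_mem (mem_image_of_mem _ (mem_Icc.2 ⟨I.le_lev r a hp, I.lev_le r a p⟩))

lemma le_prev (a : Fin n) {β t : ℕ} (hβ : β ∈ I.Brk r a) (ht : β ≤ t) : β ≤ I.prev r a t :=
  Finset.le_sup (f := id) (mem_filter.2 ⟨hβ, ht⟩)

lemma prev_spec (a : Fin n) (t : ℕ) : I.prev r a t ∈ I.Brk r a ∧ I.prev r a t ≤ t := by
  have hne : ((I.Brk r a).filter (· ≤ t)).Nonempty :=
    ⟨0, mem_filter.2 ⟨mem_insert_self _ _, Nat.zero_le _⟩⟩
  obtain ⟨b, hb, he⟩ := Finset.exists_mem_eq_sup _ hne id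
  unfold prev
  rw [he]
  exact mem_filter.1 hb

lemma prev_mono (a : Fin n) : Monotone (I.prev r a) := fun s _ hst =>
  I.le_prev r a (I.prev_spec r a s).1 ((I.prev_spec r a s).2.trans hst)

lemma Brk_le_T (a : Fin n) {β : ℕ} (hβ : β ∈ I.Brk r a) : β ≤ I.T r a := by
  rcases mem_insert.1 hβ with rfl | h
  · exact Nat.zero_le _
  · obtain ⟨h, hh, rfl⟩ := mem_image.1 h
    exact I.tau_anti r a (mem_Icc.1 hh).1

lemma prev_le_T (a : Fin n) (t : ℕ) : I.prev r a t ≤ I.T r a := I.Brk_le_T r a (I.prev_spec r a t).1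

lemma tau_lev_le (a : Fin n) {p t : ℕ} (hp : p < I.prev r a t) : I.tau r a (I.lev r a p) ≤ t := by
  obtain ⟨h1, h2⟩ := I.prev_spec r a t
  rcases mem_insert.1 h1 with h | h
  · omega
  · obtain ⟨h, -, he⟩ := mem_image.1 h
    rw [← he] at hp h2
    exact (I.tau_anti r a (I.le_lev r a hp)).trans h2

lemma sum_Ub (a : Fin n) (t : ℕ) : ∑ j, I.Ub r a a j t = I.prev r a t := by
  have h1 : ((range (I.T r a)).filter fun p => I.tau r a (I.lev r a p) ≤ t) =
      range (I.prev r a t) := by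
    ext p
    simp only [mem_filter, mem_range]
    constructor
    · rintro ⟨h1, h2⟩
      exact (I.lt_tau_lev r a (h1.trans_le (I.T_le_m r a))).trans_le
        (I.le_prev r a (I.tau_lev_mem r a a h1) h2)
    · intro h
      exact ⟨h.trans_le (I.prev_le_T r a t), I.tau_lev_le r a h⟩
  rw [← card_range (I.prev r a t), ← h1,
    card_eq_sum_card_fiberwise (f := I.bun a) (t := univ) (fun _ _ => mem_univ _)]
  refine Finset.sum_congr rfl fun j _ => ?_
  unfold Ub bigs
  rw [filter_comm]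

lemma d_cast (a : Fin n) (t : ℕ) : (I.d r a t : ℝ) = t - I.prev r a t := by
  unfold d; rw [Nat.cast_sub (I.prev_spec r a t).2]

lemma sub_T_le_d (a : Fin n) (t : ℕ) : t - I.T r a ≤ I.d r a t := by
  have := I.prev_le_T r a t
  unfold d; omega

lemma S_nonneg (t : ℕ) : 0 ≤ I.S r t := by unfold S; positivity

lemma S_zero : I.S r 0 = 0 := by simp [S, d]

lemma sum_d (hn : 0 < n) (t : ℕ) : ∑ a, (I.d r a t : ℝ) = n * I.S r t := by
  have : (0 : ℝ) < n := by exact_mod_cast hn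
  unfold S; field_simp

lemma sum_prev (hn : 0 < n) (t : ℕ) : (∑ a, (I.prev r a t : ℝ)) / n = t - I.S r t := by
  have hn' : (0 : ℝ) < n := by exact_mod_cast hn
  have := I.sum_d r hn t
  simp only [d_cast, Finset.sum_sub_distrib, sum_const, card_univ, Fintype.card_fin,
    nsmul_eq_mul] at this
  field_simp
  linarith

lemma S_add_le (hn : 0 < n) {s t : ℕ} (hst : s ≤ t) : I.S r t ≤ I.S r s + (t - s) := by
  have hn' : (0 : ℝ) < n := by exact_mod_cast hn
  have h1 := I.sum_prev r hn s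
  have h2 := I.sum_prev r hn t
  have h3 : (∑ a, (I.prev r a s : ℝ)) / n ≤ (∑ a, (I.prev r a t : ℝ)) / n := by
    gcongr with a
    exact I.prev_mono r a hst
  linarith

lemma S_le (hn : 0 < n) (t : ℕ) : I.S r t ≤ t := by
  have := I.S_add_le r hn (Nat.zero_le t)
  simpa [S_zero] using this

lemma le_S {r : ℕ} (hr : 0 < r) (hn : 0 < n) (t : ℕ) : (t : ℝ) - r * n ≤ I.S r t := by
  have hn' : (0 : ℝ) < n := by exact_mod_cast hn
  have h1 := I.sum_prev r hn t
  have h2 : (∑ a, (I.prev r a t : ℝ)) ≤ ∑ _a : Fin n, (r * n : ℝ) :=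
    Finset.sum_le_sum fun a _ => by
      exact_mod_cast (I.prev_le_T r a t).trans (I.T_le hr a)
  simp only [sum_const, card_univ, Fintype.card_fin, nsmul_eq_mul] at h2
  have h3 : (∑ a, (I.prev r a t : ℝ)) / n ≤ r * n := by
    rw [div_le_iff₀ hn']; linarith
  linarith

/-- Markov's inequality for the gaps. -/
lemma markov (hn : 0 < n) (t : ℕ) {l : ℝ} (hl : 0 < l) :
    ((univ.filter fun a => l * I.S r t < I.d r a t).card : ℝ) ≤ n / l := by
  have hn' : (0 : ℝ) < n := by exact_mod_cast hn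
  set B := univ.filter fun a => l * I.S r t < I.d r a t with hB
  have h1 : ∑ a ∈ B, l * I.S r t ≤ ∑ a ∈ B, (I.d r a t : ℝ) :=
    Finset.sum_le_sum fun a ha => (mem_filter.1 ha).2.le
  have h2 : ∑ a ∈ B, (I.d r a t : ℝ) ≤ ∑ a, (I.d r a t : ℝ) :=
    Finset.sum_le_sum_of_subset_of_nonneg (subset_univ _) fun _ _ _ => by positivity
  rw [I.sum_d r hn] at h2
  simp only [sum_const, nsmul_eq_mul] at h1
  rcases (I.S_nonneg r t).eq_or_lt with h0 | h0
  · have : B = ∅ := by
      rw [hB, filter_eq_empty_iff]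
      intro a _
      have h3 : (I.d r a t : ℝ) ≤ ∑ a, (I.d r a t : ℝ) :=
        Finset.single_le_sum (f := fun a => (I.d r a t : ℝ)) (fun _ _ => by positivity) (mem_univ a)
      rw [I.sum_d r hn, ← h0] at h3
      rw [← h0]
      simpa using h3
    rw [this]; simp; positivity
  · rw [le_div_iff₀ hl]
    nlinarith

lemma sum_sd (a : Fin n) : ∑ j, I.sd r a j = I.V r a := by
  unfold sd V
  exact Finset.sum_fiberwise_of_maps_to (fun _ _ => mem_univ _) _

lemma V_nonneg (a : Fin n) : 0 ≤ I.V r a := Finset.sum_nonneg fun p _ => I.nonneg a p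

lemma sd_le_V (a j : Fin n) : I.sd r a j ≤ I.V r a := by
  rw [← I.sum_sd r a]
  exact Finset.single_le_sum (f := I.sd r a) (fun j _ => I.sd_nonneg r a j) (mem_univ j)

lemma one_sub_nonneg {r : ℕ} (hr : 0 < r) : (0 : ℝ) ≤ 1 - 1 / r := by
  have : (1 : ℝ) ≤ r := by exact_mod_cast hr
  have : 1 / (r : ℝ) ≤ 1 := by rw [div_le_one (by linarith)]; exact this
  linarith

lemma sig_nonneg {r : ℕ} (hr : 0 < r) (a j : Fin n) : 0 ≤ I.sig r a j := by
  unfold sig
  split_ifs
  · exact div_nonneg (mul_nonneg (one_sub_nonneg hr) (I.sd_nonneg r a j)) (I.V_nonneg r a)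
  · exact le_rfl

lemma sum_sig {r : ℕ} (hr : 0 < r) (a : Fin n) : ∑ j, I.sig r a j ≤ 1 - 1 / r := by
  have h1 : ∑ j, I.sig r a j ≤ ∑ j, (1 - 1 / r) * I.sd r a j / I.V r a := by
    refine Finset.sum_le_sum fun j _ => ?_
    unfold sig
    split_ifs
    · exact le_rfl
    · exact div_nonneg (mul_nonneg (one_sub_nonneg hr) (I.sd_nonneg r a j)) (I.V_nonneg r a)
  rw [← Finset.sum_div, ← Finset.mul_sum, I.sum_sd, mul_div_assoc] at h1
  exact h1.trans (mul_le_of_le_one_right (one_sub_nonneg hr) (div_self_le_one _))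

lemma sig_le {r : ℕ} (hr : 0 < r) (a j : Fin n) {E : ℝ} (hE : 0 < E) (hV : E ≤ I.V r a) :
    I.sig r a j ≤ 1 / E := by
  unfold sig
  split_ifs
  · have h1 : (1 - 1 / r) * I.sd r a j ≤ 1 := by
      have := I.sd_le_one r a j
      have := I.sd_nonneg r a j
      have : (0 : ℝ) ≤ 1 / r := by positivity
      nlinarith
    exact div_le_div₀ zero_le_one h1 hE hV
  · positivity

lemma card_sig_pos {r : ℕ} (hr : 0 < r) (a : Fin n) :
    ((univ.filter fun j => 0 < I.sig r a j).card : ℝ) ≤ r * I.V r a := by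
  have hr' : (0 : ℝ) < r := by exact_mod_cast hr
  have h1 : ∑ j ∈ univ.filter (fun j => 0 < I.sig r a j), (1 / (r : ℝ)) ≤
      ∑ j ∈ univ.filter (fun j => 0 < I.sig r a j), I.sd r a j := by
    refine Finset.sum_le_sum fun j hj => ?_
    have := (mem_filter.1 hj).2
    by_contra hcon
    unfold sig at this
    rw [if_neg (by linarith)] at this
    exact lt_irrefl _ this
  have h2 : ∑ j ∈ univ.filter (fun j => 0 < I.sig r a j), I.sd r a j ≤ ∑ j, I.sd r a j :=
    Finset.sum_le_sum_of_subset_of_nonneg (subset_univ _) fun j _ _ => I.sd_nonneg r a j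
  rw [I.sum_sd] at h2
  simp only [sum_const, nsmul_eq_mul] at h1
  have : _ * (1 / (r : ℝ)) ≤ I.V r a := h1.trans h2
  rw [mul_one_div, div_le_iff₀ hr'] at this
  linarith

/-- Markov's inequality for the shares. -/
lemma card_sig_big {r : ℕ} (hr : 0 < r) (a : Fin n) {x y : ℝ} (hx : 0 ≤ x) (hy : 0 < y) :
    ((univ.filter fun j => y ≤ I.sig r a j * x).card : ℝ) ≤ x / y := by
  have h1 : ∑ j ∈ univ.filter (fun j => y ≤ I.sig r a j * x), y ≤
      ∑ j ∈ univ.filter (fun j => y ≤ I.sig r a j * x), I.sig r a j * x :=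
    Finset.sum_le_sum fun j hj => (mem_filter.1 hj).2
  have h2 : ∑ j ∈ univ.filter (fun j => y ≤ I.sig r a j * x), I.sig r a j * x ≤
      ∑ j, I.sig r a j * x :=
    Finset.sum_le_sum_of_subset_of_nonneg (subset_univ _) fun j _ _ =>
      mul_nonneg (I.sig_nonneg hr a j) hx
  rw [← Finset.sum_mul univ] at h2
  have h3 := I.sum_sig hr a
  have h4 : (0 : ℝ) ≤ 1 / r := by positivity
  simp only [sum_const, nsmul_eq_mul] at h1
  rw [le_div_iff₀ hy]
  nlinarith

lemma off_mono {r : ℕ} (hr : 0 < r) (a' a j : Fin n) : Monotone (I.off r a' a j) := by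
  intro s t hst
  unfold off
  refine add_le_add (I.Ub_mono r a' a j hst) (Nat.floor_le_floor ?_)
  refine mul_le_mul_of_nonneg_left ?_ (I.sig_nonneg hr a j)
  exact_mod_cast Nat.sub_le_sub_right hst _

lemma val_off {r : ℕ} (hr : 0 < r) (a' a j : Fin n) (hV : I.V r a ≤ I.V r a')
    (hpos : ∀ p < I.T r a, 0 < I.tau r a' (I.lev r a p)) :
    1 - 3 / (r : ℝ) ≤ Val I.m (I.w a') (I.off r a' a j) := by
  have hr' : (0 : ℝ) < r := by exact_mod_cast hr
  unfold off
  rw [Val_add]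
  have h1 : Val I.m (I.w a') (I.Ub r a' a j) =
      ∑ p ∈ I.bigs r a j, I.w a' (I.tau r a' (I.lev r a p) - 1) :=
    Val_steps I.m (I.w a') (I.bigs r a j) (fun p => I.tau r a' (I.lev r a p)) fun p hp =>
      ⟨hpos p (mem_range.1 (mem_filter.1 hp).1), I.tau_le_m r a' _⟩
  have h2 : ∑ p ∈ I.bigs r a j, (I.w a p - 1 / (r : ℝ) ^ 2) ≤
      ∑ p ∈ I.bigs r a j, I.w a' (I.tau r a' (I.lev r a p) - 1) := by
    refine Finset.sum_le_sum fun p hp => ?_
    have h3 := hpos p (mem_range.1 (mem_filter.1 hp).1)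
    have h4 := ((I.lt_tau r a' (I.lev r a p) (I.tau r a' (I.lev r a p) - 1)).1 (by omega)).2
    have h5 : (r : ℝ) ^ 2 * I.w a p < I.lev r a p + 1 := Nat.lt_floor_add_one _
    have h6 : (0 : ℝ) < (r : ℝ) ^ 2 := by positivity
    rw [sub_le_iff_le_add, ← mul_le_mul_iff_right₀ h6, mul_add, mul_one_div_cancel h6.ne']
    linarith
  have h3 : ((I.bigs r a j).card : ℝ) ≤ r := by exact_mod_cast I.card_bigs hr a j
  rw [Finset.sum_sub_distrib, sum_const, nsmul_eq_mul] at h2
  have h4 : ((I.bigs r a j).card : ℝ) * (1 / (r : ℝ) ^ 2) ≤ 1 / r := by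
    calc _ ≤ (r : ℝ) * (1 / (r : ℝ) ^ 2) := by gcongr
      _ = 1 / r := by field_simp
  have h5 := I.bigs_add_sd r a j
  have h6 := Val_dust I.m (I.w a') (I.anti a') (I.nonneg a') (I.sig r a j) (I.T r a')
    (I.T_le_m r a')
  have h7 := I.w_T hr a'
  have h8 : I.sd r a j - 1 / r ≤ I.sig r a j * I.V r a' := by
    refine le_trans ?_ (mul_le_mul_of_nonneg_left hV (I.sig_nonneg hr a j))
    unfold sig
    split_ifs with h
    · have h9 : 0 < I.V r a := lt_of_lt_of_le (lt_trans (by positivity) h) (I.sd_le_V r a j)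
      rw [div_mul_cancel₀ _ h9.ne']
      have := I.sd_le_one r a j
      have : (0 : ℝ) ≤ 1 / r := by positivity
      nlinarith
    · linarith
  have h9 : (3 : ℝ) / r = 1 / r + 1 / r + 1 / r := by ring
  unfold V at h8
  linarith

/-- The finite set of possible patterns. -/
def Pats (r : ℕ) : Finset (Multiset ℕ) := (r • Multiset.range (r ^ 2 + 1)).powerset.toFinset

lemma pat_mem {r : ℕ} (hr : 0 < r) (a j : Fin n) : I.pat r a j ∈ Pats r := by
  unfold Pats
  rw [Multiset.mem_toFinset, Multiset.mem_powerset, Multiset.le_iff_count]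
  intro h
  by_cases hh : h ∈ I.pat r a j
  · obtain ⟨p, -, rfl⟩ := Multiset.mem_map.1 hh
    rw [Multiset.count_nsmul, Multiset.count_eq_one_of_mem (Multiset.nodup_range _)
      (Multiset.mem_range.2 (Nat.lt_succ_of_le (I.lev_le r a p))), mul_one]
    refine (Multiset.count_le_card _ _).trans ?_
    unfold pat
    rw [Multiset.card_map]
    exact I.card_bigs hr a j
  · rw [Multiset.count_eq_zero_of_notMem hh]; exact Nat.zero_le _

end Inst

end Pool.Agent.Lib.MP_5049a2_lc
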