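import Mathlib

/-! A proximity lemma obtained from Dickson's lemma. -/

namespace Pool.Agent.Lib.MP_5049a2_lc

open Finset

/-- Choose a subset with prescribed fibre counts. -/
lemma exists_sub_fibres {ι σ : Type*} [Fintype ι] [DecidableEq ι] [Fintype σ] [DecidableEq σ]
    (τ : ι → σ) (k : σ → ℕ) (hk : ∀ s, k s ≤ (univ.filter fun i => τ i = s).card) :
    ∃ A : Finset ι, (∀ s, (A.filter fun i => τ i = s).card = k s) := by
  classical
  have : ∀ s, ∃ B : Finset ι, B ⊆ univ.filter (fun i => τ i = s) ∧ B.card = k s :=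
    fun s => Finset.exists_subset_card_eq (hk s)
  choose B hB hBc using this
  refine ⟨univ.biUnion B, fun s => ?_⟩
  rw [← hBc s]
  congr 1
  ext i
  simp only [mem_filter, mem_biUnion, mem_univ, true_and]
  constructor
  · rintro ⟨⟨s', hs'⟩, rfl⟩
    have := (mem_filter.1 (hB s' hs')).2
    rw [this]; exact hs'
  · intro h
    exact ⟨⟨s, h⟩, (mem_filter.1 (hB s h)).2⟩

lemma sum_by_fibres {ι σ : Type*} [Fintype σ] [DecidableEq σ] (A : Finset ι) (τ : ι → σ)
    (φ : σ → ℕ) : ∑ i ∈ A, φ (τ i) = ∑ s, (A.filter fun i => τ i = s).card * φ s := by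
  classical
  rw [← Finset.sum_fiberwise_of_maps_to (s := A) (t := univ) (g := τ) (fun _ _ => mem_univ _)]
  refine Finset.sum_congr rfl fun s _ => ?_
  rw [Finset.sum_congr rfl (g := fun _ => φ s) (fun i hi => by rw [(mem_filter.1 hi).2])]
  simp

/-- The statement of the proximity lemma for a given size bound `F`. -/
def ProxProp (q R D B F : ℕ) : Prop :=
  ∀ (n : ℕ) (u u0 : Fin n → Fin q → ℕ) (cap : Fin q → ℕ) (Bad : Finset (Fin n)),
    (∀ a t, u a t ≤ R) → (∀ a t, u0 a t ≤ R) → (∀ t, ∑ j, u0 j t ≤ cap t) →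
    (∀ t, ∑ a, u a t ≤ cap t + D) → Bad.card ≤ B →
    ∃ A' J' : Finset (Fin n), Bad ⊆ A' ∧ A'.card = J'.card ∧ A'.card ≤ F ∧
      ∀ t, ∑ a ∈ A'ᶜ, u a t + ∑ j ∈ J', u0 j t ≤ cap t

theorem prox (q R D B : ℕ) : ∃ F, ProxProp q R D B F := by
  classical
  by_contra hcon
  push Not at hcon
  simp only [ProxProp, not_forall] at hcon
  choose n u u0 cap Bad hu hu0 hc0 hc hB hno using hcon
  let σ := Fin q → Fin (R + 1)
  let ty : ∀ F, Fin (n F) → σ × Bool := fun F a =>
    (fun t => ⟨u F a t, Nat.lt_succ_of_le (hu F a t)⟩, decide (a ∈ Bad F))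
  let ty0 : ∀ F, Fin (n F) → σ := fun F a => fun t => ⟨u0 F a t, Nat.lt_succ_of_le (hu0 F a t)⟩
  let α : ℕ → σ × Bool → ℕ := fun F s => (univ.filter fun a => ty F a = s).card
  let β : ℕ → σ → ℕ := fun F s => (univ.filter fun a => ty0 F a = s).card
  let φ : ℕ → (σ × Bool → ℕ) × (σ → ℕ) × (σ → ℕ) × (Fin q → ℕ) × (Fin q → ℕ) := fun F =>
    (α F, β F, fun s => B - α F (s, true), fun t => ∑ j, u0 F j t - ∑ a, u F a t,
      fun t => D - (∑ a, u F a t - cap F t))
  obtain ⟨g, hg⟩ := (wellQuasiOrdered_le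
    (α := (σ × Bool → ℕ) × (σ → ℕ) × (σ → ℕ) × (Fin q → ℕ) × (Fin q → ℕ))).exists_monotone_subseq φ
  set k1 := g 0 with hk1
  set k := g (n k1) with hk
  have hle : φ k1 ≤ φ k := hg 0 (n k1) (Nat.zero_le _)
  have hnk : n k1 ≤ k := g.strictMono.le_apply
  obtain ⟨h1, h2, h3, h4, h5⟩ := hle
  obtain ⟨A', hA'⟩ := exists_sub_fibres (ty k) (α k1) (fun s => h1 s)
  obtain ⟨J', hJ'⟩ := exists_sub_fibres (ty0 k) (β k1) (fun s => h2 s)
  have hAc : A'.card = n k1 := by
    have e1 := sum_by_fibres A' (ty k) (fun _ => 1)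
    have e2 := sum_by_fibres univ (ty k1) (fun _ => 1)
    simp only [hA'] at e1
    simp only [sum_const, smul_eq_mul, mul_one, card_univ, Fintype.card_fin] at e1 e2
    rw [e1, e2]
  have hJc : J'.card = n k1 := by
    have e1 := sum_by_fibres J' (ty0 k) (fun _ => 1)
    have e2 := sum_by_fibres univ (ty0 k1) (fun _ => 1)
    simp only [hJ'] at e1
    simp only [sum_const, smul_eq_mul, mul_one, card_univ, Fintype.card_fin] at e1 e2
    rw [e1, e2]
  have hαB : ∀ F s, α F (s, true) ≤ B := by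
    intro F s
    refine le_trans (card_le_card fun a ha => ?_) (hB F)
    have := (mem_filter.1 ha).2
    have h := congrArg Prod.snd this
    simpa [ty] using h
  apply hno k
  refine ⟨A', J', fun a ha => ?_, by rw [hAc, hJc], by rw [hAc]; exact hnk, fun t => ?_⟩
  · have hs : ty k a = ((ty k a).1, true) := by simp [ty, ha]
    have e1 : α k1 ((ty k a).1, true) ≤ α k ((ty k a).1, true) := h1 _
    have e3 : B - α k1 ((ty k a).1, true) ≤ B - α k ((ty k a).1, true) := h3 _
    have e4 := hαB k1 (ty k a).1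
    have e5 := hαB k (ty k a).1
    have e6 : (A'.filter fun i => ty k i = ((ty k a).1, true)) =
        univ.filter fun i => ty k i = ((ty k a).1, true) := by
      apply Finset.eq_of_subset_of_card_le (filter_subset_filter _ (subset_univ _))
      rw [hA']
      show α k _ ≤ _
      omega
    have : a ∈ univ.filter fun i => ty k i = ((ty k a).1, true) := mem_filter.2 ⟨mem_univ _, hs⟩
    rw [← e6] at this
    exact (mem_filter.1 this).1
  · have e1 : ∑ a ∈ A', u k a t = ∑ a, u k1 a t := by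
      have f1 := sum_by_fibres A' (ty k) (fun s => (s.1 t : ℕ))
      have f2 := sum_by_fibres univ (ty k1) (fun s => (s.1 t : ℕ))
      simp only [hA'] at f1
      exact f1.trans f2.symm
    have e2 : ∑ a ∈ J', u0 k a t = ∑ a, u0 k1 a t := by
      have f1 := sum_by_fibres J' (ty0 k) (fun s => (s t : ℕ))
      have f2 := sum_by_fibres univ (ty0 k1) (fun s => (s t : ℕ))
      simp only [hJ'] at f1
      exact f1.trans f2.symm
    have e3 : ∑ a ∈ A', u k a t + ∑ a ∈ A'ᶜ, u k a t = ∑ a, u k a t :=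
      Finset.sum_add_sum_compl _ _
    have e4 : ∑ j, u0 k1 j t - ∑ a, u k1 a t ≤ ∑ j, u0 k j t - ∑ a, u k a t := h4 t
    have e5 : D - (∑ a, u k1 a t - cap k1 t) ≤ D - (∑ a, u k a t - cap k t) := h5 t
    have e6 := hc0 k t
    have e7 := hc0 k1 t
    have e8 := hc k t
    have e9 := hc k1 t
    omega

end Pool.Agent.Lib.MP_5049a2_lc
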