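import Pool.Agent.Lib.MP_5049a2_lc.Estimate
import Pool.Agent.Lib.MP_5049a2_lc.Prox

/-! Assembly of the allocation at a good pair of scales. -/

namespace Pool.Agent.Lib.MP_5049a2_lc

open Finset

namespace Inst

variable {n : ℕ} {I : Inst n} {r : ℕ} {Sel : Finset ℕ}

lemma off_own_le (hr : 0 < r) {c E th : ℕ} {a j : Fin n} (h : ¬ I.forb r Sel c E th a j) (t : ℕ) :
    (I.off r a a j t : ℝ) ≤ I.Ub r a a j t + I.sg r Sel c E th a j * ((t - I.T r a : ℕ) : ℝ) := by
  unfold off sg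
  rw [if_neg h]
  push_cast
  have := Nat.floor_le (mul_nonneg (I.sig_nonneg hr a j) (Nat.cast_nonneg (α := ℝ) (t - I.T r a)))
  linarith

lemma off_le (hr : 0 < r) (a' a j : Fin n) (t : ℕ) :
    (I.off r a' a j t : ℝ) ≤ I.Ub r a' a j t + I.sig r a j * ((t - I.T r a' : ℕ) : ℝ) := by
  unfold off
  push_cast
  have := Nat.floor_le (mul_nonneg (I.sig_nonneg hr a j) (Nat.cast_nonneg (α := ℝ) (t - I.T r a')))
  linarith

lemma off_own_eq (hr : 0 < r) {c E th : ℕ} {a j : Fin n} (h : ¬ I.forb r Sel c E th a j) {t : ℕ}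
    (ht : t ≤ th) : I.off r a a j t = I.Ub r a a j t := by
  unfold off
  have h1 : I.sig r a j * ((th - I.T r a : ℕ) : ℝ) < 1 := by
    by_contra hcon
    exact h (Or.inr (Or.inl (not_lt.1 hcon)))
  have h2 : I.sig r a j * ((t - I.T r a : ℕ) : ℝ) ≤ I.sig r a j * ((th - I.T r a : ℕ) : ℝ) :=
    mul_le_mul_of_nonneg_left (Nat.cast_le.2 (by omega)) (I.sig_nonneg hr a j)
  rw [Nat.floor_eq_zero.2 (h2.trans_lt h1), add_zero]

lemma sum_off_le (hr : 0 < r) (a : Fin n) (t : ℕ) : ∑ j, I.off r a a j t ≤ t := by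
  have h1 : ∑ j, (I.off r a a j t : ℝ) ≤
      ∑ j, ((I.Ub r a a j t : ℝ) + I.sig r a j * ((t - I.T r a : ℕ) : ℝ)) :=
    Finset.sum_le_sum fun j _ => off_le hr a a j t
  rw [Finset.sum_add_distrib, ← Finset.sum_mul] at h1
  have h2 : ∑ j, (I.Ub r a a j t : ℝ) = I.prev r a t := by exact_mod_cast I.sum_Ub r a t
  have h3 := I.sum_sig hr a
  have h4 : ((t - I.T r a : ℕ) : ℝ) ≤ I.d r a t := Nat.cast_le.2 (I.sub_T_le_d r a t)
  rw [d_cast] at h4
  have h5 : (0 : ℝ) ≤ 1 / r := by positivity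
  have h6 : (∑ j, I.sig r a j) * ((t - I.T r a : ℕ) : ℝ) ≤ ((t - I.T r a : ℕ) : ℝ) :=
    mul_le_of_le_one_left (by positivity) (by linarith)
  have h7 : ∑ j, (I.off r a a j t : ℝ) ≤ t := by linarith
  exact_mod_cast h7

lemma Group.Ub_eq {E X th w0 X' Φ : ℕ} {W : Finset ℕ} {T0 : Finset (Fin n)} {a0 : Fin n}
    {τ : ℕ} (hG : I.Group r Sel E X th w0 X' Φ W T0 a0 τ) {a : Fin n} (ha : a ∈ T0) (j : Fin n)
    {t : ℕ} (ht : t ∈ W) : I.Ub r a a0 j t = I.Ub r a0 a0 j t := by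
  unfold Ub
  congr 1
  exact filter_congr fun p _ => hG.tau a ha _ (I.lev_le r a0 p) t ht

lemma mimU_le_Ub (a0 j : Fin n) {t : ℕ} (h : ∀ p ∈ I.mim r a0 j, p ∉ Ico (I.prev r a0 t) t) :
    I.mimU r a0 j t ≤ I.Ub r a0 a0 j t := by
  refine card_le_card fun p hp => ?_
  obtain ⟨h1, h2⟩ := mem_filter.1 hp
  have h3 := h p h1
  rw [mem_Ico] at h3
  have h4 : p < I.prev r a0 t := by omega
  have h5 := I.prev_le_T r a0 t
  rcases I.mem_mim r h1 with h6 | h6
  · exact mem_filter.2 ⟨h6, I.tau_lev_le r a0 h4⟩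
  · omega

open Classical in
theorem core (I : Inst n) (hS : I.IsSel r Sel) (hr : 0 < r) {E E' X k0 w0 X' B F : ℕ}
    (hE : 28 * (64 * r) * (64 * r + 1) ≤ E)
    (hk0 : 56 * r * (r ^ 2 + 1) * (8 * (64 * r) + 1) ≤ 2 ^ k0)
    (hE' : 4 * E + 2 * (64 * r * 2 ^ k0) + 12 * r * (5 * E + 28 * r * (r ^ 2 + 1)) ≤ E')
    (hw0 : 2 * (r ^ 2 + 1) * (2 * E' + 1) ≤ w0)
    (hX' : 16 * r * w0 * (E + E') ≤ X')
    (hB : r * E + (E + E') + 56 * (r ^ 2 + 1) ^ 2 * (64 * r) + 14 ≤ B)
    (hF : ProxProp w0 (r + X') (14 * r * w0) B F)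
    (hX1 : 5 * E ≤ X) (hX2 : 64 * r * 2 ^ k0 ≤ X) (hX3 : 48 * r ^ 2 * F ≤ X)
    (hn : 0 < n) (hn1 : 12 * r * F ≤ n)
    (hn2 : 16 * r * (2 ^ (w0 * (r ^ 2 + 1)) * (X' + 1) * 2 ^ (Pats r).card) *
      ((2 * r * (r + 2) * (Pats r).card) * (2 * F + 14)) ≤ n)
    (hn3 : 2 * r * (r + 2) * (2 * (r ^ 2 + 1) * (2 * (4 * X + 1) + 1) + w0 * (16 * r * w0 * X)) < n)
    (hsc : 16 * r * ((univ.filter (I.unclean r Sel E X)).card +
      (univ.filter (I.mid r E X)).card) ≤ n) :
    I.Solv (1 - 3 / r) := by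
  have hn' : (0 : ℝ) < n := by exact_mod_cast hn
  have hr' : (0 : ℝ) < r := by exact_mod_cast hr
  have hr1 : (1 : ℝ) ≤ r := by exact_mod_cast hr
  have hE0 : 0 < E := lt_of_lt_of_le (by positivity) hE
  have hX0 : 0 < X := by omega
  have hw00 : 0 < w0 := lt_of_lt_of_le (by positivity) hw0
  set W := I.W r Sel E E' X with hW
  have hW0 : 0 ∈ W := hS.zero_mem_W hE0 hX0
  have hWc : W.card ≤ w0 := (hS.card_W E E' X).trans hw0
  set th := W.max' ⟨0, hW0⟩ with hth
  have hthW : th ∈ W := W.max'_mem _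
  have hle_th : ∀ t ∈ W, t ≤ th := fun t ht => W.le_max' t ht
  have hSth : I.S r th ≤ E + E' := hS.S_max_W hn (by omega) hthW hle_th
  have hX'' : 16 * r * w0 * I.S r th ≤ X' := by
    have : (16 * r * w0 * (E + E') : ℝ) ≤ X' := by exact_mod_cast hX'
    refine le_trans ?_ this
    gcongr
  set Φ := 2 * r * (r + 2) * (Pats r).card with hΦ
  obtain ⟨T0, a0, τ, hG⟩ := I.exists_group Sel hr hn Φ W hWc hw00 hthW hX'' hsc
  obtain ⟨ch, hR⟩ := I.exists_rounded Sel hr hn hS (c := 64 * r) th (by omega) hE hk0 W hWc hw00 T0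
  set Bad := univ.filter fun a => I.forb r Sel (64 * r) E th a (ch a) with hBad
  have hBc : Bad.card ≤ B := by
    have h1 := hR.bad
    have h2 : ((r * E + (E + E') + 56 * (r ^ 2 + 1) ^ 2 * (64 * r) + 14 : ℕ) : ℝ) ≤ B :=
      Nat.cast_le.2 hB
    push_cast at h1 h2
    have : (Bad.card : ℝ) ≤ B := by linarith
    exact_mod_cast this
  obtain ⟨e, he1, he2⟩ := exists_enum W hW0 hWc
  obtain ⟨A, J, hBA, hAJ, hAF, hcap⟩ := hF n (fun a i => I.Ub r a a (ch a) (e i))
    (fun j i => I.off r a0 a0 j (e i)) e Bad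
    (fun a i => (I.Ub_le hr _ _ _ _).trans (Nat.le_add_right _ _))
    (fun j i => by
      have h1 := off_le (I := I) hr a0 a0 j (e i)
      have h2 : (I.Ub r a0 a0 j (e i) : ℝ) ≤ r := by exact_mod_cast I.Ub_le hr _ _ _ _
      have h3 : I.sig r a0 j ≤ 1 := by
        have := Finset.single_le_sum (f := I.sig r a0) (fun j _ => I.sig_nonneg hr a0 j)
          (mem_univ j)
        have h4 := I.sum_sig hr a0
        have : (0 : ℝ) ≤ 1 / r := by positivity
        linarith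
      have h4 : ((e i - I.T r a0 : ℕ) : ℝ) ≤ I.d r a0 th := by
        have := hle_th _ (he1 i)
        have := I.sub_T_le_d r a0 th
        exact Nat.cast_le.2 (by omega)
      have h5 := hG.gap a0 hG.mem th hthW
      have h6 : I.sig r a0 j * ((e i - I.T r a0 : ℕ) : ℝ) ≤ ((e i - I.T r a0 : ℕ) : ℝ) :=
        mul_le_of_le_one_left (by positivity) h3
      have : (I.off r a0 a0 j (e i) : ℝ) ≤ r + X' := by linarith
      exact_mod_cast this)
    (fun i => sum_off_le hr a0 (e i)) (fun i => hR.onW _ (he1 i)) hBc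
  have hcap' : ∀ t ∈ W, ∑ a ∈ Aᶜ, I.Ub r a a (ch a) t + ∑ j ∈ J, I.off r a0 a0 j t ≤ t := by
    intro t ht
    obtain ⟨i, rfl⟩ := he2 t ht
    exact hcap i
  have hnf : ∀ a, a ∉ A → ¬ I.forb r Sel (64 * r) E th a (ch a) := fun a ha h =>
    ha (hBA (mem_filter.2 ⟨mem_univ _, h⟩))
  -- the bundles liked by the discarded agents
  set Z := ((range I.m).filter fun p => I.inN r Sel X (p + 1) ∧ ¬ I.inN r Sel E (p + 1)) ∪
    W.biUnion fun t => Ico (I.prev r a0 t) t with hZ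
  have hZc : Z.card ≤ 2 * (r ^ 2 + 1) * (2 * (4 * X + 1) + 1) + w0 * (16 * r * w0 * X) := by
    refine (card_union_le _ _).trans (add_le_add ?_ (card_biUnion_le.trans ?_))
    · refine (card_near Sel (4 * X + 1) _ fun p hp => ?_).trans (Nat.mul_le_mul_right _ hS.card)
      obtain ⟨g, hg, -, h1, h2⟩ := (mem_filter.1 hp).2.1
      exact ⟨g, hg, by omega, by omega⟩
    · calc _ ≤ ∑ _t ∈ W, 16 * r * w0 * X := Finset.sum_le_sum fun t ht => by
            rw [Nat.card_Ico]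
            have h1 := hG.gap a0 hG.mem t ht
            have h2 := ((I.mem_W r Sel).1 ht).2.1
            have h3 : (I.d r a0 t : ℝ) ≤ 16 * r * w0 * X := h1.trans (by gcongr)
            exact_mod_cast h3
        _ = W.card * (16 * r * w0 * X) := by simp
        _ ≤ _ := Nat.mul_le_mul_right _ hWc
  have hmim := fun b => I.exists_mimic hr b a0 Z
    (lt_of_le_of_lt (Nat.mul_le_mul_left _ hZc) hn3)
  choose jm hjm1 hjm2 hjm3 using hmim
  -- holders
  have hPat0 : 0 < (Pats r).card := card_pos.2 ⟨_, I.pat_mem hr a0 a0⟩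
  have hΦ0 : (0 : ℝ) < Φ := by
    have : 0 < Φ := by positivity
    exact_mod_cast this
  have hT0 : Φ * (2 * F + 14) ≤ T0.card :=
    Nat.le_of_mul_le_mul_left (hn2.trans hG.big) (by positivity)
  have : Nonempty (Fin n) := ⟨a0⟩
  obtain ⟨f, hfi, hf⟩ := exists_injOn_choice A
    (fun b => (T0.filter fun a => I.pat r a (ch a) = I.pat r a0 (jm b)) \ A) (fun b _ => by
      have h1 := hR.pats _ (I.pat_mem hr a0 (jm b))
      have h2 : ∑ _a ∈ T0, (n : ℝ) / Φ ≤
          ∑ a ∈ T0, ((univ.filter fun j => I.pat r a j = I.pat r a0 (jm b)).card : ℝ) :=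
        Finset.sum_le_sum fun a ha => by
          have := hG.fr a ha _ (I.pat_mem hr a0 (jm b)) (hjm2 b)
          unfold freq at this
          rw [div_le_iff₀ hΦ0, mul_comm]
          exact_mod_cast this
      rw [sum_const, nsmul_eq_mul] at h2
      have h3 : (Φ * (2 * F + 14) : ℝ) ≤ T0.card := by exact_mod_cast hT0
      have h4 : (2 * F + 14 : ℝ) ≤ (T0.card * (n / Φ)) / n := by
        rw [show (T0.card * (n / Φ) : ℝ) / n = T0.card / Φ by field_simp, le_div_iff₀ hΦ0]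
        linarith
      have h5 : (T0.card * (n / Φ) : ℝ) / n ≤
          (∑ a ∈ T0, ((univ.filter fun j => I.pat r a j = I.pat r a0 (jm b)).card : ℝ)) / n := by
        gcongr
      have h6 : (2 * F : ℝ) ≤ (T0.filter fun a => I.pat r a (ch a) = I.pat r a0 (jm b)).card := by
        linarith
      have h7 : 2 * F ≤ (T0.filter fun a => I.pat r a (ch a) = I.pat r a0 (jm b)).card := by
        exact_mod_cast h6
      have h8 := card_le_card_sdiff_add_card
        (s := T0.filter fun a => I.pat r a (ch a) = I.pat r a0 (jm b)) (t := A)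
      omega)
  obtain ⟨g, hgi, hg⟩ := exists_injOn_choice A (fun _ => J) (fun _ _ => hAJ.le)
  have hfT : ∀ b ∈ A, f b ∈ T0 := fun b hb => (mem_filter.1 (mem_sdiff.1 (hf b hb)).1).1
  have hfp : ∀ b ∈ A, I.pat r (f b) (ch (f b)) = I.pat r a0 (jm b) := fun b hb =>
    (mem_filter.1 (mem_sdiff.1 (hf b hb)).1).2
  have hfA : ∀ b ∈ A, f b ∉ A := fun b hb => (mem_sdiff.1 (hf b hb)).2
  obtain ⟨U, hU, hUs⟩ := exists_split A f hfi hfA (fun b => I.mimU r a0 (jm b))
    (fun b => I.off r (f b) a0 (g b)) (fun a => I.off r a a (ch a))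
  set Rst := (A ∪ A.image f)ᶜ with hRst
  have hRA : ∀ a ∈ Rst, a ∉ A := fun a ha h => (mem_compl.1 ha) (mem_union_left _ h)
  have hdis : Disjoint (A.image f) Rst := by
    rw [Finset.disjoint_left]
    intro a ha h
    exact (mem_compl.1 h) (mem_union_right _ ha)
  have hsub : A.image f ∪ Rst ⊆ Aᶜ := by
    intro a ha
    rw [mem_compl]
    rcases mem_union.1 ha with h | h
    · obtain ⟨b, hb, rfl⟩ := mem_image.1 h
      exact hfA b hb
    · exact hRA a h
  -- exact positions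
  have hexact : ∀ t ∈ W, ∑ a, U a t ≤ t := by
    intro t ht
    have e1 : ∑ b ∈ A, I.mimU r a0 (jm b) t ≤ ∑ a ∈ A.image f, I.Ub r a a (ch a) t := by
      rw [Finset.sum_image hfi]
      refine Finset.sum_le_sum fun b hb => ?_
      rw [I.Ub_eq_countP r (f b) (f b), hfp b hb, ← I.Ub_eq_countP, hG.Ub_eq (hfT b hb) _ ht]
      exact mimU_le_Ub a0 (jm b) fun p hp h =>
        hjm3 b p hp (mem_union_right _ (mem_biUnion.2 ⟨t, ht, h⟩))
    have e2 : ∑ b ∈ A, I.off r (f b) a0 (g b) t ≤ ∑ j ∈ J, I.off r a0 a0 j t := by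
      calc _ = ∑ b ∈ A, I.off r a0 a0 (g b) t := Finset.sum_congr rfl fun b hb => by
            unfold off
            have h1 := hG.start _ (hfT b hb)
            have h2 := hle_th t ht
            rw [hG.Ub_eq (hfT b hb) _ ht, show t - I.T r (f b) = t - I.T r a0 by omega]
        _ = ∑ j ∈ A.image g, I.off r a0 a0 j t := 
            (Finset.sum_image (f := fun j => I.off r a0 a0 j t) hgi).symm
        _ ≤ _ := Finset.sum_le_sum_of_subset fun j hj => by
            obtain ⟨b, hb, rfl⟩ := mem_image.1 hj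
            exact hg b hb
    have e3 : ∑ a ∈ Rst, I.off r a a (ch a) t = ∑ a ∈ Rst, I.Ub r a a (ch a) t :=
      Finset.sum_congr rfl fun a ha => off_own_eq hr (hnf a (hRA a ha)) (hle_th t ht)
    have e4 : ∑ a ∈ A.image f, I.Ub r a a (ch a) t + ∑ a ∈ Rst, I.Ub r a a (ch a) t ≤
        ∑ a ∈ Aᶜ, I.Ub r a a (ch a) t := by
      rw [← Finset.sum_union hdis]
      exact Finset.sum_le_sum_of_subset hsub
    have e5 := hcap' t ht
    rw [hUs t]
    omega
  have hdust := hG.dust_total hr (64 * r) hfT hgi hAF hX0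
    (le_trans (Nat.mul_le_mul_right _ (Nat.mul_le_mul_right _ (by norm_num))) hX3)
  have hphi := fun t ht hSt => phi_bound hS hr hn hR hdust (t := t) ht hSt
  have hown : ∀ t, ∑ a ∈ Rst, (I.off r a a (ch a) t : ℝ) ≤
      ∑ a ∈ Rst, (I.Ub r a a (ch a) t : ℝ) + I.Dust r Sel (64 * r) E th ch t := by
    intro t
    refine (Finset.sum_le_sum fun a ha => off_own_le hr (hnf a (hRA a ha)) t).trans ?_
    rw [Finset.sum_add_distrib]
    gcongr
    exact Finset.sum_le_sum_of_subset_of_nonneg (subset_univ _) fun a _ _ =>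
      mul_nonneg (I.sg_nonneg Sel hr _ _ _ _ _) (by positivity)
  have hhold : ∀ t, ∑ b ∈ A, (I.off r (f b) a0 (g b) t : ℝ) ≤
      ∑ b ∈ A, (I.Ub r (f b) a0 (g b) t : ℝ) + I.Ex r a0 A f g t := by
    intro t
    refine (Finset.sum_le_sum fun b _ => off_le hr (f b) a0 (g b) t).trans ?_
    rw [Finset.sum_add_distrib]
    rfl
  have hUs' : ∀ t, ((∑ a, U a t : ℕ) : ℝ) = ∑ b ∈ A, (I.mimU r a0 (jm b) t : ℝ) +
      ∑ b ∈ A, (I.off r (f b) a0 (g b) t : ℝ) + ∑ a ∈ Rst, (I.off r a a (ch a) t : ℝ) := by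
    intro t
    rw [hUs t]; push_cast; rfl
  have hBB : ∀ t, (I.BB r ch t : ℝ) = ∑ a, (I.Ub r a a (ch a) t : ℝ) := fun t => by
    unfold BB; push_cast; rfl
  have hAF' : (A.card : ℝ) ≤ F := by exact_mod_cast hAF
  refine ⟨U, fun a => ?_, fun t ht => ?_, fun a => ?_⟩
  · rcases hU a with ⟨-, h⟩ | ⟨b, -, -, h⟩ | ⟨-, h⟩ <;> rw [h]
    · exact I.mimU_mono r _ _
    · exact I.off_mono hr _ _ _
    · exact I.off_mono hr _ _ _
  · by_cases htW : t ∈ W
    · exact hexact t htW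
    have goal : ((∑ a, U a t : ℕ) : ℝ) ≤ t → ∑ a, U a t ≤ t := fun h => by exact_mod_cast h
    apply goal
    by_cases htX : I.S r t < X
    · -- annulus
      obtain ⟨h1, g', hg', h2, h3, h4, h5⟩ := hS.annulus hn (E := E) (E' := E') (X := X)
        (by
          have : 16 * (univ.filter (I.unclean r Sel E X)).card ≤ n :=
            le_trans (Nat.mul_le_mul (by omega) (Nat.le_add_right _ _)) hsc
          omega) (by omega) hX1 ht htX htW
      set t1 := g' + 4 * E with ht1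
      have hE'' : ((4 * E + 2 * (64 * r * 2 ^ k0) + 12 * r * (5 * E + 28 * r * (r ^ 2 + 1)) : ℕ) :
        ℝ) ≤ E' := Nat.cast_le.2 hE'
      have p1 : (0 : ℝ) ≤ ((64 * r * 2 ^ k0 : ℕ) : ℝ) := by positivity
      have p2 : (0 : ℝ) ≤ 12 * r * (5 * E + 28 * r * (r ^ 2 + 1)) := by positivity
      rw [Nat.cast_add, Nat.cast_add, Nat.cast_mul 2] at hE''
      generalize ((64 * r * 2 ^ k0 : ℕ) : ℝ) = S0 at hE'' p1 hphi
      push_cast at hE''
      have e0 := hphi t ht (by linarith)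
      have e1 : 5 * E + 28 * r * (r ^ 2 + 1) ≤ I.S r t / (6 * r) := by
        rw [le_div_iff₀ (by positivity)]; linarith
      have e2 := hR.base g' hg'
      have e3 : ((∑ a, U a t1 : ℕ) : ℝ) ≤ t1 := by exact_mod_cast hexact t1 h2
      have e4 : ∑ b ∈ A, (I.mimU r a0 (jm b) t : ℝ) = ∑ b ∈ A, (I.mimU r a0 (jm b) t1 : ℝ) := by
        refine Finset.sum_congr rfl fun b _ => ?_
        unfold mimU
        congr 2
        refine filter_congr fun p hp => ⟨fun h => ?_, fun h => h.trans h3⟩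
        by_contra hcon
        exact hjm3 b p hp (mem_union_left _ (mem_filter.2
          ⟨(mem_filter.1 hp).1, h5 (p + 1) (by omega) h⟩))
      have e5 : ∑ b ∈ A, (I.Ub r (f b) a0 (g b) t : ℝ) ≤
          ∑ b ∈ A, (I.off r (f b) a0 (g b) t1 : ℝ) := by
        refine Finset.sum_le_sum fun b hb => Nat.cast_le.2 (le_trans (le_of_eq ?_)
          (Nat.le_add_right _ _))
        unfold Ub
        congr 1
        refine filter_congr fun p hp => ⟨fun h => ?_, fun h => h.trans h3⟩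
        by_contra hcon
        exact hG.clean _ (hfT b hb) ⟨_, I.tau_lev_mem r (f b) a0
          (mem_range.1 (mem_filter.1 hp).1), h5 _ (by omega) h⟩
      have e6 : ∑ a ∈ Rst, (I.Ub r a a (ch a) t1 : ℝ) ≤ ∑ a ∈ Rst, (I.off r a a (ch a) t1 : ℝ) :=
        Finset.sum_le_sum fun a _ => Nat.cast_le.2 (Nat.le_add_right _ _)
      have e7 : ∑ a ∈ Rst, ((I.Ub r a a (ch a) t : ℝ) - I.Ub r a a (ch a) t1) ≤
          ∑ a, ((I.Ub r a a (ch a) t : ℝ) - I.Ub r a a (ch a) t1) :=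
        Finset.sum_le_sum_of_subset_of_nonneg (subset_univ _) fun a _ _ =>
          sub_nonneg.2 (Nat.cast_le.2 (I.Ub_mono r a a (ch a) h3))
      rw [Finset.sum_sub_distrib, Finset.sum_sub_distrib, ← hBB, ← hBB] at e7
      rw [hUs'] at e3 ⊢
      linarith [hown t, hhold t]
    · -- far positions
      rw [not_lt] at htX
      have e0 := hphi t ht (le_trans (Nat.cast_le.2 hX2) htX)
      have e1 : ∑ b ∈ A, (I.mimU r a0 (jm b) t : ℝ) ≤ F * (r + 1 + t / n) := by
        calc _ ≤ ∑ _b ∈ A, (r + 1 + t / n : ℝ) := Finset.sum_le_sum fun b _ => I.mimU_le hr _ _ _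
          _ = A.card * (r + 1 + t / n) := by rw [sum_const, nsmul_eq_mul]
          _ ≤ _ := by gcongr
      have e2 : ∑ b ∈ A, (I.Ub r (f b) a0 (g b) t : ℝ) ≤ F * r := by
        calc _ ≤ ∑ _b ∈ A, (r : ℝ) :=
              Finset.sum_le_sum fun b _ => Nat.cast_le.2 (I.Ub_le hr _ _ _ _)
          _ = A.card * r := by simp
          _ ≤ _ := by gcongr
      have e3 : ∑ a ∈ Rst, (I.Ub r a a (ch a) t : ℝ) ≤ I.BB r ch t := by
        rw [hBB]
        exact Finset.sum_le_sum_of_subset_of_nonneg (subset_univ _) fun a _ _ => by positivity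
      have e4 : (t : ℝ) / n ≤ r + I.S r t / n := by
        have := I.le_S hr hn t
        rw [div_le_iff₀ hn', add_mul, div_mul_cancel₀ _ hn'.ne']
        linarith
      have e5 : F * (I.S r t / n) ≤ I.S r t / (12 * r) := by
        have : (12 * r * F : ℝ) ≤ n := by exact_mod_cast hn1
        rw [← mul_div_assoc, div_le_div_iff₀ hn' (by positivity)]
        nlinarith [I.S_nonneg r t]
      have e6 : F * (3 * r + 1) ≤ I.S r t / (12 * r) := by
        have : (48 * r ^ 2 * F : ℝ) ≤ X := by exact_mod_cast hX3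
        rw [le_div_iff₀ (by positivity)]
        have h0 : (0 : ℝ) ≤ F := by positivity
        nlinarith [mul_nonneg (mul_nonneg h0 hr'.le) (sub_nonneg.2 hr1)]
      have e7 : I.S r t / (6 * r) = I.S r t / (12 * r) + I.S r t / (12 * r) := by ring
      have e8 : (F : ℝ) * (r + 1 + t / n) ≤ F * (r + 1 + (r + I.S r t / n)) := by gcongr
      rw [hUs']
      linarith [hown t, hhold t]
  · rcases hU a with ⟨-, h⟩ | ⟨b, hb, rfl, h⟩ | ⟨-, h⟩ <;> rw [h]
    · rw [I.val_mimU]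
      refine le_trans ?_ (hjm1 a)
      have : (1 : ℝ) / r ≤ 3 / r := by gcongr; norm_num
      linarith
    · refine I.val_off hr _ _ _ (hG.dust _ (hfT b hb)) fun p hp => ?_
      have h1 := hG.tau _ (hfT b hb) _ (I.lev_le r a0 p) 0 hW0
      have h2 := I.lt_tau_lev r a0 (hp.trans_le (I.T_le_m r a0))
      omega
    · refine I.val_off hr _ _ _ le_rfl fun p hp => ?_
      have h2 := I.lt_tau_lev r a (hp.trans_le (I.T_le_m r a))
      omega

end Inst

end Pool.Agent.Lib.MP_5049a2_lc
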