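import Pool.Agent.Lib.MP_5049a2_lc.Group

/-! Every agent likes some typical bundle of a fixed agent (with small items spread evenly). -/

namespace Pool.Agent.Lib.MP_5049a2_lc

open Finset

lemma card_mod_le {n : ℕ} (hn : 0 < n) (j : Fin n) (t : ℕ) :
    (((range t).filter fun p => p % n = j).card : ℝ) ≤ t / n + 1 := by
  have h1 : ((range t).filter fun p => p % n = j).card = t.count (· ≡ j [MOD n]) := by
    rw [Nat.count_eq_card_filter_range]
    congr 1
    ext p
    simp [Nat.ModEq, Nat.mod_eq_of_lt j.2]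
  rw [h1, Nat.count_modEq_card _ hn]
  have h2 : ((t / n : ℕ) : ℝ) ≤ t / n := Nat.cast_div_le
  push_cast
  split_ifs <;> simp <;> linarith

namespace Inst

variable {n : ℕ} (I : Inst n) (r : ℕ)

noncomputable def mb (a0 : Fin n) (p : ℕ) : Fin n :=
  if p < I.T r a0 then I.bun a0 p else ⟨p % n, Nat.mod_lt _ a0.pos⟩

noncomputable def mim (a0 j : Fin n) : Finset ℕ := (range I.m).filter fun p => I.mb r a0 p = j

noncomputable def mimU (a0 j : Fin n) (t : ℕ) : ℕ := ((I.mim r a0 j).filter fun p => p + 1 ≤ t).card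

lemma mimU_mono (a0 j : Fin n) : Monotone (I.mimU r a0 j) := by
  intro s t hst
  exact card_le_card fun p hp => mem_filter.2 ⟨(mem_filter.1 hp).1, (mem_filter.1 hp).2.trans hst⟩

lemma val_mimU (b a0 j : Fin n) :
    Val I.m (I.w b) (I.mimU r a0 j) = ∑ p ∈ I.mim r a0 j, I.w b p :=
  Val_steps I.m (I.w b) (I.mim r a0 j) (fun p => p + 1) fun _ hp =>
    ⟨Nat.succ_pos _, mem_range.1 (mem_filter.1 hp).1⟩

lemma mem_mim {a0 j : Fin n} {p : ℕ} (hp : p ∈ I.mim r a0 j) :
    p ∈ I.bigs r a0 j ∨ (I.T r a0 ≤ p ∧ p % n = j) := by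
  have h := (mem_filter.1 hp).2
  unfold mb at h
  split_ifs at h with h1
  · exact Or.inl (mem_filter.2 ⟨mem_range.2 h1, h⟩)
  · exact Or.inr ⟨not_lt.1 h1, congrArg Fin.val h⟩

variable {r}

lemma mimU_le (hr : 0 < r) (a0 j : Fin n) (t : ℕ) : (I.mimU r a0 j t : ℝ) ≤ r + 1 + t / n := by
  have hsub : ((I.mim r a0 j).filter fun p => p + 1 ≤ t) ⊆
      I.bigs r a0 j ∪ (range t).filter fun p => p % n = j := by
    intro p hp
    obtain ⟨h1, h2⟩ := mem_filter.1 hp
    rcases I.mem_mim r h1 with h | h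
    · exact mem_union_left _ h
    · exact mem_union_right _ (mem_filter.2 ⟨mem_range.2 h2, h.2⟩)
  have h1 := (card_le_card hsub).trans ((card_union_le _ _).trans
    (Nat.add_le_add_right (I.card_bigs hr a0 j) _))
  have h2 := (Nat.cast_le (α := ℝ)).2 h1
  push_cast at h2
  have h3 := card_mod_le a0.pos j t
  unfold mimU
  linarith

lemma val_mim_le (hr : 0 < r) (b a0 j : Fin n) : ∑ p ∈ I.mim r a0 j, I.w b p ≤ r + 2 := by
  have hn' : (0 : ℝ) < n := by exact_mod_cast a0.pos
  have hsub : I.mim r a0 j ⊆ I.bigs r a0 j ∪ (range I.m).filter fun p => p % n = j := by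
    intro p hp
    rcases I.mem_mim r hp with h | h
    · exact mem_union_left _ h
    · exact mem_union_right _ (mem_filter.2 ⟨(mem_filter.1 hp).1, h.2⟩)
  have h1 := Finset.sum_le_sum_of_subset_of_nonneg (f := I.w b) hsub fun p _ _ => I.nonneg b p
  have h2 := Finset.sum_union_inter (f := I.w b) (s₁ := I.bigs r a0 j)
    (s₂ := (range I.m).filter fun p => p % n = j)
  have h3 : 0 ≤ ∑ p ∈ I.bigs r a0 j ∩ (range I.m).filter (fun p => p % n = j), I.w b p :=
    Finset.sum_nonneg fun p _ => I.nonneg b p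
  have h4 : ∑ p ∈ I.bigs r a0 j, I.w b p ≤ r := by
    calc _ ≤ ∑ _p ∈ I.bigs r a0 j, (1 : ℝ) := Finset.sum_le_sum fun p _ => I.w_le_one b p
      _ = (I.bigs r a0 j).card := by simp
      _ ≤ r := by exact_mod_cast I.card_bigs hr a0 j
  have h5 := abel_bound (I.w b)
    (fun t => (((range t).filter fun p => p % n = j).card : ℝ) - t / n) (I.anti b) (I.nonneg b) 0
    (by simp) (fun t => by linarith [card_mod_le a0.pos j t]) I.m (Nat.zero_le _)
  have h6 : ∑ p ∈ Ico 0 I.m, (((((range (p + 1)).filter fun p => p % n = j).card : ℝ) -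
      ((p + 1 : ℕ) : ℝ) / n) - ((((range p).filter fun p => p % n = j).card : ℝ) - p / n)) * I.w b p =
      ∑ p ∈ (range I.m).filter (fun p => p % n = j), I.w b p - (∑ p ∈ range I.m, I.w b p) / n := by
    rw [Finset.sum_filter, Finset.sum_div, ← Finset.sum_sub_distrib, range_eq_Ico]
    refine Finset.sum_congr rfl fun p _ => ?_
    rw [range_add_one, filter_insert]
    split_ifs with h
    · rw [card_insert_of_notMem (by simp)]; push_cast; ring
    · push_cast; ring
  rw [h6, I.total, div_self hn'.ne'] at h5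
  linarith [I.w_le_one b 0]

open Classical in
lemma exists_mimic (hr : 0 < r) (b a0 : Fin n) (Z : Finset ℕ) (hZ : 2 * r * (r + 2) * Z.card < n) :
    ∃ j, 1 - 1 / (r : ℝ) ≤ ∑ p ∈ I.mim r a0 j, I.w b p ∧
      I.freq r (2 * r * (r + 2) * (Pats r).card) a0 (I.pat r a0 j) ∧
      ∀ p ∈ I.mim r a0 j, p ∉ Z := by
  have hn' : (0 : ℝ) < n := by exact_mod_cast a0.pos
  have hr' : (0 : ℝ) < r := by exact_mod_cast hr
  set Φ := 2 * r * (r + 2) * (Pats r).card with hΦ
  by_contra hcon
  push Not at hcon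
  set B1 := univ.filter fun j => ¬ I.freq r Φ a0 (I.pat r a0 j) with hB1
  set B2 := Z.image (I.mb r a0) with hB2
  have h1 : ∑ j, ∑ p ∈ I.mim r a0 j, I.w b p = n := by
    rw [← I.total b]
    exact Finset.sum_fiberwise_of_maps_to (fun _ _ => mem_univ _) _
  have h2 : ∀ j, ∑ p ∈ I.mim r a0 j, I.w b p ≤
      (1 - 1 / r) + (if j ∈ B1 then (r + 2 : ℝ) else 0) + (if j ∈ B2 then (r + 2 : ℝ) else 0) := by
    intro j
    have h3 := I.val_mim_le hr b a0 j
    have h4 := one_sub_nonneg hr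
    by_cases e1 : j ∈ B1
    · rw [if_pos e1]; split_ifs <;> linarith
    · by_cases e2 : j ∈ B2
      · rw [if_neg e1, if_pos e2]; linarith
      · rw [if_neg e1, if_neg e2]
        by_contra h5
        obtain ⟨p, hp, hpZ⟩ := hcon j (by linarith) (by simpa [hB1] using e1)
        exact e2 (mem_image.2 ⟨p, hpZ, (mem_filter.1 hp).2⟩)
  have h3 := Finset.sum_le_sum (s := univ) fun j _ => h2 j
  rw [h1, Finset.sum_add_distrib, Finset.sum_add_distrib, ← Finset.sum_filter, ← Finset.sum_filter]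
    at h3
  simp only [sum_const, card_univ, Fintype.card_fin, nsmul_eq_mul, filter_mem_eq_inter,
    univ_inter] at h3
  have h4 : (2 * r * (r + 2) * B2.card : ℝ) < n := by
    have : 2 * r * (r + 2) * B2.card < n :=
      lt_of_le_of_lt (Nat.mul_le_mul_left _ card_image_le) hZ
    exact_mod_cast this
  have h5 : Φ * B1.card ≤ (Pats r).card * n := by
    rw [card_eq_sum_card_fiberwise (f := I.pat r a0) (t := Pats r)
      (fun j _ => I.pat_mem hr a0 j), Finset.mul_sum]
    calc _ ≤ ∑ _π ∈ Pats r, n := Finset.sum_le_sum fun π _ => ?_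
      _ = _ := by simp
    by_cases hf : I.freq r Φ a0 π
    · have : (B1.filter fun j => I.pat r a0 j = π) = ∅ := by
        rw [filter_eq_empty_iff]
        intro j hj h
        exact (mem_filter.1 hj).2 (h ▸ hf)
      rw [this]; simp
    · refine le_trans (Nat.mul_le_mul_left _ (card_le_card
        (filter_subset_filter _ (subset_univ _)))) (not_le.1 hf).le
  have h6 : 0 < (Pats r).card := card_pos.2 ⟨_, I.pat_mem hr a0 a0⟩
  have h7 : 2 * r * (r + 2) * B1.card ≤ n := by
    apply Nat.le_of_mul_le_mul_left _ h6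
    calc (Pats r).card * (2 * r * (r + 2) * B1.card) = Φ * B1.card := by rw [hΦ]; ring
      _ ≤ _ := h5
  have h8 : (2 * r * (r + 2) * B1.card : ℝ) ≤ n := by exact_mod_cast h7
  have h9 : (n : ℝ) * (1 / r) ≤ B1.card * (r + 2) + B2.card * (r + 2) := by linarith
  rw [mul_one_div, div_le_iff₀ hr'] at h9
  linarith

end Inst

end Pool.Agent.Lib.MP_5049a2_lc
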