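import Pool.Agent.Lib.MP_5049a2_lc.Round
import Pool.Agent.Lib.MP_5049a2_lc.Mimic

/-! The main slack estimate and some combinatorial helpers. -/

namespace Pool.Agent.Lib.MP_5049a2_lc

open Finset

lemma exists_injOn_choice {α β : Type*} [DecidableEq β] [Nonempty β] (A : Finset α)
    (t : α → Finset β) (h : ∀ b ∈ A, A.card ≤ (t b).card) :
    ∃ f : α → β, Set.InjOn f A ∧ ∀ b ∈ A, f b ∈ t b := by
  classical
  obtain ⟨f, hf, hft⟩ := (Finset.all_card_le_biUnion_card_iff_exists_injective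
    (fun b : A => t b.1)).1 (fun s => by
      rcases s.eq_empty_or_nonempty with rfl | ⟨b, hb⟩
      · simp
      · calc s.card ≤ A.card := by simpa using card_le_univ s
          _ ≤ (t b.1).card := h b.1 b.2
          _ ≤ _ := card_le_card (subset_biUnion_of_mem (fun b : A => t b.1) hb))
  refine ⟨fun a => if h : a ∈ A then f ⟨a, h⟩ else Classical.arbitrary β, fun x hx y hy hxy => ?_,
    fun b hb => by simp only [dif_pos hb]; exact hft ⟨b, hb⟩⟩
  have hx' : x ∈ A := hx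
  have hy' : y ∈ A := hy
  simp only [dif_pos hx', dif_pos hy'] at hxy
  exact congrArg Subtype.val (hf hxy)

lemma exists_enum (W : Finset ℕ) (h0 : 0 ∈ W) {q : ℕ} (hq : W.card ≤ q) :
    ∃ e : Fin q → ℕ, (∀ i, e i ∈ W) ∧ ∀ t ∈ W, ∃ i, e i = t := by
  refine ⟨fun i => W.toList.getD i 0, fun i => ?_, fun t ht => ?_⟩
  · by_cases h : (i : ℕ) < W.toList.length
    · simp only [List.getD_eq_getElem _ _ h]
      exact Finset.mem_toList.1 (List.getElem_mem h)
    · simp only [List.getD_eq_default _ _ (not_lt.1 h)]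
      exact h0
  · obtain ⟨i, hi, he⟩ := List.getElem_of_mem (Finset.mem_toList.2 ht)
    have hi' : i < q := by rw [Finset.length_toList] at hi; omega
    exact ⟨⟨i, hi'⟩, by simp only [List.getD_eq_getElem _ _ hi]; exact he⟩

lemma exists_split {n : ℕ} (A : Finset (Fin n)) (f : Fin n → Fin n) (hf : Set.InjOn f A)
    (hfA : ∀ b ∈ A, f b ∉ A) (M O N : Fin n → ℕ → ℕ) :
    ∃ U : Fin n → ℕ → ℕ, (∀ a, (a ∈ A ∧ U a = M a) ∨ (∃ b ∈ A, f b = a ∧ U a = O b) ∨
      (a ∉ A ∧ U a = N a)) ∧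
      ∀ t, ∑ a, U a t = ∑ b ∈ A, M b t + ∑ b ∈ A, O b t + ∑ a ∈ (A ∪ A.image f)ᶜ, N a t := by
  classical
  let U : Fin n → ℕ → ℕ := fun a =>
    if a ∈ A then M a else if h : ∃ b ∈ A, f b = a then O h.choose else N a
  have hU : ∀ b ∈ A, U (f b) = O b := by
    intro b hb
    have h : ∃ b' ∈ A, f b' = f b := ⟨b, hb, rfl⟩
    simp only [U, if_neg (hfA b hb), dif_pos h]
    rw [hf h.choose_spec.1 hb h.choose_spec.2]
  refine ⟨U, fun a => ?_, fun t => ?_⟩
  · by_cases h1 : a ∈ A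
    · exact Or.inl ⟨h1, by simp only [U, if_pos h1]⟩
    · by_cases h2 : ∃ b ∈ A, f b = a
      · obtain ⟨b, hb, rfl⟩ := h2
        exact Or.inr (Or.inl ⟨b, hb, rfl, hU b hb⟩)
      · exact Or.inr (Or.inr ⟨h1, by simp only [U, if_neg h1, dif_neg h2]⟩)
  · have hdis : Disjoint A (A.image f) := by
      rw [Finset.disjoint_right]
      intro a ha
      obtain ⟨b, hb, rfl⟩ := mem_image.1 ha
      exact hfA b hb
    rw [← Finset.sum_add_sum_compl (A ∪ A.image f), Finset.sum_union hdis, Finset.sum_image hf]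
    congr 1
    · congr 1
      · exact Finset.sum_congr rfl fun a ha => by simp only [U, if_pos ha]
      · exact Finset.sum_congr rfl fun b hb => by rw [hU b hb]
    · refine Finset.sum_congr rfl fun a ha => ?_
      rw [mem_compl, mem_union, not_or, mem_image] at ha
      simp only [U, if_neg ha.1, dif_neg ha.2]

namespace Inst

variable {n : ℕ} (I : Inst n) (r : ℕ) (Sel : Finset ℕ)

/-- Dust demanded by the re-assigned members of the group. -/
noncomputable def Ex (a0 : Fin n) (A : Finset (Fin n)) (f g : Fin n → Fin n) (t : ℕ) : ℝ :=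
  ∑ b ∈ A, I.sig r a0 (g b) * ((t - I.T r (f b) : ℕ) : ℝ)

variable {I r Sel}

open Classical in
lemma Group.dust_total {E X th w0 X' Φ : ℕ} {W : Finset ℕ} {T0 : Finset (Fin n)} {a0 : Fin n}
    {τ : ℕ} (hG : I.Group r Sel E X th w0 X' Φ W T0 a0 τ) (hr : 0 < r) (c : ℕ)
    {A : Finset (Fin n)} {f g : Fin n → Fin n} {F : ℕ} (hf : ∀ b ∈ A, f b ∈ T0)
    (hg : Set.InjOn g A) (hF : A.card ≤ F) (hX0 : 0 < X) (hX : 32 * r ^ 2 * F ≤ X) (t : ℕ) :
    I.DustF r Sel c E th t + I.Ex r a0 A f g t ≤ (1 - 1 / (2 * r)) * I.S r t := by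
  have hn : 0 < n := a0.pos
  have hn' : (0 : ℝ) < n := by exact_mod_cast hn
  have hr' : (0 : ℝ) < r := by exact_mod_cast hr
  have hr1 : (1 : ℝ) ≤ r := by exact_mod_cast hr
  have hS0 := I.S_nonneg r t
  set y : ℝ := ((t - τ : ℕ) : ℝ) with hy
  have hy0 : 0 ≤ y := by positivity
  set μ := ∑ b ∈ A, I.sig r a0 (g b) with hμ
  have hμ0 : 0 ≤ μ := Finset.sum_nonneg fun b _ => I.sig_nonneg hr _ _
  have hEx : I.Ex r a0 A f g t ≤ μ * y := by
    rw [hμ, Finset.sum_mul]
    refine Finset.sum_le_sum fun b hb => mul_le_mul_of_nonneg_left ?_ (I.sig_nonneg hr _ _)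
    have := hG.late _ (hf b hb)
    exact Nat.cast_le.2 (by omega : t - I.T r (f b) ≤ t - τ)
  set B := (∑ a ∈ univ.filter (fun a => ¬ I.V r a < E), ((t - I.T r a : ℕ) : ℝ)) / n with hB
  have hB0 : 0 ≤ B := by positivity
  have hD : I.DustF r Sel c E th t ≤ (1 - 1 / r) * B := by
    rw [hB, ← mul_div_assoc, Finset.mul_sum, Finset.sum_filter]
    unfold DustF
    gcongr with a
    split_ifs with h
    · simp [I.sg_poor Sel hr c E th a _ h]
    · rw [← Finset.sum_mul]
      exact mul_le_mul_of_nonneg_right (I.sum_sg Sel hr c E th a) (by positivity)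
  have hsplit := Finset.sum_filter_add_sum_filter_not univ (fun a => I.V r a < E)
    (fun a => ((t - I.T r a : ℕ) : ℝ))
  have hδ := I.sum_delta (r := r) hn t
  have hnB : ∑ a ∈ univ.filter (fun a => ¬ I.V r a < E), ((t - I.T r a : ℕ) : ℝ) = n * B := by
    rw [hB]; field_simp
  have hlow : ∀ Q : Finset (Fin n), (∀ a ∈ Q, I.T r a ≤ τ) →
      Q.card * y ≤ ∑ a ∈ Q, ((t - I.T r a : ℕ) : ℝ) := by
    intro Q hQ
    rw [← nsmul_eq_mul, ← sum_const]
    refine Finset.sum_le_sum fun a ha => ?_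
    have := hQ a ha
    exact Nat.cast_le.2 (by omega : t - τ ≤ t - I.T r a)
  have h1r := one_sub_nonneg hr
  set β : ℝ := 1 / (2 * r) with hβ
  have hβ2 : 1 / (r : ℝ) = 2 * β := by rw [hβ]; field_simp
  have hβ0 : 0 ≤ β := by positivity
  rcases hG.cases with ⟨h1, h2⟩ | h
  · have hX0' : (0 : ℝ) < X := by exact_mod_cast hX0
    have e1 : μ ≤ F / X := by
      calc μ ≤ ∑ _b ∈ A, (1 / X : ℝ) := Finset.sum_le_sum fun b _ => I.sig_le hr _ _ hX0' h1
        _ = A.card / X := by simp [div_eq_mul_inv]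
        _ ≤ F / X := by gcongr
    have e2 := hlow (univ.filter fun a => I.T r a ≤ τ) fun a ha => (mem_filter.1 ha).2
    have e3 : ∑ a ∈ univ.filter (fun a => I.T r a ≤ τ), ((t - I.T r a : ℕ) : ℝ) ≤
        ∑ a, ((t - I.T r a : ℕ) : ℝ) :=
      Finset.sum_le_sum_of_subset_of_nonneg (subset_univ _) fun _ _ _ => by positivity
    have e4 : y ≤ 16 * r * I.S r t := by
      have : n * y ≤ n * (16 * r * I.S r t) := by
        calc n * y ≤ 16 * r * (univ.filter fun a => I.T r a ≤ τ).card * y := by gcongr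
          _ = 16 * r * ((univ.filter fun a => I.T r a ≤ τ).card * y) := by ring
          _ ≤ 16 * r * (n * I.S r t) := mul_le_mul_of_nonneg_left (by linarith) (by positivity)
          _ = _ := by ring
      exact le_of_mul_le_mul_left this hn'
    have e5 : B ≤ I.S r t := by
      have : 0 ≤ ∑ a ∈ univ.filter (fun a => I.V r a < E), ((t - I.T r a : ℕ) : ℝ) := by positivity
      have : n * B ≤ n * I.S r t := by linarith
      exact le_of_mul_le_mul_left this hn'
    have e6 : (F : ℝ) / X * (16 * r) ≤ β := by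
      have : (32 * r ^ 2 * F : ℝ) ≤ X := by exact_mod_cast hX
      rw [hβ, div_mul_eq_mul_div, div_le_div_iff₀ hX0' (by positivity)]
      linarith
    have e7 : μ * y ≤ β * I.S r t := by
      calc μ * y ≤ F / X * (16 * r * I.S r t) := by gcongr
        _ = F / X * (16 * r) * I.S r t := by ring
        _ ≤ _ := by gcongr
    have e8 : (1 - 1 / r) * B ≤ (1 - 1 / r) * I.S r t := by gcongr
    rw [hβ2] at e8 hD
    linarith
  · have e1 : μ ≤ 1 - 1 / r := by
      rw [hμ, ← Finset.sum_image (f := I.sig r a0) hg]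
      exact (Finset.sum_le_sum_of_subset_of_nonneg (subset_univ _)
        fun j _ _ => I.sig_nonneg hr a0 j).trans (I.sum_sig hr a0)
    have e2 := hlow (univ.filter fun a => I.V r a < E ∧ I.T r a ≤ τ)
      fun a ha => (mem_filter.1 ha).2.2
    have e3 : ∑ a ∈ univ.filter (fun a => I.V r a < E ∧ I.T r a ≤ τ), ((t - I.T r a : ℕ) : ℝ) ≤
        ∑ a ∈ univ.filter (fun a => I.V r a < E), ((t - I.T r a : ℕ) : ℝ) :=
      Finset.sum_le_sum_of_subset_of_nonneg (fun a ha => mem_filter.2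
        ⟨mem_univ _, (mem_filter.1 ha).2.1⟩) fun _ _ _ => by positivity
    have e4 : B + (1 - β) * y ≤ I.S r t := by
      have e5 : (1 - β) * n * y ≤
          (univ.filter fun a => I.V r a < E ∧ I.T r a ≤ τ).card * y := by gcongr
      have : n * (B + (1 - β) * y) ≤ n * I.S r t := by linarith
      exact le_of_mul_le_mul_left this hn'
    rw [hβ2] at e1 hD h1r
    have e5 : μ * y ≤ (1 - 2 * β) * y := by gcongr
    have e6 : (1 - β) * (B + (1 - β) * y) ≤ (1 - β) * I.S r t := by gcongr; linarith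
    nlinarith [mul_nonneg hβ0 hB0, mul_nonneg (mul_nonneg hβ0 hβ0) hy0]

lemma phi_bound (hS : I.IsSel r Sel) (hr : 0 < r) (hn : 0 < n) {E th k0 w0 : ℕ} {W : Finset ℕ}
    {T0 : Finset (Fin n)} {ch : Fin n → Fin n}
    (hR : I.Rounded Sel (64 * r) E th k0 w0 W T0 ch (r := r)) {a0 : Fin n} {A : Finset (Fin n)}
    {f g : Fin n → Fin n}
    (hD : ∀ t, I.DustF r Sel (64 * r) E th t + I.Ex r a0 A f g t ≤ (1 - 1 / (2 * r)) * I.S r t)
    {t : ℕ} (ht : t ≤ I.m) (hSt : ((64 * r * 2 ^ k0 : ℕ) : ℝ) ≤ I.S r t) :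
    I.BB r ch t + I.Dust r Sel (64 * r) E th ch t + I.Ex r a0 A f g t ≤ t - I.S r t / (6 * r) := by
  have hr' : (0 : ℝ) < r := by exact_mod_cast hr
  have hr1 : (1 : ℝ) ≤ r := by exact_mod_cast hr
  obtain ⟨g', hg', k, hk, i, hi, h1, h2, h3, h4, h5⟩ := hS.exists_rep hn (c := 64 * r) (k0 := k0)
    (by omega) ht (by push_cast at hSt ⊢; exact hSt)
  have h6 := hR.reps g' hg' k hk i hi
  set x := I.rep r (64 * r) k (g' / 2 ^ k + i - 4 * (64 * r)) with hx
  have hp : (1 : ℝ) ≤ 2 ^ k := one_le_pow₀ (by norm_num)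
  push_cast at h4 h5
  have h7 := hR.dust x h3 (by nlinarith)
  have h8 := hD x
  have m1 : (I.BB r ch t : ℝ) ≤ I.BB r ch x := by
    exact_mod_cast Finset.sum_le_sum fun a _ => I.Ub_mono r a a (ch a) h1
  have m2 : I.Dust r Sel (64 * r) E th ch t ≤ I.Dust r Sel (64 * r) E th ch x :=
    Finset.sum_le_sum fun a _ => mul_le_mul_of_nonneg_left
      (by exact_mod_cast Nat.sub_le_sub_right h1 _) (I.sg_nonneg Sel hr _ _ _ _ _)
  have m3 : I.Ex r a0 A f g t ≤ I.Ex r a0 A f g x :=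
    Finset.sum_le_sum fun a _ => mul_le_mul_of_nonneg_left
      (by exact_mod_cast Nat.sub_le_sub_right h1 _) (I.sig_nonneg hr _ _)
  have h9 : (x : ℝ) < t + 2 ^ k := by exact_mod_cast h2
  have e1 : (1 - 1 / (2 * r)) * I.S r x + 6 * I.S r x / ((64 * r : ℕ) : ℝ) =
      I.S r x - 26 * (I.S r x / (64 * r)) := by push_cast; field_simp; ring
  have e2 : (2 : ℝ) ^ k ≤ I.S r x / (64 * r) := by rw [le_div_iff₀ (by positivity)]; linarith
  have e3 : I.S r t / (6 * r) ≤ 24 * 2 ^ k := by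
    rw [div_le_iff₀ (by positivity)]
    rw [pow_succ] at h5
    nlinarith
  linarith

end Inst

end Pool.Agent.Lib.MP_5049a2_lc
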