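import Pool.Agent.Lib.MP_5049a2_lc.Sel

/-! A large group of agents which look alike near the tight positions. -/

namespace Pool.Agent.Lib.MP_5049a2_lc

open Finset

lemma quantile {α : Type*} (Q : Finset α) (f : α → ℕ) {y : ℝ} (hy0 : 0 < y) (hy : y ≤ Q.card) :
    ∃ τ, y ≤ (Q.filter fun a => τ ≤ f a).card ∧
      (Q.card : ℝ) - y < (Q.filter fun a => f a ≤ τ).card := by
  classical
  have hex : ∃ τ, ((Q.filter fun a => τ ≤ f a).card : ℝ) < y := by
    refine ⟨Q.sup f + 1, ?_⟩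
    rw [filter_eq_empty_iff.2 fun a ha => by have := Finset.le_sup (f := f) ha; omega]
    simpa using hy0
  have h1 := Nat.find_spec hex
  have h0 : Nat.find hex ≠ 0 := by
    intro h
    rw [h] at h1
    simp only [zero_le, filter_true] at h1
    linarith
  obtain ⟨τ, hτ⟩ := Nat.exists_eq_succ_of_ne_zero h0
  have h2 := Nat.find_min hex (m := τ) (by omega)
  rw [hτ] at h1
  refine ⟨τ, not_lt.1 h2, ?_⟩
  have h3 := Finset.card_filter_add_card_filter_not (s := Q) (fun a => f a ≤ τ)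
  have h4 : (Q.filter fun a => ¬ f a ≤ τ) = Q.filter fun a => τ.succ ≤ f a := by
    congr 1; ext a; omega
  rw [h4] at h3
  have h5 : ((Q.filter fun a => f a ≤ τ).card : ℝ) + (Q.filter fun a => τ.succ ≤ f a).card =
      Q.card := by exact_mod_cast h3
  linarith

namespace Inst

variable {n : ℕ} (I : Inst n) (r : ℕ) (Sel : Finset ℕ)

/-- Pattern `π` is frequent in the partition of `a`. -/
def freq (Φ : ℕ) (a : Fin n) (π : Multiset ℕ) : Prop :=
  n ≤ Φ * (univ.filter fun j => I.pat r a j = π).card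

open Classical in
structure Group (E X th w0 X' Φ : ℕ) (W : Finset ℕ) (T0 : Finset (Fin n)) (a0 : Fin n) (τ : ℕ) :
    Prop where
  mem : a0 ∈ T0
  big : n ≤ 16 * r * (2 ^ (w0 * (r ^ 2 + 1)) * (X' + 1) * 2 ^ (Pats r).card) * T0.card
  clean : ∀ a ∈ T0, ¬ I.unclean r Sel E X a
  gap : ∀ a ∈ T0, ∀ t ∈ W, (I.d r a t : ℝ) ≤ 16 * r * w0 * I.S r t
  dust : ∀ a ∈ T0, I.V r a0 ≤ I.V r a
  late : ∀ a ∈ T0, τ ≤ I.T r a
  tau : ∀ a ∈ T0, ∀ h ≤ r ^ 2, ∀ t ∈ W, I.tau r a h ≤ t ↔ I.tau r a0 h ≤ t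
  start : ∀ a ∈ T0, th - I.T r a = th - I.T r a0
  fr : ∀ a ∈ T0, ∀ π ∈ Pats r, I.freq r Φ a0 π → I.freq r Φ a π
  cases : ((X : ℝ) ≤ I.V r a0 ∧ (n : ℝ) ≤ 16 * r * (univ.filter fun a => I.T r a ≤ τ).card) ∨
    (1 - 1 / (2 * r)) * (n : ℝ) ≤ (univ.filter fun a => I.V r a < E ∧ I.T r a ≤ τ).card

variable {r}

open Classical in
theorem exists_group (hr : 0 < r) (hn : 0 < n) {E X th w0 X' : ℕ} (Φ : ℕ) (W : Finset ℕ)
    (hW : W.card ≤ w0) (hw0 : 0 < w0) (hth : th ∈ W) (hX' : 16 * r * w0 * I.S r th ≤ X')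
    (hsc : 16 * r * ((univ.filter (I.unclean r Sel E X)).card +
      (univ.filter (I.mid r E X)).card) ≤ n) :
    ∃ T0 a0 τ, I.Group r Sel E X th w0 X' Φ W T0 a0 τ := by
  have hn' : (0 : ℝ) < n := by exact_mod_cast hn
  have hr' : (0 : ℝ) < r := by exact_mod_cast hr
  have hr1 : (1 : ℝ) ≤ r := by exact_mod_cast hr
  have hw0' : (0 : ℝ) < w0 := by exact_mod_cast hw0
  set x : ℝ := n / (16 * r) with hx
  have hx0 : 0 < x := by positivity
  have hxn : 16 * r * x = n := by rw [hx]; field_simp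
  have hsc' : (16 * r * ((univ.filter (I.unclean r Sel E X)).card +
      (univ.filter (I.mid r E X)).card) : ℝ) ≤ n := by exact_mod_cast hsc
  have hum : ((univ.filter (I.unclean r Sel E X)).card : ℝ) +
      (univ.filter (I.mid r E X)).card ≤ x := by
    rw [hx, le_div_iff₀ (by positivity)]; linarith
  have hU : ((univ.filter (I.unclean r Sel E X)).card : ℝ) ≤ x := by
    linarith [Nat.cast_nonneg (α := ℝ) (univ.filter (I.mid r E X)).card]
  have hM : ((univ.filter (I.mid r E X)).card : ℝ) ≤ x := by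
    linarith [Nat.cast_nonneg (α := ℝ) (univ.filter (I.unclean r Sel E X)).card]
  -- the late agents
  have hP : ∃ (P : Finset (Fin n)) (τ : ℕ), 3 * x ≤ P.card ∧ (∀ a ∈ P, τ ≤ I.T r a) ∧
      (((∀ a ∈ P, (X : ℝ) ≤ I.V r a) ∧
        (n : ℝ) ≤ 16 * r * (univ.filter fun a => I.T r a ≤ τ).card) ∨
      (1 - 1 / (2 * r)) * (n : ℝ) ≤ (univ.filter fun a => I.V r a < E ∧ I.T r a ≤ τ).card) := by
    by_cases hA : 4 * x ≤ (univ.filter fun a => (X : ℝ) ≤ I.V r a).card
    · obtain ⟨τ, h1, h2⟩ := quantile (univ.filter fun a => (X : ℝ) ≤ I.V r a) (I.T r)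
        (y := 3 * x) (by positivity) (by linarith)
      refine ⟨_, τ, h1, fun a ha => (mem_filter.1 ha).2, Or.inl ⟨fun a ha =>
        (mem_filter.1 (mem_filter.1 ha).1).2, ?_⟩⟩
      have h3 : (((univ.filter fun a => (X : ℝ) ≤ I.V r a).filter fun a => I.T r a ≤ τ).card : ℝ) ≤
          (univ.filter fun a => I.T r a ≤ τ).card := by
        exact_mod_cast card_le_card (filter_subset_filter _ (subset_univ _))
      rw [← hxn]
      gcongr
      linarith
    · obtain ⟨τ, h1, h2⟩ := quantile (univ : Finset (Fin n)) (I.T r)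
        (y := 3 * x) (by positivity) (by simp only [card_univ, Fintype.card_fin]; nlinarith)
      refine ⟨_, τ, h1, fun a ha => (mem_filter.1 ha).2, Or.inr ?_⟩
      have hsub : (univ.filter fun a => I.T r a ≤ τ) ⊆
          (univ.filter fun a => I.V r a < E ∧ I.T r a ≤ τ) ∪
          ((univ.filter (I.mid r E X)) ∪ (univ.filter fun a => (X : ℝ) ≤ I.V r a)) := by
        intro a ha
        have := (mem_filter.1 ha).2
        simp only [mem_union, mem_filter, mem_univ, true_and, mid]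
        by_cases h3 : I.V r a < E
        · exact Or.inl ⟨h3, this⟩
        · by_cases h4 : I.V r a < X
          · exact Or.inr (Or.inl ⟨not_lt.1 h3, h4⟩)
          · exact Or.inr (Or.inr (not_lt.1 h4))
      have h3 := (card_le_card hsub).trans ((card_union_le _ _).trans
        (Nat.add_le_add_left (card_union_le _ _) _))
      have h4 := (Nat.cast_le (α := ℝ)).2 h3
      push_cast at h4
      simp only [card_univ, Fintype.card_fin] at h2
      have h5 : (1 - 1 / (2 * r)) * (n : ℝ) = n - 8 * x := by rw [hx]; field_simp; ring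
      linarith
  obtain ⟨P, τ, hP1, hP2, hP3⟩ := hP
  set Rem := W.biUnion fun t => univ.filter fun a => 16 * r * w0 * I.S r t < I.d r a t with hRem
  have hRc : (Rem.card : ℝ) ≤ x := by
    have h1 := (Nat.cast_le (α := ℝ)).2 (card_biUnion_le (s := W)
      (t := fun t => univ.filter fun a => 16 * r * w0 * I.S r t < I.d r a t))
    push_cast at h1
    have h2 : ∑ t ∈ W, ((univ.filter fun a => 16 * r * w0 * I.S r t < I.d r a t).card : ℝ) ≤
        ∑ _t ∈ W, (n : ℝ) / (16 * r * w0) :=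
      Finset.sum_le_sum fun t _ => I.markov r hn t (by positivity)
    have h3 : (W.card : ℝ) ≤ w0 := by exact_mod_cast hW
    simp only [sum_const, nsmul_eq_mul] at h2
    have h4 : (W.card : ℝ) * (n / (16 * r * w0)) ≤ w0 * (n / (16 * r * w0)) := by gcongr
    have h5 : (w0 : ℝ) * (n / (16 * r * w0)) = x := by rw [hx]; field_simp
    linarith
  set P' := (P \ univ.filter (I.unclean r Sel E X)) \ Rem with hP'
  have hP'c : x ≤ P'.card := by
    have h1 := card_le_card_sdiff_add_card (s := P) (t := univ.filter (I.unclean r Sel E X))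
    have h2 := card_le_card_sdiff_add_card (s := P \ univ.filter (I.unclean r Sel E X)) (t := Rem)
    have h3 := (Nat.cast_le (α := ℝ)).2 h1
    have h4 := (Nat.cast_le (α := ℝ)).2 h2
    push_cast at h3 h4
    linarith
  have hgap : ∀ a ∈ P', ∀ t ∈ W, (I.d r a t : ℝ) ≤ 16 * r * w0 * I.S r t := by
    intro a ha t ht
    by_contra hcon
    exact (mem_sdiff.1 ha).2 (mem_biUnion.2 ⟨t, ht, mem_filter.2 ⟨mem_univ _, not_le.1 hcon⟩⟩)
  let cl : Fin n → Finset (ℕ × ℕ) × ℕ × Finset (Multiset ℕ) := fun a =>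
    ((W ×ˢ range (r ^ 2 + 1)).filter fun y => I.tau r a y.2 ≤ y.1, th - I.T r a,
      (Pats r).filter (I.freq r Φ a))
  set C := (W ×ˢ range (r ^ 2 + 1)).powerset ×ˢ range (X' + 1) ×ˢ (Pats r).powerset with hC
  set Ncl := 2 ^ (w0 * (r ^ 2 + 1)) * (X' + 1) * 2 ^ (Pats r).card with hNcl
  have hCc : C.card ≤ Ncl := by
    rw [hC, card_product, card_product, card_powerset, card_powerset, card_product, card_range,
      card_range, hNcl, mul_assoc]
    gcongr
    norm_num
  have hmaps : ∀ a ∈ P', cl a ∈ C := by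
    intro a ha
    refine mem_product.2 ⟨mem_powerset.2 (filter_subset _ _), mem_product.2
      ⟨mem_range.2 ?_, mem_powerset.2 (filter_subset _ _)⟩⟩
    have h1 := hgap a ha th hth
    have h2 : ((th - I.T r a : ℕ) : ℝ) ≤ I.d r a th := by exact_mod_cast I.sub_T_le_d r a th
    have h3 : ((th - I.T r a : ℕ) : ℝ) ≤ X' := by linarith
    have h4 : th - I.T r a ≤ X' := by exact_mod_cast h3
    exact Nat.lt_succ_of_le h4
  have hCne : C.Nonempty := by
    have : 0 < P'.card := by exact_mod_cast hx0.trans_le hP'c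
    obtain ⟨a, ha⟩ := card_pos.1 this
    exact ⟨_, hmaps a ha⟩
  obtain ⟨y, -, hy⟩ := Finset.exists_max_image C (fun y => (P'.filter fun a => cl a = y).card) hCne
  set T0 := P'.filter fun a => cl a = y with hT0
  have hT0c : P'.card ≤ Ncl * T0.card := by
    rw [card_eq_sum_card_fiberwise (f := cl) (t := C) hmaps]
    calc _ ≤ ∑ _z ∈ C, T0.card := Finset.sum_le_sum hy
      _ = C.card * T0.card := by simp
      _ ≤ _ := Nat.mul_le_mul_right _ hCc
  have hT0ne : T0.Nonempty := by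
    have h1 : 0 < P'.card := by exact_mod_cast hx0.trans_le hP'c
    rw [← card_pos]
    by_contra h
    rw [show T0.card = 0 by omega] at hT0c
    omega
  obtain ⟨a0, ha0, hmin⟩ := Finset.exists_min_image T0 (I.V r) hT0ne
  have hcl : ∀ a ∈ T0, cl a = cl a0 := fun a ha =>
    (mem_filter.1 ha).2.trans (mem_filter.1 ha0).2.symm
  have hT0P : ∀ a ∈ T0, a ∈ P := fun a ha => (mem_sdiff.1 (mem_sdiff.1 (mem_filter.1 ha).1).1).1
  refine ⟨T0, a0, τ, ha0, ?_, fun a ha h => ?_, fun a ha => hgap a (mem_filter.1 ha).1, hmin,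
    fun a ha => hP2 a (hT0P a ha), fun a ha h hh t ht => ?_,
    fun a ha => congrArg (fun z => z.2.1) (hcl a ha), fun a ha π hπ h => ?_, ?_⟩
  · have h1 : (n : ℝ) ≤ 16 * r * (Ncl * T0.card : ℕ) := by
      rw [← hxn]
      gcongr
      exact hP'c.trans (by exact_mod_cast hT0c)
    rw [mul_assoc (16 * r)]
    exact_mod_cast h1
  · exact (mem_sdiff.1 (mem_sdiff.1 (mem_filter.1 ha).1).1).2 (mem_filter.2 ⟨mem_univ _, h⟩)
  · have h1 : ((W ×ˢ range (r ^ 2 + 1)).filter fun y => I.tau r a y.2 ≤ y.1) =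
        (W ×ˢ range (r ^ 2 + 1)).filter fun y => I.tau r a0 y.2 ≤ y.1 :=
      congrArg (fun z => z.1) (hcl a ha)
    have h2 : (t, h) ∈ W ×ˢ range (r ^ 2 + 1) :=
      mem_product.2 ⟨ht, mem_range.2 (Nat.lt_succ_of_le hh)⟩
    have h3 := Finset.ext_iff.1 h1 (t, h)
    simpa only [mem_filter, h2, true_and] using h3
  · have h1 : (Pats r).filter (I.freq r Φ a) = (Pats r).filter (I.freq r Φ a0) :=
      congrArg (fun z => z.2.2) (hcl a ha)
    have h2 : π ∈ (Pats r).filter (I.freq r Φ a0) := mem_filter.2 ⟨hπ, h⟩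
    rw [← h1] at h2
    exact (mem_filter.1 h2).2
  · rcases hP3 with ⟨h1, h2⟩ | h
    · exact Or.inl ⟨h1 a0 (hT0P a0 ha0), h2⟩
    · exact Or.inr h

end Inst

end Pool.Agent.Lib.MP_5049a2_lc
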