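import Pool.Agent.Lib.MP_5049a2_lc.H7Group

/-! Assembly of the allocation with one exact row per window. -/

namespace Pool.Agent.Lib.MP_5049a2_lc

open Finset

lemma exists_enum2 (W : Finset ℕ) {x : ℕ} (h0 : x ∈ W) {q : ℕ} (hq : W.card ≤ q) :
    ∃ e : Fin q → ℕ, (∀ i, e i ∈ W) ∧ ∀ t ∈ W, ∃ i, e i = t := by
  refine ⟨fun i => W.toList.getD i x, fun i => ?_, fun t ht => ?_⟩
  · by_cases h : (i : ℕ) < W.toList.length
    · simp only [List.getD_eq_getElem _ _ h]
      exact Finset.mem_toList.1 (List.getElem_mem h)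
    · simp only [List.getD_eq_default _ _ (not_lt.1 h)]
      exact h0
  · obtain ⟨i, hi, he⟩ := List.getElem_of_mem (Finset.mem_toList.2 ht)
    have hi' : i < q := by rw [Finset.length_toList] at hi; omega
    exact ⟨⟨i, hi'⟩, by simp only [List.getD_eq_getElem _ _ hi]; exact he⟩

namespace Inst

variable {n : ℕ} {I : Inst n} {r : ℕ} {Sel : Finset ℕ}

lemma Group2.Ub_eq {E X th q Θ : ℕ} {W Rw : Finset ℕ} {T0 : Finset (Fin n)} {a0 : Fin n}
    {τ : ℕ} (hG : I.Group2 r Sel E X th q Θ W Rw T0 a0 τ) {a : Fin n} (ha : a ∈ T0) (j : Fin n)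
    {t : ℕ} (ht : t ∈ W) : I.Ub r a a0 j t = I.Ub r a0 a0 j t := by
  unfold Ub
  congr 1
  exact filter_congr fun p _ => hG.tau a ha _ (I.lev_le r a0 p) t ht

/-- Bundles which avoid `[t, u)` may be counted at `u` instead of `t`. -/
lemma window_cap (hr : 0 < r) (a : Fin n) (J0 : Finset (Fin n)) {t u : ℕ}
    (h : ∀ p, t ≤ p → p < u → p < I.m → I.bun a p ∈ J0) :
    ∑ j, (if j ∈ J0 then 0 else I.Ub r a a j u) + ∑ j ∈ J0, I.off r a a j t ≤ t := by
  classical
  set cnt : Fin n → ℕ := fun j => ((I.bigs r a j).filter fun p => p < t).card with hcnt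
  have hm : ∀ j, ∀ p ∈ I.bigs r a j, p < I.m := fun j p hp =>
    (mem_range.1 (mem_filter.1 hp).1).trans_le (I.T_le_m r a)
  have h1 : ∀ j, I.Ub r a a j t ≤ cnt j := fun j => card_le_card fun p hp =>
    mem_filter.2 ⟨(mem_filter.1 hp).1,
      (I.lt_tau_lev r a (hm j p (mem_filter.1 hp).1)).trans_le (mem_filter.1 hp).2⟩
  have h2 : ∀ j, j ∉ J0 → I.Ub r a a j u ≤ cnt j := fun j hj => card_le_card fun p hp => by
    obtain ⟨e1, e2⟩ := mem_filter.1 hp
    refine mem_filter.2 ⟨e1, ?_⟩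
    by_contra hn
    have := h p (not_lt.1 hn) ((I.lt_tau_lev r a (hm j p e1)).trans_le e2) (hm j p e1)
    rw [(mem_filter.1 e1).2] at this
    exact hj this
  have h3 : ∑ j, cnt j = ((range (I.T r a)).filter fun p => p < t).card := by
    rw [card_eq_sum_card_fiberwise (f := I.bun a) (t := univ) (fun _ _ => mem_univ _)]
    refine Finset.sum_congr rfl fun j _ => ?_
    simp only [hcnt, bigs]
    rw [filter_comm]
  have h4 : ((range (I.T r a)).filter fun p => p < t).card ≤ I.T r a :=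
    (card_filter_le _ _).trans (card_range _).le
  have h5 : ((range (I.T r a)).filter fun p => p < t).card ≤ t :=
    (card_le_card fun p hp => mem_range.2 (mem_filter.1 hp).2).trans (card_range t).le
  have h6 : ∑ j, ⌊I.sig r a j * ((t - I.T r a : ℕ) : ℝ)⌋₊ ≤ t - I.T r a := by
    have e1 : ∑ j, (⌊I.sig r a j * ((t - I.T r a : ℕ) : ℝ)⌋₊ : ℝ) ≤
        ∑ j, I.sig r a j * ((t - I.T r a : ℕ) : ℝ) := sum_le_sum fun j _ =>
      Nat.floor_le (mul_nonneg (I.sig_nonneg hr a j) (by positivity))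
    rw [← Finset.sum_mul] at e1
    have e2 := I.sum_sig hr a
    have e3 : (0 : ℝ) ≤ 1 / r := by positivity
    have e4 : (∑ j, I.sig r a j) * ((t - I.T r a : ℕ) : ℝ) ≤ ((t - I.T r a : ℕ) : ℝ) :=
      mul_le_of_le_one_left (by positivity) (by linarith)
    exact_mod_cast e1.trans e4
  have h7 : ∑ j, (if j ∈ J0 then 0 else I.Ub r a a j u) + ∑ j ∈ J0, I.off r a a j t ≤
      ∑ j, cnt j + ∑ j, ⌊I.sig r a j * ((t - I.T r a : ℕ) : ℝ)⌋₊ := by
    rw [← Fintype.sum_ite_mem J0, ← sum_add_distrib, ← sum_add_distrib]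
    refine sum_le_sum fun j _ => ?_
    split_ifs with hj
    · have := h1 j; unfold off; omega
    · have := h2 j hj; omega
  omega

open Classical in
theorem core2 (I : Inst n) (hS : I.IsSel r Sel) (hr : 0 < r) {E E' X k0 q w0 X' B D F : ℕ}
    (hE : 28 * (64 * r) * (64 * r + 1) ≤ E)
    (hk0 : 56 * r * (r ^ 2 + 1) * (8 * (64 * r) + 1) ≤ 2 ^ k0)
    (hE' : 4 * E + 2 * (64 * r * 2 ^ k0) + 12 * r * (5 * E + 28 * r * (r ^ 2 + 1)) ≤ E')
    (hq : 2 * (r ^ 2 + 1) ≤ q)
    (hw0 : 2 * (r ^ 2 + 1) * (2 * E' + 1) ≤ w0)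
    (hX' : 16 * r * q * (E + E') ≤ X')
    (hB : r * E + (E + E') + 56 * (r ^ 2 + 1) ^ 2 * (64 * r) + 14 ≤ B)
    (hD : 14 * r * q + X' + r * (w0 + X') ≤ D)
    (hF : ProxProp q r D B F)
    (hX1 : 5 * E ≤ X) (hX2 : 64 * r * 2 ^ k0 ≤ X) (hX3 : 48 * r ^ 2 * F ≤ X) (hX4 : E + E' < X)
    (hn : 0 < n) (hn1 : 12 * r * F ≤ n)
    (hn2 : 16 * r * ((w0 + 1) ^ (r ^ 2 + 1) * (X' + 1)) *
      (2 * r * (r + 2) * ((Pats r).card * (2 * F + 14))) ≤ n)
    (hn3 : 2 * r * (r + 2) * (2 * (r ^ 2 + 1) * (2 * (4 * X + 1) + 1) + q * X') < n)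
    (hsc : 16 * r * ((univ.filter (I.unclean r Sel E X)).card +
      (univ.filter (I.mid r E X)).card) ≤ n) :
    I.Solv (1 - 3 / r) := by
  have hn' : (0 : ℝ) < n := by exact_mod_cast hn
  have hr' : (0 : ℝ) < r := by exact_mod_cast hr
  have hr1 : (1 : ℝ) ≤ r := by exact_mod_cast hr
  have hE0 : 0 < E := lt_of_lt_of_le (by positivity) hE
  have hX0 : 0 < X := by omega
  have hq0 : 0 < q := lt_of_lt_of_le (by positivity) hq
  set W := I.W r Sel E E' X with hW
  have hW0 : 0 ∈ W := hS.zero_mem_W hE0 hX0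
  have hWc : W.card ≤ w0 := (hS.card_W E E' X).trans hw0
  set th := W.max' ⟨0, hW0⟩ with hth
  have hthW : th ∈ W := W.max'_mem _
  have hle_th : ∀ t ∈ W, t ≤ th := fun t ht => W.le_max' t ht
  have hSth : I.S r th ≤ E + E' := hS.S_max_W hn (by omega) hthW hle_th
  set Rw := (Sel.filter fun g => I.S r g < E).image fun g => min (g + E') I.m with hRw
  have hRc : Rw.card ≤ q := card_image_le.trans ((card_filter_le _ _).trans (hS.card.trans hq))
  have hRW : ∀ u ∈ Rw, u ∈ W ∧ 16 * r * q * I.S r u ≤ X' := by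
    intro u hu
    obtain ⟨g, hg, rfl⟩ := mem_image.1 hu
    obtain ⟨hg1, hg2⟩ := mem_filter.1 hg
    have h1 := hS.le_m g hg1
    have h2 := I.S_add_le r hn (s := g) (t := min (g + E') I.m) (by omega)
    have h3 : ((min (g + E') I.m : ℕ) : ℝ) ≤ g + E' := by exact_mod_cast min_le_left _ _
    have h4 : (E + E' : ℝ) < X := by exact_mod_cast hX4
    refine ⟨(I.mem_W r Sel).2 ⟨min_le_right _ _, by linarith, g, hg1, hg2, min_le_left _ _,
      by omega⟩, ?_⟩
    have h5 : (16 * r * q * (E + E') : ℝ) ≤ X' := by exact_mod_cast hX'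
    refine le_trans ?_ h5
    gcongr
    linarith
  have hcov : ∀ t ∈ W, ∃ u ∈ Rw, t ≤ u ∧ ∃ g ∈ Sel, u ≤ g + E' ∧ g ≤ t + E' := by
    intro t ht
    obtain ⟨h1, -, g, hg, h2, h3, h4⟩ := (I.mem_W r Sel).1 ht
    exact ⟨_, mem_image_of_mem _ (mem_filter.2 ⟨hg, h2⟩), le_min h3 h1, g, hg, min_le_left _ _, h4⟩
  have hthR : th ∈ Rw := by
    obtain ⟨u, hu, h1, -⟩ := hcov th hthW
    rwa [le_antisymm h1 (hle_th u (hRW u hu).1)]
  obtain ⟨T0, a0, τ, hG⟩ := I.exists_group2 Sel hr hn W Rw hWc hRc hq0 hthR (hRW th hthR).2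
    (Nat.succ_pos _) hn2 hsc
  have hgap : ∀ u ∈ Rw, I.d r a0 u ≤ X' := fun u hu => by
    have := (hG.gap a0 hG.mem u hu).trans (hRW u hu).2
    exact_mod_cast this
  obtain ⟨ch, hR⟩ := I.exists_rounded Sel hr hn hS (c := 64 * r) th (by omega) hE hk0 Rw hRc hq0 T0
  set Bad := univ.filter fun a => I.forb r Sel (64 * r) E th a (ch a) with hBad
  have hBc : Bad.card ≤ B := by
    have h1 := hR.bad
    have h2 : ((r * E + (E + E') + 56 * (r ^ 2 + 1) ^ 2 * (64 * r) + 14 : ℕ) : ℝ) ≤ B :=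
      Nat.cast_le.2 hB
    push_cast at h1 h2
    have : (Bad.card : ℝ) ≤ B := by linarith
    exact_mod_cast this
  obtain ⟨e, he1, he2⟩ := exists_enum2 Rw hthR hRc
  set Wp := (range I.m).filter fun p => ∃ g ∈ Sel, p ≤ g + E' ∧ g ≤ p + E' with hWp
  set J0 := Wp.image (I.bun a0) ∪
    univ.filter fun j => 1 ≤ I.sig r a0 j * ((th - I.T r a0 : ℕ) : ℝ) with hJ0
  have hJ0c : J0.card ≤ w0 + X' := by
    refine (card_union_le _ _).trans (add_le_add (card_image_le.trans ?_) ?_)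
    · exact (card_near Sel E' _ fun p hp => (mem_filter.1 hp).2).trans
        ((Nat.mul_le_mul_right _ hS.card).trans hw0)
    · have h1 := I.card_sig_big hr a0 (x := ((th - I.T r a0 : ℕ) : ℝ)) (y := 1) (by positivity)
        one_pos
      rw [div_one] at h1
      have h2 := I.sub_T_le_d r a0 th
      have h3 := hgap th hthR
      have h4 : (univ.filter fun j => 1 ≤ I.sig r a0 j * ((th - I.T r a0 : ℕ) : ℝ)).card ≤
          th - I.T r a0 := by exact_mod_cast h1
      omega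
  obtain ⟨A, J, hBA, hAJ, hAF, hcap⟩ := hF n (fun a i => I.Ub r a a (ch a) (e i))
    (fun j i => if j ∈ J0 then 0 else I.Ub r a0 a0 j (e i))
    (fun i => ∑ j, if j ∈ J0 then 0 else I.Ub r a0 a0 j (e i)) Bad
    (fun a i => I.Ub_le hr _ _ _ _)
    (fun j i => by split_ifs; exacts [Nat.zero_le _, I.Ub_le hr _ _ _ _])
    (fun i => le_rfl)
    (fun i => by
      have h1 : ∑ a, I.Ub r a a (ch a) (e i) ≤ e i + 14 * r * q := hR.onW _ (he1 i)
      have h2 := hgap _ (he1 i)
      have h3 := I.sum_Ub r a0 (e i)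
      have h4 : ∑ j, I.Ub r a0 a0 j (e i) ≤
          ∑ j, (if j ∈ J0 then 0 else I.Ub r a0 a0 j (e i)) + ∑ _j ∈ J0, r := by
        rw [← Fintype.sum_ite_mem J0, ← sum_add_distrib]
        refine sum_le_sum fun j _ => ?_
        split_ifs with hj
        · simpa using I.Ub_le hr _ _ _ _
        · omega
      rw [sum_const, smul_eq_mul] at h4
      have h5 : J0.card * r ≤ r * (w0 + X') := by rw [mul_comm]; exact Nat.mul_le_mul_left _ hJ0c
      unfold d at h2
      omega) hBc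
  have hcap' : ∀ u ∈ Rw, ∑ a ∈ Aᶜ, I.Ub r a a (ch a) u +
      ∑ j ∈ J, (if j ∈ J0 then 0 else I.Ub r a0 a0 j u) ≤
        ∑ j, if j ∈ J0 then 0 else I.Ub r a0 a0 j u := by
    intro t ht
    obtain ⟨i, rfl⟩ := he2 t ht
    exact hcap i
  have hnf : ∀ a, a ∉ A → ¬ I.forb r Sel (64 * r) E th a (ch a) := fun a ha h =>
    ha (hBA (mem_filter.2 ⟨mem_univ _, h⟩))
  -- the bundles liked by the discarded agents
  set Z := ((range I.m).filter fun p => I.inN r Sel X (p + 1) ∧ ¬ I.inN r Sel E (p + 1)) ∪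
    Rw.biUnion fun t => Ico (I.prev r a0 t) t with hZ
  have hZc : Z.card ≤ 2 * (r ^ 2 + 1) * (2 * (4 * X + 1) + 1) + q * X' := by
    refine (card_union_le _ _).trans (add_le_add ?_ (card_biUnion_le.trans ?_))
    · refine (card_near Sel (4 * X + 1) _ fun p hp => ?_).trans (Nat.mul_le_mul_right _ hS.card)
      obtain ⟨g, hg, -, h1, h2⟩ := (mem_filter.1 hp).2.1
      exact ⟨g, hg, by omega, by omega⟩
    · calc _ ≤ ∑ _t ∈ Rw, X' := Finset.sum_le_sum fun t ht => by
            rw [Nat.card_Ico]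
            exact hgap t ht
        _ = Rw.card * X' := by simp
        _ ≤ _ := Nat.mul_le_mul_right _ hRc
  have hmim := fun b => I.exists_mimic2 hr b a0 Z
    (lt_of_le_of_lt (Nat.mul_le_mul_left _ hZc) hn3) _ hG.rare
  choose jm hjm1 hjm2 hjm3 using hmim
  -- holders
  have : Nonempty (Fin n) := ⟨a0⟩
  obtain ⟨f, hfi, hf⟩ := exists_injOn_choice A
    (fun b => (T0.filter fun a => I.pat r a (ch a) = I.pat r a0 (jm b)) \ A) (fun b _ => by
      have h1 := hR.pats _ (I.pat_mem hr a0 (jm b))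
      have h2 : (2 * F + 14) * n ≤
          ∑ a ∈ T0, (univ.filter fun j => I.pat r a j = I.pat r a0 (jm b)).card := by
        by_contra hcon
        exact hjm2 b (mem_filter.2 ⟨mem_univ _, not_le.1 hcon⟩)
      have h5 : (2 * F + 14 : ℝ) ≤
          (∑ a ∈ T0, ((univ.filter fun j => I.pat r a j = I.pat r a0 (jm b)).card : ℝ)) / n := by
        rw [le_div_iff₀ hn']
        exact_mod_cast h2
      have h6 : (2 * F : ℝ) ≤ (T0.filter fun a => I.pat r a (ch a) = I.pat r a0 (jm b)).card := by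
        linarith
      have h7 : 2 * F ≤ (T0.filter fun a => I.pat r a (ch a) = I.pat r a0 (jm b)).card := by
        exact_mod_cast h6
      have h8 := card_le_card_sdiff_add_card
        (s := T0.filter fun a => I.pat r a (ch a) = I.pat r a0 (jm b)) (t := A)
      omega)
  obtain ⟨g, hgi, hg⟩ := exists_injOn_choice A (fun _ => J) (fun _ _ => hAJ.le)
  have hfT : ∀ b ∈ A, f b ∈ T0 := fun b hb => (mem_filter.1 (mem_sdiff.1 (hf b hb)).1).1
  have hfp : ∀ b ∈ A, I.pat r (f b) (ch (f b)) = I.pat r a0 (jm b) := fun b hb =>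
    (mem_filter.1 (mem_sdiff.1 (hf b hb)).1).2
  have hfA : ∀ b ∈ A, f b ∉ A := fun b hb => (mem_sdiff.1 (hf b hb)).2
  obtain ⟨U, hU, hUs⟩ := exists_split A f hfi hfA (fun b => I.mimU r a0 (jm b))
    (fun b => I.off r (f b) a0 (g b)) (fun a => I.off r a a (ch a))
  set Rst := (A ∪ A.image f)ᶜ with hRst
  have hRA : ∀ a ∈ Rst, a ∉ A := fun a ha h => (mem_compl.1 ha) (mem_union_left _ h)
  have hdis : Disjoint (A.image f) Rst := by
    rw [Finset.disjoint_left]
    intro a ha h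
    exact (mem_compl.1 h) (mem_union_right _ ha)
  have hsub : A.image f ∪ Rst ⊆ Aᶜ := by
    intro a ha
    rw [mem_compl]
    rcases mem_union.1 ha with h | h
    · obtain ⟨b, hb, rfl⟩ := mem_image.1 h
      exact hfA b hb
    · exact hRA a h
  -- exact positions
  have hexact : ∀ t ∈ W, ∑ a, U a t ≤ t := by
    intro t ht
    obtain ⟨u, hu, htu, g', hg', hu1, hu2⟩ := hcov t ht
    have huW := (hRW u hu).1
    have e1 : ∑ b ∈ A, I.mimU r a0 (jm b) t ≤ ∑ a ∈ A.image f, I.Ub r a a (ch a) u := by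
      rw [Finset.sum_image hfi]
      refine Finset.sum_le_sum fun b hb => (I.mimU_mono r a0 (jm b) htu).trans ?_
      rw [I.Ub_eq_countP r (f b) (f b), hfp b hb, ← I.Ub_eq_countP, hG.Ub_eq (hfT b hb) _ huW]
      exact mimU_le_Ub a0 (jm b) fun p hp h =>
        hjm3 b p hp (mem_union_right _ (mem_biUnion.2 ⟨u, hu, h⟩))
    have e2 : ∑ b ∈ A, I.off r (f b) a0 (g b) t ≤ ∑ j ∈ J, I.off r a0 a0 j t := by
      calc _ = ∑ b ∈ A, I.off r a0 a0 (g b) t := Finset.sum_congr rfl fun b hb => by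
            unfold off
            have h1 := hG.start _ (hfT b hb)
            have h2 := hle_th t ht
            rw [hG.Ub_eq (hfT b hb) _ ht, show t - I.T r (f b) = t - I.T r a0 by omega]
        _ = ∑ j ∈ A.image g, I.off r a0 a0 j t :=
            (Finset.sum_image (f := fun j => I.off r a0 a0 j t) hgi).symm
        _ ≤ _ := Finset.sum_le_sum_of_subset fun j hj => by
            obtain ⟨b, hb, rfl⟩ := mem_image.1 hj
            exact hg b hb
    have e2' : ∑ j ∈ J, I.off r a0 a0 j t ≤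
        ∑ j ∈ J, (if j ∈ J0 then 0 else I.Ub r a0 a0 j u) + ∑ j ∈ J0, I.off r a0 a0 j t := by
      refine le_trans ?_ (Nat.add_le_add_left
        (sum_le_sum_of_subset (inter_subset_right (s₁ := J))) _)
      rw [← sum_ite_mem, ← sum_add_distrib]
      refine sum_le_sum fun j _ => ?_
      split_ifs with hj
      · omega
      · have h1 : I.sig r a0 j * ((th - I.T r a0 : ℕ) : ℝ) < 1 := by
          by_contra hcon
          exact hj (mem_union_right _ (mem_filter.2 ⟨mem_univ _, not_lt.1 hcon⟩))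
        have h3 := hle_th t ht
        have h2 : I.sig r a0 j * ((t - I.T r a0 : ℕ) : ℝ) ≤
            I.sig r a0 j * ((th - I.T r a0 : ℕ) : ℝ) :=
          mul_le_mul_of_nonneg_left (Nat.cast_le.2 (by omega)) (I.sig_nonneg hr a0 j)
        unfold off
        rw [Nat.floor_eq_zero.2 (h2.trans_lt h1)]
        exact I.Ub_mono r a0 a0 j htu
    have e3 : ∑ a ∈ Rst, I.off r a a (ch a) t ≤ ∑ a ∈ Rst, I.Ub r a a (ch a) u :=
      Finset.sum_le_sum fun a ha => (off_own_eq hr (hnf a (hRA a ha)) (hle_th t ht)).trans_le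
        (I.Ub_mono r a a (ch a) htu)
    have e4 : ∑ a ∈ A.image f, I.Ub r a a (ch a) u + ∑ a ∈ Rst, I.Ub r a a (ch a) u ≤
        ∑ a ∈ Aᶜ, I.Ub r a a (ch a) u := by
      rw [← Finset.sum_union hdis]
      exact Finset.sum_le_sum_of_subset hsub
    have e5 := hcap' u hu
    have e6 := window_cap hr a0 J0 (t := t) (u := u) fun p h1 h2 h3 =>
      mem_union_left _ (mem_image_of_mem _
        (mem_filter.2 ⟨mem_range.2 h3, g', hg', by omega, by omega⟩))
    rw [hUs t]
    omega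
  have hdust := (hG.toGroup hr).dust_total hr (64 * r) hfT hgi hAF hX0
    (le_trans (Nat.mul_le_mul_right _ (Nat.mul_le_mul_right _ (by norm_num))) hX3)
  have hphi := fun t ht hSt => phi_bound hS hr hn hR hdust (t := t) ht hSt
  have hown : ∀ t, ∑ a ∈ Rst, (I.off r a a (ch a) t : ℝ) ≤
      ∑ a ∈ Rst, (I.Ub r a a (ch a) t : ℝ) + I.Dust r Sel (64 * r) E th ch t := by
    intro t
    refine (Finset.sum_le_sum fun a ha => off_own_le hr (hnf a (hRA a ha)) t).trans ?_
    rw [Finset.sum_add_distrib]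
    gcongr
    exact Finset.sum_le_sum_of_subset_of_nonneg (subset_univ _) fun a _ _ =>
      mul_nonneg (I.sg_nonneg Sel hr _ _ _ _ _) (by positivity)
  have hhold : ∀ t, ∑ b ∈ A, (I.off r (f b) a0 (g b) t : ℝ) ≤
      ∑ b ∈ A, (I.Ub r (f b) a0 (g b) t : ℝ) + I.Ex r a0 A f g t := by
    intro t
    refine (Finset.sum_le_sum fun b _ => off_le hr (f b) a0 (g b) t).trans ?_
    rw [Finset.sum_add_distrib]
    rfl
  have hUs' : ∀ t, ((∑ a, U a t : ℕ) : ℝ) = ∑ b ∈ A, (I.mimU r a0 (jm b) t : ℝ) +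
      ∑ b ∈ A, (I.off r (f b) a0 (g b) t : ℝ) + ∑ a ∈ Rst, (I.off r a a (ch a) t : ℝ) := by
    intro t
    rw [hUs t]; push_cast; rfl
  have hBB : ∀ t, (I.BB r ch t : ℝ) = ∑ a, (I.Ub r a a (ch a) t : ℝ) := fun t => by
    unfold BB; push_cast; rfl
  have hAF' : (A.card : ℝ) ≤ F := by exact_mod_cast hAF
  refine ⟨U, fun a => ?_, fun t ht => ?_, fun a => ?_⟩
  · rcases hU a with ⟨-, h⟩ | ⟨b, -, -, h⟩ | ⟨-, h⟩ <;> rw [h]
    · exact I.mimU_mono r _ _
    · exact I.off_mono hr _ _ _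
    · exact I.off_mono hr _ _ _
  · by_cases htW : t ∈ W
    · exact hexact t htW
    have goal : ((∑ a, U a t : ℕ) : ℝ) ≤ t → ∑ a, U a t ≤ t := fun h => by exact_mod_cast h
    apply goal
    by_cases htX : I.S r t < X
    · -- annulus
      obtain ⟨h1, g', hg', h2, h3, h4, h5⟩ := hS.annulus hn (E := E) (E' := E') (X := X)
        (by
          have : 16 * (univ.filter (I.unclean r Sel E X)).card ≤ n :=
            le_trans (Nat.mul_le_mul (by omega) (Nat.le_add_right _ _)) hsc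
          omega) (by omega) hX1 ht htX htW
      set t1 := g' + 4 * E with ht1
      have hE'' : ((4 * E + 2 * (64 * r * 2 ^ k0) + 12 * r * (5 * E + 28 * r * (r ^ 2 + 1)) : ℕ) :
        ℝ) ≤ E' := Nat.cast_le.2 hE'
      have p1 : (0 : ℝ) ≤ ((64 * r * 2 ^ k0 : ℕ) : ℝ) := by positivity
      have p2 : (0 : ℝ) ≤ 12 * r * (5 * E + 28 * r * (r ^ 2 + 1)) := by positivity
      rw [Nat.cast_add, Nat.cast_add, Nat.cast_mul 2] at hE''
      generalize ((64 * r * 2 ^ k0 : ℕ) : ℝ) = S0 at hE'' p1 hphi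
      push_cast at hE''
      have e0 := hphi t ht (by linarith)
      have e1 : 5 * E + 28 * r * (r ^ 2 + 1) ≤ I.S r t / (6 * r) := by
        rw [le_div_iff₀ (by positivity)]; linarith
      have e2 := hR.base g' hg'
      have e3 : ((∑ a, U a t1 : ℕ) : ℝ) ≤ t1 := by exact_mod_cast hexact t1 h2
      have e4 : ∑ b ∈ A, (I.mimU r a0 (jm b) t : ℝ) = ∑ b ∈ A, (I.mimU r a0 (jm b) t1 : ℝ) := by
        refine Finset.sum_congr rfl fun b _ => ?_
        unfold mimU
        congr 2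
        refine filter_congr fun p hp => ⟨fun h => ?_, fun h => h.trans h3⟩
        by_contra hcon
        exact hjm3 b p hp (mem_union_left _ (mem_filter.2
          ⟨(mem_filter.1 hp).1, h5 (p + 1) (by omega) h⟩))
      have e5 : ∑ b ∈ A, (I.Ub r (f b) a0 (g b) t : ℝ) ≤
          ∑ b ∈ A, (I.off r (f b) a0 (g b) t1 : ℝ) := by
        refine Finset.sum_le_sum fun b hb => Nat.cast_le.2 (le_trans (le_of_eq ?_)
          (Nat.le_add_right _ _))
        unfold Ub
        congr 1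
        refine filter_congr fun p hp => ⟨fun h => ?_, fun h => h.trans h3⟩
        by_contra hcon
        exact hG.clean _ (hfT b hb) ⟨_, I.tau_lev_mem r (f b) a0
          (mem_range.1 (mem_filter.1 hp).1), h5 _ (by omega) h⟩
      have e6 : ∑ a ∈ Rst, (I.Ub r a a (ch a) t1 : ℝ) ≤ ∑ a ∈ Rst, (I.off r a a (ch a) t1 : ℝ) :=
        Finset.sum_le_sum fun a _ => Nat.cast_le.2 (Nat.le_add_right _ _)
      have e7 : ∑ a ∈ Rst, ((I.Ub r a a (ch a) t : ℝ) - I.Ub r a a (ch a) t1) ≤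
          ∑ a, ((I.Ub r a a (ch a) t : ℝ) - I.Ub r a a (ch a) t1) :=
        Finset.sum_le_sum_of_subset_of_nonneg (subset_univ _) fun a _ _ =>
          sub_nonneg.2 (Nat.cast_le.2 (I.Ub_mono r a a (ch a) h3))
      rw [Finset.sum_sub_distrib, Finset.sum_sub_distrib, ← hBB, ← hBB] at e7
      rw [hUs'] at e3 ⊢
      linarith [hown t, hhold t]
    · -- far positions
      rw [not_lt] at htX
      have e0 := hphi t ht (le_trans (Nat.cast_le.2 hX2) htX)
      have e1 : ∑ b ∈ A, (I.mimU r a0 (jm b) t : ℝ) ≤ F * (r + 1 + t / n) := by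
        calc _ ≤ ∑ _b ∈ A, (r + 1 + t / n : ℝ) := Finset.sum_le_sum fun b _ => I.mimU_le hr _ _ _
          _ = A.card * (r + 1 + t / n) := by rw [sum_const, nsmul_eq_mul]
          _ ≤ _ := by gcongr
      have e2 : ∑ b ∈ A, (I.Ub r (f b) a0 (g b) t : ℝ) ≤ F * r := by
        calc _ ≤ ∑ _b ∈ A, (r : ℝ) :=
              Finset.sum_le_sum fun b _ => Nat.cast_le.2 (I.Ub_le hr _ _ _ _)
          _ = A.card * r := by simp
          _ ≤ _ := by gcongr
      have e3 : ∑ a ∈ Rst, (I.Ub r a a (ch a) t : ℝ) ≤ I.BB r ch t := by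
        rw [hBB]
        exact Finset.sum_le_sum_of_subset_of_nonneg (subset_univ _) fun a _ _ => by positivity
      have e4 : (t : ℝ) / n ≤ r + I.S r t / n := by
        have := I.le_S hr hn t
        rw [div_le_iff₀ hn', add_mul, div_mul_cancel₀ _ hn'.ne']
        linarith
      have e5 : F * (I.S r t / n) ≤ I.S r t / (12 * r) := by
        have : (12 * r * F : ℝ) ≤ n := by exact_mod_cast hn1
        rw [← mul_div_assoc, div_le_div_iff₀ hn' (by positivity)]
        nlinarith [I.S_nonneg r t]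
      have e6 : F * (3 * r + 1) ≤ I.S r t / (12 * r) := by
        have : (48 * r ^ 2 * F : ℝ) ≤ X := by exact_mod_cast hX3
        rw [le_div_iff₀ (by positivity)]
        have h0 : (0 : ℝ) ≤ F := by positivity
        nlinarith [mul_nonneg (mul_nonneg h0 hr'.le) (sub_nonneg.2 hr1)]
      have e7 : I.S r t / (6 * r) = I.S r t / (12 * r) + I.S r t / (12 * r) := by ring
      have e8 : (F : ℝ) * (r + 1 + t / n) ≤ F * (r + 1 + (r + I.S r t / n)) := by gcongr
      rw [hUs']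
      linarith [hown t, hhold t]
  · rcases hU a with ⟨-, h⟩ | ⟨b, hb, rfl, h⟩ | ⟨-, h⟩ <;> rw [h]
    · rw [I.val_mimU]
      refine le_trans ?_ (hjm1 a)
      have : (1 : ℝ) / r ≤ 3 / r := by gcongr; norm_num
      linarith
    · refine I.val_off hr _ _ _ (hG.dust _ (hfT b hb)) fun p hp => ?_
      have h1 := hG.tau _ (hfT b hb) _ (I.lev_le r a0 p) 0 hW0
      have h2 := I.lt_tau_lev r a0 (hp.trans_le (I.T_le_m r a0))
      omega
    · refine I.val_off hr _ _ _ le_rfl fun p hp => ?_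
      have h2 := I.lt_tau_lev r a (hp.trans_le (I.T_le_m r a))
      omega

end Inst

end Pool.Agent.Lib.MP_5049a2_lc
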