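import Mathlib

/-!
A two-type instance with a doubling chain of goods: local analysis of the bundles.
-/

namespace Pool.Agent.Lib.MP_5049a2_lc.H7

open Finset

/-- Classes of goods. -/
inductive K : Type
  | g (j : ℕ) | G (j : ℕ) | h (j : ℕ) | H (j : ℕ) | k (j : ℕ) | r | rp | e | ka | kp | z | O

/-- Coarse value. -/
def cc : K → ℤ
  | .g _ => 33 | .G _ => 31 | .h _ => 187 | .H _ => 184 | .k _ => 59 | .r => 53 | .rp => 58
  | .e => 20 | .ka => 27 | .kp => 30 | .z => 137 | .O => 273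

/-- Indicator of the anchors. -/
def an : K → ℤ
  | .h _ => 1 | .H _ => 1 | .z => 1 | .O => 1 | _ => 0

/-- Indicator of the good `k 0`. -/
def k0 : K → ℤ
  | .k j => if j = 0 then 1 else 0 | _ => 0

/-- Anchors free for the second type. -/
def t2 : K → ℤ
  | .H j => if j = 0 then 1 else 0 | .z => 1 | .O => 1 | _ => 0

/-- Anchors free for the first type. -/
def t1 : K → ℤ
  | .h j => if j = 0 then 1 else 0 | .z => 1 | .O => 1 | _ => 0

/-- Indicator of `h 0`. -/
def h0 : K → ℤ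
  | .h j => if j = 0 then 1 else 0 | _ => 0

/-- Indicator of `H 0`. -/
def H0 : K → ℤ
  | .H j => if j = 0 then 1 else 0 | _ => 0

/-- Fine value for the first type. -/
def f1 (d : ℕ) : K → ℤ
  | .g j => 2 * d + 2 - j | .G j => -(d + j) | .h j => -(4 * d + 2 - 2 * j) | .H j => d + j
  | .k j => if j = 0 then 5 * d + 1 else 4 * d + 2 - 2 * j
  | .kp => -(6 * d + 1) | .z => 6 * d + 1 | _ => 0

/-- Fine value for the second type. -/
def f2 (d : ℕ) : K → ℤ
  | .g j => -(d + j) | .G j => 2 * d + 2 - j | .h j => d + j | .H j => -(4 * d + 2 - 2 * j)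
  | .k j => if j = 0 then -d else -(2 * d) + 1 - 2 * j
  | .kp => 6 * d + 1 | _ => 0

/-- The weights of the levels. -/
def y (d j : ℕ) : ℤ := 2 ^ (d + 1 - j)

/-- First potential. -/
def p1 (d : ℕ) : K → ℤ
  | .g j => 4 * y d j - 1 | .h j => -(4 * y d j - 2)
  | .k j => if j = 0 then 2 * y d 0 + 2 else 4 * y d j - 2
  | .G j => 2 * y d j + 1
  | .H j => if j = 0 then -(2 * y d 0 + 2) else -(2 * y d j + 1)
  | _ => 0

/-- Second potential. -/
def p2 (d : ℕ) : K → ℤ
  | .G j => 4 * y d j - 1 | .H j => -(4 * y d j - 2)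
  | .k j => if j = 0 then 2 * y d 0 + 2 else 4 * y d j - 2
  | .g j => 2 * y d j + 1
  | .h j => if j = 0 then -(2 * y d 0 + 2) else -(2 * y d j + 1)
  | _ => 0

/-- The levels that occur. -/
def valid (d : ℕ) : K → Prop
  | .g j => 1 ≤ j ∧ j ≤ d | .G j => 1 ≤ j ∧ j ≤ d | .h j => j ≤ d | .H j => j ≤ d
  | .k j => j ≤ d | _ => True

/-- Sum of a weight over a multiset of classes. -/
def W (w : K → ℤ) (s : Multiset K) : ℤ := (s.map w).sum

@[simp] lemma W_zero (w : K → ℤ) : W w 0 = 0 := by simp [W]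
@[simp] lemma W_cons (w : K → ℤ) (x : K) (s : Multiset K) : W w (x ::ₘ s) = w x + W w s := by
  simp [W]
@[simp] lemma W_single (w : K → ℤ) (x : K) : W w {x} = w x := by simp [W]
@[simp] lemma W_add (w : K → ℤ) (s t : Multiset K) : W w (s + t) = W w s + W w t := by simp [W]
@[simp] lemma W_nsmul (w : K → ℤ) (n : ℕ) (s : Multiset K) : W w (n • s) = n * W w s := by
  simp [W, Multiset.map_nsmul, Multiset.sum_nsmul]
lemma W_sum (w : K → ℤ) {ι : Type*} (t : Finset ι) (s : ι → Multiset K) :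
    W w (∑ i ∈ t, s i) = ∑ i ∈ t, W w (s i) := by
  classical
  induction t using Finset.induction_on with
  | empty => simp
  | insert a t ha ih => simp [Finset.sum_insert ha, ih]

lemma y_pos (d j : ℕ) : 1 ≤ y d j := by unfold y; exact one_le_pow₀ (by norm_num)

lemma y_two {d j : ℕ} (h : j ≤ d) : 2 ≤ y d j := by
  unfold y
  calc (2 : ℤ) = 2 ^ 1 := by norm_num
    _ ≤ _ := pow_le_pow_right₀ (by norm_num) (by omega)

lemma y_anti (d : ℕ) {i j : ℕ} (h : i ≤ j) : y d j ≤ y d i := by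
  unfold y; exact pow_le_pow_right₀ (by norm_num) (by omega)

lemma y_succ {d j : ℕ} (h : j ≤ d) : y d j = 2 * y d (j + 1) := by
  unfold y
  rw [show d + 1 - j = (d + 1 - (j + 1)) + 1 by omega, pow_succ]; ring

lemma y_zero {d l : ℕ} (h1 : 1 ≤ l) : 2 * y d l ≤ y d 0 := by
  have := y_succ (d := d) (j := 0) (Nat.zero_le _)
  have := y_anti d (i := 0 + 1) (j := l) h1
  omega

lemma y_pair {d a b l : ℕ} (hl : l ≤ d) (h : a + b ≤ 2 * l + 2) : y d l ≤ y d a + y d b := by
  have ha := y_pos d a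
  have hb := y_pos d b
  by_cases h1 : a ≤ l
  · have := y_anti d h1; omega
  by_cases h2 : b ≤ l
  · have := y_anti d h2; omega
  have e1 : a = l + 1 := by omega
  have e2 : b = l + 1 := by omega
  subst e1 e2
  have := y_succ hl
  omega

/-- A multiset of non-anchor classes, sorted by kind. -/
lemma decomp (s : Multiset K) (hs : ∀ x ∈ s, an x = 0) :
    ∃ (a b c : Multiset ℕ) (n1 n2 n3 n4 n5 : ℕ),
      s = a.map K.g + b.map K.G + c.map K.k + n1 • {K.r} + n2 • {K.rp} + n3 • {K.e}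
        + n4 • {K.ka} + n5 • {K.kp} := by
  induction s using Multiset.induction_on with
  | empty => exact ⟨0, 0, 0, 0, 0, 0, 0, 0, by simp⟩
  | cons x s ih =>
    obtain ⟨a, b, c, n1, n2, n3, n4, n5, rfl⟩ :=
      ih fun u hu => hs u (Multiset.mem_cons_of_mem hu)
    have hx := hs x (Multiset.mem_cons_self _ _)
    cases x with
    | g j => exact ⟨j ::ₘ a, b, c, n1, n2, n3, n4, n5, by
        rw [Multiset.map_cons]; simp only [← Multiset.singleton_add]; abel⟩
    | G j => exact ⟨a, j ::ₘ b, c, n1, n2, n3, n4, n5, by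
        rw [Multiset.map_cons]; simp only [← Multiset.singleton_add]; abel⟩
    | k j => exact ⟨a, b, j ::ₘ c, n1, n2, n3, n4, n5, by
        rw [Multiset.map_cons]; simp only [← Multiset.singleton_add]; abel⟩
    | r => exact ⟨a, b, c, n1 + 1, n2, n3, n4, n5, by
        simp only [← Multiset.singleton_add, succ_nsmul]; abel⟩
    | rp => exact ⟨a, b, c, n1, n2 + 1, n3, n4, n5, by
        simp only [← Multiset.singleton_add, succ_nsmul]; abel⟩
    | e => exact ⟨a, b, c, n1, n2, n3 + 1, n4, n5, by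
        simp only [← Multiset.singleton_add, succ_nsmul]; abel⟩
    | ka => exact ⟨a, b, c, n1, n2, n3, n4 + 1, n5, by
        simp only [← Multiset.singleton_add, succ_nsmul]; abel⟩
    | kp => exact ⟨a, b, c, n1, n2, n3, n4, n5 + 1, by
        simp only [← Multiset.singleton_add, succ_nsmul]; abel⟩
    | h j => simp [an] at hx
    | H j => simp [an] at hx
    | z => simp [an] at hx
    | O => simp [an] at hx

lemma W_map_const (w : K → ℤ) (φ : ℕ → K) (c : ℤ) (hc : ∀ j, w (φ j) = c) (a : Multiset ℕ) :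
    W w (a.map φ) = c * a.card := by
  induction a using Multiset.induction_on with
  | empty => simp
  | cons x a ih => simp [ih, hc]; ring

lemma arith86 (a b c n1 n2 n3 n4 n5 : ℕ)
    (h : 33 * a + 31 * b + 59 * c + 53 * n1 + 58 * n2 + 20 * n3 + 27 * n4 + 30 * n5 = 86) :
    b = 0 ∧ n2 = 0 ∧ n5 = 0 ∧
      ((a = 2 ∧ c = 0 ∧ n1 = 0 ∧ n3 = 1 ∧ n4 = 0) ∨ (a = 1 ∧ c = 0 ∧ n1 = 1 ∧ n3 = 0 ∧ n4 = 0) ∨
        (a = 0 ∧ c = 1 ∧ n1 = 0 ∧ n3 = 0 ∧ n4 = 1)) := by
  have : a ≤ 2 := by omega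
  have : b ≤ 2 := by omega
  have : c ≤ 1 := by omega
  have : n1 ≤ 1 := by omega
  have : n2 ≤ 1 := by omega
  have : n4 ≤ 3 := by omega
  have : n5 ≤ 2 := by omega
  interval_cases a <;> interval_cases b <;> interval_cases c <;> interval_cases n1 <;>
    interval_cases n2 <;> interval_cases n4 <;> interval_cases n5 <;> omega

lemma arith89 (a b c n1 n2 n3 n4 n5 : ℕ)
    (h : 33 * a + 31 * b + 59 * c + 53 * n1 + 58 * n2 + 20 * n3 + 27 * n4 + 30 * n5 = 89) :
    a = 0 ∧ n1 = 0 ∧ n3 = 0 ∧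
      ((b = 2 ∧ c = 0 ∧ n2 = 0 ∧ n4 = 1 ∧ n5 = 0) ∨ (b = 1 ∧ c = 0 ∧ n2 = 1 ∧ n4 = 0 ∧ n5 = 0) ∨
        (b = 0 ∧ c = 1 ∧ n2 = 0 ∧ n4 = 0 ∧ n5 = 1)) := by
  have : a ≤ 2 := by omega
  have : b ≤ 2 := by omega
  have : c ≤ 1 := by omega
  have : n1 ≤ 1 := by omega
  have : n2 ≤ 1 := by omega
  have : n4 ≤ 3 := by omega
  have : n5 ≤ 2 := by omega
  interval_cases a <;> interval_cases b <;> interval_cases c <;> interval_cases n1 <;>
    interval_cases n2 <;> interval_cases n4 <;> interval_cases n5 <;> omega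

lemma cc_decomp (a b c : Multiset ℕ) (n1 n2 n3 n4 n5 : ℕ) :
    W cc (a.map K.g + b.map K.G + c.map K.k + n1 • {K.r} + n2 • {K.rp} + n3 • {K.e}
        + n4 • {K.ka} + n5 • {K.kp}) =
      33 * a.card + 31 * b.card + 59 * c.card + 53 * n1 + 58 * n2 + 20 * n3 + 27 * n4
        + 30 * n5 := by
  simp only [W_add, W_nsmul, W_single, W_map_const cc K.g 33 (fun _ => rfl),
    W_map_const cc K.G 31 (fun _ => rfl), W_map_const cc K.k 59 (fun _ => rfl), cc]
  ring

lemma shape86 (s : Multiset K) (hs : ∀ x ∈ s, an x = 0) (h : W cc s = 86) :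
    (∃ a b, s = {K.g a, K.g b, K.e}) ∨ (∃ a, s = {K.g a, K.r}) ∨ (∃ a, s = {K.k a, K.ka}) := by
  obtain ⟨a, b, c, n1, n2, n3, n4, n5, rfl⟩ := decomp s hs
  rw [cc_decomp] at h
  obtain ⟨hb, rfl, rfl, h'⟩ := arith86 a.card b.card c.card n1 n2 n3 n4 n5 (by omega)
  rw [Multiset.card_eq_zero] at hb
  subst hb
  rcases h' with ⟨ha, hc, rfl, rfl, rfl⟩ | ⟨ha, hc, rfl, rfl, rfl⟩ | ⟨ha, hc, rfl, rfl, rfl⟩
  · obtain ⟨u, v, rfl⟩ := Multiset.card_eq_two.1 ha
    rw [Multiset.card_eq_zero] at hc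
    subst hc
    exact Or.inl ⟨u, v, by simp [← Multiset.singleton_add, add_assoc]⟩
  · obtain ⟨u, rfl⟩ := Multiset.card_eq_one.1 ha
    rw [Multiset.card_eq_zero] at hc
    subst hc
    exact Or.inr (Or.inl ⟨u, by simp⟩)
  · obtain ⟨u, rfl⟩ := Multiset.card_eq_one.1 hc
    rw [Multiset.card_eq_zero] at ha
    subst ha
    exact Or.inr (Or.inr ⟨u, by simp⟩)

lemma shape89 (s : Multiset K) (hs : ∀ x ∈ s, an x = 0) (h : W cc s = 89) :
    (∃ a b, s = {K.G a, K.G b, K.ka}) ∨ (∃ a, s = {K.G a, K.rp}) ∨ (∃ a, s = {K.k a, K.kp}) := by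
  obtain ⟨a, b, c, n1, n2, n3, n4, n5, rfl⟩ := decomp s hs
  rw [cc_decomp] at h
  obtain ⟨hb, rfl, rfl, h'⟩ := arith89 a.card b.card c.card n1 n2 n3 n4 n5 (by omega)
  rw [Multiset.card_eq_zero] at hb
  subst hb
  rcases h' with ⟨ha, hc, rfl, rfl, rfl⟩ | ⟨ha, hc, rfl, rfl, rfl⟩ | ⟨ha, hc, rfl, rfl, rfl⟩
  · obtain ⟨u, v, rfl⟩ := Multiset.card_eq_two.1 ha
    rw [Multiset.card_eq_zero] at hc
    subst hc
    exact Or.inl ⟨u, v, by simp [← Multiset.singleton_add, add_assoc]⟩
  · obtain ⟨u, rfl⟩ := Multiset.card_eq_one.1 ha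
    rw [Multiset.card_eq_zero] at hc
    subst hc
    exact Or.inr (Or.inl ⟨u, by simp⟩)
  · obtain ⟨u, rfl⟩ := Multiset.card_eq_one.1 hc
    rw [Multiset.card_eq_zero] at ha
    subst ha
    exact Or.inr (Or.inr ⟨u, by simp⟩)

lemma W_mono {w w' : K → ℤ} {s : Multiset K} (h : ∀ x ∈ s, w x ≤ w' x) : W w s ≤ W w' s :=
  Multiset.sum_map_le_sum_map _ _ h

lemma W_mul (c : ℤ) (w : K → ℤ) (s : Multiset K) : W (fun x => c * w x) s = c * W w s := by
  simp [W, Multiset.sum_map_mul_left]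

lemma W_addf (w w' : K → ℤ) (s : Multiset K) :
    W (fun x => w x + w' x) s = W w s + W w' s := by
  simp [W, Multiset.sum_map_add]

lemma W_nonneg {w : K → ℤ} {s : Multiset K} (h : ∀ x ∈ s, 0 ≤ w x) : 0 ≤ W w s := by
  have := W_mono (w := fun _ => 0) (w' := w) h
  simpa [W] using this

lemma an_nonneg (x : K) : 0 ≤ an x := by cases x <;> simp [an]

lemma anchor (s : Multiset K) (h : W an s = 1) :
    ∃ x t, s = x ::ₘ t ∧ an x = 1 ∧ ∀ u ∈ t, an u = 0 := by
  have h1 : ∃ x ∈ s, an x = 1 := by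
    by_contra hn
    push Not at hn
    have : W an s ≤ W (fun _ => 0) s := W_mono fun x hx => by
      have := hn x hx
      cases x <;> simp_all [an]
    simp [W] at this h
    omega
  obtain ⟨x, hx, hx1⟩ := h1
  obtain ⟨t, rfl⟩ := Multiset.exists_cons_of_mem hx
  refine ⟨x, t, rfl, hx1, fun u hu => ?_⟩
  obtain ⟨t', rfl⟩ := Multiset.exists_cons_of_mem hu
  have := W_nonneg (w := an) (s := t') fun x _ => an_nonneg x
  have := an_nonneg u
  simp only [W_cons] at h
  omega

lemma p1_nonneg (d : ℕ) {x : K} (hx : an x = 0) : 0 ≤ p1 d x := by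
  cases x <;> simp [an] at hx <;> simp only [p1, le_refl]
  · rename_i j; have := y_pos d j; omega
  · rename_i j; have := y_pos d j; omega
  · rename_i j; have := y_pos d j; have := y_pos d 0; split_ifs <;> omega

lemma p2_nonneg (d : ℕ) {x : K} (hx : an x = 0) : 0 ≤ p2 d x := by
  cases x <;> simp [an] at hx <;> simp only [p2, le_refl]
  · rename_i j; have := y_pos d j; omega
  · rename_i j; have := y_pos d j; omega
  · rename_i j; have := y_pos d j; have := y_pos d 0; split_ifs <;> omega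

/-- What an exact bundle accepted by its owner satisfies; `b` says that the owner has the
first type. -/
def Good (d : ℕ) (b : Prop) (s : Multiset K) : Prop :=
  ((W h0 s = 0 ∨ W k0 s = 0) → 0 ≤ W (p1 d) s ∧ (¬ b → W (p1 d) s = 0 → 1 ≤ W t2 s)) ∧
  ((W H0 s = 0 ∨ W k0 s = 0) → 0 ≤ W (p2 d) s ∧ (b → W (p2 d) s = 0 → 1 ≤ W t1 s))

lemma good_h1 (d : ℕ) (b : Prop) (l u v : ℕ) (hl : l ≤ d) (hu : 1 ≤ u) (hv : 1 ≤ v)
    (h1 : b → 0 ≤ W (f1 d) (K.h l ::ₘ {K.g u, K.g v, K.e}))
    (h2 : ¬ b → 0 ≤ W (f2 d) (K.h l ::ₘ {K.g u, K.g v, K.e})) :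
    Good d b (K.h l ::ₘ {K.g u, K.g v, K.e}) := by
  simp only [Good, Multiset.insert_eq_cons, W_cons, W_single, f1, f2, p1, p2, t1, t2, h0, H0,
    k0] at *
  have hb : b := by by_contra hb; have := h2 hb; omega
  have := h1 hb
  have := y_pair (d := d) (a := u) (b := v) hl (by omega)
  by_cases h : l = 0
  · subst h; simp only [if_true]; constructor <;> intro _ <;> constructor <;> intros <;>
      first | omega | contradiction
  · simp only [if_neg h]; constructor <;> intro _ <;> constructor <;> intros <;>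
      first | omega | contradiction

lemma good_h2 (d : ℕ) (b : Prop) (l u : ℕ) (hl : l ≤ d) (hu : 1 ≤ u)
    (h1 : b → 0 ≤ W (f1 d) (K.h l ::ₘ {K.g u, K.r}))
    (h2 : ¬ b → 0 ≤ W (f2 d) (K.h l ::ₘ {K.g u, K.r})) :
    Good d b (K.h l ::ₘ {K.g u, K.r}) := by
  simp only [Good, Multiset.insert_eq_cons, W_cons, W_single, f1, f2, p1, p2, t1, t2, h0, H0,
    k0] at *
  have hb : ¬ b := by intro hb; have := h1 hb; omega
  have := h2 hb
  have := y_anti d (i := u) (j := l) (by omega)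
  have h : l ≠ 0 := by omega
  simp only [if_neg h]; constructor <;> intro _ <;> constructor <;> intros <;>
      first | omega | contradiction

lemma good_h3 (d : ℕ) (b : Prop) (l u : ℕ) (hl : l ≤ d) (hu : u ≤ d)
    (h1 : b → 0 ≤ W (f1 d) (K.h l ::ₘ {K.k u, K.ka}))
    (h2 : ¬ b → 0 ≤ W (f2 d) (K.h l ::ₘ {K.k u, K.ka})) :
    Good d b (K.h l ::ₘ {K.k u, K.ka}) := by
  simp only [Good, Multiset.insert_eq_cons, W_cons, W_single, f1, f2, p1, p2, t1, t2, h0, H0,
    k0] at *
  by_cases hu0 : u = 0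
  · subst hu0
    by_cases h : l = 0
    · subst h; simp only [if_true]; constructor <;> intro _ <;> constructor <;> intros <;> omega
    · have := y_zero (d := d) (l := l) (by omega)
      have := y_pos d l
      simp only [if_neg h, if_true]; constructor <;> intro _ <;> constructor <;> intros <;> omega
  · simp only [if_neg hu0] at *
    have hb : b := by by_contra hb; have := h2 hb; omega
    have := h1 hb
    have := y_anti d (i := u) (j := l) (by omega)
    have := y_two hu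
    have h : l ≠ 0 := by omega
    simp only [if_neg h]; constructor <;> intro _ <;> constructor <;> intros <;>
      first | omega | contradiction

lemma good_H1 (d : ℕ) (b : Prop) (l u v : ℕ) (hl : l ≤ d) (hu : 1 ≤ u) (hv : 1 ≤ v)
    (h1 : b → 0 ≤ W (f1 d) (K.H l ::ₘ {K.G u, K.G v, K.ka}))
    (h2 : ¬ b → 0 ≤ W (f2 d) (K.H l ::ₘ {K.G u, K.G v, K.ka})) :
    Good d b (K.H l ::ₘ {K.G u, K.G v, K.ka}) := by
  simp only [Good, Multiset.insert_eq_cons, W_cons, W_single, f1, f2, p1, p2, t1, t2, h0, H0,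
    k0] at *
  have hb : ¬ b := by intro hb; have := h1 hb; omega
  have := h2 hb
  have := y_pair (d := d) (a := u) (b := v) hl (by omega)
  by_cases h : l = 0
  · subst h; simp only [if_true]; constructor <;> intro _ <;> constructor <;> intros <;>
      first | omega | contradiction
  · simp only [if_neg h]; constructor <;> intro _ <;> constructor <;> intros <;>
      first | omega | contradiction

lemma good_H2 (d : ℕ) (b : Prop) (l u : ℕ) (hl : l ≤ d) (hu : 1 ≤ u)
    (h1 : b → 0 ≤ W (f1 d) (K.H l ::ₘ {K.G u, K.rp}))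
    (h2 : ¬ b → 0 ≤ W (f2 d) (K.H l ::ₘ {K.G u, K.rp})) :
    Good d b (K.H l ::ₘ {K.G u, K.rp}) := by
  simp only [Good, Multiset.insert_eq_cons, W_cons, W_single, f1, f2, p1, p2, t1, t2, h0, H0,
    k0] at *
  have hb : b := by by_contra hb; have := h2 hb; omega
  have := h1 hb
  have := y_anti d (i := u) (j := l) (by omega)
  have h : l ≠ 0 := by omega
  simp only [if_neg h]; constructor <;> intro _ <;> constructor <;> intros <;>
      first | omega | contradiction

lemma good_H3 (d : ℕ) (b : Prop) (l u : ℕ) (hl : l ≤ d) (hu : u ≤ d)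
    (h1 : b → 0 ≤ W (f1 d) (K.H l ::ₘ {K.k u, K.kp}))
    (h2 : ¬ b → 0 ≤ W (f2 d) (K.H l ::ₘ {K.k u, K.kp})) :
    Good d b (K.H l ::ₘ {K.k u, K.kp}) := by
  simp only [Good, Multiset.insert_eq_cons, W_cons, W_single, f1, f2, p1, p2, t1, t2, h0, H0,
    k0] at *
  by_cases hu0 : u = 0
  · subst hu0
    by_cases h : l = 0
    · subst h; simp only [if_true]; constructor <;> intro _ <;> constructor <;> intros <;> omega
    · have := y_zero (d := d) (l := l) (by omega)
      have := y_pos d l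
      simp only [if_neg h, if_true]; constructor <;> intro _ <;> constructor <;> intros <;> omega
  · simp only [if_neg hu0] at *
    have hb : ¬ b := by intro hb; have := h1 hb; omega
    have := h2 hb
    have := y_anti d (i := u) (j := l) (by omega)
    have := y_two hu
    have h : l ≠ 0 := by omega
    simp only [if_neg h]; constructor <;> intro _ <;> constructor <;> intros <;>
      first | omega | contradiction

lemma good_free (d : ℕ) (b : Prop) (x : K) (t : Multiset K) (ht : ∀ u ∈ t, an u = 0)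
    (hx : x = K.z ∨ x = K.O) : Good d b (x ::ₘ t) := by
  have a1 := W_nonneg (w := p1 d) (s := t) fun u hu => p1_nonneg d (ht u hu)
  have a2 := W_nonneg (w := p2 d) (s := t) fun u hu => p2_nonneg d (ht u hu)
  have a3 := W_nonneg (w := t1) (s := t) fun u _ => by
    cases u <;> simp only [t1, le_refl, zero_le_one]; split_ifs <;> omega
  have a4 := W_nonneg (w := t2) (s := t) fun u _ => by
    cases u <;> simp only [t2, le_refl, zero_le_one]; split_ifs <;> omega
  rcases hx with rfl | rfl <;> simp only [Good, W_cons] <;> simp only [p1, p2, t1, t2] <;>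
    constructor <;> intro _ <;> constructor <;> intros <;> omega

lemma good (d : ℕ) (b : Prop) (s : Multiset K) (hv : ∀ x ∈ s, valid d x) (hc : W cc s = 273)
    (ha : W an s = 1) (h1 : b → 0 ≤ W (f1 d) s) (h2 : ¬ b → 0 ≤ W (f2 d) s) : Good d b s := by
  obtain ⟨x, t, rfl, hx, ht⟩ := anchor s ha
  have hvx := hv x (Multiset.mem_cons_self _ _)
  have hvt : ∀ u ∈ t, valid d u := fun u hu => hv u (Multiset.mem_cons_of_mem hu)
  cases x with
  | h l =>
    have hc' : W cc t = 86 := by simp only [W_cons, cc] at hc; omega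
    rcases shape86 t ht hc' with ⟨u, v, rfl⟩ | ⟨u, rfl⟩ | ⟨u, rfl⟩
    · exact good_h1 d b l u v hvx (hvt (K.g u) (by simp)).1 (hvt (K.g v) (by simp)).1 h1 h2
    · exact good_h2 d b l u hvx (hvt (K.g u) (by simp)).1 h1 h2
    · exact good_h3 d b l u hvx (hvt (K.k u) (by simp)) h1 h2
  | H l =>
    have hc' : W cc t = 89 := by simp only [W_cons, cc] at hc; omega
    rcases shape89 t ht hc' with ⟨u, v, rfl⟩ | ⟨u, rfl⟩ | ⟨u, rfl⟩
    · exact good_H1 d b l u v hvx (hvt (K.G u) (by simp)).1 (hvt (K.G v) (by simp)).1 h1 h2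
    · exact good_H2 d b l u hvx (hvt (K.G u) (by simp)).1 h1 h2
    · exact good_H3 d b l u hvx (hvt (K.k u) (by simp)) h1 h2
  | z => exact good_free d b _ t ht (Or.inl rfl)
  | O => exact good_free d b _ t ht (Or.inr rfl)
  | g j => simp [an] at hx
  | G j => simp [an] at hx
  | k j => simp [an] at hx
  | r => simp [an] at hx
  | rp => simp [an] at hx
  | e => simp [an] at hx
  | ka => simp [an] at hx
  | kp => simp [an] at hx

end Pool.Agent.Lib.MP_5049a2_lc.H7
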