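import Pool.Agent.Lib.MP_5049a2_lc.H7Gap

/-!
A two-type instance with a doubling chain of goods: the counting argument and the two partitions.
-/

namespace Pool.Agent.Lib.MP_5049a2_lc.H7

open Finset

lemma f1_le (d : ℕ) {x : K} (hx : valid d x) : 5 * f1 d x ≤ (d + 1) * cc x := by
  cases x <;> simp only [f1, cc, valid] at * <;> omega

lemma f2_le (d : ℕ) {x : K} (hx : valid d x) : 5 * f2 d x ≤ (d + 1) * cc x := by
  cases x <;> simp only [f2, cc, valid] at * <;> omega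

lemma f1_ge (d : ℕ) {x : K} (hx : valid d x) : 0 ≤ 55 * (d + 1) * cc x + f1 d x := by
  cases x <;> simp only [f1, cc, valid] at * <;> omega

lemma f2_ge (d : ℕ) {x : K} (hx : valid d x) : 0 ≤ 55 * (d + 1) * cc x + f2 d x := by
  cases x <;> simp only [f2, cc, valid] at * <;> omega

lemma coarse (d : ℕ) (f : K → ℤ) (s : Multiset K) (hf : ∀ x ∈ s, 5 * f x ≤ (d + 1) * cc x)
    (h : 273 * (55 * (d + 1)) ≤ 55 * (d + 1) * W cc s + W f s) : 273 ≤ W cc s := by
  have h1 : W (fun x => 5 * f x) s ≤ W (fun x => ((d : ℤ) + 1) * cc x) s := W_mono hf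
  rw [W_mul, W_mul] at h1
  by_contra hn
  have h2 : W cc s ≤ 272 := by omega
  have h3 : ((d : ℤ) + 1) * W cc s ≤ (d + 1) * 272 :=
    mul_le_mul_of_nonneg_left h2 (by positivity)
  nlinarith

lemma all_eq {n : ℕ} (u : Fin n → ℤ) (c : ℤ) (h : ∀ i, c ≤ u i) (hs : ∑ i, u i = c * n) (i : Fin n) :
    u i = c := by
  have h1 : ∑ i, (u i - c) = 0 := by simp [sum_sub_distrib, hs, mul_comm]
  have := (sum_eq_zero_iff_of_nonneg (fun i _ => sub_nonneg.2 (h i))).1 h1 i (mem_univ i)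
  omega

lemma count_le {n : ℕ} (b : Fin n → Prop) [DecidablePred b] (u : Fin n → ℤ) (h : ∀ i, 0 ≤ u i)
    (h1 : ∀ i, b i → 1 ≤ u i) : ((univ.filter b).card : ℤ) ≤ ∑ i, u i := by
  calc ((univ.filter b).card : ℤ) = ∑ i ∈ univ.filter b, 1 := by simp
    _ ≤ ∑ i ∈ univ.filter b, u i := sum_le_sum fun i hi => h1 i (mem_filter.1 hi).2
    _ ≤ _ := sum_le_sum_of_subset_of_nonneg (filter_subset _ _) fun i _ _ => h i

theorem global (d n : ℕ) (b : Fin n → Prop) [DecidablePred b] (S : Fin n → Multiset K)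
    (T : Multiset K) (hS : ∑ i, S i = T) (hv : ∀ x ∈ T, valid d x) (hcc : W cc T = 273 * n)
    (han : W an T = n) (hk : W k0 T = 1) (hp1 : W (p1 d) T = 0) (hp2 : W (p2 d) T = 0)
    (ht1 : W t1 T < (univ.filter b).card) (ht2 : W t2 T < (univ.filter fun i => ¬ b i).card)
    (h1 : ∀ i, b i → 273 * (55 * (d + 1)) ≤ 55 * (d + 1) * W cc (S i) + W (f1 d) (S i))
    (h2 : ∀ i, ¬ b i → 273 * (55 * (d + 1)) ≤ 55 * (d + 1) * W cc (S i) + W (f2 d) (S i)) :
    False := by
  subst hS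
  simp only [W_sum] at hcc han hk hp1 hp2 ht1 ht2
  have hvS : ∀ i, ∀ x ∈ S i, valid d x := fun i x hx =>
    hv x (Multiset.mem_sum.2 ⟨i, mem_univ i, hx⟩)
  have hc : ∀ i, W cc (S i) = 273 := by
    refine all_eq _ 273 (fun i => ?_) hcc
    by_cases hb : b i
    · exact coarse d _ _ (fun x hx => f1_le d (hvS i x hx)) (h1 i hb)
    · exact coarse d _ _ (fun x hx => f2_le d (hvS i x hx)) (h2 i hb)
  have ha : ∀ i, W an (S i) = 1 := by
    intro i
    have := all_eq (fun i => - W an (S i)) (-1) (fun i => by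
      have h3 : W (fun x => 137 * an x) (S i) ≤ W cc (S i) := W_mono fun x _ => by
        cases x <;> simp [an, cc]
      rw [W_mul, hc i] at h3
      omega) (by simp [sum_neg_distrib, han]) i
    simpa using this
  have hg : ∀ i, Good d (b i) (S i) := fun i =>
    good d (b i) (S i) (hvS i) (hc i) (ha i)
      (fun hb => by have := h1 i hb; rw [hc i] at this; omega)
      (fun hb => by have := h2 i hb; rw [hc i] at this; omega)
  have nk : ∀ i, 0 ≤ W k0 (S i) := fun i => W_nonneg fun u _ => by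
    cases u <;> simp only [k0, le_refl]; split_ifs <;> omega
  have nh : ∀ i, 0 ≤ W h0 (S i) := fun i => W_nonneg fun u _ => by
    cases u <;> simp only [h0, le_refl]; split_ifs <;> omega
  have nH : ∀ i, 0 ≤ W H0 (S i) := fun i => W_nonneg fun u _ => by
    cases u <;> simp only [H0, le_refl]; split_ifs <;> omega
  have n1 : ∀ i, 0 ≤ W t1 (S i) := fun i => W_nonneg fun u _ => by
    cases u <;> simp only [t1, le_refl, zero_le_one]; split_ifs <;> omega
  have n2 : ∀ i, 0 ≤ W t2 (S i) := fun i => W_nonneg fun u _ => by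
    cases u <;> simp only [t2, le_refl, zero_le_one]; split_ifs <;> omega
  by_cases hA : ∀ i, W h0 (S i) = 0 ∨ W k0 (S i) = 0
  · have h3 := all_eq (fun i => W (p1 d) (S i)) 0 (fun i => ((hg i).1 (hA i)).1) (by simpa using hp1)
    have := count_le (fun i => ¬ b i) _ n2 fun i hb => ((hg i).1 (hA i)).2 hb (h3 i)
    omega
  · push Not at hA
    obtain ⟨i0, hi1, hi2⟩ := hA
    have hB : ∀ i, W H0 (S i) = 0 ∨ W k0 (S i) = 0 := by
      intro i
      by_cases hi : i = i0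
      · subst hi
        left
        have h3 : W (fun x => h0 x + H0 x) (S i) ≤ W an (S i) := W_mono fun x _ => by
          cases x <;> simp only [h0, H0, an] <;> omega
        rw [W_addf, ha i] at h3
        have := nh i
        have := nH i
        omega
      · right
        have h3 : ∑ j ∈ {i, i0}, W k0 (S j) ≤ ∑ j, W k0 (S j) :=
          sum_le_sum_of_subset_of_nonneg (subset_univ _) fun j _ _ => nk j
        rw [sum_pair hi] at h3
        have := nk i
        have := nk i0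
        omega
    have h3 := all_eq (fun i => W (p2 d) (S i)) 0 (fun i => ((hg i).2 (hB i)).1) (by simpa using hp2)
    have := count_le b _ n1 fun i hb => ((hg i).2 (hB i)).2 hb (h3 i)
    omega

/-- The bundles of the first partition. -/
def B1 (d : ℕ) (a c : ℕ → ℕ) (A s : ℕ) : Multiset (Multiset K) :=
  ∑ j ∈ range d, (a j • {{K.g (j + 1), K.g (j + 1), K.e, K.h j}}
    + (2 * a j) • {{K.G (j + 1), K.rp, K.H (j + 1)}} + c j • {{K.h (j + 1), K.k (j + 1), K.ka}})
  + {{K.H 0, K.k 0, K.kp}} + A • {{K.z, K.r, K.r, K.kp}} + s • {{K.O}}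

/-- The bundles of the second partition. -/
def B2 (d : ℕ) (a c : ℕ → ℕ) (A s : ℕ) : Multiset (Multiset K) :=
  ∑ j ∈ range d, (a j • {{K.G (j + 1), K.G (j + 1), K.ka, K.H j}}
    + (2 * a j) • {{K.g (j + 1), K.r, K.h (j + 1)}} + c j • {{K.H (j + 1), K.k (j + 1), K.kp}})
  + {{K.h 0, K.k 0, K.ka}} + A • {{K.z, K.rp, K.rp, K.e}} + s • {{K.O}}

lemma mem_B1 {d : ℕ} {a c : ℕ → ℕ} {A s : ℕ} {u : Multiset K} (h : u ∈ B1 d a c A s) :
    (∀ x ∈ u, valid d x) ∧ W cc u = 273 ∧ W an u = 1 ∧ W (f1 d) u = 0 ∧ W (p1 d) u = 0 := by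
  simp only [B1, Multiset.mem_add, Multiset.mem_sum, Multiset.mem_nsmul, Multiset.mem_singleton,
    mem_range] at h
  rcases h with ((⟨j, hj, (⟨-, rfl⟩ | ⟨-, rfl⟩) | ⟨-, rfl⟩⟩ | rfl) | ⟨-, rfl⟩) | ⟨-, rfl⟩
  · have := y_succ (d := d) (j := j) hj.le
    simp [valid, cc, an, f1, p1]; omega
  · simp [valid, cc, an, f1, p1]; omega
  · simp [valid, cc, an, f1, p1]; omega
  · simp [valid, cc, an, f1, p1]; omega
  · simp [valid, cc, an, f1, p1]
  · simp [valid, cc, an, f1, p1]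

lemma mem_B2 {d : ℕ} {a c : ℕ → ℕ} {A s : ℕ} {u : Multiset K} (h : u ∈ B2 d a c A s) :
    W cc u = 273 ∧ W (f2 d) u = 0 ∧ W (p2 d) u = 0 := by
  simp only [B2, Multiset.mem_add, Multiset.mem_sum, Multiset.mem_nsmul, Multiset.mem_singleton,
    mem_range] at h
  rcases h with ((⟨j, hj, (⟨-, rfl⟩ | ⟨-, rfl⟩) | ⟨-, rfl⟩⟩ | rfl) | ⟨-, rfl⟩) | ⟨-, rfl⟩
  · have := y_succ (d := d) (j := j) hj.le
    simp [cc, f2, p2]; omega
  · simp [cc, f2, p2]
  · simp [cc, f2, p2]; omega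
  · simp [cc, f2, p2]
  · simp [cc, f2, p2]
  · simp [cc, f2, p2]

lemma tele {M : Type*} [AddCommMonoid M] (d : ℕ) (a c : ℕ → ℕ) (h0 : a 0 = 1) (hd : a d = 0)
    (hc : ∀ j, c j + a (j + 1) = 2 * a j) (φ : ℕ → M) :
    ∑ j ∈ range d, a j • φ j + ∑ j ∈ range d, c j • φ (j + 1) =
      φ 0 + ∑ j ∈ range d, (2 * a j) • φ (j + 1) := by
  have h1 : ∑ j ∈ range d, a j • φ j = ∑ j ∈ range (d + 1), a j • φ j := by
    rw [sum_range_succ, hd]; simp
  rw [h1, sum_range_succ', h0, one_nsmul]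
  simp only [← hc, add_nsmul, sum_add_distrib]
  abel

lemma W_total (w : K → ℤ) (B : Multiset (Multiset K)) (c : ℤ) (h : ∀ u ∈ B, W w u = c) :
    W w B.sum = c * B.card := by
  induction B using Multiset.induction_on with
  | empty => simp
  | cons u B ih =>
    rw [Multiset.sum_cons, W_add, h u (Multiset.mem_cons_self _ _),
      ih fun v hv => h v (Multiset.mem_cons_of_mem hv)]
    simp; ring

section
variable {d : ℕ} {a c : ℕ → ℕ} {A s : ℕ}

lemma sum_c (h0 : a 0 = 1) (hd : a d = 0) (hc : ∀ j, c j + a (j + 1) = 2 * a j)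
    (hA : ∑ j ∈ range d, a j = A) : ∑ j ∈ range d, c j = A + 1 := by
  have := tele d a c h0 hd hc (fun _ => (1 : ℕ))
  simp only [smul_eq_mul, mul_one, ← mul_sum, hA] at this
  omega

lemma card_B1 (h0 : a 0 = 1) (hd : a d = 0) (hc : ∀ j, c j + a (j + 1) = 2 * a j)
    (hA : ∑ j ∈ range d, a j = A) : (B1 d a c A s).card = 5 * A + 2 + s := by
  have := sum_c h0 hd hc hA
  simp only [B1, Multiset.card_add, Multiset.card_sum, Multiset.card_nsmul,
    Multiset.card_singleton, mul_one, sum_add_distrib, ← mul_sum, hA, this]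
  omega

lemma card_B2 (h0 : a 0 = 1) (hd : a d = 0) (hc : ∀ j, c j + a (j + 1) = 2 * a j)
    (hA : ∑ j ∈ range d, a j = A) : (B2 d a c A s).card = 5 * A + 2 + s := by
  have := sum_c h0 hd hc hA
  simp only [B2, Multiset.card_add, Multiset.card_sum, Multiset.card_nsmul,
    Multiset.card_singleton, mul_one, sum_add_distrib, ← mul_sum, hA, this]
  omega

lemma sum_B1 : (B1 d a c A s).sum =
    ∑ j ∈ range d, (a j • ({K.g (j + 1)} + {K.g (j + 1)} + {K.e} + {K.h j})
      + (2 * a j) • ({K.G (j + 1)} + {K.rp} + {K.H (j + 1)})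
      + c j • ({K.h (j + 1)} + {K.k (j + 1)} + {K.ka}))
    + ({K.H 0} + {K.k 0} + {K.kp}) + A • ({K.z} + {K.r} + {K.r} + {K.kp}) + s • {K.O} := by
  simp only [B1, Multiset.sum_add, Multiset.sum_nsmul, Multiset.sum_singleton, Multiset.sum_sum,
    Multiset.insert_eq_cons, ← Multiset.singleton_add, add_assoc]

lemma sum_B2 : (B2 d a c A s).sum =
    ∑ j ∈ range d, (a j • ({K.G (j + 1)} + {K.G (j + 1)} + {K.ka} + {K.H j})
      + (2 * a j) • ({K.g (j + 1)} + {K.r} + {K.h (j + 1)})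
      + c j • ({K.H (j + 1)} + {K.k (j + 1)} + {K.kp}))
    + ({K.h 0} + {K.k 0} + {K.ka}) + A • ({K.z} + {K.rp} + {K.rp} + {K.e}) + s • {K.O} := by
  simp only [B2, Multiset.sum_add, Multiset.sum_nsmul, Multiset.sum_singleton, Multiset.sum_sum,
    Multiset.insert_eq_cons, ← Multiset.singleton_add, add_assoc]

lemma sum_eq (h0 : a 0 = 1) (hd : a d = 0) (hc : ∀ j, c j + a (j + 1) = 2 * a j)
    (hA : ∑ j ∈ range d, a j = A) : (B1 d a c A s).sum = (B2 d a c A s).sum := by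
  have hC := sum_c h0 hd hc hA
  have e1 := tele d a c h0 hd hc (fun j => ({K.h j} : Multiset K))
  have e2 := tele d a c h0 hd hc (fun j => ({K.H j} : Multiset K))
  rw [sum_B1, sum_B2]
  simp only [nsmul_add, sum_add_distrib, two_mul, add_nsmul, ← Finset.sum_smul, hA, hC,
    one_nsmul] at e1 e2 ⊢
  generalize ∑ j ∈ range d, a j • ({K.h j} : Multiset K) = x1 at *
  generalize ∑ j ∈ range d, c j • ({K.h (j + 1)} : Multiset K) = x2 at *
  generalize ∑ j ∈ range d, a j • ({K.h (j + 1)} : Multiset K) = x3 at *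
  generalize ∑ j ∈ range d, a j • ({K.H j} : Multiset K) = x4 at *
  generalize ∑ j ∈ range d, c j • ({K.H (j + 1)} : Multiset K) = x5 at *
  generalize ∑ j ∈ range d, a j • ({K.H (j + 1)} : Multiset K) = x6 at *
  generalize ∑ j ∈ range d, a j • ({K.g (j + 1)} : Multiset K) = x7 at *
  generalize ∑ j ∈ range d, a j • ({K.G (j + 1)} : Multiset K) = x8 at *
  generalize ∑ j ∈ range d, c j • ({K.k (j + 1)} : Multiset K) = x9 at *
  calc _ = (x1 + x2) + ({K.H 0} + (x6 + x6)) + (x7 + x7 + A • {K.e} + x8 + x8 + A • {K.rp}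
        + A • {K.rp} + x9 + A • {K.ka} + {K.ka} + {K.k 0} + {K.kp} + A • {K.z} + A • {K.r}
        + A • {K.r} + A • {K.kp} + s • {K.O}) := by abel
    _ = _ := by rw [e1, ← e2]; abel

lemma k0_B1 : W k0 (B1 d a c A s).sum = 1 := by
  rw [sum_B1]; simp [W_sum, k0]

lemma t2_B1 : W t2 (B1 d a c A s).sum = A + 1 + s := by
  rw [sum_B1]; simp [W_sum, t2]; ring

lemma t1_B2 : W t1 (B2 d a c A s).sum = A + 1 + s := by
  rw [sum_B2]; simp [W_sum, t1]; ring

end

lemma exists_seq (A : ℕ) (hA : 1 ≤ A) :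
    ∃ a c : ℕ → ℕ, a 0 = 1 ∧ a (Nat.log 2 A + 1) = 0 ∧ (∀ j, c j + a (j + 1) = 2 * a j) ∧
      ∑ j ∈ range (Nat.log 2 A + 1), a j = A := by
  have hlt : A < 2 ^ (Nat.log 2 A + 1) := Nat.lt_pow_succ_log_self (by norm_num) A
  refine ⟨fun j => min (2 ^ (j + 1) - 1) A - min (2 ^ j - 1) A,
    fun j => 2 * (min (2 ^ (j + 1) - 1) A - min (2 ^ j - 1) A)
      - (min (2 ^ (j + 1 + 1) - 1) A - min (2 ^ (j + 1) - 1) A), ?_, ?_, fun j => ?_, ?_⟩
  · simp; omega
  · simp only [pow_succ 2 (Nat.log 2 A + 1)]; omega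
  · have : 1 ≤ 2 ^ j := Nat.one_le_two_pow
    simp only [pow_succ]; omega
  · rw [sum_range_tsub (f := fun j => min (2 ^ j - 1) A)]
    · simp; omega
    · intro i j hij
      have : 2 ^ i ≤ 2 ^ j := Nat.pow_le_pow_right (by norm_num) hij
      simp only; omega

end Pool.Agent.Lib.MP_5049a2_lc.H7
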