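import Pool.Agent.Lib.MP_5049a2_lc.H7Gap2

/-!
A two-type instance with a doubling chain of goods: the instance itself.
-/

namespace Pool.Agent.Lib.MP_5049a2_lc.H7

open Finset

lemma split {ι J : Type*} [DecidableEq ι] [Fintype J] [DecidableEq J] [Nonempty J] (cl : ι → K)
    (t : Finset ι) : ∀ c : J → Multiset K, t.val.map cl = ∑ j, c j →
      ∃ P : ι → J, ∀ j, (t.filter fun g => P g = j).val.map cl = c j := by
  induction t using Finset.induction_on with
  | empty =>
    intro c hc
    refine ⟨fun _ => Classical.arbitrary J, fun j => ?_⟩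
    have := (Finset.sum_eq_zero_iff.1 (by simpa using hc.symm : ∑ j, c j = 0)) j (mem_univ j)
    simp [this]
  | insert a t ha ih =>
    intro c hc
    have h1 : cl a ∈ ∑ j, c j := by rw [← hc]; simp
    obtain ⟨j0, -, hj0⟩ := Multiset.mem_sum.1 h1
    obtain ⟨c', hc'⟩ := Multiset.exists_cons_of_mem hj0
    have h2 : t.val.map cl = ∑ j, Function.update c j0 c' j := by
      rw [insert_val_of_notMem ha, Multiset.map_cons, ← add_sum_erase _ _ (mem_univ j0), hc',
        Multiset.cons_add, Multiset.cons_inj_right] at hc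
      rw [hc, sum_update_of_mem (mem_univ j0), sdiff_singleton_eq_erase]
    obtain ⟨P, hP⟩ := ih _ h2
    refine ⟨Function.update P a j0, fun j => ?_⟩
    have h3 : (t.filter fun g => Function.update P a j0 g = j) = t.filter fun g => P g = j :=
      filter_congr fun g hg => by
        rw [Function.update_of_ne (ne_of_mem_of_not_mem hg ha)]
    rw [filter_insert, h3]
    by_cases hj : j0 = j
    · subst hj
      rw [if_pos (by simp), insert_val_of_notMem (fun h => ha (mem_filter.1 h).1),
        Multiset.map_cons, hP, hc']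
      simp
    · rw [if_neg (by simpa using hj), hP, Function.update_of_ne (Ne.symm hj)]

lemma exists_enum {α : Type*} (B : Multiset α) {n : ℕ} (h : B.card = n) :
    ∃ c : Fin n → α, univ.val.map c = B := by
  induction B using Quotient.inductionOn with
  | _ l =>
    have hl : l.length = n := by simpa using h
    subst hl
    exact ⟨l.get, by simp⟩

lemma realize {m n : ℕ} (hn : 0 < n) (cl : Fin m → K) (B : Multiset (Multiset K))
    (hB : B.card = n) (h : univ.val.map cl = B.sum) :
    ∃ P : Fin m → Fin n, ∀ j, (univ.filter fun g => P g = j).val.map cl ∈ B := by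
  have : Nonempty (Fin n) := ⟨⟨0, hn⟩⟩
  obtain ⟨c, rfl⟩ := exists_enum B hB
  obtain ⟨P, hP⟩ := split cl univ c h
  exact ⟨P, fun j => by rw [hP]; exact Multiset.mem_map_of_mem _ (mem_univ_val j)⟩

lemma sum_fibers {m n : ℕ} (cl : Fin m → K) (A : Fin m → Fin n) :
    ∑ j, (univ.filter fun g => A g = j).val.map cl = univ.val.map cl := by
  have h := Finset.sum_fiberwise (s := univ) (g := A) (f := fun g => ({cl g} : Multiset K))
  have e : ∀ t : Finset (Fin m), ∑ g ∈ t, ({cl g} : Multiset K) = t.val.map cl := fun t => by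
    rw [Finset.sum_eq_multiset_sum, ← Multiset.sum_map_singleton (t.val.map cl),
      Multiset.map_map]; rfl
  simpa only [e] using h

lemma W_fiber {m : ℕ} (cl : Fin m → K) (w : K → ℤ) (t : Finset (Fin m)) :
    W w (t.val.map cl) = ∑ g ∈ t, w (cl g) := by
  rw [W, Multiset.map_map]; rfl

lemma card_half (n : ℕ) : (univ.filter fun i : Fin n => (i : ℕ) < n / 2).card = n / 2 := by
  rw [Fin.card_filter_val_lt]; omega

/-- The instance with integer values: every agent has a partition into bundles of value `M`,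
and in every allocation some agent gets less than `M`, where `M = 15015 e` and `2 ^ e ≤ n`. -/
theorem instance_int (n : ℕ) (hn : 12 ≤ n) :
    ∃ (e m : ℕ) (v : Fin n → Fin m → ℤ), 1 ≤ e ∧ 2 ^ e ≤ n ∧ (∀ i g, 0 ≤ v i g) ∧
      (∀ i, ∃ P : Fin m → Fin n, ∀ j, ∑ g ∈ univ.filter (fun g => P g = j), v i g = 15015 * e) ∧
      ∀ A : Fin m → Fin n, ∃ i, ∑ g ∈ univ.filter (fun g => A g = i), v i g < 15015 * e := by
  set A := (n - 2) / 5 with hA
  set s := (n - 2) % 5 with hs
  have hA2 : 2 ≤ A := by omega
  have hnA : n = 5 * A + 2 + s := by omega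
  obtain ⟨a, c, h0, hd, hc, hsum⟩ := exists_seq A (by omega)
  set d := Nat.log 2 A + 1 with hd_def
  have hpow : 2 ^ (d + 1) ≤ n := by
    have := Nat.pow_log_le_self 2 (x := A) (by omega)
    rw [hd_def, pow_succ, pow_succ]; omega
  obtain ⟨cl, hcl⟩ := exists_enum (B1 d a c A s).sum rfl
  have hc1 : (B1 d a c A s).card = n := by rw [card_B1 h0 hd hc hsum]; omega
  have hc2 : (B2 d a c A s).card = n := by rw [card_B2 h0 hd hc hsum]; omega
  have heq := sum_eq (s := s) h0 hd hc hsum
  have hval : ∀ x ∈ (B1 d a c A s).sum, valid d x := by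
    intro x hx
    obtain ⟨u, hu, hxu⟩ := Multiset.mem_join.1 hx
    exact (mem_B1 hu).1 x hxu
  have hvg : ∀ g, valid d (cl g) := fun g => hval _ (by
    rw [← hcl]; exact Multiset.mem_map_of_mem _ (mem_univ_val g))
  have key : ∀ (f : K → ℤ) (t : Finset (Fin (B1 d a c A s).sum.card)),
      ∑ g ∈ t, (55 * (d + 1) * cc (cl g) + f (cl g)) =
        55 * (d + 1) * W cc (t.val.map cl) + W f (t.val.map cl) := by
    intro f t
    rw [W_fiber, W_fiber, sum_add_distrib, mul_sum]
  refine ⟨d + 1, _, fun i g => 55 * (d + 1) * cc (cl g) +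
    (if (i : ℕ) < n / 2 then f1 d else f2 d) (cl g), by omega, hpow, fun i g => ?_, fun i => ?_,
    fun P => ?_⟩
  · beta_reduce
    split_ifs
    · exact f1_ge d (hvg g)
    · exact f2_ge d (hvg g)
  · beta_reduce
    split_ifs
    · obtain ⟨P, hP⟩ := realize (by omega) cl _ hc1 hcl
      refine ⟨P, fun j => ?_⟩
      obtain ⟨-, e1, -, e2, -⟩ := mem_B1 (hP j)
      rw [key, e1, e2]; push_cast; ring
    · obtain ⟨P, hP⟩ := realize (by omega) cl _ hc2 (hcl.trans heq)
      refine ⟨P, fun j => ?_⟩
      obtain ⟨e1, e2, -⟩ := mem_B2 (hP j)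
      rw [key, e1, e2]; push_cast; ring
  · by_contra hcon
    push Not at hcon
    have hh := card_half n
    have hh2 := card_filter_add_card_filter_not (s := (univ : Finset (Fin n)))
      (fun i : Fin n => (i : ℕ) < n / 2)
    rw [card_univ, Fintype.card_fin] at hh2
    refine global d n (fun i => (i : ℕ) < n / 2)
      (fun i => (univ.filter fun g => P g = i).val.map cl) _ ((sum_fibers cl P).trans hcl) hval
      ?_ ?_ k0_B1 ?_ ?_ ?_ ?_ (fun i hi => ?_) (fun i hi => ?_)
    · rw [W_total cc _ 273 fun u hu => (mem_B1 hu).2.1, hc1]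
    · rw [W_total an _ 1 fun u hu => (mem_B1 hu).2.2.1, hc1, one_mul]
    · rw [W_total _ _ 0 fun u hu => (mem_B1 hu).2.2.2.2, zero_mul]
    · rw [heq, W_total _ _ 0 fun u hu => (mem_B2 hu).2.2, zero_mul]
    · rw [heq, t1_B2]; omega
    · rw [t2_B1]; omega
    · have := hcon i
      simp only [if_pos hi, key] at this
      push_cast at this; linarith
    · have := hcon i
      simp only [if_neg hi, key] at this
      push_cast at this; linarith

end Pool.Agent.Lib.MP_5049a2_lc.H7
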