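import Pool.Agent.Lib.MP_5049a2_lc.BF
import Pool.Agent.Lib.MP_5049a2_lc.Prox

/-! A quantitative proximity lemma from the Steinitz lemma (Grinberg-Sevastyanov chain). -/

namespace Pool.Agent.Lib.MP_5049a2_lc.H7

open Finset

/-- Moving to a vertex of `{0 ≤ μ ≤ 1, M μ = const}`. -/
lemma vertex {ι β : Type*} [DecidableEq ι] [Fintype β] (S : Finset ι) (M : β → ι → ℝ) :
    ∀ (N : ℕ) (μ : ι → ℝ), (∀ i ∈ S, 0 ≤ μ i ∧ μ i ≤ 1) →
      (S.filter fun i => 0 < μ i ∧ μ i < 1).card ≤ N →
      ∃ ν : ι → ℝ, (∀ i ∈ S, 0 ≤ ν i ∧ ν i ≤ 1) ∧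
        (∀ b, ∑ i ∈ S, M b i * ν i = ∑ i ∈ S, M b i * μ i) ∧
        (S.filter fun i => 0 < ν i ∧ ν i < 1).card ≤ Fintype.card β := by
  classical
  intro N
  induction N with
  | zero => intro μ h0 hc; exact ⟨μ, h0, fun _ => rfl, hc.trans (Nat.zero_le _)⟩
  | succ N ih =>
    intro μ h0 hc
    set Fl := S.filter fun i => 0 < μ i ∧ μ i < 1 with hFl
    by_cases hF : Fl.card ≤ Fintype.card β
    · exact ⟨μ, h0, fun _ => rfl, hF⟩
    obtain ⟨y, hy0, hy⟩ := exists_kernel (α := Fl) (β := β) (fun b i => M b i.1)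
      (by rw [Fintype.card_coe]; omega)
    set z : ι → ℝ := fun i => if h : i ∈ Fl then y ⟨i, h⟩ else 0 with hz
    have hzsum : ∀ b, ∑ i ∈ S, M b i * z i = 0 := by
      intro b
      rw [← Finset.sum_subset (filter_subset (fun i => 0 < μ i ∧ μ i < 1) S)
        (fun i _ hi => by simp only [hz]; rw [dif_neg hi, mul_zero]), ← hFl,
        ← Finset.sum_coe_sort Fl, ← hy b]
      exact Finset.sum_congr rfl fun i _ => by simp only [hz]; rw [dif_pos i.2]
    set Nz := Fl.filter fun i => z i ≠ 0 with hNz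
    have hNe : Nz.Nonempty := by
      obtain ⟨i, hi⟩ := Function.ne_iff.1 hy0
      exact ⟨i.1, mem_filter.2 ⟨i.2, by simp only [hz]; rw [dif_pos i.2]; exact hi⟩⟩
    set ρ : ι → ℝ := fun i => if 0 < z i then (1 - μ i) / z i else μ i / (-z i) with hρ
    obtain ⟨i0, hi0, hmin⟩ := Finset.exists_min_image Nz ρ hNe
    obtain ⟨hi0F, hi0z⟩ := mem_filter.1 hi0
    obtain ⟨-, hi0a, hi0b⟩ := mem_filter.1 hi0F
    have ht0 : 0 ≤ ρ i0 := by
      simp only [hρ]
      split_ifs with h
      · exact div_nonneg (by linarith) h.le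
      · exact div_nonneg hi0a.le (by linarith)
    have hzF : ∀ i, i ∉ Fl → z i = 0 := fun i hi => by simp only [hz]; rw [dif_neg hi]
    obtain ⟨ν, h1, h2, h3⟩ := ih (fun i => μ i + ρ i0 * z i) (fun i hi => by
        obtain ⟨e0, e1⟩ := h0 i hi
        rcases lt_trichotomy (z i) 0 with h | h | h
        · have hiF : i ∈ Fl := by by_contra hn; exact h.ne (hzF i hn)
          have := hmin i (mem_filter.2 ⟨hiF, h.ne⟩)
          rw [show ρ i = μ i / (-z i) from if_neg (not_lt.2 h.le), le_div_iff₀ (by linarith)] at this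
          constructor <;> nlinarith
        · simp only [h, mul_zero, add_zero]; exact ⟨e0, e1⟩
        · have hiF : i ∈ Fl := by by_contra hn; exact h.ne' (hzF i hn)
          have := hmin i (mem_filter.2 ⟨hiF, h.ne'⟩)
          rw [show ρ i = (1 - μ i) / z i from if_pos h, le_div_iff₀ h] at this
          constructor <;> nlinarith)
      (by
        have hss : (S.filter fun i => 0 < μ i + ρ i0 * z i ∧ μ i + ρ i0 * z i < 1) ⊂ Fl := by
          rw [Finset.ssubset_iff_of_subset]
          · refine ⟨i0, hi0F, fun h => ?_⟩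
            obtain ⟨-, e0, e1⟩ := mem_filter.1 h
            by_cases hp : 0 < z i0
            · simp only [hρ, if_pos hp] at e1
              rw [div_mul_cancel₀ _ hp.ne'] at e1
              linarith
            · simp only [hρ, if_neg hp] at e0
              rw [div_neg, neg_mul, div_mul_cancel₀ _ hi0z] at e0
              linarith
          · intro i hi
            by_contra hn
            obtain ⟨e, e'⟩ := mem_filter.1 hi
            rw [hzF i hn, mul_zero, add_zero] at e'
            exact hn (mem_filter.2 ⟨e, e'⟩)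
        have := card_lt_card hss
        omega)
    refine ⟨ν, h1, fun b => ?_, h3⟩
    rw [h2 b]
    simp only [mul_add, sum_add_distrib, mul_left_comm _ (ρ i0), ← mul_sum, hzsum b, mul_zero,
      add_zero]

/-- The invariant of the chain. -/
def Chain {ι : Type*} {q : ℕ} (x : ι → Fin q → ℝ) (Y : Fin q → ℝ) (k : ℕ) (A : Finset ι) : Prop :=
  A.card = q + k ∧ ∃ l : ι → ℝ, (∀ i ∈ A, 0 ≤ l i ∧ l i ≤ 1) ∧ ∑ i ∈ A, l i = k ∧
    ∀ t, ∑ i ∈ A, x i t * l i = k * Y t

lemma chain_step {ι : Type*} [DecidableEq ι] {q : ℕ} (x : ι → Fin q → ℝ) (Y : Fin q → ℝ) (k : ℕ)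
    (A : Finset ι) (h : Chain x Y (k + 1) A) : ∃ A' ⊆ A, Chain x Y k A' := by
  obtain ⟨hc, l, hl, hs, hx⟩ := h
  have hk : (0 : ℝ) < k + 1 := by positivity
  have hk1 : (k : ℝ) / (k + 1) ≤ 1 := by rw [div_le_one hk]; linarith
  have hk0 : (0 : ℝ) ≤ k / (k + 1) := by positivity
  obtain ⟨ν, h1, h2, h3⟩ := vertex A (β := Option (Fin q))
    (fun b i => b.elim 1 (x i)) _ (fun i => k / (k + 1) * l i)
    (fun i hi => ⟨mul_nonneg hk0 (hl i hi).1, mul_le_one₀ hk1 (hl i hi).1 (hl i hi).2⟩) le_rfl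
  have e1 : ∑ i ∈ A, ν i = k := by
    have := h2 none
    simp only [Option.elim, one_mul, ← mul_sum, hs] at this
    rw [this]; push_cast; field_simp
  have e2 : ∀ t, ∑ i ∈ A, x i t * ν i = k * Y t := by
    intro t
    have := h2 (some t)
    simp only [Option.elim, mul_left_comm _ ((k : ℝ) / (k + 1)), ← mul_sum, hx t] at this
    rw [this]; push_cast; field_simp
  have hex : ∃ i ∈ A, ν i = 0 := by
    by_contra hn
    push Not at hn
    set Fl := A.filter fun i => 0 < ν i ∧ ν i < 1 with hFl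
    have f1 : ∑ i ∈ A, (1 - ν i) = q + 1 := by
      rw [sum_sub_distrib, e1]; simp [hc]; ring
    have f2 : ∑ i ∈ Fl, (1 - ν i) = ∑ i ∈ A, (1 - ν i) :=
      Finset.sum_subset (filter_subset _ _) fun i hi hi' => by
        have a1 := lt_of_le_of_ne (h1 i hi).1 (hn i hi).symm
        have a2 : ¬ ν i < 1 := fun h => hi' (mem_filter.2 ⟨hi, a1, h⟩)
        linarith [(h1 i hi).2]
    have f3 : Fl.Nonempty := by
      by_contra he
      rw [not_nonempty_iff_eq_empty.1 he, sum_empty, f1] at f2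
      have : (0 : ℝ) < q + 1 := by positivity
      linarith
    have f4 : ∑ i ∈ Fl, (1 - ν i) < ∑ _i ∈ Fl, (1 : ℝ) :=
      Finset.sum_lt_sum_of_nonempty f3 fun i hi => by linarith [(mem_filter.1 hi).2.1]
    have f5 : (Fl.card : ℝ) ≤ q + 1 := by
      have : Fl.card ≤ q + 1 := by simpa using h3
      exact_mod_cast this
    simp only [sum_const, nsmul_eq_mul, mul_one] at f4
    linarith
  obtain ⟨i, hi, hi0⟩ := hex
  refine ⟨A.erase i, erase_subset _ _, by rw [card_erase_of_mem hi, hc]; omega, ν,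
    fun j hj => h1 j (mem_of_mem_erase hj), ?_, fun t => ?_⟩
  · rw [← e1, ← add_sum_erase _ _ hi, hi0, zero_add]
  · rw [← e2, ← add_sum_erase _ _ hi, hi0, mul_zero, zero_add]

lemma chain_bound {ι : Type*} {q : ℕ} {x : ι → Fin q → ℝ} {Y : Fin q → ℝ} {k : ℕ} {A : Finset ι}
    (h : Chain x Y k A) {R : ℝ} (hR : ∀ i ∈ A, ∀ t, |x i t| ≤ R) (t : Fin q) :
    |∑ i ∈ A, x i t - k * Y t| ≤ q * R := by
  obtain ⟨hc, l, hl, hs, hx⟩ := h
  rw [← hx t, ← sum_sub_distrib]
  calc _ ≤ ∑ i ∈ A, |x i t - x i t * l i| := abs_sum_le_sum_abs _ _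
    _ ≤ ∑ i ∈ A, R * (1 - l i) := sum_le_sum fun i hi => by
        rw [← mul_one_sub, abs_mul, abs_of_nonneg (sub_nonneg.2 (hl i hi).2)]
        exact mul_le_mul_of_nonneg_right (hR i hi t) (sub_nonneg.2 (hl i hi).2)
    _ = q * R := by rw [← mul_sum, sum_sub_distrib, hs]; simp [hc]; ring

/-- Many short integer vectors with a small sum contain a zero-sum subfamily. -/
theorem zero_sum {ι : Type*} [DecidableEq ι] {q : ℕ} (S : Finset ι) (x : ι → Fin q → ℤ) (R D : ℕ)
    (hR : ∀ i ∈ S, ∀ t, |x i t| ≤ R) (hD : ∀ t, |∑ i ∈ S, x i t| ≤ D)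
    (hS : (D + 1) * (2 * q * R + 3) ^ q + q ≤ S.card) :
    ∃ S' ⊆ S, S'.Nonempty ∧ ∀ t, ∑ i ∈ S', x i t = 0 := by
  classical
  set L := (2 * q * R + 3) ^ q with hL
  have hL0 : 0 < L := by positivity
  obtain ⟨K, hK⟩ : ∃ K, S.card = q + K := ⟨S.card - q, by omega⟩
  have hKL : (D + 1) * L ≤ K := by omega
  have hK0 : 0 < K := lt_of_lt_of_le (by positivity) hKL
  have hN : (0 : ℝ) < q + K := by positivity
  set xr : ι → Fin q → ℝ := fun i t => x i t with hxr
  set Y : Fin q → ℝ := fun t => (∑ i ∈ S, xr i t) / (q + K) with hY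
  have hstep : ∀ (k : ℕ) (A : Finset ι), ∃ A' ⊆ A, Chain xr Y (k + 1) A → Chain xr Y k A' := by
    intro k A
    by_cases h : Chain xr Y (k + 1) A
    · obtain ⟨A', h1, h2⟩ := chain_step xr Y k A h
      exact ⟨A', h1, fun _ => h2⟩
    · exact ⟨A, Subset.rfl, fun h' => absurd h' h⟩
  choose st hst1 hst2 using hstep
  let A : ℕ → Finset ι := fun j => Nat.rec S (fun j B => st (K - (j + 1)) B) j
  have hanti : Antitone A := antitone_nat_of_succ_le fun j => hst1 _ _
  have hch : ∀ j ≤ K, Chain xr Y (K - j) (A j) := by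
    intro j
    induction j with
    | zero =>
      intro _
      refine ⟨hK, fun _ => K / (q + K), fun _ _ => ⟨by positivity, ?_⟩, ?_, fun t => ?_⟩
      · rw [div_le_one hN]; linarith [Nat.cast_nonneg (α := ℝ) q]
      · show ∑ _i ∈ S, (K : ℝ) / (q + K) = K
        rw [sum_const, hK, nsmul_eq_mul]; push_cast; field_simp
      · show ∑ i ∈ S, xr i t * ((K : ℝ) / (q + K)) = K * Y t
        rw [← sum_mul, hY]; field_simp
    | succ j ih =>
      intro hj
      have := ih (by omega)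
      rw [show K - j = K - (j + 1) + 1 by omega] at this
      exact hst2 _ _ this
  have hsub : ∀ j, A j ⊆ S := fun j => hanti (Nat.zero_le j)
  have hLK : L ≤ K := le_trans (Nat.le_mul_of_pos_left L (Nat.succ_pos D)) hKL
  obtain ⟨k, hk, k', hk', hne, he⟩ := Finset.exists_ne_map_eq_of_card_lt_of_maps_to
    (s := range (L + 1)) (t := Fintype.piFinset fun _ : Fin q => Icc (-(q * R + 1 : ℤ)) (q * R + 1))
    (f := fun k t => ∑ i ∈ A (K - k), x i t)
    (by
      rw [Fintype.card_piFinset, card_range, prod_const, card_univ, Fintype.card_fin, Int.card_Icc,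
        show (q * R + 1 + 1 - -(q * R + 1) : ℤ) = ((2 * q * R + 3 : ℕ) : ℤ) by push_cast; ring,
        Int.toNat_natCast]
      omega)
    (fun k hk => by
      have hk1 : k ≤ L := Nat.lt_succ_iff.1 (mem_range.1 hk)
      refine Finset.mem_coe.2 (Fintype.mem_piFinset.2 fun t => ?_)
      have h1 := hch (K - k) (Nat.sub_le _ _)
      rw [show K - (K - k) = k by omega] at h1
      have h2 := chain_bound h1 (R := R) (fun i hi t => by
        simp only [hxr]; exact_mod_cast hR i (hsub _ hi) t) t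
      have h3 : |(k : ℝ) * Y t| ≤ 1 := by
        have h4 : |∑ i ∈ S, xr i t| ≤ D := by simp only [hxr]; exact_mod_cast hD t
        have h5 : (k : ℝ) * D ≤ q + K := by
          have : k * D ≤ q + K := by nlinarith
          exact_mod_cast this
        rw [hY, abs_mul, abs_div, abs_of_pos hN, Nat.abs_cast, ← mul_div_assoc, div_le_one hN]
        exact (mul_le_mul_of_nonneg_left h4 (by positivity)).trans h5
      have h4 : |∑ i ∈ A (K - k), xr i t| ≤ q * R + 1 := by
        have := abs_add_le (∑ i ∈ A (K - k), xr i t - k * Y t) (k * Y t)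
        rw [sub_add_cancel] at this
        linarith
      rw [mem_Icc, ← abs_le]
      simp only [hxr] at h4
      exact_mod_cast h4)
  wlog hlt : k < k' generalizing k k'
  · exact this k' hk' k hk hne.symm he.symm (by omega)
  have hk1 : k' ≤ L := Nat.lt_succ_iff.1 (mem_range.1 hk')
  have hs : A (K - k) ⊆ A (K - k') := hanti (by omega)
  refine ⟨A (K - k') \ A (K - k), sdiff_subset.trans (hsub _), ?_, fun t => ?_⟩
  · rw [← card_pos, card_sdiff_of_subset hs, (hch _ (Nat.sub_le _ _)).1, (hch _ (Nat.sub_le _ _)).1]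
    omega
  · have := sum_sdiff (f := fun i => x i t) hs
    have h2 := congrFun he t
    omega

/-- A large family with sum at most `s` has a proper subfamily with sum at most `s`. -/
lemma shrink {ι : Type*} [DecidableEq ι] {q : ℕ} (S : Finset ι) (z : ι → Fin q → ℤ) (R D : ℕ)
    (hR1 : 1 ≤ R) (hR : ∀ i t, |z i t| ≤ R) (s : Fin q → ℤ) (hs : ∀ t, -(D : ℤ) ≤ s t)
    (hS : ∀ t, ∑ i ∈ S, z i t ≤ s t) (hc : (D + 1) * (2 * q * R + 3) ^ q + q ≤ S.card) :
    ∃ S' ⊂ S, ∀ t, ∑ i ∈ S', z i t ≤ s t := by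
  classical
  set Z : Fin q → ℤ := fun t => ∑ i ∈ S, z i t with hZ
  set sg : Fin q → ℤ := fun t => if 0 < Z t then -1 else 1 with hsg
  set sl : Fin q → ℕ := fun t => if 0 < Z t then (Z t).toNat else (-D - Z t).toNat with hsl
  set T : Finset (Σ _ : Fin q, ℕ) := univ.sigma fun t => range (sl t) with hT
  set x : ι ⊕ (Σ _ : Fin q, ℕ) → Fin q → ℤ :=
    Sum.elim z fun p t => if p.1 = t then sg t else 0 with hx
  have hsum : ∀ (U : Finset (Σ _ : Fin q, ℕ)) (t : Fin q),
      ∑ p ∈ U, (if p.1 = t then sg t else 0) = (U.filter fun p => p.1 = t).card * sg t := by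
    intro U t
    rw [← sum_filter]; simp
  have hcard : ∀ t, (T.filter fun p => p.1 = t).card = sl t := by
    intro t
    have : (T.filter fun p => p.1 = t) = ({t} : Finset (Fin q)).sigma fun t => range (sl t) := by
      ext p; simp [hT, and_comm]
    rw [this, card_sigma]; simp
  obtain ⟨S', h1, h2, h3⟩ := zero_sum (S.disjSum T) x R D
    (fun i _ t => by
      rcases i with i | p
      · exact hR i t
      · simp only [hx, Sum.elim_inr, hsg]
        split_ifs <;> simp <;> omega)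
    (fun t => by
      rw [sum_disjSum]
      simp only [hx, Sum.elim_inl, Sum.elim_inr]
      rw [hsum, hcard]
      show |Z t + _| ≤ _
      simp only [hsg, hsl]
      rw [abs_le]
      split_ifs <;> omega)
    (by rw [card_disjSum]; omega)
  have h4 : ∀ t, ∑ i ∈ S'.toLeft, z i t +
      (S'.toRight.filter fun p => p.1 = t).card * sg t = 0 := by
    intro t
    have := h3 t
    rw [← toLeft_disjSum_toRight (u := S'), sum_disjSum] at this
    simp only [hx, Sum.elim_inl, Sum.elim_inr] at this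
    rwa [hsum] at this
  have hL : S'.toLeft ⊆ S := fun i hi => by simpa using h1 (mem_toLeft.1 hi)
  have hRt : S'.toRight ⊆ T := fun i hi => by
    have := h1 (mem_toRight.1 hi)
    rwa [inr_mem_disjSum] at this
  have hne : S'.toLeft.Nonempty := by
    by_contra he
    rw [not_nonempty_iff_eq_empty] at he
    obtain ⟨i, hi⟩ := h2
    rcases i with i | p
    · have : i ∈ S'.toLeft := mem_toLeft.2 hi
      rw [he] at this; simp at this
    · have e1 := h4 p.1
      have e2 : 0 < (S'.toRight.filter fun p' => p'.1 = p.1).card :=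
        card_pos.2 ⟨p, mem_filter.2 ⟨mem_toRight.2 hi, rfl⟩⟩
      rw [he, sum_empty] at e1
      simp only [hsg] at e1
      split_ifs at e1 <;> omega
  refine ⟨S \ S'.toLeft, sdiff_ssubset hL hne, fun t => ?_⟩
  have e1 := sum_sdiff (f := fun i => z i t) hL
  have e2 := h4 t
  have e3 : (S'.toRight.filter fun p => p.1 = t).card ≤ sl t := by
    rw [← hcard]; exact card_le_card (filter_subset_filter _ hRt)
  have e4 := hS t
  have e5 := hs t
  have e6 : Z t = ∑ i ∈ S, z i t := rfl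
  simp only [hsg, hsl] at e2 e3
  split_ifs at e2 e3 <;> omega

lemma small_sub {ι : Type*} [DecidableEq ι] {q : ℕ} (z : ι → Fin q → ℤ) (R D : ℕ)
    (hR1 : 1 ≤ R) (hR : ∀ i t, |z i t| ≤ R) (s : Fin q → ℤ) (hs : ∀ t, -(D : ℤ) ≤ s t)
    (S : Finset ι) : (∀ t, ∑ i ∈ S, z i t ≤ s t) →
      ∃ S' ⊆ S, S'.card ≤ (D + 1) * (2 * q * R + 3) ^ q + q ∧ ∀ t, ∑ i ∈ S', z i t ≤ s t := by
  induction S using Finset.strongInduction with
  | H S ih =>
    intro hS
    by_cases hc : (D + 1) * (2 * q * R + 3) ^ q + q ≤ S.card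
    · obtain ⟨S1, h1, h2⟩ := shrink S z R D hR1 hR s hs hS hc
      obtain ⟨S2, h3, h4⟩ := ih S1 h1 h2
      exact ⟨S2, h3.trans h1.subset, h4⟩
    · exact ⟨S, Subset.rfl, by omega, hS⟩

theorem prox_quant (q R D B : ℕ) (hR1 : 1 ≤ R) :
    ProxProp q R D B (B + ((D + R * B + 1) * (2 * q * R + 3) ^ q + q)) := by
  intro n u u0 cap Bad hu hu0 hc0 hc hB
  set z : Fin n → Fin q → ℤ := fun a t => (u0 a t : ℤ) - u a t with hz
  have hzR : ∀ a t, |z a t| ≤ R := fun a t => by
    have := hu a t; have := hu0 a t; simp only [hz]; rw [abs_le]; omega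
  have hzs : ∀ (A : Finset (Fin n)) t, ∑ a ∈ A, z a t =
      ((∑ a ∈ A, u0 a t : ℕ) : ℤ) - ((∑ a ∈ A, u a t : ℕ) : ℤ) := fun A t => by
    simp only [hz, sum_sub_distrib]; push_cast; rfl
  obtain ⟨S', h1, h2, h3⟩ := small_sub z R (D + R * B) hR1 hzR
    (fun t => (cap t : ℤ) - ((∑ a, u a t : ℕ) : ℤ) - ∑ a ∈ Bad, z a t)
    (fun t => by
      have e1 : ∑ a ∈ Bad, z a t ≤ ∑ _a ∈ Bad, (R : ℤ) :=
        sum_le_sum fun a _ => (le_abs_self _).trans (hzR a t)
      rw [sum_const, nsmul_eq_mul] at e1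
      have e2 : (Bad.card : ℤ) * R ≤ R * B := by
        have : Bad.card * R ≤ R * B := by nlinarith
        exact_mod_cast this
      have := hc t
      push_cast [-Nat.cast_sum]
      omega) Badᶜ
    (fun t => by
      have e1 := sum_add_sum_compl Bad fun a => z a t
      have e2 := hzs univ t
      have := hc0 t
      omega)
  have hdis : Disjoint Bad S' := disjoint_compl_right.mono_right h1
  refine ⟨Bad ∪ S', Bad ∪ S', subset_union_left, rfl, ?_, fun t => ?_⟩
  · rw [card_union_of_disjoint hdis]; omega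
  · have e1 := sum_add_sum_compl (Bad ∪ S') fun a => u a t
    have e2 := hzs (Bad ∪ S') t
    have e3 := h3 t
    rw [sum_union hdis] at e2
    omega

end Pool.Agent.Lib.MP_5049a2_lc.H7
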