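import Pool.Agent.Lib.MP_5049a2_lc.Core
import Pool.Agent.Lib.MP_5049a2_lc.H7Stein

/-! A group of look-alike agents, with an explicit number of types. -/

namespace Pool.Agent.Lib.MP_5049a2_lc

open Finset

lemma prefix_choice {ι P : Type*} (T : Finset ι) (hT : T.Nonempty) (key : ι → ℝ) (φ : ι → P → ℕ)
    (Ps : Finset P) (θ : ℕ) :
    ∃ a ∈ T, T.card * ∑ π ∈ Ps.filter
      (fun π => ∑ b ∈ T.filter (fun b => key a ≤ key b), φ b π < θ), φ a π ≤ Ps.card * θ := by
  classical
  set β : ι → ℕ := fun a => ∑ π ∈ Ps.filter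
      (fun π => ∑ b ∈ T.filter (fun b => key a ≤ key b), φ b π < θ), φ a π with hβ
  obtain ⟨a, ha, hmin⟩ := Finset.exists_min_image T β hT
  refine ⟨a, ha, ?_⟩
  have h1 : T.card * β a ≤ ∑ b ∈ T, β b := by
    simpa using card_nsmul_le_sum T β (β a) hmin
  refine h1.trans ?_
  simp only [hβ, sum_filter (s := Ps)]
  rw [sum_comm]
  refine le_trans (sum_le_sum (g := fun _ => θ) fun π _ => ?_) (by simp)
  rw [← sum_filter]
  set Kp := T.filter fun a => ∑ b ∈ T.filter (fun b => key a ≤ key b), φ b π < θ with hK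
  rcases Kp.eq_empty_or_nonempty with he | hne
  · rw [he]; simp
  · obtain ⟨c, hc, hcm⟩ := Finset.exists_min_image Kp key hne
    refine le_trans (sum_le_sum_of_subset fun b hb => ?_) (mem_filter.1 hc).2.le
    exact mem_filter.2 ⟨(mem_filter.1 hb).1, hcm b hb⟩

lemma iff_of_card_eq (W : Finset ℕ) {x y : ℕ}
    (h : (W.filter fun t => x ≤ t).card = (W.filter fun t => y ≤ t).card) {t : ℕ} (ht : t ∈ W) :
    x ≤ t ↔ y ≤ t := by
  wlog hxy : x ≤ y generalizing x y
  · exact (this h.symm (by omega)).symm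
  have hs : (W.filter fun t => y ≤ t) ⊆ W.filter fun t => x ≤ t := fun u hu =>
    mem_filter.2 ⟨(mem_filter.1 hu).1, hxy.trans (mem_filter.1 hu).2⟩
  have := Finset.ext_iff.1 (eq_of_subset_of_card_le hs h.le) t
  simpa only [mem_filter, ht, true_and] using this.symm

namespace Inst

variable {n : ℕ} (I : Inst n) (r : ℕ) (Sel : Finset ℕ)

open Classical in
structure Group2 (E X th q Θ : ℕ) (W Rw : Finset ℕ) (T0 : Finset (Fin n)) (a0 : Fin n) (τ : ℕ) :
    Prop where
  mem : a0 ∈ T0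
  clean : ∀ a ∈ T0, ¬ I.unclean r Sel E X a
  gap : ∀ a ∈ T0, ∀ t ∈ Rw, (I.d r a t : ℝ) ≤ 16 * r * q * I.S r t
  dust : ∀ a ∈ T0, I.V r a0 ≤ I.V r a
  late : ∀ a ∈ T0, τ ≤ I.T r a
  tau : ∀ a ∈ T0, ∀ h ≤ r ^ 2, ∀ t ∈ W, I.tau r a h ≤ t ↔ I.tau r a0 h ≤ t
  start : ∀ a ∈ T0, th - I.T r a = th - I.T r a0
  rare : 2 * r * (r + 2) * (univ.filter fun j =>
    ∑ a ∈ T0, (univ.filter fun j' => I.pat r a j' = I.pat r a0 j).card < Θ * n).card ≤ n
  cases : ((X : ℝ) ≤ I.V r a0 ∧ (n : ℝ) ≤ 16 * r * (univ.filter fun a => I.T r a ≤ τ).card) ∨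
    (1 - 1 / (2 * r)) * (n : ℝ) ≤ (univ.filter fun a => I.V r a < E ∧ I.T r a ≤ τ).card

variable {r}

lemma Group2.toGroup {I : Inst n} {Sel : Finset ℕ} (hr : 0 < r) {E X th q Θ : ℕ} {W Rw : Finset ℕ}
    {T0 : Finset (Fin n)} {a0 : Fin n} {τ : ℕ} (hG : I.Group2 r Sel E X th q Θ W Rw T0 a0 τ) :
    I.Group r Sel E X th 0 n 0 ∅ T0 a0 τ where
  mem := hG.mem
  big := by
    have h1 : 1 ≤ T0.card := card_pos.2 ⟨a0, hG.mem⟩
    have h2 : 1 ≤ 2 ^ (Pats r).card := Nat.one_le_two_pow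
    calc n ≤ 1 * (1 * (n + 1) * 1) * 1 := by omega
      _ ≤ _ := by gcongr <;> first | omega | exact Nat.one_le_two_pow
  clean := hG.clean
  gap := by simp
  dust := hG.dust
  late := hG.late
  tau := by simp
  start := hG.start
  fr := fun _ _ _ _ h => by
    have := a0.pos
    simp only [freq, zero_mul] at h
    omega
  cases := hG.cases

open Classical in
theorem exists_group2 (hr : 0 < r) (hn : 0 < n) {E X th w0 q X' Θ : ℕ} (W Rw : Finset ℕ)
    (hW : W.card ≤ w0) (hRw : Rw.card ≤ q) (hq : 0 < q) (hth : th ∈ Rw)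
    (hX' : 16 * r * q * I.S r th ≤ X') (hΘ : 0 < Θ)
    (hbig : 16 * r * ((w0 + 1) ^ (r ^ 2 + 1) * (X' + 1)) *
      (2 * r * (r + 2) * ((Pats r).card * Θ)) ≤ n)
    (hsc : 16 * r * ((univ.filter (I.unclean r Sel E X)).card +
      (univ.filter (I.mid r E X)).card) ≤ n) :
    ∃ T0 a0 τ, I.Group2 r Sel E X th q Θ W Rw T0 a0 τ := by
  have hn' : (0 : ℝ) < n := by exact_mod_cast hn
  have hr' : (0 : ℝ) < r := by exact_mod_cast hr
  have hr1 : (1 : ℝ) ≤ r := by exact_mod_cast hr
  have hq' : (0 : ℝ) < q := by exact_mod_cast hq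
  set x : ℝ := n / (16 * r) with hx
  have hx0 : 0 < x := by positivity
  have hxn : 16 * r * x = n := by rw [hx]; field_simp
  have hsc' : (16 * r * ((univ.filter (I.unclean r Sel E X)).card +
      (univ.filter (I.mid r E X)).card) : ℝ) ≤ n := by exact_mod_cast hsc
  have hum : ((univ.filter (I.unclean r Sel E X)).card : ℝ) +
      (univ.filter (I.mid r E X)).card ≤ x := by
    rw [hx, le_div_iff₀ (by positivity)]; linarith
  have hU : ((univ.filter (I.unclean r Sel E X)).card : ℝ) ≤ x := by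
    linarith [Nat.cast_nonneg (α := ℝ) (univ.filter (I.mid r E X)).card]
  have hM : ((univ.filter (I.mid r E X)).card : ℝ) ≤ x := by
    linarith [Nat.cast_nonneg (α := ℝ) (univ.filter (I.unclean r Sel E X)).card]
  -- the late agents
  have hP : ∃ (P : Finset (Fin n)) (τ : ℕ), 3 * x ≤ P.card ∧ (∀ a ∈ P, τ ≤ I.T r a) ∧
      (((∀ a ∈ P, (X : ℝ) ≤ I.V r a) ∧
        (n : ℝ) ≤ 16 * r * (univ.filter fun a => I.T r a ≤ τ).card) ∨
      (1 - 1 / (2 * r)) * (n : ℝ) ≤ (univ.filter fun a => I.V r a < E ∧ I.T r a ≤ τ).card) := by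
    by_cases hA : 4 * x ≤ (univ.filter fun a => (X : ℝ) ≤ I.V r a).card
    · obtain ⟨τ, h1, h2⟩ := quantile (univ.filter fun a => (X : ℝ) ≤ I.V r a) (I.T r)
        (y := 3 * x) (by positivity) (by linarith)
      refine ⟨_, τ, h1, fun a ha => (mem_filter.1 ha).2, Or.inl ⟨fun a ha =>
        (mem_filter.1 (mem_filter.1 ha).1).2, ?_⟩⟩
      have h3 : (((univ.filter fun a => (X : ℝ) ≤ I.V r a).filter fun a => I.T r a ≤ τ).card : ℝ) ≤
          (univ.filter fun a => I.T r a ≤ τ).card := by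
        exact_mod_cast card_le_card (filter_subset_filter _ (subset_univ _))
      rw [← hxn]
      gcongr
      linarith
    · obtain ⟨τ, h1, h2⟩ := quantile (univ : Finset (Fin n)) (I.T r)
        (y := 3 * x) (by positivity) (by simp only [card_univ, Fintype.card_fin]; nlinarith)
      refine ⟨_, τ, h1, fun a ha => (mem_filter.1 ha).2, Or.inr ?_⟩
      have hsub : (univ.filter fun a => I.T r a ≤ τ) ⊆
          (univ.filter fun a => I.V r a < E ∧ I.T r a ≤ τ) ∪
          ((univ.filter (I.mid r E X)) ∪ (univ.filter fun a => (X : ℝ) ≤ I.V r a)) := by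
        intro a ha
        have := (mem_filter.1 ha).2
        simp only [mem_union, mem_filter, mem_univ, true_and, mid]
        by_cases h3 : I.V r a < E
        · exact Or.inl ⟨h3, this⟩
        · by_cases h4 : I.V r a < X
          · exact Or.inr (Or.inl ⟨not_lt.1 h3, h4⟩)
          · exact Or.inr (Or.inr (not_lt.1 h4))
      have h3 := (card_le_card hsub).trans ((card_union_le _ _).trans
        (Nat.add_le_add_left (card_union_le _ _) _))
      have h4 := (Nat.cast_le (α := ℝ)).2 h3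
      push_cast at h4
      simp only [card_univ, Fintype.card_fin] at h2
      have h5 : (1 - 1 / (2 * r)) * (n : ℝ) = n - 8 * x := by rw [hx]; field_simp; ring
      linarith
  obtain ⟨P, τ, hP1, hP2, hP3⟩ := hP
  set Rem := Rw.biUnion fun t => univ.filter fun a => 16 * r * q * I.S r t < I.d r a t with hRem
  have hRc : (Rem.card : ℝ) ≤ x := by
    have h1 := (Nat.cast_le (α := ℝ)).2 (card_biUnion_le (s := Rw)
      (t := fun t => univ.filter fun a => 16 * r * q * I.S r t < I.d r a t))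
    push_cast at h1
    have h2 : ∑ t ∈ Rw, ((univ.filter fun a => 16 * r * q * I.S r t < I.d r a t).card : ℝ) ≤
        ∑ _t ∈ Rw, (n : ℝ) / (16 * r * q) :=
      Finset.sum_le_sum fun t _ => I.markov r hn t (by positivity)
    have h3 : (Rw.card : ℝ) ≤ q := by exact_mod_cast hRw
    simp only [sum_const, nsmul_eq_mul] at h2
    have h4 : (Rw.card : ℝ) * (n / (16 * r * q)) ≤ q * (n / (16 * r * q)) := by gcongr
    have h5 : (q : ℝ) * (n / (16 * r * q)) = x := by rw [hx]; field_simp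
    linarith
  set P' := (P \ univ.filter (I.unclean r Sel E X)) \ Rem with hP'
  have hP'c : x ≤ P'.card := by
    have h1 := card_le_card_sdiff_add_card (s := P) (t := univ.filter (I.unclean r Sel E X))
    have h2 := card_le_card_sdiff_add_card (s := P \ univ.filter (I.unclean r Sel E X)) (t := Rem)
    have h3 := (Nat.cast_le (α := ℝ)).2 h1
    have h4 := (Nat.cast_le (α := ℝ)).2 h2
    push_cast at h3 h4
    linarith
  have hgap : ∀ a ∈ P', ∀ t ∈ Rw, (I.d r a t : ℝ) ≤ 16 * r * q * I.S r t := by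
    intro a ha t ht
    by_contra hcon
    exact (mem_sdiff.1 ha).2 (mem_biUnion.2 ⟨t, ht, mem_filter.2 ⟨mem_univ _, not_le.1 hcon⟩⟩)
  let cl : Fin n → (Fin (r ^ 2 + 1) → ℕ) × ℕ := fun a =>
    (fun h => (W.filter fun t => I.tau r a h ≤ t).card, th - I.T r a)
  set C := (Fintype.piFinset fun _ : Fin (r ^ 2 + 1) => range (w0 + 1)) ×ˢ range (X' + 1) with hC
  set Ncl := (w0 + 1) ^ (r ^ 2 + 1) * (X' + 1) with hNcl
  have hCc : C.card ≤ Ncl := by
    rw [hC, card_product, Fintype.card_piFinset, card_range, card_range, prod_const, card_univ,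
      Fintype.card_fin]
  have hmaps : ∀ a ∈ P', cl a ∈ C := by
    intro a ha
    refine mem_product.2 ⟨Fintype.mem_piFinset.2 fun h => mem_range.2
      (Nat.lt_succ_of_le ((card_filter_le _ _).trans hW)), mem_range.2 ?_⟩
    have h1 := hgap a ha th hth
    have h2 : ((th - I.T r a : ℕ) : ℝ) ≤ I.d r a th := by exact_mod_cast I.sub_T_le_d r a th
    have h3 : ((th - I.T r a : ℕ) : ℝ) ≤ X' := by linarith
    have h4 : th - I.T r a ≤ X' := by exact_mod_cast h3
    exact Nat.lt_succ_of_le h4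
  have hCne : C.Nonempty := by
    have : 0 < P'.card := by exact_mod_cast hx0.trans_le hP'c
    obtain ⟨a, ha⟩ := card_pos.1 this
    exact ⟨_, hmaps a ha⟩
  obtain ⟨y, -, hy⟩ := Finset.exists_max_image C (fun y => (P'.filter fun a => cl a = y).card) hCne
  set T1 := P'.filter fun a => cl a = y with hT1
  have hT1c : P'.card ≤ Ncl * T1.card := by
    rw [card_eq_sum_card_fiberwise (f := cl) (t := C) hmaps]
    calc _ ≤ ∑ _z ∈ C, T1.card := Finset.sum_le_sum hy
      _ = C.card * T1.card := by simp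
      _ ≤ _ := Nat.mul_le_mul_right _ hCc
  have hT1ne : T1.Nonempty := by
    have h1 : 0 < P'.card := by exact_mod_cast hx0.trans_le hP'c
    rw [← card_pos]
    by_contra h
    rw [show T1.card = 0 by omega] at hT1c
    omega
  have hT1big : 2 * r * (r + 2) * ((Pats r).card * Θ) ≤ T1.card := by
    have h1 : (n : ℝ) ≤ 16 * r * (Ncl * T1.card : ℕ) := by
      rw [← hxn]
      gcongr
      exact hP'c.trans (by exact_mod_cast hT1c)
    have h2 : n ≤ 16 * r * Ncl * T1.card := by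
      rw [mul_assoc (16 * r)]
      exact_mod_cast h1
    exact Nat.le_of_mul_le_mul_left (hbig.trans h2) (by positivity)
  obtain ⟨a0, ha0, hpre⟩ := prefix_choice T1 hT1ne (I.V r)
    (fun a π => (univ.filter fun j => I.pat r a j = π).card) (Pats r) (Θ * n)
  set T0 := T1.filter fun b => I.V r a0 ≤ I.V r b with hT0
  have hsub : T0 ⊆ T1 := filter_subset _ _
  have hcl : ∀ a ∈ T0, cl a = cl a0 := fun a ha =>
    (mem_filter.1 (hsub ha)).2.trans (mem_filter.1 ha0).2.symm
  have hT1P : ∀ a ∈ T1, a ∈ P := fun a ha => (mem_sdiff.1 (mem_sdiff.1 (mem_filter.1 ha).1).1).1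
  refine ⟨T0, a0, τ, mem_filter.2 ⟨ha0, le_rfl⟩, fun a ha h => ?_,
    fun a ha => hgap a (mem_filter.1 (hsub ha)).1, fun a ha => (mem_filter.1 ha).2,
    fun a ha => hP2 a (hT1P a (hsub ha)), fun a ha h hh t ht => ?_,
    fun a ha => congrArg (fun z => z.2) (hcl a ha), ?_, ?_⟩
  · exact (mem_sdiff.1 (mem_sdiff.1 (mem_filter.1 (hsub ha)).1).1).2 (mem_filter.2 ⟨mem_univ _, h⟩)
  · exact iff_of_card_eq W (congrFun (congrArg (fun z => z.1) (hcl a ha))
      ⟨h, Nat.lt_succ_of_le hh⟩) ht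
  · set Q := (Pats r).filter fun π =>
      ∑ b ∈ T0, (univ.filter fun j => I.pat r b j = π).card < Θ * n with hQ
    have h1 : (univ.filter fun j =>
        ∑ a ∈ T0, (univ.filter fun j' => I.pat r a j' = I.pat r a0 j).card < Θ * n).card ≤
        ∑ π ∈ Q, (univ.filter fun j => I.pat r a0 j = π).card := by
      rw [card_eq_sum_card_fiberwise (f := I.pat r a0) (t := Q) fun j hj =>
        mem_filter.2 ⟨I.pat_mem hr a0 j, (mem_filter.1 hj).2⟩]
      exact sum_le_sum fun π _ => card_le_card (filter_subset_filter _ (filter_subset _ _))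
    have hPat0 : 0 < (Pats r).card := card_pos.2 ⟨_, I.pat_mem hr a0 a0⟩
    refine (Nat.mul_le_mul_left _ h1).trans ?_
    apply Nat.le_of_mul_le_mul_left (c := (Pats r).card * Θ) _ (by positivity)
    calc _ = 2 * r * (r + 2) * ((Pats r).card * Θ) *
          ∑ π ∈ Q, (univ.filter fun j => I.pat r a0 j = π).card := by ring
      _ ≤ T1.card * ∑ π ∈ Q, (univ.filter fun j => I.pat r a0 j = π).card :=
          Nat.mul_le_mul_right _ hT1big
      _ ≤ (Pats r).card * (Θ * n) := hpre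
      _ = _ := by ring
  · rcases hP3 with ⟨h1, h2⟩ | h
    · exact Or.inl ⟨h1 a0 (hT1P a0 ha0), h2⟩
    · exact Or.inr h

open Classical in
lemma exists_mimic2 (hr : 0 < r) (b a0 : Fin n) (Z : Finset ℕ) (hZ : 2 * r * (r + 2) * Z.card < n)
    (B1 : Finset (Fin n)) (hB1 : 2 * r * (r + 2) * B1.card ≤ n) :
    ∃ j, 1 - 1 / (r : ℝ) ≤ ∑ p ∈ I.mim r a0 j, I.w b p ∧ j ∉ B1 ∧ ∀ p ∈ I.mim r a0 j, p ∉ Z := by
  have hn' : (0 : ℝ) < n := by exact_mod_cast a0.pos
  have hr' : (0 : ℝ) < r := by exact_mod_cast hr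
  by_contra hcon
  push Not at hcon
  set B2 := Z.image (I.mb r a0) with hB2
  have h1 : ∑ j, ∑ p ∈ I.mim r a0 j, I.w b p = n := by
    rw [← I.total b]
    exact Finset.sum_fiberwise_of_maps_to (fun _ _ => mem_univ _) _
  have h2 : ∀ j, ∑ p ∈ I.mim r a0 j, I.w b p ≤
      (1 - 1 / r) + (if j ∈ B1 then (r + 2 : ℝ) else 0) + (if j ∈ B2 then (r + 2 : ℝ) else 0) := by
    intro j
    have h3 := I.val_mim_le hr b a0 j
    have h4 := one_sub_nonneg hr
    by_cases e1 : j ∈ B1
    · rw [if_pos e1]; split_ifs <;> linarith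
    · by_cases e2 : j ∈ B2
      · rw [if_neg e1, if_pos e2]; linarith
      · rw [if_neg e1, if_neg e2]
        by_contra h5
        obtain ⟨p, hp, hpZ⟩ := hcon j (by linarith) e1
        exact e2 (mem_image.2 ⟨p, hpZ, (mem_filter.1 hp).2⟩)
  have h3 := Finset.sum_le_sum (s := univ) fun j _ => h2 j
  rw [h1, Finset.sum_add_distrib, Finset.sum_add_distrib, ← Finset.sum_filter, ← Finset.sum_filter]
    at h3
  simp only [sum_const, card_univ, Fintype.card_fin, nsmul_eq_mul, filter_mem_eq_inter,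
    univ_inter] at h3
  have h4 : (2 * r * (r + 2) * B2.card : ℝ) < n := by
    have : 2 * r * (r + 2) * B2.card < n :=
      lt_of_le_of_lt (Nat.mul_le_mul_left _ card_image_le) hZ
    exact_mod_cast this
  have h8 : (2 * r * (r + 2) * B1.card : ℝ) ≤ n := by exact_mod_cast hB1
  have h9 : (n : ℝ) * (1 / r) ≤ B1.card * (r + 2) + B2.card * (r + 2) := by linarith
  rw [mul_one_div, div_le_iff₀ hr'] at h9
  linarith

end Inst

end Pool.Agent.Lib.MP_5049a2_lc
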