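import Pool.Agent.Lib.MP_5049a2_lc.H7Core

/-! Explicit choice of the scales. -/

namespace Pool.Agent.Lib.MP_5049a2_lc

open Finset

lemma card_Pats (r : ℕ) : (Inst.Pats r).card ≤ 2 ^ (r * (r ^ 2 + 1)) := by
  unfold Inst.Pats
  refine (Multiset.toFinset_card_le _).trans ?_
  rw [Multiset.card_powerset, Multiset.card_nsmul, Multiset.card_range]

open Classical in
lemma step2 {r : ℕ} (hr : 0 < r) {E M n : ℕ} (hE : (64 * r) ^ 5 ≤ E)
    (hM : (64 * r) ^ (3 * (2 * (r ^ 2 + 1)) + 11) * E ≤ M) (hM2 : 2 ^ (r * (r ^ 2 + 1)) ≤ M)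
    (hn : M ^ (r ^ 2 + 6) ≤ n) (I : Inst n) (Sel : Finset ℕ) (hS : I.IsSel r Sel)
    (hsc : 16 * r * ((univ.filter
      (I.unclean r Sel E ((64 * r) ^ (3 * (2 * (r ^ 2 + 1)) + 11) * E))).card +
      (univ.filter (I.mid r E ((64 * r) ^ (3 * (2 * (r ^ 2 + 1)) + 11) * E))).card) ≤ n) :
    I.Solv (1 - 3 / r) := by
  set s := 64 * r with hs
  set q := 2 * (r ^ 2 + 1) with hq
  have hs64 : 64 ≤ s := by omega
  have hrs : 64 * r ≤ s := le_rfl
  have hr2 : 1 ≤ r ^ 2 := Nat.one_le_pow _ _ hr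
  have hq4 : q ≤ 4 * r ^ 2 := by omega
  have p2 : s ^ 2 = 4096 * r ^ 2 := by rw [hs]; ring
  have p3 : s ^ 3 = 262144 * r ^ 3 := by rw [hs]; ring
  have p4 : s ^ 4 = 16777216 * r ^ 4 := by rw [hs]; ring
  have p5 : s ^ 5 = 1073741824 * r ^ 5 := by rw [hs]; ring
  have r12 : r ≤ r ^ 2 := by nlinarith
  have r23 : r ^ 2 ≤ r ^ 3 := Nat.pow_le_pow_right hr (by norm_num)
  have r34 : r ^ 3 ≤ r ^ 4 := Nat.pow_le_pow_right hr (by norm_num)
  have r45 : r ^ 4 ≤ r ^ 5 := Nat.pow_le_pow_right hr (by norm_num)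
  have hup : ∀ k, 64 * (s ^ k * E) ≤ s ^ (k + 1) * E := fun k => by
    rw [pow_succ]; nlinarith [Nat.zero_le (s ^ k * E)]
  have hrup : ∀ k, 64 * (r * (s ^ k * E)) = s ^ (k + 1) * E := fun k => by
    rw [pow_succ, hs]; ring
  have hmono : ∀ k l, k ≤ l → s ^ k * E ≤ s ^ l * E := fun k l h =>
    Nat.mul_le_mul_right _ (Nat.pow_le_pow_right (by omega) h)
  obtain ⟨k0, hk0, hk1⟩ : ∃ k0, 56 * r * (r ^ 2 + 1) * (8 * s + 1) ≤ 2 ^ k0 ∧ 2 ^ k0 ≤ s ^ 4 := by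
    refine ⟨Nat.log 2 (s ^ 4), ?_, Nat.pow_log_le_self 2 (by positivity)⟩
    have h1 := Nat.lt_pow_succ_log_self (b := 2) (by norm_num) (s ^ 4)
    have h2 : 56 * r * (r ^ 2 + 1) * (8 * s + 1) = 28672 * r ^ 4 + 56 * r ^ 3 + 28672 * r ^ 2
      + 56 * r := by rw [hs]; ring
    rw [pow_succ 2] at h1
    omega
  have hk2 : s * 2 ^ k0 ≤ E := le_trans (by
    rw [pow_succ' s 4]; exact Nat.mul_le_mul_left _ hk1) hE
  have u0 := hup 0
  have u1 := hup 1
  have u2 := hup 2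
  have u3 := hup 3
  have u4 := hup 4
  have u5 := hup 5
  have u6 := hup 6
  have u7 := hup 7
  have v0 := hrup 0
  have v3 := hrup 3
  have v5 := hrup 5
  simp only [pow_zero, one_mul, zero_add] at u0 v0
  norm_num only at u1 u2 u3 u4 u5 u6 u7 v3 v5
  set L := (2 * q * r + 3) ^ q with hL
  have hL1 : L ≤ s ^ (3 * q) := by
    rw [pow_mul]
    refine Nat.pow_le_pow_left ?_ _
    have : 2 * q * r = 4 * r ^ 3 + 4 * r := by rw [hq]; ring
    omega
  have hL0 : 1 ≤ L := Nat.one_le_pow _ _ (by omega)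
  set F := s ^ 3 * E + ((s ^ 7 * E + r * (s ^ 3 * E) + 1) * L + q) with hF
  have hF1 : F ≤ s ^ (3 * q + 8) * E := by
    have h1 : F ≤ (s ^ 8 * E) * L := by
      have h2 : s ^ 3 * E + q ≤ (s ^ 3 * E + q) * L := Nat.le_mul_of_pos_right _ hL0
      calc F ≤ (s ^ 7 * E + r * (s ^ 3 * E) + 1) * L + (s ^ 3 * E + q) * L := by omega
        _ = (s ^ 7 * E + r * (s ^ 3 * E) + 1 + (s ^ 3 * E + q)) * L := by ring
        _ ≤ _ := Nat.mul_le_mul_right _ (by omega)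
    calc F ≤ (s ^ 8 * E) * s ^ (3 * q) := h1.trans (Nat.mul_le_mul_left _ hL1)
      _ = _ := by ring
  set X := s ^ (3 * q + 11) * E with hX
  have hFX : s ^ 3 * F ≤ X := by
    calc _ ≤ s ^ 3 * (s ^ (3 * q + 8) * E) := Nat.mul_le_mul_left _ hF1
      _ = _ := by rw [hX]; ring
  have hX8 : s ^ 8 * E ≤ X := hmono _ _ (by omega)
  have hFX2 : 48 * r ^ 2 * F ≤ X := le_trans (Nat.mul_le_mul_right _ (by omega)) hFX
  have hFX3 : 12 * r * F ≤ X := le_trans (Nat.mul_le_mul_right _ (by omega)) hFX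
  have hFX4 : 4 * F ≤ X := le_trans (Nat.mul_le_mul_right _ (by omega)) hFX
  have hM0 : 1 ≤ M := by omega
  have hM1 : M ≤ n := le_trans (Nat.le_self_pow (by omega) _) hn
  have hMM : M * M ≤ n := le_trans (by
    rw [← pow_two]; exact Nat.pow_le_pow_right hM0 (by omega)) hn
  refine I.core2 hS hr (E' := s ^ 2 * E) (k0 := k0) (q := q) (w0 := s ^ 5 * E) (X' := s ^ 5 * E)
    (B := s ^ 3 * E) (D := s ^ 7 * E) (F := F) ?_ hk0 ?_ le_rfl ?_ ?_ ?_ ?_
    (H7.prox_quant q r _ _ hr) (by omega) (by rw [← hs]; omega) hFX2 (by omega) (by omega)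
    (by omega) ?_ ?_ hsc
  · have : 28 * s * (s + 1) = 114688 * r ^ 2 + 1792 * r := by rw [hs]; ring
    rw [← hs]; omega
  · have : 12 * r * (5 * E + 28 * r * (r ^ 2 + 1)) = 60 * (r * E) + 336 * r ^ 4 + 336 * r ^ 2 := by
      ring
    rw [← hs]; omega
  · calc _ ≤ s ^ 2 * (3 * (s ^ 2 * E)) := Nat.mul_le_mul (by omega) (by omega)
      _ = 3 * (s ^ 4 * E) := by ring
      _ ≤ _ := by omega
  · calc _ ≤ s * s ^ 2 * (s ^ 2 * E) := by
          have h1 : 16 * r * q * (E + s ^ 2 * E) ≤ 16 * r * q * (4 * (s ^ 2 * E)) :=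
            Nat.mul_le_mul_left _ (by omega)
          have h2 : 16 * r * q * (4 * (s ^ 2 * E)) = s * q * (s ^ 2 * E) := by rw [hs]; ring
          exact (h1.trans h2.le).trans (Nat.mul_le_mul_right _ (Nat.mul_le_mul_left _ (by omega)))
      _ = _ := by ring
  · have : 56 * (r ^ 2 + 1) ^ 2 * (64 * r) = 3584 * r ^ 5 + 7168 * r ^ 3 + 3584 * r := by ring
    omega
  · have h1 : 14 * r * q = 28 * r ^ 3 + 28 * r := by rw [hq]; ring
    have h2 : r * (s ^ 5 * E + s ^ 5 * E) = 2 * (r * (s ^ 5 * E)) := by ring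
    omega
  · have h1 : 2 * r * (r + 2) ≤ M := by
      have : 2 * r * (r + 2) = 2 * r ^ 2 + 4 * r := by ring
      omega
    calc _ ≤ M * (M ^ (r ^ 2 + 1) * M) * (M * (M * M)) := by
          gcongr
          · omega
          · omega
          · omega
          · exact (card_Pats r).trans hM2
          · omega
      _ = M ^ (r ^ 2 + 6) := by ring
      _ ≤ n := hn
  · have h1 : 2 * r * (r + 2) * (q * (2 * (4 * X + 1) + 1) + q * (s ^ 5 * E)) ≤
        2 * r * (r + 2) * (q * (11 * X) + q * X) := by gcongr <;> omega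
    have h2 : 2 * r * (r + 2) * (q * (11 * X) + q * X) =
        (48 * r ^ 4 + 96 * r ^ 3 + 48 * r ^ 2 + 96 * r) * X := by rw [hq]; ring
    have h3 : (48 * r ^ 4 + 96 * r ^ 3 + 48 * r ^ 2 + 96 * r) * X < M * M :=
      Nat.mul_lt_mul_of_lt_of_le (by omega) hM hM0
    exact (h1.trans h2.le).trans_lt (h3.trans_le hMM)

theorem ordered_main2 {r : ℕ} (hr : 0 < r) {n : ℕ} (hn : (64 * r) ^ (8000 * r ^ 7) ≤ n)
    (I : Inst n) : I.Solv (1 - 3 / r) := by
  have hn0 : 0 < n := lt_of_lt_of_le (by positivity) hn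
  set c := 3 * (2 * (r ^ 2 + 1)) + 11 with hc
  let e : ℕ → ℕ := fun i => (64 * r) ^ (c * i + 5)
  have he : Monotone e := fun i j hij =>
    Nat.pow_le_pow_right (by omega) (Nat.add_le_add_right (Nat.mul_le_mul_left _ hij) _)
  obtain ⟨Sel, hS⟩ := I.exists_sel hr hn0
  obtain ⟨i, hi, h⟩ := I.exists_scale Sel hr e he
  have h1 : e (i + 1) = (64 * r) ^ c * e i := by simp only [e]; ring
  rw [h1] at h
  have hr2 : 1 ≤ r ^ 2 := Nat.one_le_pow _ _ hr
  have r13 : r ≤ r ^ 3 := Nat.le_self_pow (by norm_num) _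
  have r35 : r ^ 3 ≤ r ^ 5 := Nat.pow_le_pow_right hr (by norm_num)
  refine step2 hr (M := (64 * r) ^ (1140 * r ^ 5))
    (Nat.pow_le_pow_right (by omega) (Nat.le_add_left _ _)) ?_ ?_ (le_trans ?_ hn) I Sel hS h
  · rw [← h1]
    refine Nat.pow_le_pow_right (by omega) ?_
    have h2 : c * (i + 1) ≤ c * (16 * r * (r ^ 2 + 2)) := Nat.mul_le_mul_left _ hi
    have h3 : c * (16 * r * (r ^ 2 + 2)) = 96 * r ^ 5 + 464 * r ^ 3 + 544 * r := by rw [hc]; ring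
    omega
  · calc 2 ^ (r * (r ^ 2 + 1)) ≤ (64 * r) ^ (r * (r ^ 2 + 1)) := Nat.pow_le_pow_left (by omega) _
      _ ≤ _ := Nat.pow_le_pow_right (by omega) (by
          have : r * (r ^ 2 + 1) = r ^ 3 + r := by ring
          omega)
  · rw [← pow_mul]
    refine Nat.pow_le_pow_right (by omega) ?_
    have h2 : r ^ 5 ≤ r ^ 7 := Nat.pow_le_pow_right hr (by norm_num)
    have h3 : 1140 * r ^ 5 * (r ^ 2 + 6) = 1140 * r ^ 7 + 6840 * r ^ 5 := by ring
    omega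

end Pool.Agent.Lib.MP_5049a2_lc
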