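import Mathlib

/-! Ordered normalised instances, offers, and the reduction to them. -/

namespace Pool.Agent.Lib.MP_5049a2_lc

open Finset

/-- Value of a cumulative demand `U` (`U t` items among the first `t` positions). -/
noncomputable def Val (m : ℕ) (w : ℕ → ℝ) (U : ℕ → ℕ) : ℝ :=
  ∑ p ∈ range m, ((U (p + 1) : ℝ) - U p) * w p

/-- Ordered instance in which every agent has a partition into bundles of value exactly one. -/
structure Inst (n : ℕ) where
  m : ℕ
  w : Fin n → ℕ → ℝ
  bun : Fin n → ℕ → Fin n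
  anti : ∀ a, Antitone (w a)
  nonneg : ∀ a p, 0 ≤ w a p
  zero : ∀ a p, m ≤ p → w a p = 0
  sum_one : ∀ a j, ∑ p ∈ (range m).filter (fun p => bun a p = j), w a p = 1

/-- Feasible cumulative demands giving everybody at least `α`. -/
def Inst.Solv {n : ℕ} (I : Inst n) (α : ℝ) : Prop :=
  ∃ U : Fin n → ℕ → ℕ, (∀ a, Monotone (U a)) ∧ (∀ t ≤ I.m, ∑ a, U a t ≤ t) ∧
    ∀ a, α ≤ Val I.m (I.w a) (U a)

lemma hall_alloc {n m : ℕ} (i0 : Fin n) (s : Fin n → Equiv.Perm (Fin m)) (U : Fin n → ℕ → ℕ)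
    (hmono : ∀ a, Monotone (U a)) (hsum : ∀ t ≤ m, ∑ a, U a t ≤ t) :
    ∃ A : Fin m → Fin n, ∀ a (v : Fin m → ℝ), (∀ g, 0 ≤ v g) → Antitone (v ∘ s a) →
      ∑ p : Fin m, ((U a (p + 1) : ℝ) - U a p) * v (s a p) ≤
        ∑ g ∈ univ.filter (fun g => A g = a), v g := by
  classical
  let k : Fin n × Fin m → ℕ := fun x => U x.1 (x.2 + 1) - U x.1 x.2
  let ι := Σ x : Fin n × Fin m, Fin (k x)
  let t : ι → Finset (Fin m) := fun x => (univ.filter fun p => p ≤ x.1.2).image (s x.1.1)
  have hU0 : ∀ a, U a 0 = 0 := by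
    intro a
    have h := hsum 0 (Nat.zero_le _)
    have := Finset.single_le_sum (f := fun a => U a 0) (fun _ _ => Nat.zero_le _) (mem_univ a)
    omega
  have htel : ∀ a T, ∑ p ∈ range T, (U a (p + 1) - U a p) = U a T := by
    intro a T
    induction T with
    | zero => simp [hU0]
    | succ T ih => rw [sum_range_succ, ih]; have : U a T ≤ U a (T + 1) := hmono a (Nat.le_succ T); omega
  have hcardle : ∀ p : Fin m, (univ.filter fun q : Fin m => q ≤ p).card = p + 1 := by
    intro p
    have : (univ.filter fun q : Fin m => q ≤ p) = Finset.Iic p := by ext; simp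
    rw [this, Fin.card_Iic]
  have hhall : ∀ Y : Finset ι, Y.card ≤ (Y.biUnion t).card := by
    intro Y
    rcases Y.eq_empty_or_nonempty with rfl | hY
    · simp
    obtain ⟨y, hy, hmax⟩ := Finset.exists_max_image Y (fun x => x.1.2) hY
    have h1 : Y ⊆ univ.filter fun x : ι => x.1.2 ≤ y.1.2 := fun x hx => by simp [hmax x hx]
    have h2 : (univ.filter fun x : ι => x.1.2 ≤ y.1.2).card = ∑ a, U a (y.1.2 + 1) := by
      rw [card_filter, Fintype.sum_sigma, Fintype.sum_prod_type]
      refine Finset.sum_congr rfl fun a _ => ?_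
      rw [← htel a]
      have e : ∀ p : Fin m, (∑ _x : Fin (k (a, p)), if p ≤ y.1.2 then 1 else 0) =
          (fun p : ℕ => if p < y.1.2 + 1 then U a (p + 1) - U a p else 0) p := by
        intro p
        rw [sum_const, card_univ, Fintype.card_fin]
        simp only [k, Nat.lt_succ_iff, Fin.le_def, smul_eq_mul, mul_ite, mul_one, mul_zero]
      rw [Finset.sum_congr rfl fun p _ => e p, Fin.sum_univ_eq_sum_range
        (fun p : ℕ => if p < y.1.2 + 1 then U a (p + 1) - U a p else 0) m, ← Finset.sum_filter]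
      congr 1
      ext p
      have := y.1.2.2
      simp only [mem_filter, mem_range]
      omega
    have h3 : (t y).card = y.1.2 + 1 := by
      simp only [t]
      rw [card_image_of_injective _ (s _).injective, hcardle]
    calc Y.card ≤ _ := card_le_card h1
      _ = _ := h2
      _ ≤ y.1.2 + 1 := hsum _ y.1.2.2
      _ = (t y).card := h3.symm
      _ ≤ _ := card_le_card (subset_biUnion_of_mem t hy)
  obtain ⟨f, hf, hft⟩ := (Finset.all_card_le_biUnion_card_iff_exists_injective t).1 hhall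
  refine ⟨fun g => if h : ∃ x, f x = g then h.choose.1.1 else i0, fun a v hv hanti => ?_⟩
  have hA : ∀ x : ι, (if h : ∃ y, f y = f x then h.choose.1.1 else i0) = x.1.1 := by
    intro x
    have h : ∃ y, f y = f x := ⟨x, rfl⟩
    rw [dif_pos h, hf h.choose_spec]
  calc ∑ p : Fin m, ((U a (p + 1) : ℝ) - U a p) * v (s a p)
      = ∑ x ∈ univ.filter (fun x : ι => x.1.1 = a), v (s x.1.1 x.1.2) := by
        rw [Finset.sum_filter, Fintype.sum_sigma, Fintype.sum_prod_type,
          Finset.sum_eq_single a (fun b _ hb => by simp [hb]) (by simp)]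
        refine Finset.sum_congr rfl fun p _ => ?_
        have := hmono a (Nat.le_succ p)
        simp only [if_true, sum_const, card_univ, Fintype.card_fin, nsmul_eq_mul, k]
        rw [Nat.cast_sub this]
    _ ≤ ∑ x ∈ univ.filter (fun x : ι => x.1.1 = a), v (f x) := by
        refine Finset.sum_le_sum fun x hx => ?_
        have hx' : x.1.1 = a := (mem_filter.1 hx).2
        obtain ⟨p, hp, hpe⟩ := mem_image.1 (hft x)
        rw [← hpe, hx']
        exact hanti (mem_filter.1 hp).2
    _ = ∑ g ∈ (univ.filter (fun x : ι => x.1.1 = a)).image f, v g :=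
        (Finset.sum_image fun x _ y _ h => hf h).symm
    _ ≤ _ := by
        refine Finset.sum_le_sum_of_subset_of_nonneg (fun g hg => ?_) fun g _ _ => hv g
        obtain ⟨x, hx, rfl⟩ := mem_image.1 hg
        exact mem_filter.2 ⟨mem_univ _, (hA x).trans (mem_filter.1 hx).2⟩

/-- Reduction of the general problem to ordered normalised instances. -/
theorem reduction {n : ℕ} (hn : 0 < n) {α : ℝ} (hα : 0 ≤ α) (h : ∀ I : Inst n, I.Solv α)
    (m : ℕ) (v : Fin n → Fin m → ℝ) (hv : ∀ i g, 0 ≤ v i g) (μ : Fin n → ℝ)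
    (P : Fin n → Fin m → Fin n)
    (hP : ∀ i j, μ i ≤ ∑ g ∈ univ.filter (fun g => P i g = j), v i g) :
    ∃ A : Fin m → Fin n, ∀ i, α * μ i ≤ ∑ g ∈ univ.filter (fun g => A g = i), v i g := by
  classical
  by_cases hall : ∀ i, μ i ≤ 0
  · refine ⟨fun _ => ⟨0, hn⟩, fun i => ?_⟩
    have := mul_nonpos_of_nonneg_of_nonpos hα (hall i)
    exact this.trans (Finset.sum_nonneg fun g _ => hv i g)
  push Not at hall
  obtain ⟨i0, hi0⟩ := hall
  let ρ : Fin n → Fin n := fun i => if 0 < μ i then i else i0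
  have hρ : ∀ i, 0 < μ (ρ i) := by
    intro i; simp only [ρ]; split_ifs with h1; exacts [h1, hi0]
  let bv : Fin n → Fin n → ℝ := fun i j => ∑ g ∈ univ.filter (fun g => P i g = j), v i g
  have hbv : ∀ i j, 0 < bv (ρ i) j := fun i j => (hρ i).trans_le (hP _ _)
  let v' : Fin n → Fin m → ℝ := fun i g => v (ρ i) g / bv (ρ i) (P (ρ i) g)
  have hv' : ∀ i g, 0 ≤ v' i g := fun i g => div_nonneg (hv _ _) (hbv _ _).le
  let s : Fin n → Equiv.Perm (Fin m) := fun i => Tuple.sort (fun g => - v' i g)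
  have hs : ∀ i, Antitone (v' i ∘ s i) := by
    intro i p q hpq
    have := Tuple.monotone_sort (fun g => - v' i g) hpq
    simpa using this
  let I : Inst n :=
    { m := m
      w := fun i p => if h : p < m then v' i (s i ⟨p, h⟩) else 0
      bun := fun i p => if h : p < m then P (ρ i) (s i ⟨p, h⟩) else i
      anti := by
        intro i p q hpq
        by_cases hq : q < m
        · have hp : p < m := lt_of_le_of_lt hpq hq
          simp only [dif_pos hq, dif_pos hp]
          exact hs i (show (⟨p, hp⟩ : Fin m) ≤ ⟨q, hq⟩ from hpq)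
        · simp only [dif_neg hq]
          split_ifs; exacts [hv' _ _, le_rfl]
      nonneg := by
        intro i p
        split_ifs; exacts [hv' _ _, le_rfl]
      zero := by
        intro i p hp
        rw [dif_neg (not_lt.2 hp)]
      sum_one := by
        intro i j
        rw [Finset.sum_filter, ← Fin.sum_univ_eq_sum_range (fun p =>
          if (if h : p < m then P (ρ i) (s i ⟨p, h⟩) else i) = j then
            (if h : p < m then v' i (s i ⟨p, h⟩) else 0) else 0) m]
        simp only [Fin.is_lt, dif_pos, Fin.eta]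
        rw [Equiv.sum_comp (s i) (fun g => if P (ρ i) g = j then v' i g else 0),
          ← Finset.sum_filter]
        rw [Finset.sum_congr rfl (g := fun g => v (ρ i) g / bv (ρ i) j)
          (fun g hg => by simp only [v']; rw [(mem_filter.1 hg).2]), ← Finset.sum_div]
        exact div_self (hbv i j).ne' }
  obtain ⟨U, hmono, hsum, hval⟩ := h I
  obtain ⟨A, hA⟩ := hall_alloc i0 s U hmono hsum
  refine ⟨A, fun i => ?_⟩
  by_cases hi : 0 < μ i
  · have h1 := hA i (v' i) (hv' i) (hs i)
    have h2 := hval i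
    have h3 : Val I.m (I.w i) (U i) = ∑ p : Fin m, ((U i (p + 1) : ℝ) - U i p) * v' i (s i p) := by
      simp only [Val, I]
      rw [← Fin.sum_univ_eq_sum_range (fun p => ((U i (p + 1) : ℝ) - U i p) *
        (if h : p < m then v' i (s i ⟨p, h⟩) else 0)) m]
      simp only [Fin.is_lt, dif_pos, Fin.eta]
    have h4 : ∑ g ∈ univ.filter (fun g => A g = i), v' i g ≤
        (∑ g ∈ univ.filter (fun g => A g = i), v i g) / μ i := by
      rw [Finset.sum_div]
      refine Finset.sum_le_sum fun g _ => ?_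
      have hρi : ρ i = i := by simp [ρ, hi]
      simp only [v', hρi]
      exact div_le_div_of_nonneg_left (hv _ _) hi (hP _ _)
    rw [le_div_iff₀ hi] at h4
    have : α ≤ ∑ g ∈ univ.filter (fun g => A g = i), v' i g := by linarith
    nlinarith
  · have := mul_nonpos_of_nonneg_of_nonpos hα (not_lt.1 hi)
    exact this.trans (Finset.sum_nonneg fun g _ => hv i g)

lemma Val_add (m : ℕ) (w : ℕ → ℝ) (U V : ℕ → ℕ) :
    Val m w (fun t => U t + V t) = Val m w U + Val m w V := by
  simp only [Val, ← Finset.sum_add_distrib]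
  refine Finset.sum_congr rfl fun p _ => by push_cast; ring

lemma Val_steps {ι : Type*} (m : ℕ) (w : ℕ → ℝ) (s : Finset ι) (b : ι → ℕ)
    (hb : ∀ i ∈ s, 0 < b i ∧ b i ≤ m) :
    Val m w (fun t => (s.filter fun i => b i ≤ t).card) = ∑ i ∈ s, w (b i - 1) := by
  simp only [Val, card_filter]
  push_cast
  simp only [← Finset.sum_sub_distrib, Finset.sum_mul]
  rw [Finset.sum_comm]
  refine Finset.sum_congr rfl fun i hi => ?_
  obtain ⟨h0, h1⟩ := hb i hi
  rw [Finset.sum_eq_single (b i - 1)]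
  · rw [if_pos (by omega), if_neg (by omega)]; ring
  · intro p _ hp
    by_cases h : b i ≤ p
    · rw [if_pos (by omega), if_pos h]; ring
    · rw [if_neg (by omega), if_neg h]; ring
  · intro h
    exact absurd (mem_range.2 (by omega)) h

/-- Abel summation bound. -/
lemma abel_bound (w e : ℕ → ℝ) (hw : Antitone w) (hw0 : ∀ p, 0 ≤ w p) (st : ℕ) (h0 : e st = 0)
    (he : ∀ p, e p ≤ 1) (M : ℕ) (hM : st ≤ M) :
    ∑ p ∈ Ico st M, (e (p + 1) - e p) * w p ≤ w st := by
  have key : ∑ p ∈ Ico st M, (e (p + 1) - e p) * w p ≤ w st - (1 - e M) * w M := by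
    induction M, hM using Nat.le_induction with
    | base => simp [h0]
    | succ M hM ih =>
      rw [Finset.sum_Ico_succ_top hM]
      have h1 := hw (Nat.le_succ M)
      have h2 := he (M + 1)
      nlinarith
  nlinarith [he M, hw0 M]

/-- The value of a share `σ` of all positions from `st` on. -/
lemma Val_dust (m : ℕ) (w : ℕ → ℝ) (hw : Antitone w) (hw0 : ∀ p, 0 ≤ w p) (σ : ℝ)
    (st : ℕ) (hst : st ≤ m) :
    σ * ∑ p ∈ Ico st m, w p - w st ≤ Val m w (fun t => ⌊σ * ((t - st : ℕ) : ℝ)⌋₊) := by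
  have h := abel_bound w (fun t => σ * ((t - st : ℕ) : ℝ) - ⌊σ * ((t - st : ℕ) : ℝ)⌋₊) hw hw0 st
    (by simp) (fun p => by linarith [Nat.lt_floor_add_one (σ * ((p - st : ℕ) : ℝ))]) m hst
  have h2 : Val m w (fun t => ⌊σ * ((t - st : ℕ) : ℝ)⌋₊) = ∑ p ∈ Ico st m,
      ((⌊σ * ((p + 1 - st : ℕ) : ℝ)⌋₊ : ℝ) - ⌊σ * ((p - st : ℕ) : ℝ)⌋₊) * w p := by
    simp only [Val]
    rw [range_eq_Ico, ← Finset.sum_Ico_consecutive _ (Nat.zero_le st) hst,
      Finset.sum_eq_zero, zero_add]
    intro p hp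
    have := (mem_Ico.1 hp).2
    rw [show p + 1 - st = 0 by omega, show p - st = 0 by omega]
    simp
  rw [h2, Finset.mul_sum]
  have h3 : ∑ p ∈ Ico st m, σ * w p = ∑ p ∈ Ico st m,
      ((⌊σ * ((p + 1 - st : ℕ) : ℝ)⌋₊ : ℝ) - ⌊σ * ((p - st : ℕ) : ℝ)⌋₊) * w p + ∑ p ∈ Ico st m,
      ((σ * ((p + 1 - st : ℕ) : ℝ) - ⌊σ * ((p + 1 - st : ℕ) : ℝ)⌋₊) -
        (σ * ((p - st : ℕ) : ℝ) - ⌊σ * ((p - st : ℕ) : ℝ)⌋₊)) * w p := by
    rw [← Finset.sum_add_distrib]
    refine Finset.sum_congr rfl fun p hp => ?_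
    have := (mem_Ico.1 hp).1
    rw [show p + 1 - st = (p - st) + 1 by omega]
    push_cast; ring
  linarith

end Pool.Agent.Lib.MP_5049a2_lc
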