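import Pool.Agent.Lib.MP_5049a2_lc.Core

/-! Choice of the scales and the main theorem in explicit form. -/

namespace Pool.Agent.Lib.MP_5049a2_lc

open Finset

open Classical in
lemma step {r : ℕ} (hr : 0 < r) (E : ℕ) : ∃ X N : ℕ, E ≤ X ∧ (28 * (64 * r) * (64 * r + 1) ≤ E →
    ∀ n ≥ N, ∀ (I : Inst n) (Sel : Finset ℕ), I.IsSel r Sel →
      16 * r * ((univ.filter (I.unclean r Sel E X)).card + (univ.filter (I.mid r E X)).card) ≤ n →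
      I.Solv (1 - 3 / r)) := by
  obtain ⟨k0, hk0⟩ : ∃ k0, 56 * r * (r ^ 2 + 1) * (8 * (64 * r) + 1) ≤ 2 ^ k0 :=
    ⟨_, Nat.lt_two_pow_self.le⟩
  obtain ⟨E', hE'⟩ : ∃ E', 4 * E + 2 * (64 * r * 2 ^ k0) +
    12 * r * (5 * E + 28 * r * (r ^ 2 + 1)) ≤ E' := ⟨_, le_rfl⟩
  obtain ⟨w0, hw0⟩ : ∃ w0, 2 * (r ^ 2 + 1) * (2 * E' + 1) ≤ w0 := ⟨_, le_rfl⟩
  obtain ⟨X', hX'⟩ : ∃ X', 16 * r * w0 * (E + E') ≤ X' := ⟨_, le_rfl⟩
  obtain ⟨B, hB⟩ : ∃ B, r * E + (E + E') + 56 * (r ^ 2 + 1) ^ 2 * (64 * r) + 14 ≤ B := ⟨_, le_rfl⟩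
  obtain ⟨F, hF⟩ := prox w0 (r + X') (14 * r * w0) B
  obtain ⟨X, hX1, hX2, hX3⟩ : ∃ X, 5 * E ≤ X ∧ 64 * r * 2 ^ k0 ≤ X ∧ 48 * r ^ 2 * F ≤ X :=
    ⟨max (5 * E) (max (64 * r * 2 ^ k0) (48 * r ^ 2 * F)), le_max_left _ _,
      (le_max_left _ _).trans (le_max_right _ _), (le_max_right _ _).trans (le_max_right _ _)⟩
  obtain ⟨N, hN1, hN2, hN3⟩ : ∃ N, 12 * r * F ≤ N ∧
      16 * r * (2 ^ (w0 * (r ^ 2 + 1)) * (X' + 1) * 2 ^ (Inst.Pats r).card) *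
        ((2 * r * (r + 2) * (Inst.Pats r).card) * (2 * F + 14)) ≤ N ∧
      2 * r * (r + 2) * (2 * (r ^ 2 + 1) * (2 * (4 * X + 1) + 1) + w0 * (16 * r * w0 * X)) < N :=
    ⟨max _ (max _ (_ + 1)), le_max_left _ _, (le_max_left _ _).trans (le_max_right _ _),
      (Nat.lt_succ_self _).trans_le ((le_max_right _ _).trans (le_max_right _ _))⟩
  refine ⟨X, N, le_trans (Nat.le_mul_of_pos_left E (by norm_num)) hX1,
    fun hE n hn I Sel hS hsc => ?_⟩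
  exact I.core hS hr hE hk0 hE' hw0 hX' hB hF hX1 hX2 hX3
    (lt_of_le_of_lt (Nat.zero_le _) (hN3.trans_le hn)) (hN1.trans hn) (hN2.trans hn)
    (hN3.trans_le hn) hsc

theorem ordered_main {r : ℕ} (hr : 0 < r) :
    ∃ N, ∀ n ≥ N, ∀ I : Inst n, I.Solv (1 - 3 / r) := by
  choose X N hX hN using step hr
  let e : ℕ → ℕ := fun i => Nat.rec (28 * (64 * r) * (64 * r + 1)) (fun _ E => X E) i
  have he : Monotone e := monotone_nat_of_le_succ fun i => hX _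
  refine ⟨(range (16 * r * (r ^ 2 + 2))).sup (fun i => N (e i)) + 1, fun n hn I => ?_⟩
  obtain ⟨Sel, hS⟩ := I.exists_sel hr (by omega)
  obtain ⟨i, hi, h⟩ := I.exists_scale Sel hr e he
  refine hN (e i) (he (Nat.zero_le i)) n ?_ I Sel hS h
  have := Finset.le_sup (f := fun i => N (e i)) (mem_range.2 hi)
  omega

theorem main {ε : ℝ} (hε : 0 < ε) (hε1 : ε ≤ 1) : ∃ N, ∀ n ≥ N, ∀ (m : ℕ) (v : Fin n → Fin m → ℝ),
    (∀ i g, 0 ≤ v i g) → ∀ (μ : Fin n → ℝ) (P : Fin n → Fin m → Fin n),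
    (∀ i j, μ i ≤ ∑ g ∈ univ.filter (fun g => P i g = j), v i g) →
    ∃ A : Fin m → Fin n, ∀ i, (1 - ε) * μ i ≤ ∑ g ∈ univ.filter (fun g => A g = i), v i g := by
  obtain ⟨r, hr⟩ := exists_nat_ge (3 / ε)
  have hr0 : (0 : ℝ) < r := lt_of_lt_of_le (by positivity) hr
  obtain ⟨N, hN⟩ := ordered_main (r := r) (by exact_mod_cast hr0)
  refine ⟨N + 1, fun n hn m v hv μ P hP => ?_⟩
  refine reduction (by omega) (by linarith) (fun I => ?_) m v hv μ P hP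
  obtain ⟨U, h1, h2, h3⟩ := hN n (by omega) I
  refine ⟨U, h1, h2, fun a => le_trans ?_ (h3 a)⟩
  have : 3 / (r : ℝ) ≤ ε := by
    rw [div_le_iff₀ hε] at hr
    rw [div_le_iff₀ hr0]; linarith
  linarith

end Pool.Agent.Lib.MP_5049a2_lc
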