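import Mathlib

/-!
Rational retractions of the real line and the extremal instance with `n ^ n` goods.
-/

set_option autoImplicit false
set_option linter.unusedSectionVars false

namespace Pool.Agent.Lib.MP_5049a2_lc.RatA

open Finset

/-- A rational-valued additive map fixing one and close to the identity on a finite set. -/
theorem exists_approx (S : Finset ℝ) {δ : ℝ} (hδ : 0 < δ) :
    ∃ φ : ℝ →ₗ[ℚ] ℚ, φ 1 = 1 ∧ ∀ s ∈ S, |(φ s : ℝ) - s| < δ := by
  classical
  have hli : LinearIndepOn ℚ id ({1} : Set ℝ) := LinearIndepOn.singleton one_ne_zero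
  set b := Module.Basis.extend hli with hb
  have h1 : (1 : ℝ) ∈ hli.extend (Set.subset_univ _) := hli.subset_extend _ rfl
  set C : ℝ := 1 + ∑ s ∈ S, ∑ k ∈ (b.repr s).support, |((b.repr s k : ℚ) : ℝ)| with hC
  have hC0 : 0 < C := by positivity
  have hq : ∀ k, ∃ q : ℚ, |(q : ℝ) - b k| < δ / C ∧ (b k = 1 → q = 1) := by
    intro k
    by_cases h : b k = 1
    · exact ⟨1, by rw [h]; simpa using div_pos hδ hC0, fun _ => rfl⟩
    · obtain ⟨q, hq⟩ := exists_rat_near (b k) (div_pos hδ hC0)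
      exact ⟨q, by rwa [abs_sub_comm], fun h' => absurd h' h⟩
  choose q hq1 hq2 using hq
  refine ⟨b.constr ℚ q, ?_, fun s hs => ?_⟩
  · have e : b ⟨1, h1⟩ = 1 := by rw [hb, Module.Basis.extend_apply_self]
    have := b.constr_basis ℚ q ⟨1, h1⟩
    rw [e] at this
    rw [this]
    exact hq2 _ e
  · have e1 : ((b.constr ℚ q s : ℚ) : ℝ) =
        ∑ k ∈ (b.repr s).support, ((b.repr s k : ℚ) : ℝ) * q k := by
      rw [Module.Basis.constr_apply, Finsupp.sum]
      push_cast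
      simp
    have e2 : s = ∑ k ∈ (b.repr s).support, ((b.repr s k : ℚ) : ℝ) * b k := by
      conv_lhs => rw [← b.linearCombination_repr s]
      rw [Finsupp.linearCombination_apply, Finsupp.sum]
      exact sum_congr rfl fun k _ => Rat.smul_def _ _
    have e3 : ((b.constr ℚ q s : ℚ) : ℝ) - s =
        ∑ k ∈ (b.repr s).support, ((b.repr s k : ℚ) : ℝ) * (q k - b k) := by
      rw [e1]
      conv_lhs => rw [e2]
      simp only [← e2]
      rw [← sub_eq_zero]
      simp only [mul_sub, sum_sub_distrib, ← e2]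
      ring
    have h3 : ∑ k ∈ (b.repr s).support, |((b.repr s k : ℚ) : ℝ)| ≤ C - 1 := by
      rw [hC, add_sub_cancel_left]
      exact single_le_sum (f := fun s => ∑ k ∈ (b.repr s).support, |((b.repr s k : ℚ) : ℝ)|)
        (fun _ _ => by positivity) hs
    rw [e3]
    calc _ ≤ ∑ k ∈ (b.repr s).support, |((b.repr s k : ℚ) : ℝ)| * (δ / C) := by
          refine (abs_sum_le_sum_abs _ _).trans (sum_le_sum fun k _ => ?_)
          rw [abs_mul]
          exact mul_le_mul_of_nonneg_left (hq1 k).le (abs_nonneg _)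
      _ ≤ (C - 1) * (δ / C) := by
          rw [← sum_mul]
          exact mul_le_mul_of_nonneg_right h3 (div_pos hδ hC0).le
      _ < δ := by
          rw [sub_mul, mul_div_cancel₀ _ hC0.ne', one_mul]
          linarith [div_pos hδ hC0]

/-- A rational retraction which, together with its mirror image, is monotone on a finite set. -/
theorem exists_mono (S : Finset ℝ) :
    ∃ φ : ℝ →ₗ[ℚ] ℚ, φ 1 = 1 ∧ ∀ x ∈ S, ∀ y ∈ S, x ≤ y →
      (φ x : ℝ) ≤ φ y ∧ 2 * x - φ x ≤ 2 * y - φ y := by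
  classical
  obtain ⟨δ, hδ, hS⟩ : ∃ δ : ℝ, 0 < δ ∧ ∀ x ∈ S, ∀ y ∈ S, x < y → 2 * δ ≤ y - x := by
    by_cases h : ((S ×ˢ S).filter fun p : ℝ × ℝ => p.1 < p.2).Nonempty
    · obtain ⟨p, hp, hmin⟩ := exists_min_image _ (fun p : ℝ × ℝ => p.2 - p.1) h
      refine ⟨(p.2 - p.1) / 2, by linarith [(mem_filter.1 hp).2], fun x hx y hy hxy => ?_⟩
      have := hmin (x, y) (mem_filter.2 ⟨mem_product.2 ⟨hx, hy⟩, hxy⟩)
      linarith
    · exact ⟨1, one_pos, fun x hx y hy hxy =>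
        absurd ⟨(x, y), mem_filter.2 ⟨mem_product.2 ⟨hx, hy⟩, hxy⟩⟩ h⟩
  obtain ⟨φ, h1, h2⟩ := exists_approx S hδ
  refine ⟨φ, h1, fun x hx y hy hxy => ?_⟩
  rcases hxy.eq_or_lt with rfl | hlt
  · exact ⟨le_rfl, le_rfl⟩
  · have a1 := abs_lt.1 (h2 x hx)
    have a2 := abs_lt.1 (h2 y hy)
    have a3 := hS x hx y hy hlt
    constructor <;> linarith [a1.1, a1.2, a2.1, a2.2]

variable {ι γ : Type} [Fintype ι] [DecidableEq ι] [Fintype γ] [DecidableEq γ]

/-- The value of bundle `j`. -/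
def bv (v : γ → ℝ) (P : γ → ι) (j : ι) : ℝ := ∑ g ∈ univ.filter (fun g => P g = j), v g

/-- Normalised valuations for which no allocation gives every agent more than `t`. -/
def Feas (P : ι → γ → ι) (w : ι → γ → ℝ) (t : ℝ) : Prop :=
  (∀ i g, 0 ≤ w i g ∧ w i g ≤ 1) ∧ (∀ i j, 1 ≤ bv (w i) (P i) j) ∧
    ∀ A : γ → ι, ∃ i, bv (w i) A i ≤ t

theorem exists_min [Nonempty ι] (P : ι → γ → ι) (hP : ∀ i j, ∃ g, P i g = j) :
    ∃ w t, Feas P w t ∧ ∀ w' t', Feas P w' t' → t ≤ t' := by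
  have hbv : ∀ i (A : γ → ι) j, Continuous fun p : (ι → γ → ℝ) × ℝ => bv (p.1 i) A j := by
    intro i A j
    unfold bv
    fun_prop
  set N : ℝ := (Fintype.card γ : ℝ) with hN
  set K : Set ((ι → γ → ℝ) × ℝ) := {p | Feas P p.1 p.2 ∧ p.2 ≤ N} with hK
  have hnn : ∀ w t, Feas P w t → 0 ≤ t := by
    intro w t h
    obtain ⟨i, hi⟩ := h.2.2 fun _ => Classical.arbitrary ι
    exact le_trans (sum_nonneg fun g _ => (h.1 i g).1) hi
  have hcl : IsClosed K := by
    have e : K = ((⋂ i, ⋂ g, ({p | 0 ≤ p.1 i g} ∩ {p | p.1 i g ≤ 1})) ∩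
        ((⋂ i, ⋂ j, {p | 1 ≤ bv (p.1 i) (P i) j}) ∩
          ⋂ A : γ → ι, ⋃ i, {p | bv (p.1 i) A i ≤ p.2})) ∩ {p | p.2 ≤ N} := by
      ext p
      simp [hK, Feas]
    rw [e]
    refine IsClosed.inter (IsClosed.inter ?_ (IsClosed.inter ?_ ?_)) ?_
    · exact isClosed_iInter fun i => isClosed_iInter fun g =>
        (isClosed_le continuous_const (by fun_prop)).inter
          (isClosed_le (by fun_prop) continuous_const)
    · exact isClosed_iInter fun i => isClosed_iInter fun j =>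
        isClosed_le continuous_const (hbv _ _ _)
    · exact isClosed_iInter fun A => isClosed_iUnion_of_finite fun i =>
        isClosed_le (hbv _ _ _) continuous_snd
    · exact isClosed_le continuous_snd continuous_const
  have hco : IsCompact K := by
    refine (isCompact_Icc (a := ((fun _ _ => 0 : ι → γ → ℝ), (0 : ℝ)))
      (b := ((fun _ _ => 1 : ι → γ → ℝ), N))).of_isClosed_subset hcl fun p hp => ?_
    exact ⟨⟨fun i g => (hp.1.1 i g).1, hnn _ _ hp.1⟩, ⟨fun i g => (hp.1.1 i g).2, hp.2⟩⟩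
  have hne : K.Nonempty := by
    refine ⟨((fun _ _ => 1), N), ⟨fun _ _ => ⟨zero_le_one, le_rfl⟩, fun i j => ?_,
      fun A => ⟨Classical.arbitrary ι, ?_⟩⟩, le_rfl⟩
    · obtain ⟨g, hg⟩ := hP i j
      exact single_le_sum (f := fun _ : γ => (1 : ℝ)) (fun _ _ => zero_le_one)
        (mem_filter.2 ⟨mem_univ g, hg⟩)
    · simp only [bv, sum_const, nsmul_eq_mul, mul_one, hN, Nat.cast_le]
      exact card_le_univ _
  obtain ⟨p, hp, hmin⟩ := hco.exists_isMinOn hne continuous_snd.continuousOn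
  refine ⟨p.1, p.2, hp.1, fun w' t' h => ?_⟩
  by_cases h' : t' ≤ N
  · exact hmin (a := (w', t')) ⟨h, h'⟩
  · exact hp.2.trans (not_le.1 h').le

theorem feas_map (P : ι → γ → ι) {w : ι → γ → ℝ} {t : ℝ} (h : Feas P w t) (ψ : ℝ →+ ℝ)
    (h1 : ψ 1 = 1) (S : Finset ℝ) (hS : ∀ x ∈ S, ∀ y ∈ S, x ≤ y → ψ x ≤ ψ y) (s0 : 0 ∈ S)
    (s1 : 1 ∈ S) (st : t ∈ S) (sw : ∀ i g, w i g ∈ S)
    (sb : ∀ i (A : γ → ι) j, bv (w i) A j ∈ S) :
    Feas P (fun i g => ψ (w i g)) (ψ t) := by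
  have e : ∀ i (A : γ → ι) j, bv (fun g => ψ (w i g)) A j = ψ (bv (w i) A j) := by
    intro i A j
    simp only [bv, map_sum]
  refine ⟨fun i g => ⟨?_, ?_⟩, fun i j => ?_, fun A => ?_⟩
  · simpa using hS _ s0 _ (sw i g) (h.1 i g).1
  · simpa [h1] using hS _ (sw i g) _ s1 (h.1 i g).2
  · rw [e]
    simpa [h1] using hS _ s1 _ (sb _ _ _) (h.2.1 i j)
  · obtain ⟨i, hi⟩ := h.2.2 A
    exact ⟨i, by rw [e]; exact hS _ (sb _ _ _) _ st hi⟩

/-- The optimum is rational and attained at a rational point. -/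
theorem exists_min_rat [Nonempty ι] (P : ι → γ → ι) (hP : ∀ i j, ∃ g, P i g = j) :
    ∃ (w : ι → γ → ℚ) (t : ℚ), Feas P (fun i g => (w i g : ℝ)) t ∧
      ∀ w' t', Feas P w' t' → (t : ℝ) ≤ t' := by
  classical
  obtain ⟨w, t, hf, hmin⟩ := exists_min P hP
  set S : Finset ℝ := {0, 1, t} ∪ (univ.image fun p : ι × γ => w p.1 p.2) ∪
    univ.image fun p : ι × (γ → ι) × ι => bv (w p.1) p.2.1 p.2.2 with hS
  have s0 : (0 : ℝ) ∈ S := by simp [hS]
  have s1 : (1 : ℝ) ∈ S := by simp [hS]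
  have st : t ∈ S := by simp [hS]
  have sw : ∀ i g, w i g ∈ S := fun i g =>
    mem_union_left _ (mem_union_right _ (mem_image.2 ⟨(i, g), mem_univ _, rfl⟩))
  have sb : ∀ i A j, bv (w i) A j ∈ S := fun i A j =>
    mem_union_right _ (mem_image.2 ⟨(i, A, j), mem_univ _, rfl⟩)
  obtain ⟨φ, h1, h2⟩ := exists_mono S
  let ψ : ℝ →+ ℝ := AddMonoidHom.mk' (fun x => (φ x : ℝ)) fun x y => by simp
  let ψ' : ℝ →+ ℝ := AddMonoidHom.mk' (fun x => 2 * x - (φ x : ℝ)) fun x y => by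
    simp only [map_add, Rat.cast_add]
    ring
  have f1 := feas_map P hf ψ (by simp [ψ, h1]) S (fun x hx y hy h => (h2 x hx y hy h).1)
    s0 s1 st sw sb
  have f2 := feas_map P hf ψ' (by simp [ψ', h1]; norm_num) S
    (fun x hx y hy h => (h2 x hx y hy h).2) s0 s1 st sw sb
  have a2 : t ≤ 2 * t - φ t := hmin _ _ f2
  exact ⟨fun i g => φ (w i g), φ t, f1, fun w' t' h => le_trans (by linarith) (hmin w' t' h)⟩

/-- Below the optimum every normalised instance has a good allocation. -/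
theorem good_of_min [Nonempty ι] (P : ι → γ → ι) {t : ℝ}
    (hmin : ∀ w' t', Feas P w' t' → t ≤ t') (w : ι → γ → ℝ) (h1 : ∀ i g, 0 ≤ w i g ∧ w i g ≤ 1)
    (h2 : ∀ i j, 1 ≤ bv (w i) (P i) j) : ∃ A : γ → ι, ∀ i, t ≤ bv (w i) A i := by
  by_contra hc
  have h3 : ∀ A : γ → ι, ∃ i, bv (w i) A i < t := fun A => by
    by_contra h
    exact hc ⟨A, fun i => not_lt.1 fun h' => h ⟨i, h'⟩⟩
  choose f hf using h3
  obtain ⟨A, -, hA⟩ := exists_max_image univ (fun A : γ → ι => bv (w (f A)) A (f A))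
    ⟨fun _ => Classical.arbitrary ι, mem_univ _⟩
  exact absurd (hmin w _ ⟨h1, h2, fun B => ⟨f B, hA B (mem_univ _)⟩⟩) (not_le.2 (hf A))

/-- Merging the goods along the common refinement of the partitions of the agents. -/
theorem guarantee [Nonempty ι] (e : γ ≃ (ι → ι)) {t : ℝ}
    (hmin : ∀ w' t', Feas (fun i g => e g i) w' t' → t ≤ t') {κ : Type} [Fintype κ]
    (v : ι → κ → ℝ) (hv : ∀ i g, 0 ≤ v i g) (μ : ι → ℝ) (h0 : ∀ i, 0 ≤ μ i) (Q : ι → κ → ι)
    (hQ : ∀ i j, μ i ≤ ∑ g ∈ univ.filter (fun g => Q i g = j), v i g) :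
    ∃ A : κ → ι, ∀ i, t * μ i ≤ ∑ g ∈ univ.filter (fun g => A g = i), v i g := by
  set c : κ → γ := fun g => e.symm fun i => Q i g with hc
  set x : ι → γ → ℝ := fun i a => ∑ g ∈ univ.filter (fun g => c g = a), v i g with hx
  have hx0 : ∀ i a, 0 ≤ x i a := fun i a => sum_nonneg fun g _ => hv i g
  have hsum : ∀ i (B : γ → ι) j, ∑ a ∈ univ.filter (fun a => B a = j), x i a =
      ∑ g ∈ univ.filter (fun g => B (c g) = j), v i g := by
    intro i B j
    rw [← sum_fiberwise_of_maps_to (s := univ.filter fun g => B (c g) = j)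
      (t := univ.filter fun a => B a = j) (g := c) (fun g hg => by simpa using hg)]
    refine sum_congr rfl fun a ha => sum_congr ?_ fun _ _ => rfl
    ext g
    have := (mem_filter.1 ha).2
    simp only [mem_filter, mem_univ, true_and]
    exact ⟨fun h => ⟨by rw [h, this], h⟩, fun h => h.2⟩
  obtain ⟨B, hB⟩ := good_of_min (fun i g => e g i) hmin
    (fun i a => if μ i = 0 then 1 else min 1 (x i a / μ i))
    (fun i a => by
      split_ifs
      · exact ⟨zero_le_one, le_rfl⟩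
      · exact ⟨le_min zero_le_one (div_nonneg (hx0 i a) (h0 i)), min_le_left _ _⟩)
    (fun i j => by
      by_cases h : μ i = 0
      · simp only [bv, if_pos h]
        exact single_le_sum (f := fun _ : γ => (1 : ℝ)) (fun _ _ => zero_le_one)
          (mem_filter.2 ⟨mem_univ (e.symm fun _ => j), by simp⟩)
      · simp only [bv, if_neg h]
        have hp : 0 < μ i := lt_of_le_of_ne (h0 i) (Ne.symm h)
        by_cases h' : ∃ a ∈ univ.filter (fun a => e a i = j), 1 ≤ x i a / μ i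
        · obtain ⟨a, ha, ha'⟩ := h'
          refine le_trans (le_min le_rfl ha') (single_le_sum
            (f := fun a => min 1 (x i a / μ i)) (fun a _ => ?_) ha)
          exact le_min zero_le_one (div_nonneg (hx0 i a) (h0 i))
        · rw [sum_congr rfl fun a ha => min_eq_right (not_le.1 fun h'' => h' ⟨a, ha, h''⟩).le,
            ← sum_div, le_div_iff₀ hp, one_mul, hsum i (fun a => e a i) j]
          simpa [hc] using hQ i j)
  refine ⟨fun g => B (c g), fun i => ?_⟩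
  rw [← hsum i B i]
  by_cases h : μ i = 0
  · rw [h, mul_zero]
    exact sum_nonneg fun a _ => hx0 i a
  · have hp : 0 < μ i := lt_of_le_of_ne (h0 i) (Ne.symm h)
    have := hB i
    simp only [bv, if_neg h] at this
    rw [← le_div_iff₀ hp, sum_div]
    exact this.trans (sum_le_sum fun a _ => min_le_right _ _)

end Pool.Agent.Lib.MP_5049a2_lc.RatA
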