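import Pool.Agent.Lib.MP_5049a2_lc.Sel
import Pool.Agent.Lib.MP_5049a2_lc.BF

/-! Rounding: every agent picks one bundle of its own partition. -/

namespace Pool.Agent.Lib.MP_5049a2_lc

open Finset

/-- Seven families of rows, each using `1/14` of the column budget. -/
lemma bf_seven {n : ℕ} (hn : 0 < n) {ι : Fin 7 → Type} (s : ∀ k, Finset (ι k))
    (c : ∀ k, ι k → Fin n → Fin n → ℝ) (ω : ∀ k, ι k → ℝ)
    (hω : ∀ k, ∀ i ∈ s k, 0 < ω k i) (hc : ∀ k, ∀ i ∈ s k, ∀ a o, 0 ≤ c k i a o)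
    (hcol : ∀ k a o, ∑ i ∈ s k, c k i a o / ω k i ≤ 1 / 14) :
    ∃ ch : Fin n → Fin n, ∀ k, ∀ i ∈ s k,
      |∑ a, c k i a (ch a) - (∑ a, ∑ o, c k i a o) / n| ≤ ω k i := by
  obtain ⟨ch, h⟩ := bf_uniform hn ((univ.sigma s).val.map
    fun x : (Σ k, ι k) => (c x.1 x.2, ω x.1 x.2))
    (fun ρ hρ => by
      obtain ⟨x, hx, rfl⟩ := Multiset.mem_map.1 hρ
      have := (mem_sigma.1 hx).2
      exact ⟨hω _ _ this, hc _ _ this⟩)
    (fun a o => by
      rw [Multiset.map_map]
      change ∑ x ∈ univ.sigma s, c x.1 x.2 a o / ω x.1 x.2 ≤ _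
      rw [Finset.sum_sigma]
      calc _ ≤ ∑ _k : Fin 7, (1 / 14 : ℝ) := Finset.sum_le_sum fun k _ => hcol k a o
        _ = _ := by simp; norm_num)
  exact ⟨ch, fun k i hi => h (c k i, ω k i)
    (Multiset.mem_map.2 ⟨⟨k, i⟩, mem_sigma.2 ⟨mem_univ _, hi⟩, rfl⟩)⟩

lemma geom_tail (k0 m : ℕ) : ∑ k ∈ Icc k0 m, (1 : ℝ) / 2 ^ k ≤ 2 / 2 ^ k0 := by
  have key : ∀ j, ∑ k ∈ Ico k0 (k0 + j), (1 : ℝ) / 2 ^ k = 2 / 2 ^ k0 - 2 / 2 ^ (k0 + j) := by
    intro j
    induction j with
    | zero => simp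
    | succ j ih =>
      rw [← add_assoc, Finset.sum_Ico_succ_top (by omega), ih, pow_succ]
      field_simp; ring
  have h1 : ∑ k ∈ Icc k0 m, (1 : ℝ) / 2 ^ k ≤ ∑ k ∈ Ico k0 (k0 + (m + 1)), (1 : ℝ) / 2 ^ k :=
    Finset.sum_le_sum_of_subset_of_nonneg (fun k hk => by
      rw [mem_Icc] at hk; rw [mem_Ico]; omega) fun _ _ _ => by positivity
  rw [key] at h1
  have : (0 : ℝ) ≤ 2 / 2 ^ (k0 + (m + 1)) := by positivity
  linarith

lemma lip_of_step (e : ℕ → ℝ) (L : ℝ) (m : ℕ) (h : ∀ x ≤ m, |e (x + 1) - e x| ≤ L) :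
    ∀ x y, x ≤ y → y ≤ m → |e y - e x| ≤ L * ((y : ℝ) - x) := by
  intro x y hxy
  induction y, hxy using Nat.le_induction with
  | base => simp
  | succ y hxy ih =>
    intro hy
    have h1 := ih (by omega)
    have h2 := h y (by omega)
    have h3 := abs_add_le (e (y + 1) - e y) (e y - e x)
    push_cast
    rw [show e (y + 1) - e y + (e y - e x) = e (y + 1) - e x by ring] at h3
    linarith

namespace Inst

variable {n : ℕ} (I : Inst n) (r : ℕ) (Sel : Finset ℕ)

/-- Forbidden options. -/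
def forb (c E th : ℕ) (a j : Fin n) : Prop :=
  (I.V r a < E ∧ 0 < I.sig r a j) ∨ 1 ≤ I.sig r a j * ((th - I.T r a : ℕ) : ℝ) ∨
    ∃ g ∈ Sel, (I.S r g + 1) / (28 * (r ^ 2 + 1) * c) ≤ I.sig r a j * ((g - I.T r a : ℕ) : ℝ)

open Classical in
noncomputable def sg (c E th : ℕ) (a j : Fin n) : ℝ :=
  if I.forb r Sel c E th a j then 0 else I.sig r a j

noncomputable def BB (ch : Fin n → Fin n) (t : ℕ) : ℕ := ∑ a, I.Ub r a a (ch a) t

noncomputable def Dust (c E th : ℕ) (ch : Fin n → Fin n) (t : ℕ) : ℝ :=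
  ∑ a, I.sg r Sel c E th a (ch a) * ((t - I.T r a : ℕ) : ℝ)

noncomputable def DustF (c E th : ℕ) (t : ℕ) : ℝ :=
  (∑ a, ∑ j, I.sg r Sel c E th a j * ((t - I.T r a : ℕ) : ℝ)) / n

variable {r}

lemma sg_nonneg (hr : 0 < r) (c E th : ℕ) (a j : Fin n) : 0 ≤ I.sg r Sel c E th a j := by
  unfold sg; split_ifs; exacts [le_rfl, I.sig_nonneg hr a j]

lemma sg_le_sig (hr : 0 < r) (c E th : ℕ) (a j : Fin n) :
    I.sg r Sel c E th a j ≤ I.sig r a j := by
  unfold sg; split_ifs; exacts [I.sig_nonneg hr a j, le_rfl]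

lemma sg_poor (hr : 0 < r) (c E th : ℕ) (a j : Fin n) (h : I.V r a < E) :
    I.sg r Sel c E th a j = 0 := by
  unfold sg
  split_ifs with hf
  · rfl
  · by_contra hne
    exact hf (Or.inl ⟨h, lt_of_le_of_ne (I.sig_nonneg hr a j) (Ne.symm hne)⟩)

lemma sg_le (hr : 0 < r) (c th : ℕ) {E : ℕ} (hE : 0 < E) (a j : Fin n) :
    I.sg r Sel c E th a j ≤ 1 / E := by
  by_cases h : I.V r a < E
  · rw [I.sg_poor Sel hr c E th a j h]; positivity
  · exact (I.sg_le_sig Sel hr c E th a j).trans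
      (I.sig_le hr a j (by exact_mod_cast hE) (not_lt.1 h))

lemma sum_sg (hr : 0 < r) (c E th : ℕ) (a : Fin n) :
    ∑ j, I.sg r Sel c E th a j ≤ 1 - 1 / r :=
  (Finset.sum_le_sum fun j _ => I.sg_le_sig Sel hr c E th a j).trans (I.sum_sig hr a)

lemma sum_delta (hn : 0 < n) (t : ℕ) : ∑ a, ((t - I.T r a : ℕ) : ℝ) ≤ n * I.S r t := by
  rw [← I.sum_d r hn]
  exact Finset.sum_le_sum fun a _ => by exact_mod_cast I.sub_T_le_d r a t

open Classical in
lemma forb_mass (hr : 0 < r) (hn : 0 < n) (hS : I.IsSel r Sel) {c : ℕ} (hc : 0 < c) (E th : ℕ) :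
    (∑ a, ∑ j, if I.forb r Sel c E th a j then (1 : ℝ) else 0) / n ≤
      r * E + I.S r th + 56 * (r ^ 2 + 1) ^ 2 * c := by
  have hn' : (0 : ℝ) < n := by exact_mod_cast hn
  have hK : (0 : ℝ) < 28 * (r ^ 2 + 1) * c := by positivity
  have h1 : ∀ a, (∑ j, if I.forb r Sel c E th a j then (1 : ℝ) else 0) ≤
      r * E + ((th - I.T r a : ℕ) : ℝ) + ∑ g ∈ Sel, ((g - I.T r a : ℕ) : ℝ) /
        ((I.S r g + 1) / (28 * (r ^ 2 + 1) * c)) := by
    intro a
    rw [Finset.sum_boole]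
    have hsub : univ.filter (I.forb r Sel c E th a) ⊆
        (univ.filter fun j => I.V r a < E ∧ 0 < I.sig r a j) ∪
        ((univ.filter fun j => 1 ≤ I.sig r a j * ((th - I.T r a : ℕ) : ℝ)) ∪
        Sel.biUnion fun g => univ.filter fun j =>
          (I.S r g + 1) / (28 * (r ^ 2 + 1) * c) ≤ I.sig r a j * ((g - I.T r a : ℕ) : ℝ)) := by
      intro j hj
      rcases (mem_filter.1 hj).2 with h | h | ⟨g, hg, h⟩
      · exact mem_union_left _ (mem_filter.2 ⟨mem_univ _, h⟩)
      · exact mem_union_right _ (mem_union_left _ (mem_filter.2 ⟨mem_univ _, h⟩))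
      · exact mem_union_right _ (mem_union_right _
          (mem_biUnion.2 ⟨g, hg, mem_filter.2 ⟨mem_univ _, h⟩⟩))
    have h2 := (card_le_card hsub).trans ((card_union_le _ _).trans
      (Nat.add_le_add_left ((card_union_le _ _).trans
        (Nat.add_le_add_left card_biUnion_le _)) _))
    have h3 : ((univ.filter fun j => I.V r a < E ∧ 0 < I.sig r a j).card : ℝ) ≤ r * E := by
      by_cases hV : I.V r a < E
      · simp only [hV, true_and]
        exact (I.card_sig_pos hr a).trans (mul_le_mul_of_nonneg_left hV.le (by positivity))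
      · simp only [hV, false_and, filter_false, card_empty, Nat.cast_zero]; positivity
    have h4 := I.card_sig_big hr a (x := ((th - I.T r a : ℕ) : ℝ)) (y := 1) (by positivity) one_pos
    have h5 : ∑ g ∈ Sel, ((univ.filter fun j => (I.S r g + 1) / (28 * (r ^ 2 + 1) * c) ≤
        I.sig r a j * ((g - I.T r a : ℕ) : ℝ)).card : ℝ) ≤ ∑ g ∈ Sel, ((g - I.T r a : ℕ) : ℝ) /
        ((I.S r g + 1) / (28 * (r ^ 2 + 1) * c)) :=
      Finset.sum_le_sum fun g _ => I.card_sig_big hr a (by positivity)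
        (div_pos (by linarith [I.S_nonneg r g]) hK)
    have h6 := (Nat.cast_le (α := ℝ)).2 h2
    push_cast at h6
    rw [div_one] at h4
    linarith
  have h2 := Finset.sum_le_sum (s := univ) fun a _ => h1 a
  rw [Finset.sum_add_distrib, Finset.sum_add_distrib, Finset.sum_comm (t := Sel)] at h2
  have h3 := I.sum_delta (r := r) hn th
  have h4 : ∑ g ∈ Sel, ∑ a, ((g - I.T r a : ℕ) : ℝ) / ((I.S r g + 1) / (28 * (r ^ 2 + 1) * c)) ≤
      ∑ _g ∈ Sel, (n * (28 * (r ^ 2 + 1) * c) : ℝ) := by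
    refine Finset.sum_le_sum fun g _ => ?_
    have h5 := I.S_nonneg r g
    rw [← Finset.sum_div, div_div_eq_mul_div, div_le_iff₀ (by linarith)]
    have h6 := I.sum_delta (r := r) hn g
    nlinarith [mul_pos hn' hK]
  have h5 : (Sel.card : ℝ) ≤ 2 * (r ^ 2 + 1) := by exact_mod_cast hS.card
  simp only [sum_const, card_univ, Fintype.card_fin, nsmul_eq_mul] at h2 h4
  have h6 : (Sel.card : ℝ) * (n * (28 * (r ^ 2 + 1) * c)) ≤
      2 * (r ^ 2 + 1) * (n * (28 * (r ^ 2 + 1) * c)) := by gcongr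
  rw [div_le_iff₀ hn']
  nlinarith

lemma sum_sum_Ub (hn : 0 < n) (t : ℕ) :
    (∑ a, ∑ j, (I.Ub r a a j t : ℝ)) / n = t - I.S r t := by
  rw [← I.sum_prev r hn]
  congr 1
  refine Finset.sum_congr rfl fun a _ => ?_
  rw [← I.sum_Ub r a t]; push_cast; rfl

open Classical in
/-- What the rounding achieves. -/
structure Rounded (c E th k0 w0 : ℕ) (W : Finset ℕ) (T0 : Finset (Fin n)) (ch : Fin n → Fin n) :
    Prop where
  bad : ((univ.filter fun a => I.forb r Sel c E th a (ch a)).card : ℝ) ≤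
    r * E + I.S r th + 56 * (r ^ 2 + 1) ^ 2 * c + 14
  onW : ∀ t ∈ W, I.BB r ch t ≤ t + 14 * r * w0
  base : ∀ g ∈ Sel, ((g + 4 * E : ℕ) : ℝ) - I.S r (g + 4 * E) - 28 * r * (r ^ 2 + 1) ≤
    I.BB r ch (g + 4 * E)
  reps : ∀ g ∈ Sel, ∀ k ∈ Icc k0 I.m, ∀ i ∈ range (8 * c + 1),
    (I.BB r ch (I.rep r c k (g / 2 ^ k + i - 4 * c)) : ℝ) ≤
      I.rep r c k (g / 2 ^ k + i - 4 * c) - I.S r (I.rep r c k (g / 2 ^ k + i - 4 * c)) + 2 ^ k
  dust : ∀ x ≤ I.m, 1 ≤ I.S r x →
    I.Dust r Sel c E th ch x ≤ I.DustF r Sel c E th x + 6 * I.S r x / c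
  pats : ∀ π ∈ Pats r, (∑ a ∈ T0, ((univ.filter fun j => I.pat r a j = π).card : ℝ)) / n - 14 ≤
    (T0.filter fun a => I.pat r a (ch a) = π).card

open Classical in
theorem exists_rounded (hr : 0 < r) (hn : 0 < n) (hS : I.IsSel r Sel) {c E k0 w0 : ℕ} (th : ℕ)
    (hc : 0 < c) (hE : 28 * c * (c + 1) ≤ E) (hk0 : 56 * r * (r ^ 2 + 1) * (8 * c + 1) ≤ 2 ^ k0)
    (W : Finset ℕ) (hW : W.card ≤ w0) (hw0 : 0 < w0) (T0 : Finset (Fin n)) :
    ∃ ch, I.Rounded Sel c E th k0 w0 W T0 ch (r := r) := by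
  have hn' : (0 : ℝ) < n := by exact_mod_cast hn
  have hr' : (0 : ℝ) < r := by exact_mod_cast hr
  have hc' : (0 : ℝ) < c := by exact_mod_cast hc
  have hw0' : (0 : ℝ) < w0 := by exact_mod_cast hw0
  have hE0 : 0 < E := lt_of_lt_of_le (by positivity) hE
  have hSel : (Sel.card : ℝ) ≤ 2 * (r ^ 2 + 1) := by exact_mod_cast hS.card
  let G : Fin n → Fin n → ℕ → ℝ := fun a j x => if I.T r a ≤ x then I.sg r Sel c E th a j else 0
  have hG0 : ∀ a j x, 0 ≤ G a j x := fun a j x => by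
    simp only [G]; split_ifs; exacts [I.sg_nonneg Sel hr c E th a j, le_rfl]
  have hGle : ∀ a j x, G a j x ≤ I.sg r Sel c E th a j := fun a j x => by
    simp only [G]; split_ifs; exacts [le_rfl, I.sg_nonneg Sel hr c E th a j]
  have hGmono : ∀ a j x y, x ≤ y → G a j x ≤ G a j y := fun a j x y hxy => by
    by_cases h : I.T r a ≤ x
    · simp only [G, if_pos h, if_pos (h.trans hxy), le_rfl]
    · simp only [G, if_neg h]; exact hG0 a j y
  let GF : ℕ → ℝ := fun x => (∑ a, ∑ j, G a j x) / n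
  obtain ⟨P, hPc, hP⟩ := exists_samples GF
    (fun x => div_nonneg (Finset.sum_nonneg fun a _ => Finset.sum_nonneg fun j _ => hG0 a j x)
      hn'.le)
    (fun x => by
      rw [div_le_one hn']
      calc ∑ a, ∑ j, G a j x ≤ ∑ _a : Fin n, (1 : ℝ) := Finset.sum_le_sum fun a _ => by
            have h1 := Finset.sum_le_sum (s := univ) fun j _ => hGle a j x
            have h2 := I.sum_sg Sel hr c E th a
            have : (0 : ℝ) ≤ 1 / r := by positivity
            linarith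
        _ = n := by simp) c I.m hc
  obtain ⟨ch, h⟩ := bf_seven hn (ι := ![Unit, ℕ, ℕ, ℕ × ℕ × ℕ, ℕ, ℕ, Multiset ℕ])
    (fun k => match k with
      | 0 => ({()} : Finset Unit)
      | 1 => W
      | 2 => Sel
      | 3 => (Sel ×ˢ Icc k0 I.m ×ˢ range (8 * c + 1) : Finset (ℕ × ℕ × ℕ))
      | 4 => P
      | 5 => Sel
      | 6 => Pats r)
    (fun k => match k with
      | 0 => fun _ a j => if I.forb r Sel c E th a j then (1 : ℝ) else 0
      | 1 => fun t a j => (I.Ub r a a j t : ℝ)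
      | 2 => fun (g : ℕ) a j => (I.Ub r a a j (g + 4 * E) : ℝ)
      | 3 => fun (x : ℕ × ℕ × ℕ) a j =>
          (I.Ub r a a j (I.rep r c x.2.1 (x.1 / 2 ^ x.2.1 + x.2.2 - 4 * c)) : ℝ)
      | 4 => fun x a j => G a j x
      | 5 => fun (g : ℕ) a j => I.sg r Sel c E th a j * ((g - I.T r a : ℕ) : ℝ)
      | 6 => fun π a j => if a ∈ T0 ∧ I.pat r a j = π then (1 : ℝ) else 0)
    (fun k => match k with
      | 0 => fun _ => 14
      | 1 => fun _ => 14 * r * w0
      | 2 => fun _ => 28 * r * (r ^ 2 + 1)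
      | 3 => fun (x : ℕ × ℕ × ℕ) => 2 ^ x.2.1
      | 4 => fun _ => 1 / c
      | 5 => fun g => (I.S r g + 1) / c
      | 6 => fun _ => 14)
    (fun k => match k with
      | 0 => fun _ _ => by positivity
      | 1 => fun _ _ => by positivity
      | 2 => fun _ _ => by positivity
      | 3 => fun _ _ => by positivity
      | 4 => fun _ _ => by positivity
      | 5 => fun g _ => div_pos (by linarith [I.S_nonneg r g]) hc'
      | 6 => fun _ _ => by positivity)
    (fun k => match k with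
      | 0 => fun _ _ _ _ => by dsimp only; split_ifs <;> norm_num
      | 1 => fun _ _ _ _ => by positivity
      | 2 => fun _ _ _ _ => by positivity
      | 3 => fun _ _ _ _ => by positivity
      | 4 => fun _ _ _ _ => hG0 _ _ _
      | 5 => fun _ _ _ _ => mul_nonneg (I.sg_nonneg Sel hr c E th _ _) (by positivity)
      | 6 => fun _ _ _ _ => by dsimp only; split_ifs <;> norm_num)
    (fun k => match k with
      | 0 => fun a o => by
          show ∑ _i ∈ ({()} : Finset Unit), (if I.forb r Sel c E th a o then (1 : ℝ) else 0) / 14 ≤ _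
          rw [sum_singleton]; split_ifs <;> norm_num
      | 1 => fun a o => by
          show ∑ t ∈ W, (I.Ub r a a o t : ℝ) / (14 * r * w0) ≤ _
          have hW' : (W.card : ℝ) ≤ w0 := by exact_mod_cast hW
          calc _ ≤ ∑ _t ∈ W, (r : ℝ) / (14 * r * w0) := Finset.sum_le_sum fun t _ => by
                gcongr; exact I.Ub_le hr _ _ _ _
            _ = W.card * (r / (14 * r * w0)) := by simp
            _ ≤ w0 * (r / (14 * r * w0)) := by gcongr
            _ = 1 / 14 := by field_simp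
      | 2 => fun a o => by
          show ∑ g ∈ Sel, (I.Ub r a a o (g + 4 * E) : ℝ) / (28 * r * (r ^ 2 + 1)) ≤ _
          calc _ ≤ ∑ _t ∈ Sel, (r : ℝ) / (28 * r * ((r : ℝ) ^ 2 + 1)) := Finset.sum_le_sum fun t _ => by
                gcongr; exact I.Ub_le hr _ _ _ _
            _ = (Sel.card : ℝ) * (r / (28 * r * (r ^ 2 + 1))) := by simp
            _ ≤ (2 * (r ^ 2 + 1) : ℝ) * (r / (28 * r * (r ^ 2 + 1))) := by gcongr
            _ = 1 / 14 := by field_simp; norm_num
      | 3 => fun a o => by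
          show ∑ x ∈ (Sel ×ˢ Icc k0 I.m ×ˢ range (8 * c + 1) : Finset (ℕ × ℕ × ℕ)),
            (I.Ub r a a o (I.rep r c x.2.1 (x.1 / 2 ^ x.2.1 + x.2.2 - 4 * c)) : ℝ) / 2 ^ x.2.1 ≤ _
          have hk : (56 * r * (r ^ 2 + 1) * (8 * c + 1) : ℝ) ≤ 2 ^ k0 := by exact_mod_cast hk0
          calc _ ≤ ∑ x ∈ (Sel ×ˢ Icc k0 I.m ×ˢ range (8 * c + 1) : Finset (ℕ × ℕ × ℕ)),
                (r : ℝ) / 2 ^ x.2.1 := Finset.sum_le_sum fun t _ => by
                gcongr; exact I.Ub_le hr _ _ _ _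
            _ = Sel.card * ((8 * c + 1) * r * ∑ k ∈ Icc k0 I.m, (1 : ℝ) / 2 ^ k) := by
                rw [Finset.sum_product]
                dsimp only
                rw [sum_const, nsmul_eq_mul, Finset.sum_product]
                congr 1
                rw [Finset.mul_sum]
                refine Finset.sum_congr rfl fun k _ => ?_
                simp only [sum_const, card_range, nsmul_eq_mul]
                push_cast; ring
            _ ≤ (2 * (r ^ 2 + 1)) * ((8 * c + 1) * r * (2 / 2 ^ k0)) := by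
                gcongr; exact geom_tail _ _
            _ = (56 * r * (r ^ 2 + 1) * (8 * c + 1)) / 2 ^ k0 / 14 := by ring
            _ ≤ 1 / 14 := by gcongr; rw [div_le_one (by positivity)]; exact hk
      | 4 => fun a o => by
          show ∑ x ∈ P, G a o x / (1 / c) ≤ _
          have hP' : (P.card : ℝ) ≤ 2 * (c + 1) := by exact_mod_cast hPc
          have hE' : (28 * c * (c + 1) : ℝ) ≤ E := by exact_mod_cast hE
          calc _ ≤ ∑ _x ∈ P, (1 / E : ℝ) / (1 / c) := Finset.sum_le_sum fun t _ => by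
                gcongr; exact (hGle _ _ _).trans (I.sg_le Sel hr c th hE0 a o)
            _ = P.card * ((1 / E) / (1 / c)) := by simp
            _ ≤ (2 * (c + 1)) * ((1 / E) / (1 / c)) := by gcongr
            _ = (28 * c * (c + 1)) / E / 14 := by field_simp; norm_num
            _ ≤ 1 / 14 := by gcongr; rw [div_le_one (by positivity)]; exact hE'
      | 5 => fun a o => by
          show ∑ g ∈ Sel, I.sg r Sel c E th a o * ((g - I.T r a : ℕ) : ℝ) / ((I.S r g + 1) / c) ≤ _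
          calc _ ≤ ∑ _g ∈ Sel, (1 : ℝ) / (28 * ((r : ℝ) ^ 2 + 1)) := Finset.sum_le_sum fun g hg => by
                have h0 := I.S_nonneg r g
                have h1 : I.sg r Sel c E th a o * ((g - I.T r a : ℕ) : ℝ) ≤
                    (I.S r g + 1) / (28 * (r ^ 2 + 1) * c) := by
                  unfold sg
                  split_ifs with hf
                  · rw [zero_mul]; positivity
                  · by_contra hcon
                    exact hf (Or.inr (Or.inr ⟨g, hg, (not_le.1 hcon).le⟩))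
                calc _ ≤ ((I.S r g + 1) / (28 * (r ^ 2 + 1) * c)) / ((I.S r g + 1) / c) := by
                      gcongr
                  _ = _ := by field_simp
            _ = (Sel.card : ℝ) * (1 / (28 * (r ^ 2 + 1))) := by simp
            _ ≤ (2 * (r ^ 2 + 1) : ℝ) * (1 / (28 * (r ^ 2 + 1))) := by gcongr
            _ = 1 / 14 := by field_simp; norm_num
      | 6 => fun a o => by
          show ∑ π ∈ Pats r, (if a ∈ T0 ∧ I.pat r a o = π then (1 : ℝ) else 0) / 14 ≤ _
          rw [← Finset.sum_div]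
          gcongr
          calc _ ≤ ∑ π ∈ Pats r, (if I.pat r a o = π then (1 : ℝ) else 0) :=
                Finset.sum_le_sum fun π _ => by
                  by_cases h1 : I.pat r a o = π <;> by_cases h2 : a ∈ T0 <;> simp [h1, h2]
            _ ≤ 1 := by rw [Finset.sum_ite_eq]; split_ifs <;> norm_num)
  have hBB : ∀ t, (I.BB r ch t : ℝ) = ∑ a, (I.Ub r a a (ch a) t : ℝ) := fun t => by
    unfold BB; push_cast; rfl
  refine ⟨ch, ?_, fun t ht => ?_, fun g hg => ?_, fun g hg k hk i hi => ?_, fun x hx h1 => ?_,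
    fun π hπ => ?_⟩
  · have h0 : |∑ a, (if I.forb r Sel c E th a (ch a) then (1 : ℝ) else 0) -
        (∑ a, ∑ j, if I.forb r Sel c E th a j then (1 : ℝ) else 0) / n| ≤ 14 :=
      h 0 () (mem_singleton_self _)
    rw [Finset.sum_boole] at h0
    have := I.forb_mass Sel hr hn hS hc E th
    linarith [(abs_le.1 h0).2]
  · have h0 : |∑ a, (I.Ub r a a (ch a) t : ℝ) - (∑ a, ∑ j, (I.Ub r a a j t : ℝ)) / n| ≤
        14 * r * w0 := h 1 t ht
    rw [I.sum_sum_Ub hn, ← hBB] at h0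
    have : (I.BB r ch t : ℝ) ≤ t + 14 * r * w0 := by linarith [(abs_le.1 h0).2, I.S_nonneg r t]
    exact_mod_cast this
  · have h0 : |∑ a, (I.Ub r a a (ch a) (g + 4 * E) : ℝ) -
        (∑ a, ∑ j, (I.Ub r a a j (g + 4 * E) : ℝ)) / n| ≤ 28 * r * (r ^ 2 + 1) := h 2 g hg
    rw [I.sum_sum_Ub hn, ← hBB] at h0
    linarith [(abs_le.1 h0).1]
  · have h0 : |∑ a, (I.Ub r a a (ch a) (I.rep r c k (g / 2 ^ k + i - 4 * c)) : ℝ) -
        (∑ a, ∑ j, (I.Ub r a a j (I.rep r c k (g / 2 ^ k + i - 4 * c)) : ℝ)) / n| ≤ 2 ^ k :=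
      h 3 (g, k, i) (mem_product.2 ⟨hg, mem_product.2 ⟨hk, hi⟩⟩)
    rw [I.sum_sum_Ub hn, ← hBB] at h0
    linarith [(abs_le.1 h0).2]
  · obtain ⟨g, hg, h2, h3, h4⟩ := hS.cover x hx
    have h5 : |I.Dust r Sel c E th ch g - I.DustF r Sel c E th g| ≤ (I.S r g + 1) / c := h 5 g hg
    have hstep : ∀ y ≤ I.m, |(I.Dust r Sel c E th ch (y + 1) - I.DustF r Sel c E th (y + 1)) -
        (I.Dust r Sel c E th ch y - I.DustF r Sel c E th y)| ≤ 2 / c := by
      intro y hy
      have e0 : ∀ a j, I.sg r Sel c E th a j * ((y + 1 - I.T r a : ℕ) : ℝ) =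
          I.sg r Sel c E th a j * ((y - I.T r a : ℕ) : ℝ) + G a j y := by
        intro a j
        by_cases hT : I.T r a ≤ y
        · simp only [G, if_pos hT]
          rw [show y + 1 - I.T r a = (y - I.T r a) + 1 by omega]
          push_cast; ring
        · simp only [G, if_neg hT]
          rw [show y + 1 - I.T r a = y - I.T r a by omega, add_zero]
      have e1 : I.Dust r Sel c E th ch (y + 1) =
          I.Dust r Sel c E th ch y + ∑ a, G a (ch a) y := by
        simp only [Dust, e0, Finset.sum_add_distrib]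
      have e2 : I.DustF r Sel c E th (y + 1) = I.DustF r Sel c E th y + GF y := by
        simp only [DustF, e0, Finset.sum_add_distrib, GF, add_div]
      obtain ⟨lo, hlo, hi, hhi, e3, e4, e5, e6⟩ := hP y hy
      have e7 : |∑ a, G a (ch a) lo - GF lo| ≤ 1 / c := h 4 lo hlo
      have e8 : |∑ a, G a (ch a) hi - GF hi| ≤ 1 / c := h 4 hi hhi
      have e9 : ∑ a, G a (ch a) lo ≤ ∑ a, G a (ch a) y :=
        Finset.sum_le_sum fun a _ => hGmono _ _ _ _ e3
      have e10 : ∑ a, G a (ch a) y ≤ ∑ a, G a (ch a) hi :=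
        Finset.sum_le_sum fun a _ => hGmono _ _ _ _ e4
      have e11 : (2 : ℝ) / c = 1 / c + 1 / c := by ring
      rw [e1, e2, abs_le]
      constructor <;> linarith [(abs_le.1 e7).1, (abs_le.1 e8).2]
    have hlip := lip_of_step (fun y => I.Dust r Sel c E th ch y - I.DustF r Sel c E th y) (2 / c)
      I.m hstep
    have h6 : (I.Dust r Sel c E th ch x - I.DustF r Sel c E th x) -
        (I.Dust r Sel c E th ch g - I.DustF r Sel c E th g) ≤ 2 / c * (2 * I.S r x) := by
      rcases le_total g x with hgx | hgx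
      · have := hlip g x hgx hx
        refine (le_abs_self _).trans (this.trans ?_)
        gcongr; linarith
      · have := hlip x g hgx (hS.le_m g hg)
        rw [abs_sub_comm] at this
        refine (le_abs_self _).trans (this.trans ?_)
        gcongr; linarith
    have h7 : (I.S r g + 1) / c ≤ 2 * I.S r x / c := by gcongr; linarith
    have h8 : 6 * I.S r x / c = 2 / c * (2 * I.S r x) + 2 * I.S r x / c := by ring
    linarith [(abs_le.1 h5).2]
  · have h0 : |∑ a, (if a ∈ T0 ∧ I.pat r a (ch a) = π then (1 : ℝ) else 0) -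
        (∑ a, ∑ j, if a ∈ T0 ∧ I.pat r a j = π then (1 : ℝ) else 0) / n| ≤ 14 := h 6 π hπ
    have e1 : (∑ a, if a ∈ T0 ∧ I.pat r a (ch a) = π then (1 : ℝ) else 0) =
        (T0.filter fun a => I.pat r a (ch a) = π).card := by
      rw [Finset.sum_boole]; congr 2; ext a; simp
    have e2 : (∑ a, ∑ j, if a ∈ T0 ∧ I.pat r a j = π then (1 : ℝ) else 0) =
        ∑ a ∈ T0, ((univ.filter fun j => I.pat r a j = π).card : ℝ) := by
      rw [← Finset.sum_subset (subset_univ T0) (fun a _ ha => by simp [ha])]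
      refine Finset.sum_congr rfl fun a ha => ?_
      simp only [ha, true_and, Finset.sum_boole]
    rw [e1, e2] at h0
    linarith [(abs_le.1 h0).1]

end Inst

end Pool.Agent.Lib.MP_5049a2_lc
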