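import Pool.Agent.Lib.MP_5049a2_lc.Basic

/-! A Vitali type selection of positions, neighbourhoods of tight positions, scales. -/

namespace Pool.Agent.Lib.MP_5049a2_lc

open Finset

lemma vitali (ρ : ℕ → ℝ) (hρ : ∀ t, 0 ≤ ρ t) (A : Finset ℕ) :
    ∃ Sel ⊆ A, (∀ x ∈ Sel, ∀ y ∈ Sel, (x : ℝ) - ρ x ≤ y → (y : ℝ) - ρ y ≤ x → x = y) ∧
      ∀ t ∈ A, ∃ g ∈ Sel, ρ g ≤ ρ t ∧ (t : ℝ) - ρ t ≤ g ∧ (g : ℝ) - ρ g ≤ t := by
  induction A using Finset.induction_on_max_value ρ with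
  | empty => exact ⟨∅, Subset.rfl, by simp, by simp⟩
  | insert a s ha hmax ih =>
    obtain ⟨Sel, hsub, hdis, hcov⟩ := ih
    by_cases h : ∃ g ∈ Sel, (a : ℝ) - ρ a ≤ g ∧ (g : ℝ) - ρ g ≤ a
    · obtain ⟨g, hg, h1, h2⟩ := h
      refine ⟨Sel, hsub.trans (subset_insert _ _), hdis, fun t ht => ?_⟩
      rcases mem_insert.1 ht with rfl | ht
      · exact ⟨g, hg, hmax g (hsub hg), h1, h2⟩
      · exact hcov t ht
    · push Not at h
      refine ⟨insert a Sel, insert_subset_insert _ hsub, fun x hx y hy h1 h2 => ?_, fun t ht => ?_⟩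
      · rcases mem_insert.1 hx with hx' | hx' <;> rcases mem_insert.1 hy with hy' | hy'
        · rw [hx', hy']
        · subst hx'; exact absurd h2 (not_le.2 (h y hy' h1))
        · subst hy'; exact absurd h1 (not_le.2 (h x hx' h2))
        · exact hdis x hx' y hy' h1 h2
      · rcases mem_insert.1 ht with rfl | ht
        · exact ⟨t, mem_insert_self _ _, le_rfl, by linarith [hρ t], by linarith [hρ t]⟩
        · obtain ⟨g, hg, h3⟩ := hcov t ht
          exact ⟨g, mem_insert_of_mem hg, h3⟩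

/-- Few sample points control a monotone function with values in `[0,1]`. -/
lemma exists_samples (G : ℕ → ℝ) (hG0 : ∀ x, 0 ≤ G x) (hG1 : ∀ x, G x ≤ 1) (c m : ℕ)
    (hc : 0 < c) : ∃ P : Finset ℕ, P.card ≤ 2 * (c + 1) ∧ ∀ x ≤ m, ∃ lo ∈ P, ∃ hi ∈ P,
      lo ≤ x ∧ x ≤ hi ∧ G hi ≤ G x + 1 / c ∧ G x ≤ G lo + 1 / c := by
  classical
  have hc' : (0 : ℝ) < c := by exact_mod_cast hc
  let key : ℕ → ℕ := fun x => ⌊c * G x⌋₊
  let lo : ℕ → ℕ := fun κ => sInf {x | key x = κ}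
  let hi : ℕ → ℕ := fun κ => ((range (m + 1)).filter fun x => key x = κ).sup id
  have hclose : ∀ x y, key x = key y → G x ≤ G y + 1 / c := by
    intro x y h
    have h1 : c * G x < key x + 1 := Nat.lt_floor_add_one _
    have h2 : (key y : ℝ) ≤ c * G y := Nat.floor_le (mul_nonneg hc'.le (hG0 y))
    rw [h] at h1
    rw [← sub_le_iff_le_add', le_div_iff₀ hc']
    linarith
  refine ⟨(range (c + 1)).image lo ∪ (range (c + 1)).image hi, ?_, fun x hx => ?_⟩
  · refine (card_union_le _ _).trans ?_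
    have h1 := card_image_le (s := range (c + 1)) (f := lo)
    have h2 := card_image_le (s := range (c + 1)) (f := hi)
    rw [card_range] at h1 h2
    omega
  · have hk : key x ∈ range (c + 1) := by
      rw [mem_range, Nat.lt_succ_iff]
      have : c * G x ≤ c := mul_le_of_le_one_right hc'.le (hG1 x)
      have := Nat.floor_le_floor this
      rwa [Nat.floor_natCast] at this
    have hmem : x ∈ (range (m + 1)).filter fun y => key y = key x :=
      mem_filter.2 ⟨mem_range.2 (by omega), rfl⟩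
    obtain ⟨b, hb, he⟩ := Finset.exists_mem_eq_sup _ ⟨x, hmem⟩ id
    have hlo : key (lo (key x)) = key x := Nat.sInf_mem (s := {y | key y = key x}) ⟨x, rfl⟩
    refine ⟨lo (key x), mem_union_left _ (mem_image_of_mem _ hk), hi (key x),
      mem_union_right _ (mem_image_of_mem _ hk), Nat.sInf_le rfl,
      Finset.le_sup (f := id) hmem, hclose _ _ ?_, hclose _ _ hlo.symm⟩
    simp only [hi]
    rw [he]
    exact (mem_filter.1 hb).2

lemma card_jump_le_one (Q : ℕ → Prop) [DecidablePred Q] (hQ : ∀ i j, i ≤ j → Q i → Q j) (J : ℕ) :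
    ((range J).filter fun i => Q (i + 1) ∧ ¬ Q i).card ≤ 1 := by
  rw [card_le_one]
  intro i hi j hj
  obtain ⟨-, h1, h2⟩ := mem_filter.1 hi
  obtain ⟨-, h3, h4⟩ := mem_filter.1 hj
  by_contra hne
  rcases lt_or_gt_of_ne hne with h | h
  · exact h4 (hQ _ _ h h1)
  · exact h2 (hQ _ _ h h3)

namespace Inst

variable {n : ℕ} (I : Inst n) (r : ℕ)

structure IsSel (Sel : Finset ℕ) : Prop where
  le_m : ∀ g ∈ Sel, g ≤ I.m
  card : Sel.card ≤ 2 * (r ^ 2 + 1)
  cover : ∀ t ≤ I.m, ∃ g ∈ Sel, I.S r g ≤ I.S r t ∧ (t : ℝ) - 2 * I.S r t ≤ g ∧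
    (g : ℝ) - 2 * I.S r g ≤ t

lemma half (hn : 0 < n) (t : ℕ) :
    (n : ℝ) / 2 ≤ (univ.filter fun a => (I.d r a t : ℝ) ≤ 2 * I.S r t).card := by
  have h1 := I.markov r hn t (l := 2) two_pos
  have h2 := Finset.card_filter_add_card_filter_not (s := (univ : Finset (Fin n)))
    (fun a => (I.d r a t : ℝ) ≤ 2 * I.S r t)
  simp only [not_le, card_univ, Fintype.card_fin] at h2
  have h3 : ((univ.filter fun a => (I.d r a t : ℝ) ≤ 2 * I.S r t).card : ℝ) +
      (univ.filter fun a => 2 * I.S r t < (I.d r a t : ℝ)).card = n := by exact_mod_cast h2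
  linarith

lemma exists_sel {r : ℕ} (hr : 0 < r) (hn : 0 < n) : ∃ Sel, I.IsSel r Sel := by
  have hn' : (0 : ℝ) < n := by exact_mod_cast hn
  obtain ⟨Sel, hsub, hdis, hcov⟩ := vitali (fun t => 2 * I.S r t)
    (fun t => by linarith [I.S_nonneg r t]) (range (I.m + 1))
  refine ⟨Sel, fun g hg => by have := mem_range.1 (hsub hg); omega, ?_, fun t ht => ?_⟩
  · have h1 : ∑ g ∈ Sel, (n : ℝ) / 2 ≤
        ∑ g ∈ Sel, ((univ.filter fun a => (I.d r a g : ℝ) ≤ 2 * I.S r g).card : ℝ) :=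
      Finset.sum_le_sum fun g _ => I.half r hn g
    have h2 : ∑ g ∈ Sel, (univ.filter fun a => (I.d r a g : ℝ) ≤ 2 * I.S r g).card =
        ∑ a, (Sel.filter fun g => (I.d r a g : ℝ) ≤ 2 * I.S r g).card := by
      simp only [card_filter]
      exact Finset.sum_comm
    have h3 : ∀ a, (Sel.filter fun g => (I.d r a g : ℝ) ≤ 2 * I.S r g).card ≤ r ^ 2 + 1 := by
      intro a
      refine le_trans ?_ (I.card_Brk hr a)
      refine card_le_card_of_injOn (I.prev r a) (fun g _ => (I.prev_spec r a g).1) ?_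
      intro x hx y hy hxy
      obtain ⟨hx1, hx2⟩ := mem_filter.1 hx
      obtain ⟨hy1, hy2⟩ := mem_filter.1 hy
      rw [d_cast] at hx2 hy2
      have h4 : (I.prev r a x : ℝ) ≤ x := by exact_mod_cast (I.prev_spec r a x).2
      have h5 : (I.prev r a y : ℝ) ≤ y := by exact_mod_cast (I.prev_spec r a y).2
      have h6 : (I.prev r a x : ℝ) = I.prev r a y := by rw [hxy]
      exact hdis x hx1 y hy1 (by linarith) (by linarith)
    have h4 : ∑ a, (Sel.filter fun g => (I.d r a g : ℝ) ≤ 2 * I.S r g).card ≤ n * (r ^ 2 + 1) := by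
      simpa using Finset.sum_le_sum (s := univ) fun a _ => h3 a
    rw [← h2] at h4
    have h5 : (∑ g ∈ Sel, ((univ.filter fun a => (I.d r a g : ℝ) ≤ 2 * I.S r g).card : ℝ)) ≤
        n * (r ^ 2 + 1) := by exact_mod_cast h4
    simp only [sum_const, nsmul_eq_mul] at h1
    have h6 : (Sel.card : ℝ) ≤ 2 * (r ^ 2 + 1) := by nlinarith
    exact_mod_cast h6
  · obtain ⟨g, hg, h1, h2, h3⟩ := hcov t (mem_range.2 (by omega))
    exact ⟨g, hg, by linarith, h2, h3⟩

variable (Sel : Finset ℕ)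

/-- Within distance `4E` of a selected position of slack `< E`. -/
def inN (E x : ℕ) : Prop := ∃ g ∈ Sel, I.S r g < E ∧ x ≤ g + 4 * E ∧ g ≤ x + 4 * E

def unclean (E X : ℕ) (a : Fin n) : Prop :=
  ∃ β ∈ I.Brk r a, I.inN r Sel X β ∧ ¬ I.inN r Sel E β

def mid (E X : ℕ) (a : Fin n) : Prop := (E : ℝ) ≤ I.V r a ∧ I.V r a < X

lemma inN_mono {E X x : ℕ} (h : E ≤ X) (hx : I.inN r Sel E x) : I.inN r Sel X x := by
  obtain ⟨g, hg, h1, h2, h3⟩ := hx
  exact ⟨g, hg, h1.trans_le (by exact_mod_cast h), by omega, by omega⟩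

open Classical in
lemma exists_scale {r : ℕ} (hr : 0 < r) (e : ℕ → ℕ) (he : Monotone e) :
    ∃ i < 16 * r * (r ^ 2 + 2),
      16 * r * ((univ.filter (I.unclean r Sel (e i) (e (i + 1)))).card +
        (univ.filter (I.mid r (e i) (e (i + 1)))).card) ≤ n := by
  set J := 16 * r * (r ^ 2 + 2) with hJ
  have h1 : ∀ a, ((range J).filter fun i => I.unclean r Sel (e i) (e (i + 1)) a).card ≤
      r ^ 2 + 1 := by
    intro a
    have hsub : ((range J).filter fun i => I.unclean r Sel (e i) (e (i + 1)) a) ⊆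
        (I.Brk r a).biUnion fun β => (range J).filter fun i =>
          I.inN r Sel (e (i + 1)) β ∧ ¬ I.inN r Sel (e i) β := by
      intro i hi
      obtain ⟨hi1, β, hβ, h⟩ := mem_filter.1 hi
      exact mem_biUnion.2 ⟨β, hβ, mem_filter.2 ⟨hi1, h⟩⟩
    refine (card_le_card hsub).trans (card_biUnion_le.trans ?_)
    refine le_trans (Finset.sum_le_sum fun β _ => card_jump_le_one (fun i => I.inN r Sel (e i) β)
      (fun i j hij h => I.inN_mono r Sel (he hij) h) J) ?_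
    simpa using I.card_Brk hr a
  have h2 : ∀ a, ((range J).filter fun i => I.mid r (e i) (e (i + 1)) a).card ≤ 1 := by
    intro a
    refine le_trans (le_of_eq ?_) (card_jump_le_one (fun i => I.V r a < e i)
      (fun i j hij h => h.trans_le (by exact_mod_cast he hij)) J)
    congr 1
    ext i
    simp [mid, and_comm]
  have h3 : ∑ i ∈ range J, ((univ.filter (I.unclean r Sel (e i) (e (i + 1)))).card +
      (univ.filter (I.mid r (e i) (e (i + 1)))).card) ≤ n * (r ^ 2 + 2) := by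
    simp only [Finset.sum_add_distrib, card_filter]
    rw [Finset.sum_comm, Finset.sum_comm (s := range J), ← Finset.sum_add_distrib]
    simp only [← card_filter]
    calc _ ≤ ∑ _a : Fin n, (r ^ 2 + 2) := Finset.sum_le_sum fun a _ => by
            have := h1 a; have := h2 a; omega
      _ = _ := by simp
  by_contra hcon
  push Not at hcon
  have h4 : ∑ i ∈ range J, (n + 1) ≤ ∑ i ∈ range J,
      16 * r * ((univ.filter (I.unclean r Sel (e i) (e (i + 1)))).card +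
        (univ.filter (I.mid r (e i) (e (i + 1)))).card) :=
    Finset.sum_le_sum fun i hi => hcon i (mem_range.1 hi)
  rw [← Finset.mul_sum, sum_const, card_range, smul_eq_mul] at h4
  have h5 := Nat.mul_le_mul_left (16 * r) h3
  have h6 : 0 < J := by positivity
  have h7 : 16 * r * (n * (r ^ 2 + 2)) = J * n := by rw [hJ]; ring
  rw [h7] at h5
  have : J * (n + 1) ≤ J * n := h4.trans h5
  have := Nat.le_of_mul_le_mul_left this h6
  omega

open Classical in
/-- Positions treated exactly. -/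
noncomputable def W (E E' X : ℕ) : Finset ℕ :=
  (range (I.m + 1)).filter fun t =>
    I.S r t < X ∧ ∃ g ∈ Sel, I.S r g < E ∧ t ≤ g + E' ∧ g ≤ t + E'

lemma mem_W {E E' X t : ℕ} : t ∈ I.W r Sel E E' X ↔
    t ≤ I.m ∧ I.S r t < X ∧ ∃ g ∈ Sel, I.S r g < E ∧ t ≤ g + E' ∧ g ≤ t + E' := by
  simp [W]

lemma card_near (D : ℕ) (A : Finset ℕ) (hA : ∀ t ∈ A, ∃ g ∈ Sel, t ≤ g + D ∧ g ≤ t + D) :
    A.card ≤ Sel.card * (2 * D + 1) := by
  have hsub : A ⊆ Sel.biUnion fun g => Icc (g - D) (g + D) := by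
    intro t ht
    obtain ⟨g, hg, h1, h2⟩ := hA t ht
    exact mem_biUnion.2 ⟨g, hg, mem_Icc.2 ⟨by omega, h1⟩⟩
  refine (card_le_card hsub).trans (card_biUnion_le.trans ?_)
  calc _ ≤ ∑ _g ∈ Sel, (2 * D + 1) := Finset.sum_le_sum fun g _ => by rw [Nat.card_Icc]; omega
    _ = _ := by simp

variable {I r Sel}

lemma IsSel.card_W (hS : I.IsSel r Sel) (E E' X : ℕ) :
    (I.W r Sel E E' X).card ≤ 2 * (r ^ 2 + 1) * (2 * E' + 1) := by
  refine (card_near Sel E' _ fun t ht => ?_).trans (Nat.mul_le_mul_right _ hS.card)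
  obtain ⟨-, -, g, hg, -, h⟩ := (I.mem_W r Sel).1 ht
  exact ⟨g, hg, h⟩

lemma IsSel.zero_mem_W (hS : I.IsSel r Sel) {E E' X : ℕ} (hE : 0 < E) (hX : 0 < X) :
    0 ∈ I.W r Sel E E' X := by
  obtain ⟨g, hg, h1, -, h3⟩ := hS.cover 0 (Nat.zero_le _)
  rw [S_zero] at h1
  have h4 := I.S_nonneg r g
  have h5 : (g : ℝ) ≤ 0 := by push_cast at h3; linarith
  have h6 : g = 0 := by exact_mod_cast le_antisymm h5 (Nat.cast_nonneg g)
  refine (I.mem_W r Sel).2 ⟨Nat.zero_le _, by rw [S_zero]; exact_mod_cast hX, g, hg, ?_, by omega,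
    by omega⟩
  exact h1.trans_lt (by exact_mod_cast hE)

lemma IsSel.inN_of_close (hS : I.IsSel r Sel) {X t x : ℕ} (ht : t ≤ I.m) (hX : I.S r t < X)
    (hx : x ≤ t) (hx' : (t : ℝ) - x ≤ 2 * I.S r t) : I.inN r Sel X x := by
  obtain ⟨g, hg, h1, h2, h3⟩ := hS.cover t ht
  have hx1 : (x : ℝ) ≤ t := by exact_mod_cast hx
  have hX0 : (0 : ℝ) ≤ X := by positivity
  refine ⟨g, hg, by linarith, ?_, ?_⟩
  · have : (x : ℝ) ≤ g + 4 * X := by linarith
    exact_mod_cast this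
  · have : (g : ℝ) ≤ x + 4 * X := by linarith
    exact_mod_cast this

open Classical in
lemma IsSel.annulus (hS : I.IsSel r Sel) (hn : 0 < n) {E E' X t : ℕ}
    (hunc : 2 * (univ.filter (I.unclean r Sel E X)).card < n) (hE : 4 * E ≤ E') (hX : 5 * E ≤ X)
    (ht : t ≤ I.m) (htX : I.S r t < X) (htW : t ∉ I.W r Sel E E' X) :
    (E' : ℝ) - 4 * E < 2 * I.S r t ∧ ∃ g ∈ Sel, g + 4 * E ∈ I.W r Sel E E' X ∧ g + 4 * E ≤ t ∧
      I.S r (g + 4 * E) ≤ 5 * E ∧
      ∀ x, g + 4 * E < x → x ≤ t → I.inN r Sel X x ∧ ¬ I.inN r Sel E x := by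
  have hex : ∃ a, (I.d r a t : ℝ) ≤ 2 * I.S r t ∧ ¬ I.unclean r Sel E X a := by
    by_contra hcon
    push Not at hcon
    have hsub : (univ.filter fun a => (I.d r a t : ℝ) ≤ 2 * I.S r t) ⊆
        univ.filter (I.unclean r Sel E X) := fun a ha =>
      mem_filter.2 ⟨mem_univ _, hcon a (mem_filter.1 ha).2⟩
    have h1 := I.half r hn t
    have h2 : ((univ.filter fun a => (I.d r a t : ℝ) ≤ 2 * I.S r t).card : ℝ) ≤
        (univ.filter (I.unclean r Sel E X)).card := by exact_mod_cast card_le_card hsub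
    have h3 : 2 * ((univ.filter (I.unclean r Sel E X)).card : ℝ) < n := by exact_mod_cast hunc
    linarith
  obtain ⟨a, ha1, ha2⟩ := hex
  obtain ⟨hβ1, hβ2⟩ := I.prev_spec r a t
  rw [d_cast] at ha1
  set β := I.prev r a t with hβ
  have hβX := hS.inN_of_close ht htX hβ2 ha1
  have hβE : I.inN r Sel E β := by
    by_contra hcon
    exact ha2 ⟨β, hβ1, hβX, hcon⟩
  have htE : ¬ I.inN r Sel E t := by
    rintro ⟨g, hg, h1, h2, h3⟩
    exact htW ((I.mem_W r Sel).2 ⟨ht, htX, g, hg, h1, by omega, by omega⟩)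
  constructor
  · obtain ⟨g, hg, h1, h2, h3⟩ := hβE
    have h4 : g + E' < t := by
      by_contra hcon
      exact htW ((I.mem_W r Sel).2 ⟨ht, htX, g, hg, h1, by omega, by omega⟩)
    have h5 : β + E' < t + 4 * E := by omega
    have h6 : (β : ℝ) + E' < t + 4 * E := by exact_mod_cast h5
    linarith
  · set t1 := Nat.findGreatest (I.inN r Sel E) t with ht1
    have h1 : I.inN r Sel E t1 := Nat.findGreatest_spec hβ2 hβE
    have h2 : t1 ≤ t := Nat.findGreatest_le t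
    have h3 : β ≤ t1 := Nat.le_findGreatest hβ2 hβE
    have h4 : ∀ x, t1 < x → x ≤ t → ¬ I.inN r Sel E x := fun x hx hx' =>
      Nat.findGreatest_is_greatest hx hx'
    have h5 : t1 ≠ t := fun h => htE (h ▸ h1)
    obtain ⟨g, hg, h6, h7, h8⟩ := h1
    have h9 : t1 = g + 4 * E := by
      by_contra hcon
      exact h4 (t1 + 1) (by omega) (by omega) ⟨g, hg, h6, by omega, by omega⟩
    have h10 : I.S r (g + 4 * E) < 5 * E := by
      have := I.S_add_le r hn (Nat.le_add_right g (4 * E))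
      push_cast at this
      linarith
    have hX' : (5 * E : ℝ) ≤ X := by exact_mod_cast hX
    refine ⟨g, hg, (I.mem_W r Sel).2 ⟨by omega, by linarith, g, hg, h6, by omega, by omega⟩,
      by omega, h10.le, fun x hx hx' => ⟨?_, h4 x (by omega) hx'⟩⟩
    refine hS.inN_of_close ht htX hx' ?_
    have : (β : ℝ) ≤ x := by exact_mod_cast (by omega : β ≤ x)
    linarith

lemma IsSel.S_max_W (hS : I.IsSel r Sel) (hn : 0 < n) {E E' X th : ℕ} (hX : E ≤ X)
    (h1 : th ∈ I.W r Sel E E' X) (h2 : ∀ t ∈ I.W r Sel E E' X, t ≤ th) :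
    I.S r th ≤ E + E' := by
  obtain ⟨-, -, g, hg, h3, h4, h5⟩ := (I.mem_W r Sel).1 h1
  have h6 : g ≤ th := h2 g ((I.mem_W r Sel).2 ⟨hS.le_m g hg, h3.trans_le (by exact_mod_cast hX),
    g, hg, h3, by omega, by omega⟩)
  have h7 := I.S_add_le r hn h6
  have h8 : (th : ℝ) ≤ g + E' := by exact_mod_cast h4
  linarith

variable (I r)

open Classical in
/-- Representative position of a block at scale `k`. -/
noncomputable def rep (c k B : ℕ) : ℕ :=
  ((range (I.m + 1)).filter fun x => (c * 2 ^ k : ℝ) ≤ I.S r x ∧ x / 2 ^ k = B).sup id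

variable {I r}

lemma IsSel.exists_rep (hS : I.IsSel r Sel) (hn : 0 < n) {c k0 t : ℕ} (hc : 0 < c) (ht : t ≤ I.m)
    (hSt : (c * 2 ^ k0 : ℝ) ≤ I.S r t) :
    ∃ g' ∈ Sel, ∃ k ∈ Icc k0 I.m, ∃ i ∈ range (8 * c + 1),
      t ≤ I.rep r c k (g' / 2 ^ k + i - 4 * c) ∧ I.rep r c k (g' / 2 ^ k + i - 4 * c) < t + 2 ^ k ∧
      I.rep r c k (g' / 2 ^ k + i - 4 * c) ≤ I.m ∧
      (c * 2 ^ k : ℝ) ≤ I.S r (I.rep r c k (g' / 2 ^ k + i - 4 * c)) ∧
      I.S r t < c * 2 ^ (k + 1) := by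
  classical
  have hc' : (0 : ℝ) < c := by exact_mod_cast hc
  obtain ⟨g', hg', h1, h2, h3⟩ := hS.cover t ht
  set y := ⌊I.S r t / c⌋₊ with hy
  have hy0 : 2 ^ k0 ≤ y := by
    apply Nat.le_floor
    rw [le_div_iff₀ hc']
    push_cast
    linarith
  have hy1 : y ≠ 0 := by
    have : 0 < 2 ^ k0 := by positivity
    omega
  set k := Nat.log 2 y with hk
  have hk1 : 2 ^ k ≤ y := Nat.pow_log_le_self 2 hy1
  have hk2 : y < 2 ^ (k + 1) := Nat.lt_pow_succ_log_self (by norm_num) y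
  have hk0 : k0 ≤ k := Nat.le_log_of_pow_le (by norm_num) hy0
  have hyS : (y : ℝ) ≤ I.S r t / c := Nat.floor_le (div_nonneg (I.S_nonneg r t) hc'.le)
  have hlo : (c * 2 ^ k : ℝ) ≤ I.S r t := by
    have : ((2 : ℝ) ^ k) ≤ y := by exact_mod_cast hk1
    rw [le_div_iff₀ hc'] at hyS
    nlinarith
  have hhi : I.S r t < c * 2 ^ (k + 1) := by
    have h4 : I.S r t / c < y + 1 := Nat.lt_floor_add_one _
    have h5 : (y : ℝ) + 1 ≤ 2 ^ (k + 1) := by exact_mod_cast hk2
    rw [div_lt_iff₀ hc'] at h4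
    nlinarith
  have hkm : k ≤ I.m := by
    have h4 : k < 2 ^ k := Nat.lt_two_pow_self
    have h5 := I.S_le r hn t
    have h6 : (1 : ℝ) ≤ c := by exact_mod_cast hc
    have h7 : ((2 : ℝ) ^ k) ≤ t := by
      have : (0 : ℝ) < 2 ^ k := by positivity
      nlinarith
    have h8 : 2 ^ k ≤ t := by exact_mod_cast h7
    omega
  have hp : 0 < 2 ^ k := by positivity
  have e1 : t ≤ g' + 4 * c * 2 ^ k := by
    have : (t : ℝ) ≤ g' + 4 * c * 2 ^ k := by rw [pow_succ] at hhi; linarith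
    exact_mod_cast this
  have e2 : g' ≤ t + 4 * c * 2 ^ k := by
    have : (g' : ℝ) ≤ t + 4 * c * 2 ^ k := by rw [pow_succ] at hhi; linarith
    exact_mod_cast this
  have e3 : t / 2 ^ k ≤ g' / 2 ^ k + 4 * c := by
    rw [← Nat.add_mul_div_right _ _ hp]; exact Nat.div_le_div_right e1
  have e4 : g' / 2 ^ k ≤ t / 2 ^ k + 4 * c := by
    rw [← Nat.add_mul_div_right _ _ hp]; exact Nat.div_le_div_right e2
  refine ⟨g', hg', k, mem_Icc.2 ⟨hk0, hkm⟩, t / 2 ^ k + 4 * c - g' / 2 ^ k,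
    mem_range.2 (by omega), ?_⟩
  have e5 : ∀ x y : ℕ, y ≤ x + 4 * c → y + (x + 4 * c - y) - 4 * c = x := by intro x y; omega
  rw [e5 _ _ e4]
  have hmem : t ∈ (range (I.m + 1)).filter fun x =>
      (c * 2 ^ k : ℝ) ≤ I.S r x ∧ x / 2 ^ k = t / 2 ^ k :=
    mem_filter.2 ⟨mem_range.2 (by omega), hlo, rfl⟩
  obtain ⟨b, hb, he⟩ := Finset.exists_mem_eq_sup _ ⟨t, hmem⟩ id
  have hle : t ≤ I.rep r c k (t / 2 ^ k) := Finset.le_sup (f := id) hmem
  have hrep : I.rep r c k (t / 2 ^ k) = b := he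
  obtain ⟨hb1, hb2, hb3⟩ := mem_filter.1 hb
  rw [hrep] at hle ⊢
  refine ⟨hle, ?_, by have := mem_range.1 hb1; omega, hb2, hhi⟩
  have f1 := Nat.div_add_mod b (2 ^ k)
  have f2 := Nat.div_add_mod t (2 ^ k)
  have f3 := Nat.mod_lt b hp
  rw [hb3] at f1
  omega

end Inst

end Pool.Agent.Lib.MP_5049a2_lc
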