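import Pool.Agent.Lib.MP_5049a2_lc.TRDefs

/-! Late positions go to distinct bundles; rounding of monotone families. -/

namespace Pool.Agent.Lib.MP_5049a2_lc.TR

open Finset

theorem late_ext (x : ℕ) (blk : ℕ → ℕ) (s : ℕ → ℕ) (L : Finset ℕ) (hs : Set.InjOn s L)
    (hL : ∀ p ∈ L, p < x ∧ s p < x ∧ blk (s p) = blk p) :
    ∃ π : Equiv.Perm ℕ, (∀ p, π p < x ↔ p < x) ∧ (∀ p, blk (π p) = blk p) ∧
      ∀ p ∈ L, π p = s p := by
  induction L using Finset.induction_on with
  | empty => exact ⟨1, fun _ => Iff.rfl, fun _ => rfl, fun p hp => absurd hp (notMem_empty p)⟩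
  | insert a L ha ih =>
    obtain ⟨π, h1, h2, h3⟩ := ih (hs.mono (by simp)) fun p hp => hL p (mem_insert_of_mem hp)
    obtain ⟨g1, g2, g3⟩ := hL a (mem_insert_self a L)
    refine ⟨Equiv.swap (π a) (s a) * π, fun p => ?_, fun p => ?_, fun p hp => ?_⟩
    · have e : (π a < x) = (s a < x) := propext (iff_of_true ((h1 a).2 g1) g2)
      have := Equiv.apply_swap_eq_self (v := fun y => y < x) e (π p)
      rw [Equiv.Perm.mul_apply, ← h1 p]
      exact iff_of_eq this
    · rw [Equiv.Perm.mul_apply, Equiv.apply_swap_eq_self (v := blk) ((h2 a).trans g3.symm), h2]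
    · rw [Equiv.Perm.mul_apply]
      rcases mem_insert.1 hp with rfl | hp'
      · exact Equiv.swap_apply_left _ _
      · have hne : p ≠ a := fun e => ha (e ▸ hp')
        rw [Equiv.swap_apply_of_ne_of_ne (π.injective.ne hne), h3 p hp']
        rw [h3 p hp']
        exact fun e => hne (hs (mem_coe.2 hp) (mem_coe.2 (mem_insert_self a L)) e)

theorem late_perm {n : ℕ} (x R : ℕ) (hR0 : 0 < R) (bun : ℕ → Fin n) (blk : ℕ → ℕ)
    (Late : Finset ℕ) (hL : Late ⊆ range x)
    (hR : ∀ j, ((range x).filter fun p => bun p = j).card ≤ R)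
    (hQ : ∀ b, R * (Late.filter fun p => blk p = b).card ≤
      ((range x).filter fun p => blk p = b).card) :
    ∃ π : Equiv.Perm ℕ, (∀ p, π p < x ↔ p < x) ∧ (∀ p, blk (π p) = blk p) ∧
      Set.InjOn (fun p => bun (π p)) Late := by
  classical
  obtain ⟨f, hf, hft⟩ := (Finset.all_card_le_biUnion_card_iff_exists_injective
    (fun p : Late => ((range x).filter fun q => blk q = blk p.1).image bun)).1 (fun Y => by
      have e1 := Finset.sum_card_fiberwise_eq_card_filter Late (Y.image fun p => blk p.1) blk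
      have e2 := Finset.sum_card_fiberwise_eq_card_filter (range x) (Y.image fun p => blk p.1) blk
      have h1 : Y.card ≤ (Late.filter fun p => blk p ∈ Y.image fun p => blk p.1).card := by
        refine card_le_card_of_injOn (fun p => p.1) (fun p hp => ?_) fun p _ q _ e => Subtype.ext e
        exact mem_coe.2 (mem_filter.2 ⟨p.2, mem_image_of_mem _ (mem_coe.1 hp)⟩)
      have h2 : R * (Late.filter fun p => blk p ∈ Y.image fun p => blk p.1).card ≤
          ((range x).filter fun p => blk p ∈ Y.image fun p => blk p.1).card := by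
        rw [← e1, ← e2, mul_sum]
        exact sum_le_sum fun b _ => hQ b
      have h3 := Finset.card_le_mul_card_image (f := bun)
        ((range x).filter fun p => blk p ∈ Y.image fun p => blk p.1) R fun j _ =>
          (card_le_card (monotone_filter_left _ (filter_subset _ _))).trans (hR j)
      have h4 : (((range x).filter fun p => blk p ∈ Y.image fun p => blk p.1).image bun).card ≤
          (Y.biUnion fun p : Late =>
            ((range x).filter fun q => blk q = blk p.1).image bun).card := by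
        refine card_le_card fun j hj => ?_
        obtain ⟨q, hq, rfl⟩ := mem_image.1 hj
        obtain ⟨hq1, hq2⟩ := mem_filter.1 hq
        obtain ⟨p, hp, e⟩ := mem_image.1 hq2
        exact mem_biUnion.2 ⟨p, hp, mem_image_of_mem _ (mem_filter.2 ⟨hq1, e.symm⟩)⟩
      exact Nat.le_of_mul_le_mul_left (((Nat.mul_le_mul_left R h1).trans h2).trans
        (h3.trans (Nat.mul_le_mul_left R h4))) hR0)
  have key : ∀ p : ℕ, ∃ q : ℕ, ∀ hp : p ∈ Late, q < x ∧ blk q = blk p ∧ bun q = f ⟨p, hp⟩ := by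
    intro p
    by_cases hp : p ∈ Late
    · obtain ⟨q, hq, e⟩ := mem_image.1 (hft ⟨p, hp⟩)
      exact ⟨q, fun _ => ⟨mem_range.1 (mem_filter.1 hq).1, (mem_filter.1 hq).2, e⟩⟩
    · exact ⟨0, fun h => absurd h hp⟩
  choose s hs using key
  have hinj : Set.InjOn (fun p => bun (s p)) Late := by
    intro p hp q hq e
    have e' : bun (s p) = bun (s q) := e
    rw [(hs p hp).2.2, (hs q hq).2.2] at e'
    exact congrArg Subtype.val (hf e')
  obtain ⟨π, h1, h2, h3⟩ := late_ext x blk s Late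
    (fun p hp q hq e => hinj hp hq (congrArg bun e))
    fun p hp => ⟨mem_range.1 (hL hp), (hs p hp).1, (hs p hp).2.1⟩
  refine ⟨π, h1, h2, fun p hp q hq e => hinj hp hq ?_⟩
  have e' : bun (π p) = bun (π q) := e
  rwa [h3 p hp, h3 q hq] at e'

/-- Disjoint subsets of equal size. -/
theorem disjoint_sub {ι : Type*} [DecidableEq ι] {k : ℕ} (S : Fin k → Finset ι) (g : ℕ)
    (h : ∀ i, k * g ≤ (S i).card) :
    ∃ G : Fin k → Finset ι, (∀ i, G i ⊆ S i ∧ (G i).card = g) ∧
      ∀ i i', i ≠ i' → Disjoint (G i) (G i') := by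
  classical
  rcases isEmpty_or_nonempty ι with hι | hι
  · refine ⟨fun _ => ∅, fun i => ⟨empty_subset _, ?_⟩, fun _ _ _ => disjoint_empty_left _⟩
    have h1 := h i
    rw [eq_empty_of_isEmpty (S i), card_empty, Nat.le_zero, Nat.mul_eq_zero] at h1
    rw [card_empty]
    exact (h1.resolve_left i.pos.ne').symm
  obtain ⟨f, hf, hft⟩ := exists_injOn_choice (univ : Finset (Fin k × Fin g)) (fun q => S q.1)
    fun q _ => by simpa using h q.1
  have hf' : Function.Injective f := fun a b e => hf (by simp) (by simp) e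
  refine ⟨fun i => univ.image fun j : Fin g => f (i, j), fun i => ⟨fun y hy => ?_, ?_⟩,
    fun i i' hne => disjoint_left.2 fun y hy hy' => ?_⟩
  · obtain ⟨j, -, rfl⟩ := mem_image.1 hy
    exact hft (i, j) (mem_univ _)
  · rw [card_image_of_injective _ fun j j' e => congrArg Prod.snd (hf' e), card_univ,
      Fintype.card_fin]
  · obtain ⟨j, -, rfl⟩ := mem_image.1 hy
    obtain ⟨j', -, e⟩ := mem_image.1 hy'
    exact hne (congrArg Prod.fst (hf' e)).symm

theorem round2 {A O : Type*} [Fintype A] [Fintype O] [DecidableEq A] [DecidableEq O]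
    (κ m : ℕ) (E h : ℝ) (hE : 0 < E) (hh : 0 < h) (f : Fin κ → A → O → ℕ → ℝ)
    (hf0 : ∀ i a o t, 0 ≤ f i a o t) (hfm : ∀ i a o, Monotone (f i a o))
    (x : A → O → ℝ) (hx : ∀ a o, 0 ≤ x a o) (hs : ∀ a, ∑ o, x a o = 1)
    (hfE : ∀ i a o t, 0 < x a o → f i a o t ≤ E) :
    ∃ ch : A → O, (∀ a, 0 < x a (ch a)) ∧ ∀ i, ∀ t ≤ m, ∑ a, f i a (ch a) t ≤
      ∑ a, ∑ o, x a o * f i a o t + (h + 2 * κ * (Fintype.card A * E / h + 1) * E) := by
  classical
  obtain ⟨F, hF⟩ : ∃ F : Fin κ → ℕ → ℝ, ∀ i t, F i t = ∑ a, ∑ o, x a o * f i a o t :=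
    ⟨_, fun _ _ => rfl⟩
  have hF0 : ∀ i t, 0 ≤ F i t := fun i t => by
    rw [hF]; exact sum_nonneg fun a _ => sum_nonneg fun o _ => mul_nonneg (hx a o) (hf0 i a o t)
  have hFE : ∀ i t, F i t ≤ Fintype.card A * E := fun i t => by
    rw [hF]
    calc ∑ a, ∑ o, x a o * f i a o t ≤ ∑ a, ∑ o, x a o * E :=
          sum_le_sum fun a _ => sum_le_sum fun o _ => by
            rcases (hx a o).eq_or_lt with e | e
            · rw [← e, zero_mul, zero_mul]
            · exact mul_le_mul_of_nonneg_left (hfE i a o t e) e.le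
      _ = ∑ _a : A, E := sum_congr rfl fun a _ => by rw [← sum_mul, hs, one_mul]
      _ = _ := by rw [sum_const, card_univ, nsmul_eq_mul]
  obtain ⟨K, hK⟩ : ∃ K : ℕ, K = ⌊Fintype.card A * E / h⌋₊ + 1 := ⟨_, rfl⟩
  have hK0 : (0 : ℝ) < K := by rw [hK]; positivity
  have hK1 : (K : ℝ) ≤ Fintype.card A * E / h + 1 := by
    rw [hK, Nat.cast_succ]
    exact add_le_add_left (Nat.floor_le (by positivity)) 1
  obtain ⟨tt, htt⟩ : ∃ tt : Fin κ × ℕ → ℕ, ∀ r, tt r =
      ((range (m + 1)).filter fun t => F r.1 t < ((r.2 : ℝ) + 1) * h).sup id := ⟨_, fun _ => rfl⟩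
  obtain ⟨ch, hch, hb⟩ := bf_general (univ ×ˢ range K : Finset (Fin κ × ℕ))
    (fun r a o => if 0 < x a o then f r.1 a o (tt r) else 0) (fun _ => 2 * κ * K * E)
    (fun r _ a o => by
      split_ifs
      · exact hf0 _ _ _ _
      · exact le_rfl)
    (fun r _ => by
      have : (0 : ℝ) < κ := Nat.cast_pos.2 r.1.pos
      positivity)
    (fun a o => by
      rcases Nat.eq_zero_or_pos κ with rfl | hκ
      · simp
      have hκ' : (0 : ℝ) < κ := Nat.cast_pos.2 hκ
      calc ∑ r ∈ (univ ×ˢ range K : Finset (Fin κ × ℕ)),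
            (if 0 < x a o then f r.1 a o (tt r) else 0) / (2 * κ * K * E)
          ≤ ∑ _r ∈ (univ ×ˢ range K : Finset (Fin κ × ℕ)), E / (2 * κ * K * E) :=
            sum_le_sum fun r _ => div_le_div_of_nonneg_right (by
              split_ifs with h1
              · exact hfE _ _ _ _ h1
              · exact hE.le) (by positivity)
        _ = 1 / 2 := by
            rw [sum_const, card_product, card_univ, Fintype.card_fin, card_range, nsmul_eq_mul,
              Nat.cast_mul]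
            field_simp)
    _ x hx hs le_rfl
  refine ⟨ch, hch, fun i t ht => ?_⟩
  have hv : ⌊F i t / h⌋₊ < K := by
    rw [hK]
    exact Nat.lt_succ_of_le (Nat.floor_le_floor (div_le_div_of_nonneg_right (hFE i t) hh.le))
  have h1 : F i t < ((⌊F i t / h⌋₊ : ℝ) + 1) * h := (div_lt_iff₀ hh).1 (Nat.lt_floor_add_one _)
  have h2 : (⌊F i t / h⌋₊ : ℝ) * h ≤ F i t :=
    (le_div_iff₀ hh).1 (Nat.floor_le (div_nonneg (hF0 i t) hh.le))
  have hmem : t ∈ (range (m + 1)).filter fun t' => F i t' < ((⌊F i t / h⌋₊ : ℝ) + 1) * h :=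
    mem_filter.2 ⟨mem_range.2 (Nat.lt_succ_of_le ht), h1⟩
  have h3 : t ≤ tt (i, ⌊F i t / h⌋₊) := by
    rw [htt]; exact le_sup (f := id) hmem
  have h4 : F i (tt (i, ⌊F i t / h⌋₊)) < ((⌊F i t / h⌋₊ : ℝ) + 1) * h := by
    obtain ⟨u, hu, e⟩ := exists_mem_eq_sup _ ⟨t, hmem⟩ (id : ℕ → ℕ)
    rw [htt]
    dsimp only
    rw [e]
    exact (mem_filter.1 hu).2
  have h5 := (abs_le.1 (hb (i, ⌊F i t / h⌋₊)
    (mem_product.2 ⟨mem_univ _, mem_range.2 hv⟩))).2
  have e1 : ∑ a, (if 0 < x a (ch a) then f i a (ch a) (tt (i, ⌊F i t / h⌋₊)) else 0) =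
      ∑ a, f i a (ch a) (tt (i, ⌊F i t / h⌋₊)) := sum_congr rfl fun a _ => if_pos (hch a)
  have e2 : ∑ a, ∑ o, x a o * (if 0 < x a o then f i a o (tt (i, ⌊F i t / h⌋₊)) else 0) =
      F i (tt (i, ⌊F i t / h⌋₊)) := by
    rw [hF i (tt _)]
    refine sum_congr rfl fun a _ => sum_congr rfl fun o _ => ?_
    rcases (hx a o).eq_or_lt with e | e
    · rw [← e, zero_mul, zero_mul]
    · rw [if_pos e]
  dsimp only at h5
  rw [e1, e2] at h5
  have h6 : ∑ a, f i a (ch a) t ≤ ∑ a, f i a (ch a) (tt (i, ⌊F i t / h⌋₊)) :=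
    sum_le_sum fun a _ => hfm i a (ch a) h3
  have h7 : 2 * (κ : ℝ) * K * E ≤ 2 * κ * (Fintype.card A * E / h + 1) * E :=
    mul_le_mul_of_nonneg_right (mul_le_mul_of_nonneg_left hK1 (by positivity)) hE.le
  rw [← hF]
  linarith

end Pool.Agent.Lib.MP_5049a2_lc.TR
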