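import Pool.Agent.Lib.MP_5049a2_lc.TRDefs

/-! Geometric levels. -/

namespace Pool.Agent.Lib.MP_5049a2_lc

open Finset

namespace TR

variable {r : ℕ}

lemma ph_ge (r i : ℕ) : 1 / (r : ℝ) ≤ ph r i := le_max_right _ _

lemma lev_base (hr : 2 ≤ r) :
    (0 : ℝ) < r ∧ (0 : ℝ) < 1 / r ∧ (1 : ℝ) / r ≤ 1 / 2 := by
  have h : (2 : ℝ) ≤ r := by exact_mod_cast hr
  exact ⟨by linarith, by positivity, one_div_le_one_div_of_le two_pos h⟩

lemma ph_zero (hr : 2 ≤ r) : ph r 0 = 1 := by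
  obtain ⟨-, -, h⟩ := lev_base hr
  unfold ph
  rw [pow_zero, max_eq_left (by linarith)]

lemma ph_anti (hr : 2 ≤ r) : Antitone (ph r) := by
  obtain ⟨-, h1, h2⟩ := lev_base hr
  intro i j hij
  exact max_le_max (pow_le_pow_of_le_one (by linarith) (by linarith) hij) le_rfl

lemma ph_succ (hr : 2 ≤ r) (i : ℕ) : (1 - 1 / (r : ℝ)) * ph r i ≤ ph r (i + 1) := by
  obtain ⟨-, h1, h2⟩ := lev_base hr
  unfold ph
  rw [mul_max_of_nonneg _ _ (by linarith), pow_succ']
  exact max_le_max le_rfl (by nlinarith)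

lemma ph_dd (hr : 2 ≤ r) : ph r (dd r) = 1 / r := by
  obtain ⟨h0, h1, h2⟩ := lev_base hr
  unfold ph
  refine max_eq_right ?_
  have h3 : (1 - 1 / (r : ℝ)) ^ r ≤ 1 / 2 := by
    have h4 := one_add_mul_le_pow (a := 1 / (r : ℝ)) (by linarith) r
    rw [mul_one_div_cancel h0.ne'] at h4
    have h5 : (1 - 1 / (r : ℝ)) ^ r * (1 + 1 / (r : ℝ)) ^ r ≤ 1 := by
      rw [← mul_pow]
      exact pow_le_one₀ (by nlinarith) (by nlinarith)
    have h6 : 0 ≤ (1 - 1 / (r : ℝ)) ^ r := pow_nonneg (by linarith) _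
    nlinarith
  have h7 : (r : ℝ) ≤ 2 ^ (Nat.log 2 r + 1) := by
    exact_mod_cast (Nat.lt_pow_succ_log_self (b := 2) (by norm_num) r).le
  unfold dd
  rw [pow_mul]
  calc ((1 - 1 / (r : ℝ)) ^ r) ^ (Nat.log 2 r + 1) ≤ (1 / 2) ^ (Nat.log 2 r + 1) :=
        pow_le_pow_left₀ (pow_nonneg (by linarith) _) h3 _
    _ = 1 / 2 ^ (Nat.log 2 r + 1) := by rw [one_div_pow]
    _ ≤ 1 / r := one_div_le_one_div_of_le h0 h7

lemma dd_pos (hr : 2 ≤ r) : 1 ≤ dd r := by
  unfold dd; nlinarith [Nat.zero_le (Nat.log 2 r)]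

end TR

namespace Inst

open TR

variable {n : ℕ} (I : Inst n) {r : ℕ}

lemma ta_zero (a : Fin n) : I.ta r a 0 = 0 := by simp [ta]

lemma lev_lt (a : Fin n) (c : ℝ) (p : ℕ) :
    p < ((range I.m).filter fun p => c ≤ I.w a p).card ↔ p < I.m ∧ c ≤ I.w a p := by
  constructor
  · intro hp
    by_contra hcon
    have hsub : ((range I.m).filter fun p => c ≤ I.w a p) ⊆ range p := by
      intro q hq
      obtain ⟨h1, h2⟩ := mem_filter.1 hq
      rw [mem_range] at h1 ⊢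
      by_contra hqp
      exact hcon ⟨by omega, h2.trans (I.anti a (by omega))⟩
    have := card_le_card hsub
    rw [card_range] at this
    omega
  · rintro ⟨h1, h2⟩
    have hsub : range (p + 1) ⊆ ((range I.m).filter fun p => c ≤ I.w a p) := by
      intro q hq
      rw [mem_range] at hq
      exact mem_filter.2 ⟨mem_range.2 (by omega), h2.trans (I.anti a (by omega))⟩
    have := card_le_card hsub
    rw [card_range] at this
    exact this

lemma lt_ta (a : Fin n) {i : ℕ} (h1 : 1 ≤ i) (h2 : i ≤ dd r) (p : ℕ) :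
    p < I.ta r a i ↔ p < I.m ∧ ph r i ≤ I.w a p := by
  unfold ta
  rw [if_neg (by omega), if_pos h2]
  exact I.lev_lt a _ p

lemma ta_dd (hr : 2 ≤ r) (a : Fin n) : I.ta r a (dd r) = I.T r a := by
  obtain ⟨h0, -, -⟩ := lev_base hr
  refine eq_of_forall_lt_iff fun p => ?_
  rw [I.lt_ta a (dd_pos hr) le_rfl, ph_dd hr]
  unfold T
  rw [I.lt_tau, div_le_iff₀ h0]
  constructor <;> rintro ⟨h1, h2⟩ <;> exact ⟨h1, by nlinarith⟩

lemma ta_last (a : Fin n) : I.ta r a (dd r + 1) = I.T r a + ⌊(r : ℝ) ^ 2 * I.V r a⌋₊ := by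
  simp [ta]

lemma ta_mono (hr : 2 ≤ r) (a : Fin n) : Monotone (I.ta r a) := by
  refine monotone_nat_of_le_succ fun i => ?_
  rcases Nat.eq_zero_or_pos i with rfl | hi
  · rw [ta_zero]; exact Nat.zero_le _
  rcases lt_trichotomy i (dd r) with h | h | h
  · refine le_of_forall_lt fun p hp => ?_
    obtain ⟨h1, h2⟩ := (I.lt_ta a hi h.le p).1 hp
    exact (I.lt_ta a (by omega) (by omega) p).2 ⟨h1, (ph_anti hr (Nat.le_succ i)).trans h2⟩
  · rw [h, ta_dd I hr, ta_last]; omega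
  · unfold ta
    rw [if_neg (by omega), if_neg (by omega), if_neg (by omega), if_neg (by omega)]

lemma ta_le_m (a : Fin n) {i : ℕ} (h : i ≤ dd r) : I.ta r a i ≤ I.m := by
  unfold ta
  split_ifs
  · exact Nat.zero_le _
  · exact (card_filter_le _ _).trans (card_range _).le

lemma V_le (a : Fin n) : I.V r a ≤ n := by
  rw [← I.total a]
  exact Finset.sum_le_sum_of_subset_of_nonneg
    (fun p hp => mem_range.2 (mem_Ico.1 hp).2) fun p _ _ => I.nonneg a p

lemma ta_le (hr : 2 ≤ r) (a : Fin n) (i : ℕ) : I.ta r a i ≤ 2 * r ^ 2 * n := by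
  have h1 : I.ta r a i ≤ I.ta r a (i + dd r + 1) := I.ta_mono hr a (by omega)
  have h2 : I.ta r a (i + dd r + 1) = I.T r a + ⌊(r : ℝ) ^ 2 * I.V r a⌋₊ := by
    unfold ta; rw [if_neg (by omega), if_neg (by omega)]
  have h3 := I.T_le (r := r) (by omega) a
  have h4 : ⌊(r : ℝ) ^ 2 * I.V r a⌋₊ ≤ r ^ 2 * n := by
    refine Nat.floor_le_of_le ?_
    push_cast
    exact mul_le_mul_of_nonneg_left (I.V_le a) (by positivity)
  have h5 : r * n ≤ r ^ 2 * n := Nat.mul_le_mul_right _ (by nlinarith)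
  have h6 : 2 * r ^ 2 * n = r ^ 2 * n + r ^ 2 * n := by ring
  omega

/-- Positions before the end of level `i` are worth at least the threshold. -/
lemma ph_le_w (a : Fin n) {i c : ℕ} (h1 : 1 ≤ i) (h2 : i ≤ dd r) (hc : 0 < c)
    (h : c ≤ I.ta r a i) : ph r i ≤ I.w a (c - 1) :=
  ((I.lt_ta a h1 h2 (c - 1)).1 (by omega)).2

/-- Positions after the end of level `i - 1` are worth little more than the threshold. -/
lemma w_le_ph (hr : 2 ≤ r) (a : Fin n) {i p : ℕ} (h1 : 1 ≤ i) (h2 : i ≤ dd r)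
    (h : I.ta r a (i - 1) ≤ p) : (1 - 1 / (r : ℝ)) * I.w a p ≤ ph r i := by
  obtain ⟨h0, h3, h4⟩ := lev_base hr
  have key : I.w a p ≤ ph r (i - 1) := by
    rcases Nat.eq_zero_or_pos (i - 1) with h5 | h5
    · rw [h5, ph_zero hr]; exact I.w_le_one a p
    · by_cases hp : p < I.m
      · by_contra hc
        have := (I.lt_ta a h5 (by omega) p).2 ⟨hp, (not_le.1 hc).le⟩
        omega
      · rw [I.zero a p (by omega)]
        exact h3.le.trans (ph_ge r _)
  have h6 := ph_succ hr (i - 1)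
  rw [show i - 1 + 1 = i by omega] at h6
  exact (mul_le_mul_of_nonneg_left key (by linarith)).trans h6

lemma card_Bk (a : Fin n) : (I.Bk r a).card ≤ dd r + 1 :=
  card_image_le.trans (card_range _).le

lemma zero_mem_Bk (a : Fin n) : 0 ∈ I.Bk r a :=
  mem_image.2 ⟨0, mem_range.2 (by omega), I.ta_zero a⟩

lemma T_mem_Bk (hr : 2 ≤ r) (a : Fin n) : I.T r a ∈ I.Bk r a :=
  mem_image.2 ⟨dd r, mem_range.2 (by omega), I.ta_dd hr a⟩

lemma pv_Bk_le (hr : 2 ≤ r) (a : Fin n) (t : ℕ) : pv (I.Bk r a) t ≤ I.T r a := by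
  rcases mem_insert.1 (pv_mem (I.Bk r a) t) with h | h
  · omega
  · obtain ⟨i, hi, he⟩ := mem_image.1 h
    rw [← he, ← I.ta_dd hr a]
    exact I.ta_mono hr a (by have := mem_range.1 hi; omega)

lemma sum_ob (hr : 2 ≤ r) (a : Fin n) (t : ℕ) : ∑ j, I.ob r a j t = pv (I.Bk r a) t := by
  unfold ob
  rw [sum_cnt, min_eq_left (I.pv_Bk_le hr a t)]

lemma ob_le (hr : 2 ≤ r) (a j : Fin n) (t : ℕ) : I.ob r a j t ≤ r :=
  (cnt_le _ _ _ _).trans (I.card_bigs (by omega) a j)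

lemma ob_mono (a j : Fin n) : Monotone (I.ob r a j) :=
  fun _ _ h => cnt_mono _ _ _ (pv_mono _ h)

/-- Skipping small items. -/
lemma V_skip (hr : 2 ≤ r) (a : Fin n) {st : ℕ} (h : I.T r a ≤ st) :
    I.V r a - ((st - I.T r a : ℕ) : ℝ) / r ≤ ∑ p ∈ Ico st I.m, I.w a p := by
  have h1 : Ico (I.T r a) I.m ⊆ Ico (I.T r a) st ∪ Ico st I.m := by
    intro p hp
    simp only [mem_union, mem_Ico] at hp ⊢
    omega
  have h2 := Finset.sum_le_sum_of_subset_of_nonneg (f := I.w a) h1 fun p _ _ => I.nonneg a p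
  rw [sum_union (Ico_disjoint_Ico_consecutive _ _ _)] at h2
  have h3 : ∑ p ∈ Ico (I.T r a) st, I.w a p ≤ ∑ _p ∈ Ico (I.T r a) st, (1 / (r : ℝ)) :=
    sum_le_sum fun p hp => (I.anti a (mem_Ico.1 hp).1).trans (I.w_T (by omega) a)
  rw [sum_const, Nat.card_Ico, nsmul_eq_mul, mul_one_div] at h3
  unfold V
  linarith

lemma lev_big (hr : 2 ≤ r) (a j : Fin n) :
    (1 - 1 / (r : ℝ)) * (1 - I.sd r a j) ≤ Val I.m (I.w a) (I.ob r a j) := by
  have h1 := Val_cnt I.m (I.w a) (I.anti a) (I.nonneg a) (I.bun a) (I.T r a) j (I.Bk r a)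
    (fun p => (1 - 1 / (r : ℝ)) * I.w a p) (fun p hp _ => by
      have hex : ∃ i, p < I.ta r a i := ⟨dd r, by rw [I.ta_dd hr]; exact hp⟩
      classical
      have e1 := Nat.find_spec hex
      have e2 : Nat.find hex ≤ dd r := Nat.find_min' hex (by rw [I.ta_dd hr]; exact hp)
      have e3 : 1 ≤ Nat.find hex := by
        by_contra hc
        rw [show Nat.find hex = 0 by omega, ta_zero] at e1
        omega
      have e4 := Nat.find_min hex (m := Nat.find hex - 1) (by omega)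
      refine ⟨I.ta r a (Nat.find hex), mem_image.2 ⟨_, mem_range.2 (by omega), rfl⟩, e1,
        I.ta_le_m a e2, ?_⟩
      exact (I.w_le_ph hr a e3 e2 (not_lt.1 e4)).trans (I.ph_le_w a e3 e2 (by omega) le_rfl))
  rw [← mul_sum] at h1
  have h2 := I.bigs_add_sd r a j
  unfold bigs at h2
  rw [show 1 - I.sd r a j = ∑ p ∈ (range (I.T r a)).filter (fun p => I.bun a p = j), I.w a p by
    linarith]
  exact h1

lemma like_own (hr : 2 ≤ r) (a j : Fin n) (W : ℕ) (h : I.sig r a j = 0 ∨ (W : ℝ) ≤ I.V r a) :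
    1 - 6 / (r : ℝ) ≤ Val I.m (I.w a)
      (fun t => I.ob r a j t + ⌊I.sig r a j * ((t - (I.T r a + W) : ℕ) : ℝ)⌋₊) := by
  obtain ⟨h0, h3, h4⟩ := lev_base hr
  rw [Val_add]
  have h1 := I.lev_big hr a j
  have hσ := I.sig_nonneg (r := r) (by omega) a j
  have h2 := Val_share I.m (I.w a) (I.anti a) (I.nonneg a) hσ (le_refl (I.T r a + W))
  have h5 := I.V_skip hr a (st := I.T r a + W) (by omega)
  rw [Nat.add_sub_cancel_left] at h5
  have h6 : I.w a (I.T r a + W) ≤ 1 / r := (I.anti a (by omega)).trans (I.w_T (by omega) a)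
  have h7 := I.sd_nonneg r a j
  have h8 := I.sd_le_one r a j
  have h9 : (6 : ℝ) / r = 6 * (1 / r) := by ring
  have hs : 0 ≤ ∑ p ∈ Ico (I.T r a + W) I.m, I.w a p := sum_nonneg fun p _ => I.nonneg a p
  set ε := 1 / (r : ℝ) with hε
  by_cases hd : ε < I.sd r a j
  · have hV : 0 < I.V r a := lt_of_lt_of_le (h3.trans hd) (I.sd_le_V r a j)
    have e1 : I.sig r a j = (1 - ε) * I.sd r a j / I.V r a := by unfold sig; rw [if_pos hd]
    rcases h with h | h
    · rw [e1] at h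
      have : 0 < (1 - ε) * I.sd r a j / I.V r a :=
        div_pos (mul_pos (by linarith) (by linarith)) hV
      linarith
    · have e2 : (W : ℝ) / r ≤ ε * I.V r a := by
        rw [hε, div_eq_mul_one_div, mul_comm]
        exact mul_le_mul_of_nonneg_left h h3.le
      have e3 : I.sig r a j * ((1 - ε) * I.V r a) ≤
          I.sig r a j * ∑ p ∈ Ico (I.T r a + W) I.m, I.w a p :=
        mul_le_mul_of_nonneg_left (by linarith) hσ
      have e4 : I.sig r a j * ((1 - ε) * I.V r a) = (1 - ε) * (1 - ε) * I.sd r a j := by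
        rw [e1]; field_simp
      nlinarith [mul_nonneg h3.le h7, mul_nonneg (mul_nonneg h3.le h3.le) h7]
  · have := mul_nonneg hσ hs
    nlinarith [mul_nonneg h3.le h7]

end Inst

end Pool.Agent.Lib.MP_5049a2_lc
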