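import Pool.Agent.Lib.MP_5049a2_lc.TRGroup
import Pool.Agent.Lib.MP_5049a2_lc.TRLate
import Pool.Agent.Lib.MP_5049a2_lc.TRLev

/-! Construction of the partition of the leader. -/

namespace Pool.Agent.Lib.MP_5049a2_lc.TR

open Finset

lemma p0_glue {α M : Type*} [DecidableEq α] [AddCommMonoid M] (f g : ℕ → α) (x y : ℕ) (j : α)
    (v : ℕ → M) :
    ∑ p ∈ (range (x + y)).filter (fun p => (if p < x then f p else g (p - x)) = j), v p =
      ∑ p ∈ (range x).filter (fun p => f p = j), v p +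
        ∑ p ∈ (range y).filter (fun p => g p = j), v (x + p) := by
  simp only [sum_filter]
  rw [sum_range_add]
  congr 1
  · exact sum_congr rfl fun p hp => by rw [if_pos (mem_range.1 hp)]
  · exact sum_congr rfl fun p _ => by
      rw [if_neg (show ¬ x + p < x by omega), Nat.add_sub_cancel_left]

lemma p0_glue_card {α : Type*} [DecidableEq α] (f g : ℕ → α) (x y : ℕ) (j : α) :
    ((range (x + y)).filter fun p => (if p < x then f p else g (p - x)) = j).card =
      ((range x).filter fun p => f p = j).card + ((range y).filter fun p => g p = j).card := by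
  simp only [card_eq_sum_ones]
  exact p0_glue f g x y j fun _ => 1

lemma p0_fib {α : Type*} [DecidableEq α] (a0 : α) (c : α → ℕ) (s : Finset α) :
    ∃ φ : ℕ → α, ∀ j, ((range (∑ i ∈ s, c i)).filter fun p => φ p = j).card =
      if j ∈ s then c j else 0 := by
  induction s using Finset.induction_on with
  | empty => exact ⟨fun _ => a0, fun j => by simp⟩
  | insert i s hi ih =>
    obtain ⟨φ, hφ⟩ := ih
    refine ⟨fun p => if p < c i then i else φ (p - c i), fun j => ?_⟩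
    rw [sum_insert hi, p0_glue_card (fun _ => i) φ, hφ]
    by_cases h : i = j
    · subst h
      simp [hi]
    · have h' : ¬ j = i := fun e => h e.symm
      simp [h, h']

lemma p0_perm {M : Type*} [AddCommMonoid M] (π : Equiv.Perm ℕ) {x : ℕ}
    (hπ : ∀ p, π p < x ↔ p < x) (P : ℕ → Prop) [DecidablePred P] (v : ℕ → M) :
    ∑ p ∈ (range x).filter (fun p => P (π p)), v (π p) = ∑ q ∈ (range x).filter P, v q :=
  sum_equiv π (fun p => by simp only [mem_filter, mem_range, hπ]) fun _ _ => rfl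

lemma p0_idx (τ : ℕ → ℕ) (h0 : τ 0 = 0) (hm : Monotone τ) {k : ℕ} (hk : 1 ≤ k) :
    ∃ idx : ℕ → ℕ, ∀ p, 1 ≤ idx p ∧ idx p ≤ k ∧ τ (idx p - 1) ≤ p ∧ (p < τ k → p < τ (idx p)) ∧
      ∀ i, p < τ i → idx p ≤ i := by
  have ex : ∀ p, ∃ i, p < τ i ∨ k ≤ i := fun p => ⟨k, Or.inr le_rfl⟩
  refine ⟨fun p => Nat.find (ex p), fun p => ?_⟩
  have h1 := Nat.find_spec (ex p)
  have h2 : 1 ≤ Nat.find (ex p) := by
    by_contra h
    have e : Nat.find (ex p) = 0 := by omega
    rw [e, h0] at h1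
    omega
  have h3 := Nat.find_min (ex p) (m := Nat.find (ex p) - 1) (by omega)
  refine ⟨h2, Nat.find_min' _ (Or.inr le_rfl), not_lt.1 fun h => h3 (Or.inl h), fun h => ?_,
    fun i hi => Nat.find_min' _ (Or.inl hi)⟩
  exact h1.elim id fun h4 => h.trans_le (hm h4)

theorem p0_core {n : ℕ} (I : Inst n) {r : ℕ} (hr : 2 ≤ r) (Gs : Finset ℕ) (Q g : ℕ)
    (hQ : 2 * r ≤ Q) (G : Finset (Fin n)) (a0 : Fin n) (top last C : ℕ → ℕ)
    (hG : 4 * (dd r + 1) ^ 2 * g ≤ G.card)
    (h1 : ∀ i, 1 ≤ i → i ≤ dd r + 1 → 1 ≤ top i ∧ top i ≤ i ∧ i ≤ last i ∧ last i ≤ dd r + 1)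
    (h2 : ∀ i, 1 ≤ i → i ≤ dd r + 1 → ∀ i', top i ≤ i' → i' ≤ last i →
      top i' = top i ∧ last i' = last i ∧ C i' = C i)
    (h3 : ∀ i, 1 ≤ i → i ≤ dd r + 1 → ∀ a ∈ G, C i ≤ I.ta r a (top i))
    (h4 : ∀ i, 1 ≤ i → i ≤ dd r + 1 → G.card ≤
      4 * (dd r + 1) * (G.filter fun a => I.ta r a0 (last i) ≤ I.ta r a (top i)).card)
    (h5 : ∀ i, 1 ≤ i → i ≤ dd r + 1 →
      Q * (I.ta r a0 (last i) - C i) ≤ I.ta r a0 (last i) - I.ta r a0 (top i - 1))
    (xb x0 : ℕ) (bunE : ℕ → Fin n) (σ : Fin n → ℝ) (hσ : ∀ j, 0 ≤ σ j) (hx0 : xb ≤ x0)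
    (hxk : xb ≤ I.ta r a0 (dd r + 1)) (hc : xb ≤ I.T r a0 ∨ top (dd r + 1) ≤ dd r)
    (hR : ∀ j, ((range xb).filter fun p => bunE p = j).card ≤ 2 * r)
    (hval : ∀ a ∈ G, ∀ j, ∀ v : ℕ → ℝ, (∀ q < I.T r a0, (1 - 1 / (r : ℝ)) * I.w a0 q ≤ v q) →
      (∀ q, 1 / (r : ℝ) ≤ v q) → 1 - 6 / (r : ℝ) ≤
        ∑ q ∈ (range xb).filter (fun q => bunE q = j), v q +
          Val I.m (I.w a) (fun t => ⌊σ j * ((t - x0 : ℕ) : ℝ)⌋₊)) :
    ∃ P : P0 I r (dd r + 1), (∀ i, P.G i ⊆ G ∧ (P.G i).card = g) ∧ Gs ⊆ P.B ∧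
      P.B.card ≤ Gs.card + 2 * (dd r + 1) + 1 ∧ P.xb = xb ∧ P.x0 = x0 ∧ P.σ = σ ∧
      Q * (univ.filter fun j => P.cls j ≠ none).card ≤ 2 * r * n := by
  classical
  have hm := I.ta_mono hr a0
  obtain ⟨idx, hidx⟩ := p0_idx (I.ta r a0) (I.ta_zero a0) hm (k := dd r + 1) (by omega)
  obtain ⟨Gr, hGr, hdisj⟩ := disjoint_sub (k := dd r + 1)
    (fun i => G.filter fun a => I.ta r a0 (last (i + 1)) ≤ I.ta r a (top (i + 1))) g fun i => by
      have h := hG.trans (h4 (i + 1) (by omega) i.2)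
      refine Nat.le_of_mul_le_mul_left (c := 4 * (dd r + 1)) (le_trans (le_of_eq ?_) h)
        (by omega)
      ring
  have hI : ∀ p, 1 ≤ top (idx p) ∧ top (idx p) ≤ idx p ∧ idx p ≤ last (idx p) ∧
      last (idx p) ≤ dd r + 1 := fun p => h1 _ (hidx p).1 (hidx p).2.1
  have hT : ∀ p, top (top (idx p)) = top (idx p) ∧ last (top (idx p)) = last (idx p) ∧
      C (top (idx p)) = C (idx p) := fun p =>
    h2 _ (hidx p).1 (hidx p).2.1 _ le_rfl ((hI p).2.1.trans (hI p).2.2.1)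
  have hTd : ∀ p, p < I.T r a0 → idx p ≤ dd r := fun p hp =>
    (hidx p).2.2.2.2 _ (by rwa [I.ta_dd hr])
  have hB : ∀ p < xb, top (idx p) ≤ dd r := fun p hp => by
    have := hI p
    have := (hidx p).2.1
    rcases hc with h | h
    · have := hTd p (by omega)
      omega
    · by_cases e : idx p = dd r + 1
      · rwa [e]
      · omega
  have hE : ∀ p < xb, p < I.ta r a0 (last (idx p)) := fun p hp =>
    ((hidx p).2.2.2.1 (hp.trans_le hxk)).trans_le (hm (hI p).2.2.1)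
  let Late := (range xb).filter fun p => C (idx p) ≤ p
  have hLQ : ∀ b, Q * (Late.filter fun p => top (idx p) = b).card ≤
      ((range xb).filter fun p => top (idx p) = b).card := fun b => by
    rcases (Late.filter fun p => top (idx p) = b).eq_empty_or_nonempty with h | ⟨p0, hp0⟩
    · rw [h]; simp
    obtain ⟨hp1, rfl⟩ := mem_filter.1 hp0
    obtain ⟨hp2, hp3⟩ := mem_filter.1 hp1
    have hp4 := mem_range.1 hp2
    have s1 : (Late.filter fun p => top (idx p) = top (idx p0)) ⊆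
        Ico (C (idx p0)) (min xb (I.ta r a0 (last (idx p0)))) := fun p hp => by
      obtain ⟨k1, k2⟩ := mem_filter.1 hp
      obtain ⟨k3, k4⟩ := mem_filter.1 k1
      have k5 := mem_range.1 k3
      have k6 := hE p k5
      rw [← (hT p).2.1, k2, (hT p0).2.1] at k6
      rw [← (hT p).2.2, k2, (hT p0).2.2] at k4
      exact mem_Ico.2 ⟨k4, lt_min k5 k6⟩
    have s2 : Ico (I.ta r a0 (top (idx p0) - 1)) (min xb (I.ta r a0 (last (idx p0)))) ⊆
        (range xb).filter fun p => top (idx p) = top (idx p0) := fun p hp => by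
      obtain ⟨k1, k2⟩ := mem_Ico.1 hp
      obtain ⟨k3, k4⟩ := lt_min_iff.1 k2
      refine mem_filter.2 ⟨mem_range.2 k3, (h2 _ (hidx p0).1 (hidx p0).2.1 _ ?_
        ((hidx p).2.2.2.2 _ k4)).1⟩
      by_contra k5
      have k6 := (hidx p).2.2.2.1 (k3.trans_le hxk)
      have k7 := hm (show idx p ≤ top (idx p0) - 1 by omega)
      omega
    have c1 := card_le_card s1
    have c2 := card_le_card s2
    rw [Nat.card_Ico] at c1 c2
    refine (Nat.mul_le_mul_left Q c1).trans (le_trans ?_ c2)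
    have c3 := h5 _ (hidx p0).1 (hidx p0).2.1
    rcases le_total xb (I.ta r a0 (last (idx p0))) with h | h
    · rw [min_eq_left h]
      have c4 : I.ta r a0 (top (idx p0) - 1) ≤ p0 :=
        (hm (Nat.sub_le_sub_right (hI p0).2.1 1)).trans (hidx p0).2.2.1
      have c5 : I.ta r a0 (last (idx p0)) - C (idx p0) =
          (xb - C (idx p0)) + (I.ta r a0 (last (idx p0)) - xb) := by omega
      have c6 : I.ta r a0 (last (idx p0)) - xb ≤ Q * (I.ta r a0 (last (idx p0)) - xb) :=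
        Nat.le_mul_of_pos_left _ (by omega)
      rw [c5, mul_add] at c3
      omega
    · rwa [min_eq_right h]
  obtain ⟨π, hπ1, hπ2, hπ3⟩ := late_perm xb (2 * r) (by omega) bunE (fun p => top (idx p)) Late
    (filter_subset _ _) hR fun b => (Nat.mul_le_mul_right _ hQ).trans (hLQ b)
  have hlt : ∀ p, top (idx p) - 1 < dd r + 1 := fun p => by
    have := hI p
    omega
  let cls : Fin n → Option (Fin (dd r + 1)) := fun j =>
    if h : ∃ p ∈ Late, bunE (π p) = j then some ⟨top (idx h.choose) - 1, hlt _⟩ else none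
  have hcls : ∀ p ∈ Late, cls (bunE (π p)) = some ⟨top (idx p) - 1, hlt _⟩ := fun p hp => by
    have h : ∃ q ∈ Late, bunE (π q) = bunE (π p) := ⟨p, hp, rfl⟩
    have e : h.choose = p := hπ3 h.choose_spec.1 hp h.choose_spec.2
    simp only [cls, dif_pos h, e]
  let B : Finset ℕ := insert xb (Gs ∪ ((Icc 1 (dd r + 1)).image C ∪
    (Icc 1 (dd r + 1)).image fun i => I.ta r a0 (last i)))
  have hmem : ∀ p, idx p ∈ Icc 1 (dd r + 1) := fun p => mem_Icc.2 ⟨(hidx p).1, (hidx p).2.1⟩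
  refine ⟨⟨fun p => bunE (π p), xb, x0, B, σ, cls, Gr, fun j => ?_, hx0, mem_insert_self _ _, hσ,
    hdisj, fun h a ha j hj => ?_⟩, fun i => ⟨(hGr i).1.trans (filter_subset _ _), (hGr i).2⟩,
    subset_union_left.trans (subset_insert _ _), ?_, rfl, rfl, rfl, ?_⟩
  · have := p0_perm π hπ1 (fun q => bunE q = j) fun _ => 1
    rw [← card_eq_sum_ones, ← card_eq_sum_ones] at this
    exact this.trans_le (hR j)
  · obtain ⟨haG, haE⟩ := mem_filter.1 ((hGr h).1 ha)
    rw [Val_add]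
    refine (hval a haG j (fun q => ph r (top (idx q))) (fun q hq => ?_)
      fun q => ph_ge _ _).trans (add_le_add_left ?_ _)
    · exact (I.w_le_ph hr a0 (hidx q).1 (hTd q hq) (hidx q).2.2.1).trans
        (ph_anti hr (hI q).2.1)
    rw [← p0_perm π hπ1 (fun q => bunE q = j) fun q => ph r (top (idx q))]
    refine Val_cnt I.m (I.w a) (I.anti a) (I.nonneg a) (fun p => bunE (π p)) xb j B
      (fun p => ph r (top (idx (π p)))) fun p hp hpj => ?_
    have e : top (idx (π p)) = top (idx p) := hπ2 p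
    rw [e]
    have key : ∀ β, p < β → β ≤ I.ta r a (top (idx p)) →
        p < β ∧ β ≤ I.m ∧ ph r (top (idx p)) ≤ I.w a (β - 1) := fun β k1 k2 =>
      ⟨k1, k2.trans (I.ta_le_m a (hB p hp)), I.ph_le_w a (hI p).1 (hB p hp) (by omega) k2⟩
    by_cases hl : C (idx p) ≤ p
    · have k1 := hcls p (mem_filter.2 ⟨mem_range.2 hp, hl⟩)
      rw [hpj] at k1
      rw [k1] at hj
      have k2 : top (idx p) - 1 = h := by
        rcases hj with hj | hj
        · exact absurd hj (by simp)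
        · exact congrArg Fin.val (Option.some.inj hj)
      have k3 : (h : ℕ) + 1 = top (idx p) := by
        have := (hI p).1
        omega
      rw [k3, (hT p).1, (hT p).2.1] at haE
      exact ⟨_, mem_insert_of_mem (mem_union_right _ (mem_union_right _
        (mem_image_of_mem _ (hmem p)))), key _ (hE p hp) haE⟩
    · exact ⟨_, mem_insert_of_mem (mem_union_right _ (mem_union_left _
        (mem_image_of_mem _ (hmem p)))),
        key _ (not_le.1 hl) (h3 _ (hidx p).1 (hidx p).2.1 a haG)⟩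
  · have c1 := card_insert_le xb (Gs ∪ ((Icc 1 (dd r + 1)).image C ∪
      (Icc 1 (dd r + 1)).image fun i => I.ta r a0 (last i)))
    have c2 := card_union_le Gs ((Icc 1 (dd r + 1)).image C ∪
      (Icc 1 (dd r + 1)).image fun i => I.ta r a0 (last i))
    have c3 := card_union_le ((Icc 1 (dd r + 1)).image C)
      ((Icc 1 (dd r + 1)).image fun i => I.ta r a0 (last i))
    have c4 := card_image_le (s := Icc 1 (dd r + 1)) (f := C)
    have c5 := card_image_le (s := Icc 1 (dd r + 1)) (f := fun i => I.ta r a0 (last i))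
    rw [Nat.card_Icc] at c4 c5
    change B.card ≤ _
    have c6 : B.card ≤ _ := c1
    omega
  · have c1 : (univ.filter fun j => cls j ≠ none) ⊆ Late.image fun p => bunE (π p) :=
      fun j hj => by
        by_contra h
        refine (mem_filter.1 hj).2 (dif_neg fun ⟨p, hp, e⟩ => h (mem_image.2 ⟨p, hp, e⟩))
    have c2 := (card_le_card c1).trans card_image_le
    have c3 : Late.card = ∑ b ∈ range (dd r + 2), (Late.filter fun p => top (idx p) = b).card :=
      card_eq_sum_card_fiberwise fun p _ => mem_coe.2 (mem_range.2 (by have := hI p; omega))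
    have c4 : (range xb).card =
        ∑ b ∈ range (dd r + 2), ((range xb).filter fun p => top (idx p) = b).card :=
      card_eq_sum_card_fiberwise fun p _ => mem_coe.2 (mem_range.2 (by have := hI p; omega))
    have c5 : (range xb).card = ∑ j, ((range xb).filter fun p => bunE p = j).card :=
      card_eq_sum_card_fiberwise fun p _ => mem_coe.2 (mem_univ _)
    have c6 : ∑ j, ((range xb).filter fun p => bunE p = j).card ≤ ∑ _j : Fin n, 2 * r :=
      sum_le_sum fun j _ => hR j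
    rw [sum_const, card_univ, Fintype.card_fin, smul_eq_mul, mul_comm, ← c5, c4] at c6
    refine (Nat.mul_le_mul_left Q c2).trans (le_trans ?_ c6)
    rw [c3, mul_sum]
    exact sum_le_sum fun b _ => hLQ b

lemma p0_bigs {n : ℕ} (I : Inst n) {r : ℕ} (a0 j : Fin n) {v : ℕ → ℝ}
    (hv : ∀ q < I.T r a0, (1 - 1 / (r : ℝ)) * I.w a0 q ≤ v q) :
    (1 - 1 / (r : ℝ)) * (1 - I.sd r a0 j) ≤
      ∑ q ∈ (range (I.T r a0)).filter (fun q => I.bun a0 q = j), v q := by
  rw [← eq_sub_of_add_eq (I.bigs_add_sd r a0 j), mul_sum]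
  exact sum_le_sum fun q hq => hv q (mem_range.1 (mem_filter.1 hq).1)

lemma p0_mono {σ : ℝ} (hσ : 0 ≤ σ) (x : ℕ) : Monotone fun t : ℕ => ⌊σ * ((t - x : ℕ) : ℝ)⌋₊ :=
  fun _ _ hst => Nat.floor_le_floor (mul_le_mul_of_nonneg_left
    (by exact_mod_cast Nat.sub_le_sub_right hst _) hσ)

/-- The share of the small items in the pinned case. -/
lemma p0_share {n : ℕ} (I : Inst n) {r : ℕ} (hr : 3 ≤ r) (a0 a j : Fin n) {x0 : ℕ}
    (hsd : 1 / (r : ℝ) < I.sd r a0 j) (hx : ((x0 - I.T r a : ℕ) : ℝ) ≤ I.V r a0)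
    (hN : r * (⌊(r : ℝ) ^ 2 * I.V r a0⌋₊ - ⌊(r : ℝ) ^ 2 * I.V r a⌋₊) ≤
      ⌊(r : ℝ) ^ 2 * I.V r a⌋₊) :
    I.sd r a0 j - 5 / (r : ℝ) ≤
      Val I.m (I.w a) (fun t => ⌊I.sig r a0 j * ((t - x0 : ℕ) : ℝ)⌋₊) := by
  have hr0 : 0 < r := by omega
  have hr3 : (3 : ℝ) ≤ r := by exact_mod_cast hr
  have hr' : (0 : ℝ) < r := by linarith
  have hσ := I.sig_nonneg hr0 a0 j
  refine le_trans ?_ (Val_share I.m (I.w a) (I.anti a) (I.nonneg a) hσ
    (le_max_left x0 (I.T r a)))
  have h1 := (I.anti a (le_max_right x0 (I.T r a))).trans (I.w_T hr0 a)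
  have h2 := I.V_skip (by omega) a (le_max_right x0 (I.T r a))
  have h3 : max x0 (I.T r a) - I.T r a = x0 - I.T r a := by omega
  rw [h3] at h2
  have hV := I.sd_le_V r a0 j
  have hV0 : 1 / (r : ℝ) < I.V r a0 := hsd.trans_le hV
  have hVp : 0 < I.V r a0 := lt_trans (by positivity) hV0
  have h4 : (r : ℝ) ^ 2 * I.V r a0 < ⌊(r : ℝ) ^ 2 * I.V r a0⌋₊ + 1 := Nat.lt_floor_add_one _
  have h5 : (⌊(r : ℝ) ^ 2 * I.V r a⌋₊ : ℝ) ≤ (r : ℝ) ^ 2 * I.V r a :=
    Nat.floor_le (mul_nonneg (by positivity) (I.V_nonneg r a))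
  have h5' : (⌊(r : ℝ) ^ 2 * I.V r a0⌋₊ : ℝ) ≤ (r : ℝ) ^ 2 * I.V r a0 :=
    Nat.floor_le (mul_nonneg (by positivity) hVp.le)
  generalize ⌊(r : ℝ) ^ 2 * I.V r a0⌋₊ = N0 at hN h4 h5'
  generalize ⌊(r : ℝ) ^ 2 * I.V r a⌋₊ = Na at hN h5
  have h6 : (r : ℝ) * N0 ≤ r * Na + N0 := by
    have : r * N0 ≤ r * Na + N0 := by
      rcases le_total N0 Na with h | h
      · exact (Nat.mul_le_mul_left r h).trans (Nat.le_add_right _ _)
      · obtain ⟨d, rfl⟩ := Nat.exists_eq_add_of_le h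
        rw [Nat.add_sub_cancel_left] at hN
        rw [mul_add]
        omega
    exact_mod_cast this
  rw [div_lt_iff₀ hr'] at hV0
  have h7 : (r : ℝ) * I.V r a0 - 2 * I.V r a0 ≤ r * I.V r a := by
    have k1 : (r : ℝ) * N0 ≤ r * ((r : ℝ) ^ 2 * I.V r a) + (r : ℝ) ^ 2 * I.V r a0 := by
      have := mul_le_mul_of_nonneg_left h5 hr'.le
      linarith
    have k2 : (r : ℝ) * ((r : ℝ) ^ 2 * I.V r a0 - I.V r a0 * r) ≤ r * N0 :=
      mul_le_mul_of_nonneg_left (by linarith) hr'.le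
    refine le_of_mul_le_mul_left ?_ (show (0 : ℝ) < r ^ 2 by positivity)
    nlinarith
  have h8 : (1 - 3 * (1 / (r : ℝ))) * I.V r a0 ≤ ∑ p ∈ Ico (max x0 (I.T r a)) I.m, I.w a p := by
    refine le_trans ?_ h2
    have k1 : ((x0 - I.T r a : ℕ) : ℝ) / r ≤ I.V r a0 / r := by gcongr
    have k2 : (1 - 3 * (1 / (r : ℝ))) * I.V r a0 ≤ I.V r a - I.V r a0 / r := by
      refine le_of_mul_le_mul_left ?_ hr'
      have e1 : (r : ℝ) * ((1 - 3 * (1 / (r : ℝ))) * I.V r a0) =
          r * I.V r a0 - 3 * I.V r a0 := by field_simp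
      have e2 : (r : ℝ) * (I.V r a - I.V r a0 / r) = r * I.V r a - I.V r a0 := by field_simp
      rw [e1, e2]
      linarith
    linarith
  have h9 := mul_le_mul_of_nonneg_left h8 hσ
  have e : I.sig r a0 j * ((1 - 3 * (1 / (r : ℝ))) * I.V r a0) =
      (1 - 1 / (r : ℝ)) * (1 - 3 * (1 / (r : ℝ))) * I.sd r a0 j := by
    unfold Inst.sig
    rw [if_pos hsd]
    field_simp
  rw [e] at h9
  have h10 := I.sd_le_one r a0 j
  have h11 := I.sd_nonneg r a0 j
  have h12 : (0 : ℝ) ≤ 1 / r := by positivity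
  have h13 : (5 : ℝ) / r = 5 * (1 / r) := by ring
  rw [h13]
  nlinarith [mul_nonneg h12 h11, mul_nonneg (mul_nonneg h12 h12) h11,
    mul_nonneg h12 (sub_nonneg.2 h10)]

theorem mkP0 {n : ℕ} (I : Inst n) {r : ℕ} (hr : 2 ≤ r) (N : Finset (Fin n)) (Gs : Finset ℕ)
    (θ W Q g : ℕ) (hQ : 2 * r ^ 2 ≤ Q) (hg0 : 0 < g)
    (hN : ∀ a ∈ N, θ ≤ I.T r a + W ∧ (W : ℝ) ≤ I.V r a)
    (hg : 4 * (dd r + 1) ^ 2 * GC (dd r + 1) Q (2 * r ^ 2 * n) ^ (dd r + 1) * g ≤ N.card) :
    ∃ (P : P0 I r (dd r + 1)) (a0 : Fin n), a0 ∈ N ∧ (∀ i, P.G i ⊆ N ∧ (P.G i).card = g) ∧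
      Gs ⊆ P.B ∧ P.B.card ≤ Gs.card + 2 * (dd r + 1) + 1 ∧ I.T r a0 ≤ P.xb ∧
      P.x0 = max P.xb θ ∧ (∀ j, P.σ j ≤ I.sig r a0 j) ∧
      Q * (univ.filter fun j => P.cls j ≠ none).card ≤ 2 * r * n := by
  classical
  have hr0 : 0 < r := by omega
  have hr2 : (2 : ℝ) ≤ r := by exact_mod_cast hr
  have hr' : (0 : ℝ) < r := by linarith
  have hQ2 : 2 * r ≤ Q := le_trans (by nlinarith) hQ
  have hQ0 : 0 < Q := by omega
  have hGC : 0 < GC (dd r + 1) Q (2 * r ^ 2 * n) ^ (dd r + 1) := by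
    unfold GC; positivity
  have hNe : N.Nonempty := card_pos.1 (lt_of_lt_of_le (by positivity) hg)
  obtain ⟨G, a0, top, last, C, hGN, ha0, hcard, H⟩ := group N hNe (dd r + 1) Q (2 * r ^ 2 * n)
    (by omega) hQ0 (I.ta r) I.ta_zero (I.ta_mono hr) fun a => I.ta_le hr a _
  have hG : 4 * (dd r + 1) ^ 2 * g ≤ G.card := by
    refine Nat.le_of_mul_le_mul_left (le_trans (le_of_eq ?_) (hg.trans hcard)) hGC
    ring
  have core := p0_core I hr Gs Q g hQ2 G a0 top last C hG (fun i a b => (H i a b).1)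
    (fun i a b => (H i a b).2.1) (fun i a b => (H i a b).2.2.1) (fun i a b => (H i a b).2.2.2.1)
    fun i a b => (H i a b).2.2.2.2.1
  have hε : (0 : ℝ) ≤ 1 / r := by positivity
  have hε1 : 1 / (r : ℝ) ≤ 1 / 2 := one_div_le_one_div_of_le two_pos hr2
  have h6 : (6 : ℝ) / r = 6 * (1 / r) := by ring
  by_cases hc : top (dd r + 1) ≤ dd r
  · let c : Fin n → ℕ := fun j => if 1 / (r : ℝ) < I.sd r a0 j then ⌈r * I.sd r a0 j⌉₊ else 0
    obtain ⟨φ, hφ⟩ := p0_fib a0 c univ
    simp only [mem_univ, if_true] at hφ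
    have hc1 : ∀ j, c j ≤ r := fun j => by
      simp only [c]
      split_ifs
      · exact Nat.ceil_le.2 (mul_le_of_le_one_right hr'.le (I.sd_le_one r a0 j))
      · exact Nat.zero_le _
    have hc2 : ∀ j, (c j : ℝ) ≤ (r : ℝ) ^ 2 * I.sd r a0 j := fun j => by
      have k0 := I.sd_nonneg r a0 j
      simp only [c]
      split_ifs with h
      · have k1 := Nat.ceil_lt_add_one (mul_nonneg hr'.le k0)
        rw [div_lt_iff₀ hr'] at h
        nlinarith [mul_nonneg (mul_nonneg hr'.le k0) (sub_nonneg.2 hr2)]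
      · rw [Nat.cast_zero]; positivity
    have hy : ∑ j, c j ≤ ⌊(r : ℝ) ^ 2 * I.V r a0⌋₊ := by
      refine Nat.le_floor ?_
      rw [← I.sum_sd, mul_sum, Nat.cast_sum]
      exact sum_le_sum fun j _ => hc2 j
    obtain ⟨P, k1, k2, k3, k4, k5, k6, k7⟩ := core (I.T r a0 + ∑ j, c j)
      (max (I.T r a0 + ∑ j, c j) θ)
      (fun p => if p < I.T r a0 then I.bun a0 p else φ (p - I.T r a0)) (fun _ => 0)
      (fun _ => le_rfl) (le_max_left _ _) (by rw [I.ta_last]; omega) (Or.inr hc)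
      (fun j => by
        rw [p0_glue_card, hφ]
        have k1 : ((range (I.T r a0)).filter fun p => I.bun a0 p = j).card ≤ r :=
          I.card_bigs hr0 a0 j
        have := hc1 j
        omega)
      (fun a _ j v hv hv' => by
        rw [p0_glue]
        have k1 := p0_bigs I a0 j hv
        have k2 := Val_nonneg I.m (I.w a) (I.nonneg a) _
          (p0_mono le_rfl (max (I.T r a0 + ∑ j, c j) θ))
        have k3 : (c j : ℝ) * (1 / r) ≤
            ∑ p ∈ (range (∑ j, c j)).filter (fun p => φ p = j), v (I.T r a0 + p) := by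
          rw [← hφ j, ← nsmul_eq_mul]
          exact card_nsmul_le_sum _ _ _ fun p _ => hv' _
        have k4 : I.sd r a0 j - 1 / r ≤ (c j : ℝ) * (1 / r) := by
          simp only [c]
          split_ifs with h
          · have k5 := Nat.le_ceil ((r : ℝ) * I.sd r a0 j)
            rw [mul_one_div, le_div_iff₀ hr']
            nlinarith
          · rw [Nat.cast_zero, zero_mul]
            linarith
        have k5 := I.sd_nonneg r a0 j
        rw [h6]
        nlinarith [mul_nonneg hε k5])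
    refine ⟨P, a0, hGN ha0, fun i => ⟨(k1 i).1.trans hGN, (k1 i).2⟩, k2, k3, by omega,
      by rw [k5, k4], fun j => ?_, k7⟩
    rw [k6]
    exact I.sig_nonneg hr0 a0 j
  · obtain ⟨⟨-, t1, t2, t3⟩, -, t4, -, t5, t6⟩ := H (dd r + 1) (by omega) le_rfl
    have e1 : top (dd r + 1) = dd r + 1 := by omega
    have e2 : last (dd r + 1) = dd r + 1 := by omega
    rw [e1] at t4
    rw [e1, e2] at t5
    simp only [Nat.add_sub_cancel, I.ta_dd hr, I.ta_last, Nat.add_sub_cancel_left] at t4 t5 t6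
    obtain ⟨P, k1, k2, k3, k4, k5, k6, k7⟩ := core (I.T r a0) (max (I.T r a0) θ) (I.bun a0)
      (I.sig r a0) (I.sig_nonneg hr0 a0) (le_max_left _ _) (by rw [I.ta_last]; omega)
      (Or.inl le_rfl) (fun j => (I.card_bigs hr0 a0 j).trans (by omega))
      (fun a ha j v hv hv' => by
        have k1 := p0_bigs I a0 j hv
        have k2 := Val_nonneg I.m (I.w a) (I.nonneg a) _
          (p0_mono (I.sig_nonneg hr0 a0 j) (max (I.T r a0) θ))
        have k5 := I.sd_nonneg r a0 j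
        have k6 := I.sd_le_one r a0 j
        by_cases hr3 : r < 3
        · have k7 : (r : ℝ) ≤ 6 := by exact_mod_cast (show r ≤ 6 by omega)
          have k8 : (1 : ℝ) ≤ 6 / r := by rw [le_div_iff₀ hr']; linarith
          have k9 : 0 ≤ (1 - 1 / (r : ℝ)) * (1 - I.sd r a0 j) :=
            mul_nonneg (by linarith) (by linarith)
          linarith
        by_cases hsd : 1 / (r : ℝ) < I.sd r a0 j
        · have k7 := p0_share I (not_lt.1 hr3) a0 a j (x0 := max (I.T r a0) θ) hsd ?_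
            ((Nat.mul_le_mul_right _ (by omega)).trans (t6 a0 ha0 a ha))
          · have h5 : (5 : ℝ) / r = 5 * (1 / r) := by ring
            rw [h5] at k7
            rw [h6]
            nlinarith [mul_nonneg hε k5]
          have u1 := (hN a (hGN ha)).1
          have u2 := (hN a0 (hGN ha0)).2
          have u3 := t4 a ha
          have u4 := t6 a ha a0 ha0
          have u5 : (⌊(r : ℝ) ^ 2 * I.V r a0⌋₊ : ℝ) ≤ (r : ℝ) ^ 2 * I.V r a0 :=
            Nat.floor_le (mul_nonneg (by positivity) (I.V_nonneg r a0))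
          generalize ⌊(r : ℝ) ^ 2 * I.V r a0⌋₊ = N0 at t5 u4 u5
          generalize ⌊(r : ℝ) ^ 2 * I.V r a⌋₊ = Na at u3 u4
          have u6 : Q * (I.T r a0 - I.T r a) ≤ 2 * N0 := by
            have : I.T r a0 - I.T r a ≤ (I.T r a0 + N0 - C (dd r + 1)) + (Na - N0) := by omega
            have := Nat.mul_le_mul_left Q this
            rw [mul_add] at this
            omega
          have u7 : r ^ 2 * (I.T r a0 - I.T r a) ≤ N0 := by
            have := Nat.mul_le_mul_right (I.T r a0 - I.T r a) hQ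
            rw [mul_assoc] at this
            omega
          have u8 : ((I.T r a0 - I.T r a : ℕ) : ℝ) ≤ I.V r a0 := by
            refine le_of_mul_le_mul_left (le_trans ?_ u5) (show (0 : ℝ) < r ^ 2 by positivity)
            exact_mod_cast u7
          rcases le_total θ (I.T r a0) with h | h
          · rwa [max_eq_left h]
          · rw [max_eq_right h]
            exact le_trans (by exact_mod_cast (show θ - I.T r a ≤ W by omega)) u2
        · rw [h6]
          nlinarith [mul_nonneg hε k5])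
    exact ⟨P, a0, hGN ha0, fun i => ⟨(k1 i).1.trans hGN, (k1 i).2⟩, k2, k3, k4.ge,
      by rw [k5, k4], fun j => by rw [k6], k7⟩

end Pool.Agent.Lib.MP_5049a2_lc.TR
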