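import Pool.Agent.Lib.MP_5049a2_lc.TRCore
import Pool.Agent.Lib.MP_5049a2_lc.TRP0

/-! Few agents have many small items. -/

namespace Pool.Agent.Lib.MP_5049a2_lc.TR

open Finset

lemma ca_avg {n : ℕ} (hn : 0 < n) (out S : Finset (Fin n)) (K : ℝ) (hK : (out.card : ℝ) + K = n)
    (hK0 : 0 ≤ K) (c : Fin n → ℝ) (y y' u : ℝ) (hy : y' ≤ y)
    (h : ∀ a ∈ out, c a ≤ y + if a ∈ S then u else 0) :
    (∑ a ∈ out, c a + K * y') / n ≤ y + u * (out.filter (· ∈ S)).card / n := by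
  have hn' : (0 : ℝ) < n := by exact_mod_cast hn
  have h1 : ∑ a ∈ out, c a ≤ ∑ a ∈ out, (y + if a ∈ S then u else 0) := sum_le_sum h
  rw [sum_add_distrib, ← sum_filter, sum_const, sum_const, nsmul_eq_mul, nsmul_eq_mul] at h1
  have h2 : K * y' ≤ K * y := mul_le_mul_of_nonneg_left hy hK0
  have h3 : y + u * (out.filter (· ∈ S)).card / n =
      ((out.card : ℝ) * y + (out.filter (· ∈ S)).card * u + K * y) / n := by
    rw [eq_div_iff hn'.ne', add_mul, div_mul_cancel₀ _ hn'.ne']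
    linear_combination (-y) * hK
  rw [h3]
  exact div_le_div_of_nonneg_right (by linarith) hn'.le

lemma ca_out {n k : ℕ} {I : Inst n} {r : ℕ} (P : P0 I r k) {g : ℕ} (hg : ∀ i, (P.G i).card = g) :
    P.out.card + k * g = n := by
  have h1 : (univ.biUnion P.G).card = k * g := by
    rw [card_biUnion fun i _ j _ hij => P.disj i j hij]
    simp [hg]
  have h2 := card_compl_add_card (univ.biUnion P.G)
  rw [h1, Fintype.card_fin] at h2
  exact h2

lemma ca_Hb_mem {n k : ℕ} {I : Inst n} {r : ℕ} (P : P0 I r k) (M : Finset (Fin n)) {a : Fin n}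
    (ha : a ∈ M) (t : ℕ) :
    P.Hb (fun a => if a ∈ M then univ else ∅) a t ≤ min t P.xb := by
  unfold P0.Hb P0.u0
  simp only [if_pos ha, compl_univ, sum_empty, zero_add]
  rw [sum_cnt]
  exact min_le_min_right _ (pv_le _ _)

lemma ca_Hb_not {n k : ℕ} {I : Inst n} {r : ℕ} (hr : 2 ≤ r) (P : P0 I r k) (M : Finset (Fin n))
    {a : Fin n} (ha : a ∉ M) (t : ℕ) :
    P.Hb (fun a => if a ∈ M then univ else ∅) a t = pv (I.Bk r a) t := by
  unfold P0.Hb
  simp only [if_neg ha, compl_empty, sum_empty, add_zero]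
  exact I.sum_ob hr a t

/-- The verification of the rounded solution. -/
lemma ca_ver {n k : ℕ} {I : Inst n} {r : ℕ} (hr : 2 ≤ r) (hn : 0 < n) (P : P0 I r k)
    (M : Finset (Fin n)) (Gs : Finset ℕ) (g Z1 ν V Bn F f τ : ℕ) (η Vn : ℝ) (a0 : Fin n)
    (hg : ∀ i, (P.G i).card = g) (hx : P.x0 = P.xb) (hτ : τ ≤ P.xb)
    (hM : ∀ a ∉ M, I.V r a ≤ V) (ha0 : a0 ∉ M) (hσ : ∀ j, P.σ j ≤ I.sig r a0 j)
    (hMc : M.card ≤ f) (hBn : r * V + 2 * ν ≤ Bn)
    (hq : (n : ℝ) - n / (4 * r) < (univ.filter fun a => I.T r a ≤ τ).card)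
    (hz : ∀ t ≤ I.m, (∃ g ∈ Gs, g ≤ t ∧ t ≤ g + 2 * Z1) ∨
      n ≤ 2 * (univ.filter fun a => Z1 < t - pv (I.Bk r a) t).card)
    (hZ : 0 < Z1) (h1 : 2 * r * (f + F) ≤ Z1) (h2 : 4 * (k * g + f) ≤ n)
    (h3 : 4 * (4 * r * F + 2 * ν) ≤ Z1) (BB CD : ℕ → ℕ) (nb : ℕ)
    (R : P.Rd (fun a => if a ∈ M then univ else ∅) True g (2 * Z1) 0 0 η Vn (2 * ν) BB CD nb) :
    P.Ok Gs (fun t => min t P.x0 + (t - P.x0) / (2 * r)) (2 * Z1) (2 * ν + 1) Bn F (1 - 1 / r)
      BB CD nb := by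
  have hr0 : 0 < r := by omega
  have hr' : (0 : ℝ) < r := by exact_mod_cast hr0
  have hn' : (0 : ℝ) < n := by exact_mod_cast hn
  have hZ' : (0 : ℝ) < Z1 := by exact_mod_cast hZ
  have hout := ca_out P hg
  have hK : (P.out.card : ℝ) + (k : ℝ) * g = n := by exact_mod_cast hout
  have hK0 : (0 : ℝ) ≤ (k : ℝ) * g := by positivity
  have hHt : ∀ a t, P.Hb (fun a => if a ∈ M then univ else ∅) a t ≤ t := by
    intro a t
    by_cases ha : a ∈ M
    · exact (ca_Hb_mem P M ha t).trans (min_le_left _ _)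
    · rw [ca_Hb_not hr P M ha]; exact pv_le _ _
  have hCD : ∀ t, (CD t : ℝ) ≤ f * ((t - P.x0 : ℕ) : ℝ) / Z1 := by
    intro t
    have h4 := R.r5 trivial t
    have h5 : (P.out.filter fun a =>
        ((fun a => if a ∈ M then (univ : Finset (Fin n)) else ∅) a).Nonempty).card ≤ f := by
      refine le_trans (card_le_card fun a ha => ?_) hMc
      by_contra hcon
      have := (mem_filter.1 ha).2
      simp [hcon] at this
    have h6 : ((P.out.filter fun a =>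
        ((fun a => if a ∈ M then (univ : Finset (Fin n)) else ∅) a).Nonempty).card : ℝ) ≤ f := by
      exact_mod_cast h5
    have h7 : (2 * ((t - P.x0 : ℕ) : ℝ) / ((2 * Z1 : ℕ) : ℝ)) = ((t - P.x0 : ℕ) : ℝ) / Z1 := by
      push_cast; field_simp
    rw [h7] at h4
    rw [mul_div_assoc]
    exact h4.trans (mul_le_mul_of_nonneg_right h6 (by positivity))
  refine ⟨?_, fun t ht => ?_, fun t ht => ?_⟩
  · have h4 := R.r3 trivial
    have h5 : ((univ.filter fun j => 0 < P.σ j).card : ℝ) ≤ r * V := by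
      have h6 : (univ.filter fun j => 0 < P.σ j).card ≤
          (univ.filter fun j => 0 < I.sig r a0 j).card :=
        card_le_card fun j hj => mem_filter.2 ⟨mem_univ _, (mem_filter.1 hj).2.trans_le (hσ j)⟩
      have h7 := I.card_sig_pos hr0 a0
      have h8 := mul_le_mul_of_nonneg_left (hM a0 ha0) hr'.le
      have h9 : ((univ.filter fun j => 0 < P.σ j).card : ℝ) ≤
          (univ.filter fun j => 0 < I.sig r a0 j).card := by exact_mod_cast h6
      linarith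
    have h6 := ca_avg hn P.out ∅ _ hK hK0 (fun a =>
      (((((fun a => if a ∈ M then (univ : Finset (Fin n)) else ∅) a)ᶜ.filter
        fun j => 0 < I.sig r a j).card : ℝ) +
        (((fun a => if a ∈ M then (univ : Finset (Fin n)) else ∅) a).filter
          fun j => 0 < P.σ j).card)) (r * V) _ 0 h5 (by
      intro a _
      by_cases ha : a ∈ M
      · simpa [ha] using h5
      · have h7 := I.card_sig_pos hr0 a
        have h8 := mul_le_mul_of_nonneg_left (hM a ha) hr'.le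
        simpa [ha] using h7.trans h8)
    have h7 : ((r * V + 2 * ν : ℕ) : ℝ) ≤ Bn := by exact_mod_cast hBn
    push_cast at h7
    have h8 : (nb : ℝ) ≤ Bn := by
      simp only [zero_mul, zero_div, add_zero] at h6
      linarith
    exact_mod_cast h8
  · have h4 := R.r1 t ht
    by_cases htx : t ≤ P.x0
    · have h5 := ca_avg hn P.out ∅ _ hK hK0 (fun a =>
        (P.Hb (fun a => if a ∈ M then univ else ∅) a t : ℝ)) t ((min t P.xb : ℕ) : ℝ) 0
        (by exact_mod_cast min_le_left _ _) (by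
          intro a _
          simpa using hHt a t)
      simp only [zero_mul, zero_div, add_zero] at h5
      have h6 : (BB t : ℝ) ≤ t + 2 * ν := by linarith
      have h7 : BB t ≤ t + 2 * ν := by exact_mod_cast h6
      simp only [min_eq_left htx]
      exact h7.trans (Nat.add_le_add (Nat.le_add_right _ _) (Nat.le_succ _))
    · have hxt : P.xb ≤ t := by omega
      set x : ℕ := t - P.x0 with hxdef
      have hxe : (t : ℝ) = P.xb + x := by
        have : t = P.xb + x := by omega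
        exact_mod_cast this
      have h5 := ca_avg hn P.out (univ.filter fun a => ¬ I.T r a ≤ τ) _ hK hK0 (fun a =>
        (P.Hb (fun a => if a ∈ M then univ else ∅) a t : ℝ)) P.xb ((min t P.xb : ℕ) : ℝ) x
        (by exact_mod_cast min_le_right _ _) (by
          intro a _
          by_cases hT : I.T r a ≤ τ
          · rw [if_neg (by simp [hT]), add_zero]
            by_cases ha : a ∈ M
            · exact_mod_cast (ca_Hb_mem P M ha t).trans (min_le_right _ _)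
            · rw [ca_Hb_not hr P M ha]
              exact_mod_cast ((I.pv_Bk_le hr a t).trans hT).trans hτ
          · rw [if_pos (by simpa using hT), ← hxe]
            exact_mod_cast hHt a t)
      have h6 : (P.out.filter (· ∈ univ.filter fun a => ¬ I.T r a ≤ τ)).card ≤
          (univ.filter fun a => ¬ I.T r a ≤ τ).card :=
        card_le_card fun a ha => (mem_filter.1 ha).2
      have h7 := Finset.card_filter_add_card_filter_not (s := (univ : Finset (Fin n)))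
        (fun a => I.T r a ≤ τ)
      rw [card_univ, Fintype.card_fin] at h7
      have h8 : ((univ.filter fun a => I.T r a ≤ τ).card : ℝ) +
          (univ.filter fun a => ¬ I.T r a ≤ τ).card = n := by exact_mod_cast h7
      have h9 : ((P.out.filter (· ∈ univ.filter fun a => ¬ I.T r a ≤ τ)).card : ℝ) ≤
          n / (4 * r) := by
        have : ((P.out.filter (· ∈ univ.filter fun a => ¬ I.T r a ≤ τ)).card : ℝ) ≤
          (univ.filter fun a => ¬ I.T r a ≤ τ).card := by exact_mod_cast h6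
        linarith
      have h10 : (x : ℝ) * (P.out.filter (· ∈ univ.filter fun a => ¬ I.T r a ≤ τ)).card / n ≤
          x / (2 * r) := by
        calc _ ≤ (x : ℝ) * (n / (4 * r)) / n := by gcongr
          _ = x / (4 * r) := by field_simp
          _ ≤ x / (2 * r) := by gcongr; norm_num
      have h11 : (x : ℝ) / (2 * r) < ((x / (2 * r) : ℕ) : ℝ) + 1 := by
        have h12 : x < (x / (2 * r) + 1) * (2 * r) := by
          rw [mul_comm]; exact Nat.lt_mul_div_succ x (by omega)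
        have h13 : (x : ℝ) < (((x / (2 * r) : ℕ) : ℝ) + 1) * (2 * r) := by exact_mod_cast h12
        rwa [div_lt_iff₀ (by positivity)]
      have h12 : (BB t : ℝ) ≤ P.xb + ((x / (2 * r) : ℕ) : ℝ) + (2 * ν + 1) := by linarith
      have h13 : BB t ≤ P.xb + x / (2 * r) + (2 * ν + 1) := by exact_mod_cast h12
      have h14 : min t P.x0 = P.xb := by rw [min_eq_right (by omega), hx]
      show BB t ≤ min t P.x0 + x / (2 * r) + (2 * ν + 1)
      rw [h14]
      exact h13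
  · have hc := hCD t
    by_cases htx : P.x0 ≤ t
    · left
      refine ⟨Or.inr (by omega), ?_⟩
      set x : ℕ := t - P.x0 with hxdef
      have hxe : (t : ℝ) = P.x0 + x := by
        have : t = P.x0 + x := by omega
        exact_mod_cast this
      have h4 : ((x / (2 * r) : ℕ) : ℝ) ≤ x / (2 * r) := by
        have := Nat.cast_div_le (α := ℝ) (m := x) (n := 2 * r)
        push_cast at this
        exact this
      have h5 : (2 * r * (f + F) : ℝ) ≤ Z1 := by exact_mod_cast h1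
      have h6 : ((f : ℝ) + F) / Z1 ≤ 1 / (2 * r) := by
        rw [div_le_div_iff₀ hZ' (by positivity)]; linarith
      have h7 : ((f : ℝ) + F) / Z1 * x ≤ 1 / (2 * r) * x :=
        mul_le_mul_of_nonneg_right h6 (by positivity)
      have h8 : (f : ℝ) * x / Z1 + (1 - 1 / r + 2 * F / ((2 * Z1 : ℕ) : ℝ)) * x =
          ((f : ℝ) + F) / Z1 * x + x - 2 * (1 / (2 * r) * x) := by
        push_cast; field_simp; ring
      have h9 : (x : ℝ) / (2 * r) = 1 / (2 * r) * x := by ring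
      simp only [min_eq_right htx]
      rw [Nat.cast_add]
      linarith
    · have hx0 : t - P.x0 = 0 := by omega
      have htm : min t P.x0 = t := min_eq_left (by omega)
      simp only [hx0, Nat.cast_zero, mul_zero, zero_div, add_zero, htm, Nat.zero_div] at hc ⊢
      rcases hz t ht with hz1 | hz1
      · left
        exact ⟨Or.inl hz1, by linarith⟩
      · right
        have h4 := R.r1 t ht
        set S := (univ.filter fun a => Z1 < t - pv (I.Bk r a) t) \ M with hS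
        have h5 := ca_avg hn P.out S _ hK hK0 (fun a =>
          (P.Hb (fun a => if a ∈ M then univ else ∅) a t : ℝ)) t ((min t P.xb : ℕ) : ℝ) (-Z1)
          (by exact_mod_cast min_le_left _ _) (by
            intro a _
            by_cases ha : a ∈ S
            · rw [if_pos ha]
              obtain ⟨h6, h7⟩ := mem_sdiff.1 ha
              have h8 := (mem_filter.1 h6).2
              rw [ca_Hb_not hr P M h7]
              have h9 : pv (I.Bk r a) t + Z1 ≤ t := by omega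
              have h10 : (pv (I.Bk r a) t : ℝ) + Z1 ≤ t := by exact_mod_cast h9
              linarith
            · rw [if_neg ha, add_zero]
              exact_mod_cast hHt a t)
        have h6 : (univ.filter fun a => Z1 < t - pv (I.Bk r a) t) ⊆
            P.out.filter (· ∈ S) ∪ (P.outᶜ ∪ M) := by
          intro a ha
          by_cases h7 : a ∈ M
          · simp [h7]
          · by_cases h8 : a ∈ P.out
            · exact mem_union_left _ (mem_filter.2 ⟨h8, mem_sdiff.2 ⟨ha, h7⟩⟩)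
            · simp [h8]
        have h7 := (card_le_card h6).trans ((card_union_le _ _).trans
          (Nat.add_le_add_left (card_union_le _ _) _))
        have h8 := card_compl_add_card P.out
        rw [Fintype.card_fin] at h8
        have h9 : n ≤ 4 * (P.out.filter (· ∈ S)).card := by omega
        have h10 : (n : ℝ) ≤ 4 * (P.out.filter (· ∈ S)).card := by exact_mod_cast h9
        have h11 : -(Z1 : ℝ) * (P.out.filter (· ∈ S)).card / n ≤ -Z1 / 4 := by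
          rw [div_le_iff₀ hn']
          nlinarith
        have h12 : (4 * (4 * r * F + 2 * ν) : ℝ) ≤ Z1 := by exact_mod_cast h3
        linarith

lemma ca_FF {q R D Bn l Λ ν x : ℕ} (hl : ell q R ≤ l) (hlΛ : l ≤ Λ) (hΛ : Λ ≤ ν) (hν : ν ≤ x)
    (hD : D = 2 * ν + 1) (hB : Bn = x) (h1 : 1 ≤ Λ) (hq : q + 1 ≤ Λ) (hR : 9 + 4 * R ≤ Λ) :
    FF q R D Bn ≤ Λ * (Λ * x) := by
  subst hD hB
  unfold FF
  have h2 : ell q R ≤ Λ := hl.trans hlΛ
  have h3 : R * ell q R ≤ R * Bn := Nat.mul_le_mul_left _ (by omega)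
  have h4 : 2 * ν + 1 + R * ell q R + R * Bn + 1 ≤ (4 + 2 * R) * Bn := by nlinarith
  have h5 : 2 * ell q R * (2 * ν + 1 + R * ell q R + R * Bn + 1) ≤
      2 * Λ * ((4 + 2 * R) * Bn) := Nat.mul_le_mul (by omega) h4
  have h6 : Bn + q ≤ Λ * Bn := by nlinarith
  have h7 : (9 + 4 * R) * (Λ * Bn) ≤ Λ * (Λ * Bn) := Nat.mul_le_mul_right _ hR
  nlinarith

lemma ca_X {Λ : ℕ} (ν : ℕ) {c : ℕ} (e e' : ℕ) (h1 : 1 ≤ Λ) (hc : c ≤ Λ) (he : e < e') :
    c * (Λ ^ e * ν) ≤ Λ ^ e' * ν := by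
  calc c * (Λ ^ e * ν) ≤ Λ * (Λ ^ e * ν) := Nat.mul_le_mul_right _ hc
    _ = Λ ^ (e + 1) * ν := by ring
    _ ≤ _ := Nat.mul_le_mul_right _ (Nat.pow_le_pow_right h1 he)

lemma ca_base {r k Λ : ℕ} (hr : 2 ≤ r) (hk : 1 ≤ k) (hpoly : 4096 * r ^ 4 * k ^ 2 ≤ Λ) :
    64 * r ≤ Λ ∧ 64 * k ≤ Λ ∧ 24 * (r ^ 2 * k) ≤ Λ ∧ 4 * r * (5 * k ^ 2) ≤ Λ ∧
      18 * (2 * r + 1) ^ 2 ≤ Λ := by
  have hr2 : 4 ≤ r ^ 2 := by nlinarith
  have hrr : r ≤ r ^ 2 := by nlinarith
  have hkk : k ≤ k ^ 2 := by nlinarith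
  have hA : 4096 * (r ^ 2 * k ^ 2) * 4 ≤ Λ := by
    calc _ ≤ 4096 * (r ^ 2 * k ^ 2) * r ^ 2 := Nat.mul_le_mul_left _ hr2
      _ = 4096 * r ^ 4 * k ^ 2 := by ring
      _ ≤ Λ := hpoly
  have hA1 : r ^ 2 * k ≤ r ^ 2 * k ^ 2 := Nat.mul_le_mul_left _ hkk
  have hA2 : r * k ^ 2 ≤ r ^ 2 * k ^ 2 := Nat.mul_le_mul_right _ hrr
  have hA3 : r ^ 2 ≤ r ^ 2 * k := Nat.le_mul_of_pos_right _ hk
  have hA4 : k ≤ r ^ 2 * k := Nat.le_mul_of_pos_left _ (by omega)
  have hA5 : 4 * r * (5 * k ^ 2) = 20 * (r * k ^ 2) := by ring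
  have hA6 : 18 * (2 * r + 1) ^ 2 = 72 * r ^ 2 + 72 * r + 18 := by ring
  refine ⟨by linarith, by linarith, by linarith, by linarith, by linarith⟩

lemma ca_N {r k G x4 x8 x9 n a b m : ℕ} (hr : 1 ≤ r) (hk : 1 ≤ k) (h1 : G * x8 ≤ x9)
    (h2 : 4 * r * (5 * k ^ 2) * x9 ≤ n) (h3 : n ≤ 4 * r * a) (h4 : a - m ≤ b) (h5 : m ≤ x4)
    (h6 : x4 ≤ x9) : 4 * k ^ 2 * G * x8 ≤ b := by
  have h7 : 4 * k ^ 2 * G * x8 ≤ 4 * k ^ 2 * x9 := by
    rw [mul_assoc (4 * k ^ 2)]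
    exact Nat.mul_le_mul_left _ h1
  have h8 : 4 * r * (5 * k ^ 2 * x9) ≤ 4 * r * a := by
    calc _ = 4 * r * (5 * k ^ 2) * x9 := by ring
      _ ≤ _ := h2.trans h3
  have h9 := Nat.le_of_mul_le_mul_left h8 (by omega)
  have h10 : x9 ≤ k ^ 2 * x9 := Nat.le_mul_of_pos_left _ (by positivity)
  have h11 : 5 * k ^ 2 * x9 = 4 * k ^ 2 * x9 + k ^ 2 * x9 := by ring
  omega

lemma ca_cls {r k c n : ℕ} (hr : 1 ≤ r) (h : 64 * r ^ 3 * k * c ≤ 2 * r * n) :
    32 * (r ^ 2 * k * c) ≤ n := by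
  have h1 : 2 * r * (32 * (r ^ 2 * k * c)) ≤ 2 * r * n := by
    calc _ = 64 * r ^ 3 * k * c := by ring
      _ ≤ _ := h
  exact Nat.le_of_mul_le_mul_left h1 (by omega)

lemma ca_mim {r k c n y G x8 x9 : ℕ} (hr : 2 ≤ r) (hk : 1 ≤ k) (hc : 32 * (r ^ 2 * k * c) ≤ n)
    (h1 : y ≤ x8) (hG : G ≤ 2 * k) (h7 : 24 * (r ^ 2 * k) * x8 ≤ x9) (h9 : 2 * x9 ≤ n) :
    r * (2 * r + 2) * (x8 + (c + y) + (G + 1) * (2 * x8)) ≤ n := by
  have h2 : (G + 1) * (2 * x8) ≤ (2 * k + 1) * (2 * x8) := Nat.mul_le_mul_right _ (by omega)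
  have h3 : x8 ≤ k * x8 := Nat.le_mul_of_pos_left _ hk
  have h4 : x8 + (c + y) + (G + 1) * (2 * x8) ≤ c + 8 * (k * x8) := by nlinarith
  have h5 : r * (2 * r + 2) ≤ 3 * r ^ 2 := by nlinarith
  have h6 := Nat.mul_le_mul h5 h4
  have h8 : r ^ 2 * c ≤ r ^ 2 * k * c := Nat.mul_le_mul_right _ (Nat.le_mul_of_pos_right _ hk)
  have h10 : 3 * r ^ 2 * (c + 8 * (k * x8)) = 3 * (r ^ 2 * c) + 24 * (r ^ 2 * k) * x8 := by ring
  linarith

lemma ca_h3 {r k c n y x3 x4 x8 : ℕ} (hr : 1 ≤ r) (hc : 32 * (r ^ 2 * k * c) ≤ n)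
    (h1 : y * x3 ≤ x4) (h2 : 8 * x4 ≤ x8) (h8 : 0 < x8) (hn : 0 < n) :
    k * x8 * c + (x4 + y * (2 * x3)) * n < x8 * n := by
  have h3 : y * (2 * x3) = 2 * (y * x3) := by ring
  have h4 : 8 * (x4 + y * (2 * x3)) ≤ 3 * x8 := by omega
  have h5 := Nat.mul_le_mul_right n h4
  have h6 : k * c ≤ r ^ 2 * k * c :=
    Nat.mul_le_mul_right _ (Nat.le_mul_of_pos_left _ (by positivity))
  have h7 : 32 * (k * c) ≤ n := by omega
  have h9 := Nat.mul_le_mul_left x8 h7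
  have h10 : 0 < x8 * n := Nat.mul_pos h8 hn
  nlinarith

lemma ca_om {n ν L E : ℝ} (hν : 0 < ν) (h4 : 18 * E ^ 2 * L ≤ ν) (h5 : 1 ≤ L)
    (h6 : n ≤ 2 * (L * ν)) (h7 : 1 ≤ E) : ν + 6 * (n * E / ν + 1) * E ≤ 2 * ν := by
  have h8 : n * E / ν ≤ 2 * L * E := by
    rw [div_le_iff₀ hν]
    nlinarith
  have h9 : 1 ≤ L * E := by nlinarith
  have h10 : 6 * (n * E / ν + 1) * E ≤ 6 * (3 * (L * E)) * E :=
    mul_le_mul_of_nonneg_right (by linarith) (by linarith)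
  nlinarith

lemma ca_hf {n : ℕ} (out M : Finset (Fin n)) {f : ℕ} (h : M.card ≤ f) :
    ∑ a ∈ out, ((fun a => if a ∈ M then (univ : Finset (Fin n)) else ∅) a).card ≤ f * n := by
  calc ∑ a ∈ out, ((fun a => if a ∈ M then (univ : Finset (Fin n)) else ∅) a).card
      ≤ ∑ a, ((fun a => if a ∈ M then (univ : Finset (Fin n)) else ∅) a).card :=
        sum_le_sum_of_subset (subset_univ _)
    _ = ∑ a, if a ∈ M then n else 0 := by
        refine sum_congr rfl fun a _ => ?_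
        by_cases ha : a ∈ M <;> simp [ha]
    _ = M.card * n := by
        rw [← sum_filter, sum_const, smul_eq_mul]; simp
    _ ≤ f * n := Nat.mul_le_mul_right _ h

lemma ca_quant {n r : ℕ} (hn : 0 < n) (hr : 1 ≤ r) (f : Fin n → ℕ) :
    ∃ τ, n ≤ 4 * r * (univ.filter fun a => τ ≤ f a).card ∧
      (n : ℝ) - n / (4 * r) < (univ.filter fun a => f a ≤ τ).card := by
  have hn' : (0 : ℝ) < n := by exact_mod_cast hn
  have hr1' : (1 : ℝ) ≤ r := by exact_mod_cast hr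
  obtain ⟨τ, hτ1, hτ2⟩ := quantile (univ : Finset (Fin n)) f (y := n / (4 * r))
    (by positivity) (by
      rw [card_univ, Fintype.card_fin, div_le_iff₀ (by positivity)]
      nlinarith)
  rw [card_univ, Fintype.card_fin] at hτ2
  refine ⟨τ, ?_, hτ2⟩
  rw [div_le_iff₀ (by positivity)] at hτ1
  have : (n : ℝ) ≤ 4 * r * (univ.filter fun a => τ ≤ f a).card := by linarith
  exact_mod_cast this

lemma ca_Q {r k : ℕ} (hr : 1 ≤ r) (hk : 1 ≤ k) : 2 * r ^ 2 ≤ 64 * r ^ 3 * k := by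
  have h1 : r ^ 2 * 1 ≤ r ^ 2 * (r * k) := Nat.mul_le_mul_left _ (Nat.mul_pos hr hk)
  have h2 : 64 * r ^ 3 * k = 64 * (r ^ 2 * (r * k)) := by ring
  omega

lemma ca_lin {a b c x y z : ℕ} (h : c * y ≤ z) (hx : x ≤ y) (hc : a + b ≤ c) :
    a * y + b * x ≤ z := by
  have h1 := Nat.mul_le_mul_left b hx
  have h2 := Nat.mul_le_mul_right y hc
  rw [add_mul] at h2
  omega

theorem caseA {r n Λ ν : ℕ} (p : Par r n Λ ν) (I : Inst n)
    (h : (univ.filter fun a => ((Λ ^ 60 * ν : ℕ) : ℝ) ≤ I.V r a).card ≤ Λ ^ 64 * ν) :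
    I.Solv (1 - 6 / r) := by
  have hr := p.hr
  have hr1 : 1 ≤ r := by omega
  have hk1 : 1 ≤ dd r + 1 := by omega
  obtain ⟨b1, b2, b3, b4, b5⟩ := ca_base hr hk1 p.poly
  have hΛ : 128 ≤ Λ := by omega
  have hΛ1 : 1 ≤ Λ := by omega
  have hΛν : Λ ≤ ν := by
    calc Λ = Λ ^ 1 := (pow_one _).symm
      _ ≤ Λ ^ 123 := Nat.pow_le_pow_right hΛ1 (by norm_num)
      _ ≤ ν := p.big
  have hν1 : 1 ≤ ν := hΛ1.trans hΛν
  have hν : ∀ e, ν ≤ Λ ^ e * ν := fun e => Nat.le_mul_of_pos_left _ (Nat.one_le_pow _ _ hΛ1)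
  have hpos : ∀ e, 0 < Λ ^ e * ν := fun e => hν1.trans (hν e)
  have hmono : ∀ e e', e ≤ e' → Λ ^ e * ν ≤ Λ ^ e' * ν := fun e e' he =>
    Nat.mul_le_mul_right _ (Nat.pow_le_pow_right hΛ1 he)
  have hc : ∀ c, c ≤ 128 → c ≤ Λ := fun c hc => hc.trans hΛ
  have hn : 0 < n := (hpos 70).trans_le p.lo
  have hn' : (0 : ℝ) < n := by exact_mod_cast hn
  have hν' : (0 : ℝ) < ν := by exact_mod_cast hν1
  set M := univ.filter fun a => ((Λ ^ 60 * ν : ℕ) : ℝ) ≤ I.V r a with hM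
  obtain ⟨Gs, hGs, hz⟩ := zones (I.Bk r) (dd r + 1) (fun a => I.card_Bk a)
    (fun a => I.zero_mem_Bk a) (Λ ^ 68 * ν) I.m
  obtain ⟨τ, hτ1, hτ2⟩ := ca_quant hn hr1 (I.T r)
  obtain ⟨P, a0, ha0, hG, hGsB, hBc, hT0, hx0, hσ, hcls⟩ :=
    mkP0 I hr ((univ.filter fun a => τ ≤ I.T r a) \ M) Gs 0 0 (64 * r ^ 3 * (dd r + 1))
      (Λ ^ 68 * ν) (ca_Q hr1 hk1) (hpos 68)
      (fun a _ => ⟨Nat.zero_le _, by simpa using I.V_nonneg r a⟩)
      (ca_N hr1 hk1 (ca_X ν 68 69 hΛ1 p.hGC (by norm_num))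
        ((ca_X ν 69 70 hΛ1 b4 (by norm_num)).trans p.lo) hτ1 (le_card_sdiff M _) h
        (hmono 64 69 (by norm_num)))
  have hx : P.x0 = P.xb := by rw [hx0]; simp
  obtain ⟨ha1, ha2⟩ := mem_sdiff.1 ha0
  have hτx : τ ≤ P.xb := (mem_filter.1 ha1).2.trans hT0
  have hc1 := ca_cls hr1 hcls
  refine core I hr hn hk1 P Gs hGsB (4 * (dd r + 1) + 2) (Λ ^ 68 * ν) (2 * (Λ ^ 68 * ν)) 0
    (Λ ^ 68 * ν) (Λ ^ 67 * ν) (Λ ^ 64 * ν) (2 * ν + 1) (Λ ^ 61 * ν) (Λ ^ 63 * ν) 0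
    (2 * r + 1) ν (2 * ν) n (1 - 1 / r) True
    (fun a => if a ∈ M then univ else ∅) (fun t => min t P.x0 + (t - P.x0) / (2 * r))
    (by linarith) (fun i => (hG i).2) ?_ (Nat.mul_pos two_pos (hpos 68))
    ((ca_X ν 68 70 hΛ1 (hc 2 (by norm_num)) (by norm_num)).trans p.lo) (hpos 68) (hpos 67) hν'
    ?_ (ca_hf _ _ h) ?_ ?_
    (ca_h3 hr1 hc1 (ca_X ν 63 64 hΛ1 p.hPi (by norm_num))
      (ca_X ν 64 68 hΛ1 (hc 8 (by norm_num)) (by norm_num)) (hpos 68) hn)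
    (fun h => absurd trivial h) (fun h => absurd trivial h) hn' le_rfl
    (by simp) ?_ ?_ ?_ ?_
  · have e : Λ ^ 63 * ν = Λ * (Λ * (Λ ^ 61 * ν)) := by ring
    rw [e]
    exact ca_FF le_rfl p.hell hΛν (hν 61) rfl rfl hΛ1 (by linarith) (by linarith)
  · rw [hx, Nat.sub_self, mul_zero, add_zero]
    exact ca_mim hr hk1 hc1 (ca_X ν 67 68 hΛ1 p.hPi (by norm_num)) hGs
      (ca_X ν 68 69 hΛ1 b3 (by norm_num))
      ((ca_X ν 69 70 hΛ1 (hc 2 (by norm_num)) (by norm_num)).trans p.lo)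
  · calc 2 * (Λ ^ 64 * ν) * n ≤ 2 * (Λ ^ 64 * ν) * (2 * (Λ ^ 70 * ν)) := Nat.mul_le_mul_left _ p.hi
      _ = 4 * (Λ ^ 66 * ν) * (Λ ^ 68 * ν) := by ring
      _ ≤ (Λ ^ 68 * ν) * (Λ ^ 68 * ν) :=
        Nat.mul_le_mul_right _ (ca_X ν 66 68 hΛ1 (hc 4 (by norm_num)) (by norm_num))
      _ ≤ _ := Nat.mul_le_mul_right _ (Nat.le_mul_of_pos_left _ hk1)
  · calc 4 * (Λ ^ 63 * ν) * n ≤ 4 * (Λ ^ 63 * ν) * (2 * (Λ ^ 70 * ν)) := Nat.mul_le_mul_left _ p.hi
      _ = (Λ ^ 68 * ν) * (8 * (Λ ^ 65 * ν)) := by ring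
      _ ≤ _ := Nat.mul_le_mul_left _ (ca_X ν 65 67 hΛ1 (hc 8 (by norm_num)) (by norm_num))
  · have h1 : 18 * (2 * r + 1) ^ 2 * Λ ^ 70 ≤ ν := by
      calc _ ≤ Λ * Λ ^ 70 := Nat.mul_le_mul_right _ b5
        _ = Λ ^ 71 := by ring
        _ ≤ Λ ^ 123 := Nat.pow_le_pow_right hΛ1 (by norm_num)
        _ ≤ ν := p.big
    have h2 : 1 ≤ Λ ^ 70 := Nat.one_le_pow _ _ hΛ1
    refine ca_om (L := ((Λ ^ 70 : ℕ) : ℝ)) hν' (by exact_mod_cast h1) (by exact_mod_cast h2)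
      (by exact_mod_cast p.hi) ?_
    have : (0 : ℝ) ≤ r := Nat.cast_nonneg _
    linarith
  · intro A _
    calc ∑ j ∈ A, P.σ j ≤ ∑ j, P.σ j :=
          sum_le_sum_of_subset_of_nonneg (subset_univ _) fun j _ _ => P.hσ j
      _ ≤ ∑ j, I.sig r a0 j := sum_le_sum fun j _ => hσ j
      _ ≤ _ := I.sum_sig hr1 a0
  · intro t _
    rw [← hx]
    exact Nat.le_add_right _ _
  · intro BB CD nb R
    refine ca_ver hr hn P M Gs _ (Λ ^ 68 * ν) ν (Λ ^ 60 * ν) _ _ (Λ ^ 64 * ν) τ _ _ a0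
      (fun i => (hG i).2) hx hτx (fun a ha => ?_) ha2 hσ h ?_ hτ2 hz (hpos 68) ?_ ?_ ?_ BB CD nb R
    · by_contra hcon
      exact ha (mem_filter.2 ⟨mem_univ _, (not_le.1 hcon).le⟩)
    · exact ca_lin (ca_X ν 60 61 hΛ1 le_rfl (by norm_num)) (hν 60) (by linarith)
    · rw [mul_add]
      exact ca_lin (ca_X ν 64 68 hΛ1 le_rfl (by norm_num)) (hmono 63 64 (by norm_num))
        (by linarith)
    · rw [mul_add, ← mul_assoc]
      exact (ca_lin (ca_X ν 68 70 hΛ1 le_rfl (by norm_num)) (hmono 64 68 (by norm_num))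
        (by linarith)).trans p.lo
    · rw [mul_add, ← mul_assoc, ← mul_assoc 4 2]
      exact ca_lin (ca_X ν 63 68 hΛ1 le_rfl (by norm_num)) (hν 63) (by linarith)

end Pool.Agent.Lib.MP_5049a2_lc.TR
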