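import Pool.Agent.Lib.MP_5049a2_lc.TRCore
import Pool.Agent.Lib.MP_5049a2_lc.TRP0

/-! Many agents have many small items. -/

namespace Pool.Agent.Lib.MP_5049a2_lc.TR

open Finset

lemma cb_sum {n : ℕ} (out S : Finset (Fin n)) (c : Fin n → ℝ) (y u : ℝ)
    (h : ∀ a ∈ out, c a ≤ y + if a ∈ S then u else 0) :
    ∑ a ∈ out, c a ≤ out.card * y + (out.filter (· ∈ S)).card * u := by
  have h1 : ∑ a ∈ out, c a ≤ ∑ a ∈ out, (y + if a ∈ S then u else 0) := sum_le_sum h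
  rwa [sum_add_distrib, ← sum_filter, sum_const, sum_const, nsmul_eq_mul, nsmul_eq_mul] at h1

lemma cb_out {n k : ℕ} {I : Inst n} {r : ℕ} (P : P0 I r k) {g : ℕ} (hg : ∀ i, (P.G i).card = g) :
    P.out.card + k * g = n := by
  have h1 : (univ.biUnion P.G).card = k * g := by
    rw [card_biUnion fun i _ j _ hij => P.disj i j hij]
    simp [hg]
  have h2 := card_compl_add_card (univ.biUnion P.G)
  rw [h1, Fintype.card_fin] at h2
  exact h2

lemma cb_u0_le {n k : ℕ} {I : Inst n} {r : ℕ} (P : P0 I r k) (j : Fin n) (t : ℕ) :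
    P.u0 j t ≤ 2 * r := (cnt_le _ _ _ _).trans (P.hR j)

lemma cb_sum_u0 {n k : ℕ} {I : Inst n} {r : ℕ} (P : P0 I r k) (t : ℕ) :
    ∑ j, P.u0 j t ≤ min t P.xb := by
  unfold P0.u0
  rw [sum_cnt]
  exact min_le_min_right _ (pv_le _ _)

lemma cb_Hb_univ {n k : ℕ} {I : Inst n} {r : ℕ} (P : P0 I r k) {H : Fin n → Finset (Fin n)}
    {a : Fin n} (ha : H a = univ) (t : ℕ) : P.Hb H a t ≤ min t P.xb := by
  unfold P0.Hb
  rw [ha, compl_univ, sum_empty, zero_add]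
  exact cb_sum_u0 P t

lemma cb_Hb_le {n k : ℕ} {I : Inst n} {r : ℕ} (hr : 2 ≤ r) (P : P0 I r k)
    (H : Fin n → Finset (Fin n)) (a : Fin n) (t : ℕ) :
    P.Hb H a t ≤ pv (I.Bk r a) t + (H a).card * (2 * r) := by
  unfold P0.Hb
  refine Nat.add_le_add ?_ ?_
  · rw [← I.sum_ob hr a t]
    exact sum_le_sum_of_subset (subset_univ _)
  · exact sum_le_card_nsmul _ _ _ fun j _ => cb_u0_le P j t

/-- The three kinds of agents. -/
def cbKind {n k : ℕ} {I : Inst n} {r : ℕ} (P : P0 I r k) (H : Fin n → Finset (Fin n))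
    (M Pv : Finset (Fin n)) (W θ c : ℕ) (δ : ℝ) (a : Fin n) : Prop :=
  (a ∈ M ∧ a ∉ Pv ∧ H a = univ) ∨ (a ∉ M ∧ H a = ∅ ∧ θ ≤ I.T r a + W) ∨
    (a ∉ M ∧ a ∉ Pv ∧ (∀ j ∉ H a, I.sig r a j = 0) ∧ (H a).card ≤ c ∧ ∑ j ∈ H a, P.σ j ≤ δ ∧
      ∀ t ≤ I.m, P.Hb H a t ≤ t)

lemma cb_Ht {n k : ℕ} {I : Inst n} {r : ℕ} (hr : 2 ≤ r) {P : P0 I r k}
    {H : Fin n → Finset (Fin n)} {M Pv : Finset (Fin n)} {W θ c : ℕ} {δ : ℝ} {a : Fin n}
    (h : cbKind P H M Pv W θ c δ a) {t : ℕ} (ht : t ≤ I.m) : P.Hb H a t ≤ t := by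
  rcases h with ⟨-, -, h⟩ | ⟨-, h, -⟩ | ⟨-, -, -, -, -, h⟩
  · exact (cb_Hb_univ P h t).trans (min_le_left _ _)
  · have h1 := cb_Hb_le hr P H a t
    rw [h, card_empty, zero_mul, add_zero] at h1
    exact h1.trans (pv_le _ _)
  · exact h t ht

lemma cb_min {xb x0 : ℕ} (h : xb ≤ x0) (t : ℕ) :
    ((min t xb : ℕ) : ℝ) + ((t - x0 : ℕ) : ℝ) ≤ t := by
  have : min t xb + (t - x0) ≤ t := by omega
  exact_mod_cast this

/-- The demand of one agent in the middle range. -/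
lemma cb_mid {n k : ℕ} {I : Inst n} {r : ℕ} (hr : 2 ≤ r) {P : P0 I r k}
    {H : Fin n → Finset (Fin n)} {M Pv : Finset (Fin n)} {W W' θ c : ℕ} {δ : ℝ} {a : Fin n}
    (h : cbKind P H M Pv W θ c δ a) (hδ : 0 ≤ δ) (hσ : ∑ j, P.σ j ≤ 1 - 1 / (r : ℝ))
    (hW : W' ≤ W) (hPv : a ∈ Pv → I.T r a + W' ≤ θ) {t : ℕ} (ht : t ≤ I.m) (hθ : θ ≤ t) :
    (P.Hb H a t : ℝ) + (∑ j ∈ (H a)ᶜ, I.sig r a j) * ((t - (I.T r a + W) : ℕ) : ℝ) +
      (∑ j ∈ H a, P.σ j) * ((t - P.x0 : ℕ) : ℝ) ≤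
        (t + δ * ((t - P.x0 : ℕ) : ℝ)) + if a ∈ Pv then -(W' : ℝ) else 0 := by
  have hr0 : 0 < r := by omega
  have h1r : (0 : ℝ) ≤ 1 / r := by positivity
  have hx0 : (0 : ℝ) ≤ ((t - P.x0 : ℕ) : ℝ) := Nat.cast_nonneg _
  have hδx := mul_nonneg hδ hx0
  rcases h with ⟨-, h1, h2⟩ | ⟨-, h2, -⟩ | ⟨-, h1, h2, -, h3, h4⟩
  · have h3 : (P.Hb H a t : ℝ) ≤ ((min t P.xb : ℕ) : ℝ) := by exact_mod_cast cb_Hb_univ P h2 t
    have h4 := cb_min P.hx t
    have h5 := mul_le_mul_of_nonneg_right (hσ.trans (sub_le_self _ h1r)) hx0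
    rw [if_neg h1, h2, compl_univ, sum_empty]
    linarith
  · have h3 := cb_Hb_le hr P H a t
    rw [h2, card_empty, zero_mul, add_zero] at h3
    have h4 := h3.trans (pv_le _ _)
    have h5 := h3.trans (I.pv_Bk_le hr a t)
    have h6 := mul_le_mul_of_nonneg_right ((I.sum_sig hr0 a).trans (sub_le_self _ h1r))
      (Nat.cast_nonneg (α := ℝ) (t - (I.T r a + W)))
    rw [h2, compl_empty, sum_empty]
    split_ifs with h7
    · have h8 := hPv h7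
      have h9 : P.Hb H a t + (t - (I.T r a + W)) + W' ≤ t := by omega
      have h10 : (P.Hb H a t : ℝ) + ((t - (I.T r a + W) : ℕ) : ℝ) + W' ≤ t := by exact_mod_cast h9
      linarith
    · have h9 : P.Hb H a t + (t - (I.T r a + W)) ≤ t := by omega
      have h10 : (P.Hb H a t : ℝ) + ((t - (I.T r a + W) : ℕ) : ℝ) ≤ t := by exact_mod_cast h9
      linarith
  · have h5 : (P.Hb H a t : ℝ) ≤ t := by exact_mod_cast h4 t ht
    have h6 := mul_le_mul_of_nonneg_right h3 hx0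
    rw [if_neg h1, sum_eq_zero fun j hj => h2 j (mem_compl.1 hj)]
    linarith

/-- The verification of the rounded solution. -/
lemma cb_ver {n k : ℕ} {I : Inst n} {r : ℕ} (hr : 2 ≤ r) (hn : 0 < n) (P : P0 I r k)
    (H : Fin n → Finset (Fin n)) (M Pv : Finset (Fin n)) (Gs : Finset ℕ)
    (g Z1 W W' θ c F D : ℕ) (η Vn ω sJ δ : ℝ) (hg : ∀ i, (P.G i).card = g) (hθ : θ ≤ P.x0)
    (hk : ∀ a, cbKind P H M Pv W θ c δ a) (hδ : 0 ≤ δ) (hσ : ∑ j, P.σ j ≤ 1 - 1 / (r : ℝ))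
    (hW : W' ≤ W) (hPv : ∀ a ∈ Pv, I.T r a + W' ≤ θ) (hPo : Pv ⊆ P.out)
    (hz : ∀ t ≤ I.m, (∃ g ∈ Gs, g ≤ t ∧ t ≤ g + 2 * Z1) ∨
      n ≤ 2 * (univ.filter fun a => Z1 < t - pv (I.Bk r a) t).card)
    (hD : ω ≤ D) (hω : 0 ≤ ω) (n0 : 0 ≤ sJ + 2 * F / ((2 * Z1 : ℕ) : ℝ))
    (n1 : 4 * (k * g + M.card) ≤ n) (n2 : 4 * (ω + 4 * r * F) + c * (2 * r) ≤ Z1)
    (n3 : (ω + 4 * r * F) * n ≤ Pv.card * W')
    (n4 : (δ + η + (sJ + 2 * F / ((2 * Z1 : ℕ) : ℝ))) * n ≤ k * g / r)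
    (n5 : η + ω / Vn + (sJ + 2 * F / ((2 * Z1 : ℕ) : ℝ)) ≤ 1 / (2 * r)) (n6 : 4 * r * F ≤ n)
    (BB CD : ℕ → ℕ) (nb : ℕ)
    (R : P.Rd H False g (2 * Z1) W (2 * r * (2 * r + 2) * n) η Vn ω BB CD nb) :
    P.Ok Gs (fun t => t) (2 * Z1) D 0 F sJ BB CD nb := by
  have hr0 : 0 < r := by omega
  have hr' : (0 : ℝ) < r := by exact_mod_cast hr0
  have hn' : (0 : ℝ) < n := by exact_mod_cast hn
  have hout := cb_out P hg
  have hK : (P.out.card : ℝ) + (k : ℝ) * g = n := by exact_mod_cast hout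
  have hK0 : (0 : ℝ) ≤ (k : ℝ) * g := by positivity
  have hO0 : (0 : ℝ) ≤ P.out.card := Nat.cast_nonneg _
  generalize hc0 : sJ + 2 * F / ((2 * Z1 : ℕ) : ℝ) = c0 at n0 n4 n5
  have hBB : ∀ t ≤ I.m, ∀ (S : Finset (Fin n)) (u : ℝ),
      (∀ a ∈ S, (P.Hb H a t : ℝ) ≤ t + u) →
      (BB t : ℝ) ≤ t + (P.out.filter (· ∈ S)).card * u / n + ω := by
    intro t ht S u hS
    have h1 := cb_sum P.out S (fun a => (P.Hb H a t : ℝ)) t u fun a _ => by
      split_ifs with h2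
      · exact hS a h2
      · rw [add_zero]; exact_mod_cast cb_Ht hr (hk a) ht
    have h2 : ((min t P.xb : ℕ) : ℝ) ≤ t := by exact_mod_cast min_le_left _ _
    have h3 := mul_le_mul_of_nonneg_left h2 hK0
    refine (R.r1 t ht).trans (add_le_add_left ?_ _)
    rw [div_le_iff₀ hn', add_mul, div_mul_cancel₀ _ hn'.ne', ← hK]
    linarith
  refine ⟨(R.r3' not_false).le, fun t ht => ?_, fun t ht => ?_⟩
  · have h1 := hBB t ht ∅ 0 fun a ha => absurd ha (notMem_empty a)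
    have h2 : (BB t : ℝ) ≤ t + D := by
      rw [mul_zero, zero_div] at h1
      linarith
    exact_mod_cast h2
  rw [hc0]
  by_cases h1 : t ≤ θ
  · have hx0 : t - P.x0 = 0 := by omega
    have hCD : CD t = 0 := R.r5' t (h1.trans hθ) fun a _ j hj => by
      rcases hk a with ⟨-, -, h⟩ | ⟨-, -, h⟩ | ⟨-, -, h, -⟩
      · exact absurd (h ▸ mem_univ j) hj
      · exact Or.inr (h1.trans h)
      · exact Or.inl (h j hj)
    simp only [hx0, hCD, Nat.cast_zero, mul_zero, add_zero]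
    rcases hz t ht with hz1 | hz1
    · exact Or.inl ⟨Or.inl hz1, le_rfl⟩
    · right
      set S := (univ.filter fun a => Z1 < t - pv (I.Bk r a) t) \ M with hS
      have h5 := hBB t ht S (c * (2 * r) - Z1) fun a ha => by
        obtain ⟨h6, h7⟩ := mem_sdiff.1 ha
        have h8 := (mem_filter.1 h6).2
        have h9 : (H a).card ≤ c := by
          rcases hk a with ⟨h, -⟩ | ⟨-, h, -⟩ | ⟨-, -, -, h, -⟩
          · exact absurd h h7
          · rw [h, card_empty]; exact Nat.zero_le _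
          · exact h
        have h10 := cb_Hb_le hr P H a t
        have h11 := Nat.mul_le_mul_right (2 * r) h9
        have h12 : P.Hb H a t + Z1 ≤ t + c * (2 * r) := by omega
        have h13 : (P.Hb H a t : ℝ) + Z1 ≤ t + c * (2 * r) := by exact_mod_cast h12
        linarith
      have h6 : (univ.filter fun a => Z1 < t - pv (I.Bk r a) t) ⊆
          P.out.filter (· ∈ S) ∪ (P.outᶜ ∪ M) := by
        intro a ha
        by_cases h7 : a ∈ M
        · simp [h7]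
        · by_cases h8 : a ∈ P.out
          · exact mem_union_left _ (mem_filter.2 ⟨h8, mem_sdiff.2 ⟨ha, h7⟩⟩)
          · simp [h8]
      have h7 := (card_le_card h6).trans ((card_union_le _ _).trans
        (Nat.add_le_add_left (card_union_le _ _) _))
      have h8 := card_compl_add_card P.out
      rw [Fintype.card_fin] at h8
      have h9 : n ≤ 4 * (P.out.filter (· ∈ S)).card := by omega
      have h10 : (n : ℝ) ≤ 4 * (P.out.filter (· ∈ S)).card := by exact_mod_cast h9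
      have h11 : (0 : ℝ) ≤ ω + 4 * r * F := by positivity
      have h12 : ((P.out.filter (· ∈ S)).card : ℝ) * (c * (2 * r) - Z1) / n ≤
          -(ω + 4 * r * F) := by
        rw [div_le_iff₀ hn']
        have h13 := mul_le_mul_of_nonneg_left h10 h11
        have h14 := mul_le_mul_of_nonneg_left n2
          (Nat.cast_nonneg (α := ℝ) (P.out.filter (· ∈ S)).card)
        linarith
      linarith
  right
  have hx0 : (0 : ℝ) ≤ ((t - P.x0 : ℕ) : ℝ) := Nat.cast_nonneg _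
  by_cases h2 : t ≤ 2 * r * (2 * r + 2) * n
  · have h3 := R.r2 not_false t ht h2
    have h4 := cb_sum P.out Pv _ _ _ fun a _ =>
      cb_mid hr (hk a) hδ hσ hW (hPv a) ht (not_le.1 h1).le
    have h5 : P.out.filter (· ∈ Pv) = Pv := by
      ext a
      exact ⟨fun h => (mem_filter.1 h).2, fun h => mem_filter.2 ⟨hPo h, h⟩⟩
    rw [h5] at h4
    have h6 := cb_min P.hx t
    have h7 := mul_le_mul_of_nonneg_right hσ hx0
    generalize ((t - P.x0 : ℕ) : ℝ) = x at *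
    have h8 : (k : ℝ) * g * ((min t P.xb : ℕ) + (∑ j, P.σ j) * x) ≤ k * g * (t - 1 / r * x) :=
      mul_le_mul_of_nonneg_left (by linarith) hK0
    have h9 := mul_le_mul_of_nonneg_right n4 hx0
    have h10 : (P.out.card : ℝ) * (δ * x) ≤ n * (δ * x) :=
      mul_le_mul_of_nonneg_right (by linarith) (mul_nonneg hδ hx0)
    have h11 : (k : ℝ) * g / r * x = k * g * (1 / r * x) := by ring
    have h12 : (P.out.card : ℝ) * t + k * g * t = n * t := by rw [← hK]; ring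
    refine le_trans (add_le_add_left (add_le_add_left h3 _) _) ?_
    rw [← sub_nonneg, ← mul_nonneg_iff_of_pos_right hn']
    simp only [sub_mul, add_mul, div_mul_cancel₀ _ hn'.ne']
    nlinarith
  · have h3 := R.r4 not_false t
    have h4 : (BB t : ℝ) ≤ 2 * r * n := by exact_mod_cast R.r0 t
    have h5 := cb_sum P.out ∅ (fun a => ∑ j ∈ (H a)ᶜ, I.sig r a j + ∑ j ∈ H a, P.σ j)
      (1 - 1 / r) 0 fun a _ => by
        rw [if_neg (notMem_empty a), add_zero]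
        have h6 : ∑ j ∈ H a, P.σ j ≤ 1 - 1 / (r : ℝ) :=
          (sum_le_sum_of_subset_of_nonneg (subset_univ _) fun j _ _ => P.hσ j).trans hσ
        rcases hk a with ⟨-, -, h⟩ | ⟨-, h, -⟩ | ⟨-, -, h, -⟩
        · rw [h, compl_univ, sum_empty, zero_add]; exact hσ
        · rw [h, compl_empty, sum_empty, add_zero]; exact I.sum_sig hr0 a
        · rw [sum_eq_zero fun j hj => h j (mem_compl.1 hj), zero_add]; exact h6
    have h6 := mul_le_mul_of_nonneg_left hσ hK0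
    have h7 : (∑ a ∈ P.out, (∑ j ∈ (H a)ᶜ, I.sig r a j + ∑ j ∈ H a, P.σ j) +
        k * g * ∑ j, P.σ j) / n ≤ 1 - 1 / (r : ℝ) := by
      rw [div_le_iff₀ hn', ← hK]
      linarith
    have ht0 : (0 : ℝ) ≤ t := Nat.cast_nonneg _
    have h8 : ((t - P.x0 : ℕ) : ℝ) ≤ t := by exact_mod_cast Nat.sub_le _ _
    have h9 := mul_le_mul_of_nonneg_left h8 n0
    have h10 := mul_le_mul_of_nonneg_right h7 ht0
    have h11 := mul_le_mul_of_nonneg_right n5 ht0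
    have h12 : (4 * r * F : ℝ) ≤ n := by exact_mod_cast n6
    have h13 : (2 * r * (2 * r + 2) * n : ℝ) ≤ t := by exact_mod_cast (not_le.1 h2).le
    have h14 : (2 * r + 2 : ℝ) * n ≤ 1 / (2 * r) * t := by
      rw [one_div, ← div_eq_inv_mul, le_div_iff₀ (by positivity)]
      linarith
    have h15 : 1 / (r : ℝ) * t = 2 * (1 / (2 * r) * t) := by field_simp
    linarith

lemma cb_cells {n : ℕ} (S : Finset (Fin n)) (f : Fin n → ℕ) (L k0 : ℕ) (hf : ∀ a, f a < L)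
    (h : L * k0 < S.card) : ∃ (i : ℕ) (Pv : Finset (Fin n)), Pv ⊆ S ∧ Pv.card = k0 ∧
      (∀ a ∈ Pv, f a = i) ∧ (S.filter fun a => f a < i).card ≤ L * k0 := by
  have hex : ∃ i, i < L ∧ k0 ≤ (S.filter fun a => f a = i).card := by
    obtain ⟨y, hy, h1⟩ := exists_lt_card_fiber_of_mul_lt_card_of_maps_to (s := S) (t := range L)
      (f := f) (n := k0) (fun a _ => mem_range.2 (hf a)) (by rwa [card_range])
    exact ⟨y, mem_range.1 hy, h1.le⟩
  obtain ⟨h1, h2⟩ := Nat.find_spec hex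
  obtain ⟨Pv, h3, h4⟩ := exists_subset_card_eq h2
  refine ⟨Nat.find hex, Pv, h3.trans (filter_subset _ _), h4,
    fun a ha => (mem_filter.1 (h3 ha)).2, ?_⟩
  have h5 := card_le_mul_card_image_of_maps_to (s := S.filter fun a => f a < Nat.find hex)
    (t := range (Nat.find hex)) (f := f) (fun a ha => mem_range.2 (mem_filter.1 ha).2) k0
    fun b hb => by
      have h6 := Nat.find_min hex (mem_range.1 hb)
      have h7 : b < L := (mem_range.1 hb).trans h1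
      have h8 : ¬ k0 ≤ (S.filter fun a => f a = b).card := fun h9 => h6 ⟨h7, h9⟩
      exact (card_le_card (filter_subset_filter _ (filter_subset _ _))).trans (not_le.1 h8).le
  rw [card_range, mul_comm] at h5
  exact h5.trans (Nat.mul_le_mul_right _ h1.le)

lemma cb_FF {q R D Bn Λ x : ℕ} (hl : ell q R ≤ Λ) (hRl : R * Λ ≤ x) (hD : D ≤ x) (hB : Bn ≤ x)
    (hq : q ≤ x) (h1 : 1 ≤ x) (hR : 8 + 2 * R ≤ Λ) : FF q R D Bn ≤ Λ * (Λ * x) := by
  unfold FF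
  have h3 : R * ell q R ≤ R * Λ := Nat.mul_le_mul_left _ hl
  have h4 : R * Bn ≤ R * x := Nat.mul_le_mul_left _ hB
  have h5 : 2 * ell q R * (D + R * ell q R + R * Bn + 1) ≤ 2 * Λ * (3 * x + R * x) :=
    Nat.mul_le_mul (by omega) (by omega)
  have h6 : x ≤ Λ * x := Nat.le_mul_of_pos_left _ (by omega)
  have h7 : (8 + 2 * R) * (Λ * x) ≤ Λ * (Λ * x) := Nat.mul_le_mul_right _ hR
  have h8 : 2 * Λ * (3 * x + R * x) + 2 * (Λ * x) = (8 + 2 * R) * (Λ * x) := by ring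
  omega

lemma cb_base {r k Λ : ℕ} (hr : 2 ≤ r) (hk : 1 ≤ k) (hpoly : 4096 * r ^ 4 * k ^ 2 ≤ Λ) :
    64 * r ≤ Λ ∧ 64 * k ≤ Λ ∧ 24 * (r ^ 2 * k) ≤ Λ ∧ 4 * k ^ 2 ≤ Λ ∧
      2 * (2 * r * (2 * r + 2)) ≤ Λ := by
  have hr2 : 4 ≤ r ^ 2 := by nlinarith
  have hrr : r ≤ r ^ 2 := by nlinarith
  have hkk : k ≤ k ^ 2 := by nlinarith
  have hA : 4096 * (r ^ 2 * k ^ 2) * 4 ≤ Λ := by
    calc _ ≤ 4096 * (r ^ 2 * k ^ 2) * r ^ 2 := Nat.mul_le_mul_left _ hr2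
      _ = 4096 * r ^ 4 * k ^ 2 := by ring
      _ ≤ Λ := hpoly
  have hA1 : r ^ 2 * k ≤ r ^ 2 * k ^ 2 := Nat.mul_le_mul_left _ hkk
  have hA2 : k ^ 2 ≤ r ^ 2 * k ^ 2 := Nat.le_mul_of_pos_left _ (by omega)
  have hA3 : r ^ 2 ≤ r ^ 2 * k := Nat.le_mul_of_pos_right _ hk
  have hA6 : 2 * (2 * r * (2 * r + 2)) = 8 * r ^ 2 + 8 * r := by ring
  refine ⟨by linarith, by linarith, by linarith, by linarith, by linarith⟩

lemma cb_cls {r k c n : ℕ} (hr : 1 ≤ r) (h : 64 * r ^ 3 * k * c ≤ 2 * r * n) :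
    32 * (r ^ 2 * k * c) ≤ n := by
  have h1 : 2 * r * (32 * (r ^ 2 * k * c)) ≤ 2 * r * n := by
    calc _ = 64 * r ^ 3 * k * c := by ring
      _ ≤ _ := h
  exact Nat.le_of_mul_le_mul_left h1 (by omega)

lemma cb_mim {r k c n y G z x8 x9 : ℕ} (hr : 2 ≤ r) (hk : 1 ≤ k) (hc : 32 * (r ^ 2 * k * c) ≤ n)
    (h1 : y ≤ x8) (hG : G ≤ 2 * k) (h7 : 24 * (r ^ 2 * k) * x8 ≤ x9) (hz : z ≤ x9)
    (h9 : 4 * x9 ≤ n) : r * (2 * r + 2) * (x8 + (c + y) + (G + 1) * (2 * x8)) + z ≤ n := by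
  have h2 : (G + 1) * (2 * x8) ≤ (2 * k + 1) * (2 * x8) := Nat.mul_le_mul_right _ (by omega)
  have h3 : x8 ≤ k * x8 := Nat.le_mul_of_pos_left _ hk
  have h4 : x8 + (c + y) + (G + 1) * (2 * x8) ≤ c + 8 * (k * x8) := by nlinarith
  have h5 : r * (2 * r + 2) ≤ 3 * r ^ 2 := by nlinarith
  have h6 := Nat.mul_le_mul h5 h4
  have h8 : r ^ 2 * c ≤ r ^ 2 * k * c := Nat.mul_le_mul_right _ (Nat.le_mul_of_pos_right _ hk)
  have h10 : 3 * r ^ 2 * (c + 8 * (k * x8)) = 3 * (r ^ 2 * c) + 24 * (r ^ 2 * k) * x8 := by ring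
  linarith

lemma cb_h3 {r k c n y x3 x4 x8 : ℕ} (hr : 1 ≤ r) (hc : 32 * (r ^ 2 * k * c) ≤ n)
    (h1 : y * x3 ≤ x4) (h2 : 8 * x4 ≤ x8) (h8 : 0 < x8) (hn : 0 < n) :
    k * x8 * c + (x4 + y * (2 * x3)) * n < x8 * n := by
  have h3 : y * (2 * x3) = 2 * (y * x3) := by ring
  have h4 : 8 * (x4 + y * (2 * x3)) ≤ 3 * x8 := by omega
  have h5 := Nat.mul_le_mul_right n h4
  have h6 : k * c ≤ r ^ 2 * k * c :=
    Nat.mul_le_mul_right _ (Nat.le_mul_of_pos_left _ (by positivity))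
  have h7 : 32 * (k * c) ≤ n := by omega
  have h9 := Nat.mul_le_mul_left x8 h7
  have h10 : 0 < x8 * n := Nat.mul_pos h8 hn
  nlinarith

lemma cb_om {n ν L E : ℝ} (hν : 0 < ν) (h4 : 18 * E ^ 2 * L ≤ ν) (h5 : 1 ≤ L)
    (h6 : n ≤ 2 * (L * ν)) (h7 : 1 ≤ E) : ν + 6 * (n * E / ν + 1) * E ≤ 2 * ν := by
  have h8 : n * E / ν ≤ 2 * L * E := by
    rw [div_le_iff₀ hν]
    nlinarith
  have h9 : 1 ≤ L * E := by nlinarith
  have h10 : 6 * (n * E / ν + 1) * E ≤ 6 * (3 * (L * E)) * E :=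
    mul_le_mul_of_nonneg_right (by linarith) (by linarith)
  nlinarith

lemma cb_Q {r k : ℕ} (hr : 1 ≤ r) (hk : 1 ≤ k) : 2 * r ^ 2 ≤ 64 * r ^ 3 * k := by
  have h1 : r ^ 2 * 1 ≤ r ^ 2 * (r * k) := Nat.mul_le_mul_left _ (Nat.mul_pos hr hk)
  have h2 : 64 * r ^ 3 * k = 64 * (r ^ 2 * (r * k)) := by ring
  omega

lemma cb_div {x y c : ℕ} (h : c * x ≤ y) (hc : 0 < c) (hy : 0 < y) : (x : ℝ) / y ≤ 1 / c := by
  rw [div_le_div_iff₀ (by exact_mod_cast hy) (by exact_mod_cast hc), one_mul, mul_comm]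
  exact_mod_cast h

lemma cb_share {n : ℕ} (A : Finset (Fin n)) (σ : Fin n → ℝ) {c y : ℕ} (hA : A.card ≤ c)
    (h : ∀ j, σ j ≤ 1 / (y : ℝ)) : ∑ j ∈ A, σ j ≤ (c : ℝ) / y := by
  refine (sum_le_card_nsmul A σ _ fun j _ => h j).trans ?_
  rw [nsmul_eq_mul, mul_one_div]
  exact div_le_div_of_nonneg_right (by exact_mod_cast hA) (Nat.cast_nonneg _)

/-- The scale of sizes. -/
lemma cb_scale {r n Λ ν : ℕ} (p : Par r n Λ ν) (hΛ : 128 ≤ Λ) : ∃ X : ℕ → ℕ,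
    (∀ e, X e = Λ ^ e * ν) ∧ (∀ c e e', c ≤ Λ → e < e' → c * X e ≤ X e') ∧ Monotone X ∧
      (∀ e, ν ≤ X e) ∧ (∀ j e, Λ ^ j * X e = X (e + j)) ∧
      (∀ a b c d, a + b = c + d → X a * X b = X c * X d) ∧ Λ * Λ ≤ ν := by
  have hΛ1 : 1 ≤ Λ := by omega
  refine ⟨fun e => Λ ^ e * ν, fun _ => rfl, fun c e e' hc he => ?_, fun e e' he => ?_,
    fun e => Nat.le_mul_of_pos_left _ (Nat.one_le_pow _ _ hΛ1), fun j e => by ring,
    fun a b c d h => ?_, ?_⟩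
  · calc c * (Λ ^ e * ν) ≤ Λ * (Λ ^ e * ν) := Nat.mul_le_mul_right _ hc
      _ = Λ ^ (e + 1) * ν := by ring
      _ ≤ _ := Nat.mul_le_mul_right _ (Nat.pow_le_pow_right hΛ1 he)
  · exact Nat.mul_le_mul_right _ (Nat.pow_le_pow_right hΛ1 he)
  · calc Λ ^ a * ν * (Λ ^ b * ν) = Λ ^ (a + b) * (ν * ν) := by ring
      _ = Λ ^ c * ν * (Λ ^ d * ν) := by rw [h]; ring
  · calc Λ * Λ = Λ ^ 2 := by ring
      _ ≤ Λ ^ 123 := Nat.pow_le_pow_right hΛ1 (by norm_num)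
      _ ≤ ν := p.big

theorem caseB {r n Λ ν : ℕ} (p : Par r n Λ ν) (I : Inst n)
    (h : Λ ^ 64 * ν < (univ.filter fun a => ((Λ ^ 60 * ν : ℕ) : ℝ) ≤ I.V r a).card) :
    I.Solv (1 - 6 / r) := by
  have hr := p.hr
  have hr1 : 1 ≤ r := by omega
  have hr' : (0 : ℝ) < r := by exact_mod_cast hr1
  have hk1 : 1 ≤ dd r + 1 := by omega
  obtain ⟨b1, b2, b3, b4, b5⟩ := cb_base hr hk1 p.poly
  have hΛ : 128 ≤ Λ := by omega
  have hΛ1 : 1 ≤ Λ := by omega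
  obtain ⟨X, hX, hst, hmono, hν, hpow, hXX, hΛν⟩ := cb_scale p hΛ
  have hlo : X 70 ≤ n := hX 70 ▸ p.lo
  have hhi : n ≤ 2 * X 70 := hX 70 ▸ p.hi
  rw [← hX, ← hX] at h
  have hΛν' : Λ ≤ ν := (Nat.le_mul_of_pos_left _ hΛ1).trans hΛν
  have hν1 : 1 ≤ ν := hΛ1.trans hΛν'
  have hpos : ∀ e, 0 < X e := fun e => hν1.trans (hν e)
  have hpos' : ∀ e, (0 : ℝ) < X e := fun e => by exact_mod_cast hpos e
  have hmono' : ∀ e e', e ≤ e' → (X e : ℝ) ≤ X e' := fun e e' he => by exact_mod_cast hmono he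
  have hn : 0 < n := (hpos 70).trans_le hlo
  have hn' : (0 : ℝ) < n := by exact_mod_cast hn
  have hν' : (0 : ℝ) < ν := by exact_mod_cast hν1
  obtain ⟨SR, hSR⟩ : ∃ S, S = univ.filter fun a => (X 60 : ℝ) ≤ I.V r a := ⟨_, rfl⟩
  obtain ⟨rich, hrich⟩ : ∃ S, S = univ.filter fun a => (X 46 : ℝ) ≤ I.V r a := ⟨_, rfl⟩
  rw [← hSR] at h
  have mSR : ∀ a ∈ SR, (X 60 : ℝ) ≤ I.V r a := fun a ha => by simpa [hSR] using ha
  have mrich : ∀ a, a ∈ rich ↔ (X 46 : ℝ) ≤ I.V r a := fun a => by simp [hrich]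
  have hsub : SR ⊆ rich := fun a ha => (mrich a).2 ((hmono' 46 60 (by norm_num)).trans (mSR a ha))
  have h56 : Λ ^ 26 * X 30 = X 56 := hpow 26 30
  obtain ⟨i, Pv, hPv1, hPv2, hPv3, hMc⟩ := cb_cells rich (fun a => I.T r a / X 45) (Λ ^ 26) (X 30)
    (fun a => by
      rw [Nat.div_lt_iff_lt_mul (hpos 45), hpow]
      have h1 := I.T_le hr1 a
      have h2 := Nat.mul_le_mul_left r hhi
      have h3 := hst (2 * r + 1) 70 71 (by omega) (by norm_num)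
      have h4 := hpos 70
      change I.T r a < X 71
      nlinarith)
    (by rw [h56]; exact ((hmono (by norm_num)).trans_lt h).trans_le (card_le_card hsub))
  rw [h56] at hMc
  obtain ⟨M, hM⟩ : ∃ S, S = rich.filter fun a => I.T r a / X 45 < i := ⟨_, rfl⟩
  rw [← hM] at hMc
  have mM : ∀ a, a ∈ M ↔ a ∈ rich ∧ I.T r a / X 45 < i := fun a => by rw [hM, mem_filter]
  have hlate : ∀ a ∈ rich, a ∉ M → i * X 45 + 2 * X 45 ≤ I.T r a + 2 * X 45 := fun a h1 h2 => by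
    have h3 : i ≤ I.T r a / X 45 := not_lt.1 fun h4 => h2 ((mM a).2 ⟨h1, h4⟩)
    have h4 := (Nat.le_div_iff_mul_le (hpos 45)).1 h3
    omega
  have hW46 : ((2 * X 45 : ℕ) : ℝ) ≤ X 46 := by
    exact_mod_cast hst 2 45 46 (by omega) (by norm_num)
  obtain ⟨Gs, hGs, hz⟩ := zones (I.Bk r) (dd r + 1) (fun a => I.card_Bk a)
    (fun a => I.zero_mem_Bk a) (X 68) I.m
  obtain ⟨P, a0, ha0, hG, hGsB, hBc, hT0, hx0, hσ, hcls⟩ :=
    mkP0 I hr (SR \ (M ∪ Pv)) Gs (i * X 45 + 2 * X 45) (2 * X 45) (64 * r ^ 3 * (dd r + 1))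
      (X 61) (cb_Q hr1 hk1) (hpos 61)
      (fun a ha => by
        obtain ⟨h1, h2⟩ := mem_sdiff.1 ha
        exact ⟨hlate a (hsub h1) fun h3 => h2 (mem_union_left _ h3),
          hW46.trans ((mrich a).1 (hsub h1))⟩)
      (by
        have h1 := hst _ 61 62 p.hGC (by norm_num)
        have h2 := hst _ 62 63 b4 (by norm_num)
        have h3 := Nat.mul_le_mul_left (4 * (dd r + 1) ^ 2) h1
        have h4 := le_card_sdiff (M ∪ Pv) SR
        have h5 := card_union_le M Pv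
        have h6 := hst 3 63 64 (by omega) (by norm_num)
        have h7 : X 56 ≤ X 63 := hmono (by norm_num)
        have h8 : X 30 ≤ X 63 := hmono (by norm_num)
        rw [mul_assoc]
        omega)
  obtain ⟨ha1, ha2⟩ := mem_sdiff.1 ha0
  have hc1 := cb_cls hr1 hcls
  have hσ60 : ∀ j, P.σ j ≤ 1 / (X 60 : ℝ) := fun j =>
    (hσ j).trans (I.sig_le hr1 a0 j (hpos' 60) (mSR a0 ha1))
  have hσ1 : ∑ j, P.σ j ≤ 1 - 1 / (r : ℝ) := (sum_le_sum fun j _ => hσ j).trans (I.sum_sig hr1 a0)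
  have hq : P.B.card + 1 ≤ 4 * (dd r + 1) + 2 := by omega
  have hFF : ∀ D Bn e, D ≤ X e → Bn ≤ X e →
      FF (4 * (dd r + 1) + 2) (2 * r) D Bn ≤ X (e + 2) := fun D Bn e h1 h2 => by
    have h3 := hν e
    rw [← hpow, pow_two, mul_assoc]
    exact cb_FF p.hell (((Nat.mul_le_mul_right _ (by omega)).trans hΛν).trans h3) h1 h2
      (by omega) (hpos e) (by omega)
  have hH : ∀ a, ∃ A : Finset (Fin n), (a ∈ M ∧ a ∉ Pv ∧ A = univ) ∨
      (a ∉ M ∧ a ∈ rich ∧ A = ∅) ∨ (a ∉ M ∧ a ∉ Pv ∧ (∀ j ∉ A, I.sig r a j = 0) ∧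
        A.card ≤ X 49 ∧ ∀ t ≤ I.m, ∑ j ∈ Aᶜ, I.ob r a j t + ∑ j ∈ A, P.u0 j t ≤ t) := by
    intro a
    by_cases h1 : a ∈ M
    · exact ⟨univ, Or.inl ⟨h1, fun h2 => ((mM a).1 h1).2.ne (hPv3 a h2), rfl⟩⟩
    by_cases h2 : a ∈ rich
    · exact ⟨∅, Or.inr (Or.inl ⟨h1, h2, rfl⟩)⟩
    obtain ⟨A, hA1, hA2, hA3⟩ := prox2 (4 * (dd r + 1) + 2) (2 * r) 0 (X 47) I.m P.B hq
      (I.ob r a) P.u0 (fun t => t) (univ.filter fun j => 0 < I.sig r a j) (I.ob_mono a)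
      (fun j t => (I.ob_le hr a j t).trans (by omega)) (cb_u0_le P)
      (fun j t => by unfold P0.u0; rw [pv_pv])
      (fun t _ => (cb_sum_u0 P t).trans (min_le_left _ _))
      (fun t _ => by rw [I.sum_ob hr a t]; exact pv_le _ _)
      (by
        have h3 := I.card_sig_pos hr1 a
        have h4 := mul_le_mul_of_nonneg_left (not_le.1 fun h5 => h2 ((mrich a).2 h5)).le hr'.le
        have h5 : (r : ℝ) * X 46 ≤ X 47 := by
          exact_mod_cast hst r 46 47 (by omega) (by norm_num)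
        exact_mod_cast (h3.trans h4).trans h5)
    refine ⟨A, Or.inr (Or.inr ⟨h1, fun h3 => h2 (hPv1 h3), fun j hj => ?_,
      hA2.trans (hFF 0 _ 47 (Nat.zero_le _) le_rfl), hA3⟩)⟩
    exact le_antisymm (not_lt.1 fun h3 => hj (hA1 (mem_filter.2 ⟨mem_univ _, h3⟩)))
      (I.sig_nonneg hr1 a j)
  choose H hH using hH
  have hL : 0 < Λ ^ 11 := Nat.pow_pos hΛ1
  have hsm : ∀ x e e', x ≤ X e → e + 11 ≤ e' → (x : ℝ) / X e' ≤ 1 / ((Λ ^ 11 : ℕ) : ℝ) :=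
    fun x e e' h1 h2 => cb_div ((Nat.mul_le_mul_left _ h1).trans
      ((hpow 11 e).le.trans (hmono h2))) hL (hpos e')
  have h21 : 2 * ν + 1 ≤ X 1 := by
    have h1 := hst 3 0 1 (by omega) (by norm_num)
    have h2 := hν 0
    omega
  refine core I hr hn hk1 P Gs hGsB (4 * (dd r + 1) + 2) (X 61) (2 * X 68) (2 * X 45)
    (X 68) (X 67) (X 57) (2 * ν + 1) 0 (X 3) (2 * r * (2 * r + 2) * n)
    ((Λ ^ 26 : ℕ) : ℝ) ν (2 * ν) (X 46) ((X 3 : ℝ) / X 60) False H (fun t => t)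
    hq (fun i => (hG i).2) (hFF _ 0 1 h21 (Nat.zero_le _)) (Nat.mul_pos two_pos (hpos 68))
    ((hst 2 68 70 (by omega) (by norm_num)).trans hlo) (hpos 68) (hpos 67) hν'
    (cb_mim hr hk1 hc1 (hst _ 67 68 p.hPi (by norm_num)) hGs (hst _ 68 69 b3 (by norm_num)) ?_
      ((hst 4 69 70 (by omega) (by norm_num)).trans hlo)) ?_ ?_ ?_
    (cb_h3 hr1 hc1 (hst _ 3 57 p.hPi (by norm_num)) (hst 8 57 61 (by omega) (by norm_num))
      (hpos 61) hn) (fun _ a _ j hj => ?_) (fun _ j => ?_) (hpos' 46)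
    (by exact_mod_cast (hmono (by norm_num)).trans hlo) ?_ ?_
    (fun A hA => cb_share A _ hA hσ60) (fun t _ => min_le_left _ _) fun BB CD nb R => ?_
  · have h1 := hlate a0 (hsub ha1) fun h3 => ha2 (mem_union_left _ h3)
    have h2 : P.x0 - P.xb ≤ 2 * X 45 := by omega
    have h3 := hst (r * 2) 45 69 (by omega) (by norm_num)
    rw [mul_assoc] at h3
    exact (Nat.mul_le_mul_left r h2).trans h3
  · have h1 : ∑ a ∈ P.out, (H a).card ≤ ∑ a, (X 49 + if a ∈ M then n else 0) :=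
      (sum_le_sum_of_subset (subset_univ _)).trans (sum_le_sum fun a _ => by
        rcases hH a with ⟨h2, -, h3⟩ | ⟨-, -, h3⟩ | ⟨-, -, -, h3, -⟩
        · rw [h3, if_pos h2, card_univ, Fintype.card_fin]; exact Nat.le_add_left _ _
        · rw [h3, card_empty]; exact Nat.zero_le _
        · exact h3.trans (Nat.le_add_right _ _))
    rw [sum_add_distrib, ← sum_filter, sum_const, sum_const, smul_eq_mul, smul_eq_mul, card_univ,
      Fintype.card_fin, filter_mem_eq_inter, univ_inter] at h1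
    have h2 := hst 2 56 57 (by omega) (by norm_num)
    have h3 : X 49 ≤ X 56 := hmono (by norm_num)
    have h4 : (X 49 + M.card) * n ≤ X 57 * n := Nat.mul_le_mul_right _ (by omega)
    rw [add_mul, mul_comm (X 49)] at h4
    exact h1.trans h4
  · calc 2 * X 57 * n ≤ 2 * X 57 * (2 * X 70) := Nat.mul_le_mul_left _ hhi
      _ = 4 * (X 57 * X 70) := by ring
      _ = 4 * X 59 * X 68 := by rw [hXX 57 70 59 68 rfl, mul_assoc]
      _ ≤ X 61 * X 68 := Nat.mul_le_mul_right _ (hst 4 59 61 (by omega) (by norm_num))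
      _ ≤ _ := Nat.mul_le_mul_right _ (Nat.le_mul_of_pos_left _ hk1)
  · calc 4 * X 3 * n ≤ 4 * X 3 * (2 * X 70) := Nat.mul_le_mul_left _ hhi
      _ = 8 * (X 3 * X 70) := by ring
      _ = 8 * X 6 * X 67 := by rw [hXX 3 70 6 67 rfl, mul_assoc]
      _ ≤ _ := Nat.mul_le_mul_right _ (hst 8 6 61 (by omega) (by norm_num))
  · rcases hH a with ⟨-, -, h3⟩ | ⟨-, h3, -⟩ | ⟨-, -, h3, -⟩
    · exact absurd (h3 ▸ mem_univ j) hj
    · exact Or.inr ⟨hW46.trans ((mrich a).1 h3), (mrich a).1 h3⟩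
    · exact Or.inl (h3 j hj)
  · have h1 := mul_le_mul (hσ60 j) (hmono' 46 60 (by norm_num)) (hpos' 46).le
      (one_div_pos.2 (hpos' 60)).le
    rwa [one_div_mul_cancel (hpos' 60).ne'] at h1
  · have h1 : 2 * r * (2 * r + 2) * n ≤ Λ ^ 25 * X 46 := by
      have h2 := Nat.mul_le_mul_left (2 * r * (2 * r + 2)) hhi
      have h3 := hst _ 70 71 b5 (by norm_num)
      rw [hpow]
      change _ ≤ X 71
      linarith
    have h2 : ((2 * r * (2 * r + 2) * n : ℕ) : ℝ) / X 46 ≤ ((Λ ^ 25 : ℕ) : ℝ) := by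
      rw [div_le_iff₀ (hpos' 46)]
      exact_mod_cast h1
    have h3 : 2 * r + Λ ^ 25 + 1 ≤ Λ ^ 26 := by
      have h4 : Λ ≤ Λ ^ 25 := Nat.le_self_pow (by norm_num) Λ
      have h5 : Λ ^ 25 * 2 ≤ Λ ^ 25 * Λ := Nat.mul_le_mul_left _ (by omega)
      rw [pow_succ Λ 25]
      omega
    have h4 : (2 * r + ((Λ ^ 25 : ℕ) : ℝ) + 1) ≤ ((Λ ^ 26 : ℕ) : ℝ) := by exact_mod_cast h3
    linarith
  · have h1 : 18 * (Λ ^ 26) ^ 2 * Λ ^ 70 ≤ ν := by
      calc _ = 18 * Λ ^ 122 := by ring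
        _ ≤ Λ * Λ ^ 122 := Nat.mul_le_mul_right _ (by omega)
        _ = Λ ^ 123 := by ring
        _ ≤ ν := p.big
    exact cb_om (L := ((Λ ^ 70 : ℕ) : ℝ)) hν' (by exact_mod_cast h1)
      (by exact_mod_cast Nat.one_le_pow _ _ hΛ1) (by exact_mod_cast p.hi)
      (by exact_mod_cast Nat.one_le_pow _ _ hΛ1)
  · have e1 := hsm (X 49) 49 60 le_rfl le_rfl
    have e2 := hsm (X 57) 57 68 le_rfl le_rfl
    have e3 := hsm (X 3) 3 60 le_rfl (by norm_num)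
    have e4 := hsm (X 3) 3 68 le_rfl (by norm_num)
    have e5 := hsm (2 * ν) 1 46 (by omega) (by norm_num)
    have e6 : 2 * (X 3 : ℝ) / ((2 * X 68 : ℕ) : ℝ) = X 3 / X 68 := by
      push_cast
      exact mul_div_mul_left _ _ two_ne_zero
    have hL' : (0 : ℝ) < ((Λ ^ 11 : ℕ) : ℝ) := by exact_mod_cast hL
    have h4 : 2 * ν + 4 * r * X 3 ≤ X 4 := by
      have h1 := hst (4 * r + 2) 3 4 (by omega) (by norm_num)
      have h2 := hν 3
      rw [add_mul] at h1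
      omega
    refine cb_ver hr hn P H M Pv Gs (X 61) (X 68) (2 * X 45) (X 45) (i * X 45 + 2 * X 45) (X 49)
      (X 3) (2 * ν + 1) _ _ _ _ ((X 49 : ℝ) / X 60) (fun i => (hG i).2)
      (hx0 ▸ le_max_right _ _) (fun a => ?_) (by positivity) hσ1 (by omega) (fun a ha => ?_)
      (fun a ha => ?_) hz (by push_cast; linarith) (by positivity) (by positivity) ?_ ?_ ?_ ?_ ?_
      ?_ BB CD nb R
    · rcases hH a with h3 | ⟨h1, h2, h3⟩ | ⟨h1, h2, h3, h5, h6⟩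
      · exact Or.inl h3
      · exact Or.inr (Or.inl ⟨h1, h3, hlate a h2 h1⟩)
      · exact Or.inr (Or.inr ⟨h1, h2, h3, h5, cb_share _ _ h5 hσ60, h6⟩)
    · have h1 := Nat.lt_mul_div_succ (I.T r a) (hpos 45)
      rw [hPv3 a ha, mul_add, mul_comm] at h1
      omega
    · refine mem_compl.2 fun h1 => ?_
      obtain ⟨j, -, h2⟩ := mem_biUnion.1 h1
      exact (mem_sdiff.1 ((hG j).1 h2)).2 (mem_union_right _ ha)
    · have h1 := hst (4 * (dd r + 1) + 4) 61 70 (by omega) (by norm_num)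
      have h2 : X 56 ≤ X 61 := hmono (by norm_num)
      rw [add_mul, mul_assoc] at h1
      omega
    · have h1 := hst (2 * r + 4) 49 68 (by omega) (by norm_num)
      have h2 : X 4 ≤ X 49 := hmono (by norm_num)
      have h3 : 4 * (2 * ν + 4 * r * X 3) + X 49 * (2 * r) ≤ X 68 := by
        rw [add_mul, mul_comm (2 * r)] at h1
        omega
      exact_mod_cast h3
    · have h1 : (2 * ν + 4 * r * X 3) * n ≤ X 30 * X 45 := by
        calc _ ≤ X 4 * (2 * X 70) := Nat.mul_le_mul h4 hhi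
          _ = 2 * X 4 * X 70 := by ring
          _ ≤ X 5 * X 70 := Nat.mul_le_mul_right _ (hst 2 4 5 (by omega) (by norm_num))
          _ = _ := hXX 5 70 30 45 rfl
      rw [hPv2]
      exact_mod_cast h1
    · have h1 : 4 * n * r ≤ (dd r + 1) * X 61 * Λ ^ 11 := by
        have h2 := hst (8 * r) 70 72 (by omega) (by norm_num)
        have h3 := Nat.mul_le_mul_left (4 * r) hhi
        have h5 : X 72 ≤ (dd r + 1) * X 72 := Nat.le_mul_of_pos_left _ hk1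
        rw [mul_assoc (dd r + 1), mul_comm (X 61), hpow]
        change _ ≤ (dd r + 1) * X 72
        linarith
      have h2 : 4 * (1 / ((Λ ^ 11 : ℕ) : ℝ)) * n ≤ ((dd r + 1 : ℕ) : ℝ) * X 61 / r := by
        rw [mul_one_div, div_mul_eq_mul_div, div_le_div_iff₀ hL' hr']
        exact_mod_cast h1
      rw [e6]
      exact (mul_le_mul_of_nonneg_right (by linarith) hn'.le).trans h2
    · have h1 : 4 * (2 * r) ≤ Λ ^ 11 := le_trans (by omega) (Nat.le_self_pow (by norm_num) Λ)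
      have h2 : 4 * (1 / ((Λ ^ 11 : ℕ) : ℝ)) ≤ 1 / (2 * r) := by
        rw [mul_one_div, div_le_div_iff₀ hL' (by positivity), one_mul]
        exact_mod_cast h1
      rw [Nat.cast_mul, Nat.cast_ofNat] at e5
      rw [e6]
      linarith
    · exact (hst (4 * r) 3 70 (by omega) (by norm_num)).trans hlo

end Pool.Agent.Lib.MP_5049a2_lc.TR
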