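import Pool.Agent.Lib.MP_5049a2_lc.TRDefs

/-! The fractional solution. -/

namespace Pool.Agent.Lib.MP_5049a2_lc.TR

open Finset

lemma frac_block {α T : Type*} [DecidableEq α] [DecidableEq T] {n : ℕ} (F : ℕ)
    (u : T → Fin n → ℝ) (z : Fin n → ℝ) (Fr : Finset T) : ∀ G0 : Finset α,
    Fr.card * F ≤ G0.card → ∃ y : α → Fin n → ℝ, (∀ a, y a = z ∨ ∃ π ∈ Fr, y a = u π) ∧
      (∀ π ∈ Fr, ∃ S ⊆ G0, S.card = F ∧ ∀ a ∈ S, y a = u π) ∧
      ∀ j, ∑ a ∈ G0, y a j = F * ∑ π ∈ Fr, u π j + ((G0.card : ℝ) - Fr.card * F) * z j := by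
  induction Fr using Finset.induction_on with
  | empty => exact fun G0 _ => ⟨fun _ => z, fun _ => Or.inl rfl, by simp, by simp⟩
  | insert π Fr hπ ih =>
    intro G0 h
    rw [card_insert_of_notMem hπ, add_mul, one_mul] at h
    obtain ⟨S, hS, hc⟩ := exists_subset_card_eq (show F ≤ G0.card by omega)
    have hc' : (G0 \ S).card = G0.card - F := by rw [card_sdiff_of_subset hS, hc]
    obtain ⟨y, h1, h2, h3⟩ := ih (G0 \ S) (by omega)
    refine ⟨fun a => if a ∈ S then u π else y a, fun a => ?_, fun π' hπ' => ?_, fun j => ?_⟩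
    · by_cases ha : a ∈ S
      · exact Or.inr ⟨π, mem_insert_self _ _, if_pos ha⟩
      · simp only [if_neg ha]
        exact (h1 a).imp_right fun ⟨π', h4, h5⟩ => ⟨π', mem_insert_of_mem h4, h5⟩
    · rcases mem_insert.1 hπ' with rfl | hπ'
      · exact ⟨S, hS, hc, fun a ha => if_pos ha⟩
      · obtain ⟨S', h4, h5, h6⟩ := h2 π' hπ'
        exact ⟨S', h4.trans sdiff_subset, h5, fun a ha =>
          (if_neg (mem_sdiff.1 (h4 ha)).2).trans (h6 a ha)⟩
    · rw [← sum_sdiff hS, sum_congr rfl (g := fun a => y a j)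
        (fun a ha => by simp only [if_neg (mem_sdiff.1 ha).2]), h3,
        sum_congr rfl (s₁ := S) (g := fun _ => u π j) (fun a ha => by simp only [if_pos ha]),
        sum_const, hc,
        hc', sum_insert hπ, card_insert_of_notMem hπ, Nat.cast_sub (by omega), nsmul_eq_mul]
      push_cast
      ring

lemma frac_members {n k : ℕ} {T : Type} [DecidableEq T] (hk : 0 < k)
    (G : Fin k → Finset (Fin n)) (g : ℕ) (hG : ∀ h, (G h).card = g)
    (hd : ∀ h h', h ≠ h' → Disjoint (G h) (G h'))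
    (cls : Fin n → Option (Fin k)) (ty : Fin n → T) (Fr : Finset T) (Φ F : ℕ)
    (hΦ0 : 0 < Φ) (hΦ : ∀ π ∈ Fr, Φ ≤ (univ.filter fun j => cls j = none ∧ ty j = π).card)
    (lam : Fin n → ℝ) (hlam : ∀ j, (k : ℝ) * F / Φ ≤ lam j) (hsum : (k : ℝ) * g ≤ ∑ j, lam j)
    (hm : ∀ h, ∑ j ∈ univ.filter (fun j => cls j = some h), lam j + Fr.card * F < g) :
    ∃ Y : Fin n → Fin n → ℝ, (∀ a j, 0 ≤ Y a j) ∧ (∀ a, ∑ j, Y a j = 1) ∧
      (∀ h, ∀ a ∈ G h, ∀ j, 0 < Y a j → cls j = none ∨ cls j = some h) ∧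
      (∀ h, ∀ π ∈ Fr, ∃ S ⊆ G h, S.card = F ∧ ∀ a ∈ S, ∀ j, 0 < Y a j → ty j = π) ∧
      ∀ j, ∑ a ∈ univ.biUnion G, Y a j ≤ lam j := by
  have hΦ' : (0 : ℝ) < Φ := by exact_mod_cast hΦ0
  have hlam0 : ∀ j, 0 ≤ lam j := fun j => le_trans (by positivity) (hlam j)
  obtain ⟨u, hu⟩ : ∃ u : T → Fin n → ℝ, u = fun π j => if cls j = none ∧ ty j = π then
    ((univ.filter fun j => cls j = none ∧ ty j = π).card : ℝ)⁻¹ else 0 := ⟨_, rfl⟩
  have u0 : ∀ π j, 0 ≤ u π j := fun π j => by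
    simp only [hu]
    split_ifs <;> positivity
  have u1 : ∀ π ∈ Fr, ∑ j, u π j = 1 := fun π hπ => by
    have : ((univ.filter fun j => cls j = none ∧ ty j = π).card : ℝ) ≠ 0 :=
      Nat.cast_ne_zero.2 (hΦ0.trans_le (hΦ π hπ)).ne'
    simp only [hu]
    rw [← sum_filter, sum_const, nsmul_eq_mul, mul_inv_cancel₀ this]
  have u2 : ∀ π j, 0 < u π j → cls j = none ∧ ty j = π := fun π j h => by
    by_contra h'
    simp only [hu, if_neg h'] at h
    exact lt_irrefl _ h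
  have u3 : ∀ π j, ¬ (cls j = none ∧ ty j = π) → u π j = 0 := fun π j h => by
    simp only [hu, if_neg h]
  have u4 : ∀ j, ∑ π ∈ Fr, u π j ≤ (Φ : ℝ)⁻¹ := fun j => by
    by_cases hj : ty j ∈ Fr
    · rw [sum_eq_single_of_mem _ hj fun π _ h => u3 π j fun h' => h h'.2.symm]
      simp only [hu]
      split_ifs
      · exact inv_anti₀ hΦ' (Nat.cast_le.2 (hΦ _ hj))
      · positivity
    · rw [sum_eq_zero fun π hπ => u3 π j fun h' => hj (h'.2 ▸ hπ)]
      positivity
  obtain ⟨l', hl'⟩ : ∃ l' : Fin n → ℝ, l' = fun j => lam j - k * (F * ∑ π ∈ Fr, u π j) := ⟨_, rfl⟩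
  have l0 : ∀ j, 0 ≤ l' j := fun j => by
    have := mul_le_mul_of_nonneg_left (u4 j) (show (0 : ℝ) ≤ k * F by positivity)
    have h2 := hlam j
    rw [div_eq_mul_inv] at h2
    simp only [hl']
    linarith
  obtain ⟨m, hm'⟩ : ∃ m : Fin k → ℝ,
    m = fun h => ∑ j ∈ univ.filter (fun j => cls j = some h), lam j := ⟨_, rfl⟩
  obtain ⟨g', hg'⟩ : ∃ g' : ℝ, g' = g - Fr.card * F := ⟨_, rfl⟩
  have m0 : ∀ h, 0 ≤ m h := fun h => hm' ▸ sum_nonneg fun j _ => hlam0 j
  have m1 : ∀ h, m h < g' := fun h => by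
    have := hm h
    simp only [hm', hg']
    linarith
  have g0 : 0 < g' := (m0 ⟨0, hk⟩).trans_lt (m1 _)
  obtain ⟨Λ, hΛ⟩ : ∃ Λ : ℝ, Λ = ∑ j ∈ univ.filter (fun j => cls j = none), l' j := ⟨_, rfl⟩
  have hΛ1 : ∑ h, (g' - m h) ≤ Λ := by
    have a1 := sum_fiberwise univ cls lam
    rw [Fintype.sum_option] at a1
    have a2 : ∑ j ∈ univ.filter (fun j => cls j = none), ∑ π ∈ Fr, u π j ≤ Fr.card := by
      refine (sum_le_sum_of_subset_of_nonneg (filter_subset _ _)
        fun j _ _ => sum_nonneg fun π _ => u0 π j).trans ?_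
      rw [sum_comm, sum_congr rfl u1]
      simp
    have a3 := mul_le_mul_of_nonneg_left a2 (show (0 : ℝ) ≤ k * F by positivity)
    simp only [hΛ, hl', hm', hg', sum_sub_distrib, ← mul_sum, sum_const, card_univ,
      Fintype.card_fin, nsmul_eq_mul]
    linarith
  have hΛ0 : 0 < Λ :=
    (sum_pos (fun h _ => sub_pos.2 (m1 h)) ⟨⟨0, hk⟩, mem_univ _⟩).trans_le hΛ1
  obtain ⟨z, hz⟩ : ∃ z : Fin k → Fin n → ℝ, z = fun h j =>
    (if cls j = some h then lam j / g' else 0) +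
      (if cls j = none then l' j * ((g' - m h) / (g' * Λ)) else 0) := ⟨_, rfl⟩
  have z0 : ∀ h j, 0 ≤ z h j := fun h j => by
    have a1 := hlam0 j
    have a2 := l0 j
    have a3 := (sub_pos.2 (m1 h)).le
    simp only [hz]
    split_ifs <;> positivity
  have z1 : ∀ h, ∑ j, z h j = 1 := fun h => by
    simp only [hz]
    rw [sum_add_distrib, ← sum_filter, ← sum_filter, ← sum_div, ← sum_mul, ← hΛ,
      show ∑ j ∈ univ.filter (fun j => cls j = some h), lam j = m h by rw [hm']]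
    field_simp
    ring
  have z2 : ∀ h j, 0 < z h j → cls j = none ∨ cls j = some h := fun h j h1 => by
    by_contra h'
    rw [not_or] at h'
    simp only [hz, if_neg h'.1, if_neg h'.2, add_zero] at h1
    exact lt_irrefl _ h1
  have hFg : Fr.card * F ≤ g := by
    have : ((Fr.card * F : ℕ) : ℝ) ≤ g := by
      push_cast
      linarith
    exact_mod_cast this
  choose y y1 y2 y3 using fun h => frac_block F u (z h) Fr (G h) ((hG h).symm ▸ hFg)
  obtain ⟨hh, hhh⟩ : ∃ hh : Fin n → Fin k, ∀ h, ∀ a ∈ G h, hh a = h := by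
    have : ∀ a, ∃ h0 : Fin k, ∀ h, a ∈ G h → h0 = h := fun a => by
      by_cases ha : ∃ h, a ∈ G h
      · obtain ⟨h0, ha⟩ := ha
        exact ⟨h0, fun h h1 => by_contra fun h2 => disjoint_left.1 (hd h0 h h2) ha h1⟩
      · exact ⟨⟨0, hk⟩, fun h h1 => absurd ⟨h, h1⟩ ha⟩
    choose hh h using this
    exact ⟨hh, fun h0 a ha => h a h0 ha⟩
  refine ⟨fun a => y (hh a) a, fun a j => ?_, fun a => ?_, fun h a ha j hj => ?_,
    fun h π hπ => ?_, fun j => ?_⟩
  · rcases y1 (hh a) a with e | ⟨π, -, e⟩ <;> simp only [e]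
    exacts [z0 _ _, u0 _ _]
  · rcases y1 (hh a) a with e | ⟨π, hπ, e⟩ <;> simp only [e]
    exacts [z1 _, u1 _ hπ]
  · simp only [hhh h a ha] at hj
    rcases y1 h a with e | ⟨π, -, e⟩ <;> rw [e] at hj
    exacts [z2 _ _ hj, Or.inl (u2 _ _ hj).1]
  · obtain ⟨S, h1, h2, h3⟩ := y2 h π hπ
    refine ⟨S, h1, h2, fun a ha j hj => ?_⟩
    simp only [hhh h a (h1 ha), h3 a ha] at hj
    exact (u2 _ _ hj).2
  · rw [sum_biUnion fun h _ h' _ e => hd h h' e, sum_congr rfl
      (g := fun h => F * ∑ π ∈ Fr, u π j + g' * z h j) fun h _ => by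
        rw [sum_congr rfl (g := fun a => y h a j) (fun a ha => by simp only [hhh h a ha]), y3, hG,
          hg'], sum_add_distrib, sum_const, card_univ, Fintype.card_fin, nsmul_eq_mul]
    cases e : cls j with
    | none =>
      have a1 : ∑ h, g' * z h j = l' j * ((∑ h, (g' - m h)) / Λ) := by
        rw [sum_div, mul_sum]
        refine sum_congr rfl fun h _ => ?_
        simp only [hz, e, reduceCtorEq, if_false, if_true, zero_add]
        field_simp
      have a2 := mul_le_mul_of_nonneg_left ((div_le_one hΛ0).2 hΛ1) (l0 j)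
      rw [a1]
      simp only [hl'] at a2 ⊢
      linarith
    | some h0 =>
      rw [sum_eq_zero fun π _ => u3 π j (by simp [e]), sum_eq_single h0 (fun h _ h1 => by
        simp [hz, e, h1.symm]) (by simp)]
      simp only [hz, e, reduceCtorEq, if_false, if_true, add_zero, mul_zero, zero_add]
      rw [mul_div_cancel₀ _ g0.ne']

theorem frac {n k : ℕ} {T : Type} [DecidableEq T] (hn : 0 < n) (hk : 0 < k)
    (G : Fin k → Finset (Fin n)) (g : ℕ) (hG : ∀ h, (G h).card = g)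
    (hd : ∀ h h', h ≠ h' → Disjoint (G h) (G h'))
    (cls : Fin n → Option (Fin k)) (ty : Fin n → T) (Fr : Finset T)
    (H L : Fin n → Finset (Fin n)) (Lmin Φ F f : ℕ)
    (hL0 : 0 < Lmin) (hL : ∀ a, Lmin ≤ (L a).card) (hLc : ∀ a, ∀ j ∈ L a, cls j = none)
    (hΦ0 : 0 < Φ) (hΦ : ∀ π ∈ Fr, Φ ≤ (univ.filter fun j => cls j = none ∧ ty j = π).card)
    (hf : ∑ a ∈ (univ.biUnion G)ᶜ, (H a).card ≤ f * n)
    (h1 : 2 * f * n ≤ k * g * Lmin) (h2 : 2 * F * n ≤ g * Φ)
    (h3 : k * g * (univ.filter fun j => cls j ≠ none).card + (f + Fr.card * F) * n < g * n) :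
    ∃ (x : Fin n → Opt n → ℝ) (load : Fin n → ℝ),
      (∀ a o, 0 ≤ x a o) ∧ (∀ a, ∑ o, x a o = 1) ∧
      (∀ j, 0 ≤ load j ∧ load j ≤ f / Lmin) ∧
      (∀ a j, 0 < x a (.inl j) → a ∉ univ.biUnion G ∧ j ∉ H a) ∧
      (∀ a j, 0 < x a (.inr (.inl j)) → ∃ h, a ∈ G h ∧ (cls j = none ∨ cls j = some h)) ∧
      (∀ a j, 0 < x a (.inr (.inr j)) → a ∉ univ.biUnion G ∧ (H a).Nonempty ∧ j ∈ L a) ∧
      (∀ h, ∀ π ∈ Fr, ∃ S ⊆ G h, S.card = F ∧
        ∀ a ∈ S, ∀ o, 0 < x a o → ∃ j, o = .inr (.inl j) ∧ ty j = π) ∧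
      ∀ (fo : Fin n → Fin n → ℝ) (fh fm : Fin n → ℝ), (∀ j, 0 ≤ fh j) →
        ∑ a, (∑ j, x a (.inl j) * fo a j + ∑ j, x a (.inr (.inl j)) * fh j +
            ∑ j, x a (.inr (.inr j)) * fm j) ≤
          (∑ a ∈ (univ.biUnion G)ᶜ, (∑ j ∈ (H a)ᶜ, fo a j + ∑ j ∈ H a, fh j) +
            k * g * ∑ j, fh j) / n + ∑ j, load j * (fm j - fh j) := by
  have hn' : (0 : ℝ) < n := by exact_mod_cast hn
  have hL' : (0 : ℝ) < Lmin := by exact_mod_cast hL0
  have hΦ' : (0 : ℝ) < Φ := by exact_mod_cast hΦ0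
  have hLa : ∀ a, (Lmin : ℝ) ≤ (L a).card := fun a => Nat.cast_le.2 (hL a)
  obtain ⟨B, hB⟩ : ∃ B, B = univ.biUnion G := ⟨_, rfl⟩
  rw [← hB] at hf ⊢
  obtain ⟨ex, hex⟩ : ∃ ex : Fin n → Fin n → ℝ,
    ex = fun a j => if j ∈ H a then (n : ℝ)⁻¹ else 0 := ⟨_, rfl⟩
  obtain ⟨ml, hml⟩ : ∃ ml : Fin n → Fin n → ℝ,
    ml = fun a j => if j ∈ L a then ((H a).card : ℝ) / n / (L a).card else 0 := ⟨_, rfl⟩
  have ex0 : ∀ a j, 0 ≤ ex a j := fun a j => by
    simp only [hex]
    split_ifs <;> positivity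
  have ml0 : ∀ a j, 0 ≤ ml a j := fun a j => by
    simp only [hml]
    split_ifs <;> positivity
  have ex1 : ∀ a, ∑ j, ex a j = (H a).card / n := fun a => by
    simp only [hex]
    rw [sum_ite_mem, univ_inter, sum_const, nsmul_eq_mul, div_eq_mul_inv]
  have ml1 : ∀ a, ∑ j, ml a j = (H a).card / n := fun a => by
    simp only [hml]
    rw [sum_ite_mem, univ_inter, sum_const, nsmul_eq_mul,
      mul_div_cancel₀ _ (hL'.trans_le (hLa a)).ne']
  have hf' : ∑ a ∈ Bᶜ, ((H a).card : ℝ) / n ≤ f := by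
    rw [← sum_div, div_le_iff₀ hn']
    exact_mod_cast hf
  have hload : ∀ j, ∑ a ∈ Bᶜ, ml a j ≤ f / Lmin := fun j => by
    refine le_trans (sum_le_sum fun a _ => show _ ≤ ((H a).card : ℝ) / n / Lmin from ?_) ?_
    · simp only [hml]
      split_ifs
      · exact div_le_div_of_nonneg_left (by positivity) hL' (hLa a)
      · positivity
    · rw [← sum_div]
      exact div_le_div_of_nonneg_right hf' hL'.le
  have c1 : (f : ℝ) / Lmin ≤ k * g / n / 2 := by
    rw [div_div, div_le_div_iff₀ hL' (by positivity)]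
    have : (2 : ℝ) * f * n ≤ k * g * Lmin := by exact_mod_cast h1
    linarith
  have c2 : (k : ℝ) * F / Φ ≤ k * g / n / 2 := by
    rw [div_div, div_le_div_iff₀ hΦ' (by positivity)]
    have : (2 : ℝ) * F * n ≤ g * Φ := by exact_mod_cast h2
    nlinarith [mul_le_mul_of_nonneg_left this (Nat.cast_nonneg (α := ℝ) k)]
  obtain ⟨Y, y0, y1, y2, y3, y4⟩ := frac_members hk G g hG hd cls ty Fr Φ F hΦ0 hΦ
    (fun j => k * g / n + ∑ a ∈ Bᶜ, ex a j - ∑ a ∈ Bᶜ, ml a j)
    (fun j => by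
      have a1 := hload j
      have a2 : 0 ≤ ∑ a ∈ Bᶜ, ex a j := sum_nonneg fun a _ => ex0 a j
      linarith)
    (by
      rw [sum_sub_distrib, sum_add_distrib, sum_comm, sum_comm (s := univ) (t := Bᶜ)]
      simp only [ex1, ml1, sum_const, card_univ, Fintype.card_fin, nsmul_eq_mul]
      rw [mul_div_cancel₀ _ hn'.ne']
      linarith)
    (fun h => by
      have a1 : ∑ j ∈ univ.filter (fun j => cls j = some h), ∑ a ∈ Bᶜ, ex a j ≤ f := by
        refine (sum_le_sum_of_subset_of_nonneg (filter_subset _ _)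
          fun j _ _ => sum_nonneg fun a _ => ex0 a j).trans ?_
        rw [sum_comm]
        simpa only [ex1] using hf'
      have a2 : 0 ≤ ∑ j ∈ univ.filter (fun j => cls j = some h), ∑ a ∈ Bᶜ, ml a j :=
        sum_nonneg fun j _ => sum_nonneg fun a _ => ml0 a j
      have a3 : ((univ.filter fun j => cls j = some h).card : ℝ) ≤
          (univ.filter fun j => cls j ≠ none).card :=
        Nat.cast_le.2 (card_le_card fun j hj => by
          rw [mem_filter] at hj ⊢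
          exact ⟨hj.1, by simp [hj.2]⟩)
      have a4 : (k : ℝ) * g * (univ.filter fun j => cls j ≠ none).card +
          (f + Fr.card * F) * n < g * n := by exact_mod_cast h3
      have a5 : ((univ.filter fun j => cls j = some h).card : ℝ) * (k * g / n) +
          (f + Fr.card * F) < g := by
        refine lt_of_mul_lt_mul_right ?_ hn'.le
        rw [add_mul, mul_assoc, div_mul_cancel₀ _ hn'.ne']
        nlinarith [mul_le_mul_of_nonneg_left a3 (show (0 : ℝ) ≤ k * g by positivity)]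
      rw [sum_sub_distrib, sum_add_distrib, sum_const, nsmul_eq_mul]
      linarith)
  rw [← hB] at y4
  refine ⟨fun a => Sum.elim (fun j => if a ∈ B then 0 else (n : ℝ)⁻¹ - ex a j)
    (Sum.elim (fun j => if a ∈ B then Y a j else 0) fun j => if a ∈ B then 0 else ml a j),
    fun j => ∑ a ∈ Bᶜ, ml a j, ?_, fun a => ?_,
    fun j => ⟨sum_nonneg fun a _ => ml0 a j, hload j⟩, fun a j h => ?_, fun a j h => ?_,
    fun a j h => ?_, fun h π hπ => ?_, fun fo fh fm hfh => ?_⟩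
  · rintro a (j | j | j) <;> simp only [Sum.elim_inl, Sum.elim_inr] <;> split_ifs
    · exact le_rfl
    · simp only [hex]
      split_ifs
      · simp
      · simp
    exacts [y0 a j, le_rfl, le_rfl, ml0 a j]
  · rw [Fintype.sum_sum_type, Fintype.sum_sum_type]
    simp only [Sum.elim_inl, Sum.elim_inr]
    by_cases ha : a ∈ B
    · simp only [if_pos ha, sum_const_zero, y1, zero_add, add_zero]
    · simp only [if_neg ha, sum_const_zero, sum_sub_distrib, ex1, ml1, sum_const, card_univ,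
        Fintype.card_fin, nsmul_eq_mul]
      rw [mul_inv_cancel₀ hn'.ne']
      ring
  · simp only [Sum.elim_inl] at h
    split_ifs at h with ha
    · exact absurd h (lt_irrefl _)
    · exact ⟨ha, fun hj => by simp [hex, hj] at h⟩
  · simp only [Sum.elim_inl, Sum.elim_inr] at h
    split_ifs at h with ha
    · obtain ⟨h0, -, h4⟩ := mem_biUnion.1 (hB ▸ ha)
      exact ⟨h0, h4, y2 h0 a h4 j h⟩
    · exact absurd h (lt_irrefl _)
  · simp only [Sum.elim_inr] at h
    split_ifs at h with ha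
    · exact absurd h (lt_irrefl _)
    · refine ⟨ha, nonempty_iff_ne_empty.2 fun e => ?_, by_contra fun hj => ?_⟩
      · simp [hml, e] at h
      · simp [hml, hj] at h
  · obtain ⟨S, s1, s2, s3⟩ := y3 h π hπ
    refine ⟨S, s1, s2, fun a ha => ?_⟩
    have haB : a ∈ B := hB ▸ mem_biUnion.2 ⟨h, mem_univ _, s1 ha⟩
    rintro (j | j | j) hj <;> simp only [Sum.elim_inl, Sum.elim_inr, if_pos haB] at hj
    · exact absurd hj (lt_irrefl _)
    · exact ⟨j, rfl, s3 a ha j hj⟩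
    · exact absurd hj (lt_irrefl _)
  · simp only [Sum.elim_inl, Sum.elim_inr]
    rw [← sum_add_sum_compl B, sum_congr rfl (g := fun a => ∑ j, Y a j * fh j)
      (fun a ha => by simp only [if_pos ha, zero_mul, sum_const_zero, zero_add, add_zero]),
      sum_congr rfl (s₁ := Bᶜ) (g := fun a => (∑ j ∈ (H a)ᶜ, fo a j) / n + ∑ j, ml a j * fm j)
      (fun a ha => by
        simp only [if_neg (mem_compl.1 ha), zero_mul, sum_const_zero, add_zero]
        congr 1
        rw [← sum_add_sum_compl (H a), sum_eq_zero (fun j hj => by simp [hex, hj]), zero_add,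
          sum_div]
        exact sum_congr rfl fun j hj => by
          simp only [hex, if_neg (mem_compl.1 hj), sub_zero]
          ring)]
    have a1 : ∑ a ∈ B, ∑ j, Y a j * fh j ≤
        ∑ j, (k * g / n + ∑ a ∈ Bᶜ, ex a j - ∑ a ∈ Bᶜ, ml a j) * fh j := by
      rw [sum_comm]
      exact sum_le_sum fun j _ => by
        rw [← sum_mul]
        exact mul_le_mul_of_nonneg_right (y4 j) (hfh j)
    have a2 : ∑ j, (∑ a ∈ Bᶜ, ex a j) * fh j = (∑ a ∈ Bᶜ, ∑ j ∈ H a, fh j) / n := by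
      simp only [sum_mul]
      rw [sum_comm, sum_div]
      refine sum_congr rfl fun a _ => ?_
      simp only [hex, ite_mul, zero_mul]
      rw [sum_ite_mem, univ_inter, ← mul_sum]
      ring
    have a3 : ∑ a ∈ Bᶜ, ∑ j, ml a j * fm j = ∑ j, (∑ a ∈ Bᶜ, ml a j) * fm j := by
      rw [sum_comm]
      simp only [sum_mul]
    simp only [sub_mul, add_mul, sum_sub_distrib, sum_add_distrib, ← mul_sum] at a1
    simp only [mul_sub, sum_sub_distrib, sum_add_distrib, ← sum_div, add_div]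
    rw [a2] at a1
    rw [a3, mul_div_right_comm]
    linarith

end Pool.Agent.Lib.MP_5049a2_lc.TR
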