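import Pool.Agent.Lib.MP_5049a2_lc.TRDefs

/-! Crowded positions, and bundles of the leader which a given agent likes. -/

namespace Pool.Agent.Lib.MP_5049a2_lc.TR

open Finset

theorem zones {n : ℕ} (Bk : Fin n → Finset ℕ) (k : ℕ) (hk : ∀ a, (Bk a).card ≤ k)
    (h0 : ∀ a, 0 ∈ Bk a) (Z m : ℕ) :
    ∃ Gs : Finset ℕ, Gs.card ≤ 2 * k ∧ ∀ t ≤ m, (∃ g ∈ Gs, g ≤ t ∧ t ≤ g + 2 * Z) ∨
      n ≤ 2 * (univ.filter fun a => Z < t - pv (Bk a) t).card := by
  rcases Nat.eq_zero_or_pos n with hn | hn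
  · exact ⟨∅, by simp, fun t _ => Or.inr (by omega)⟩
  obtain ⟨Sel, hsub, hdis, hcov⟩ := vitali (fun _ => (Z : ℝ)) (fun _ => Nat.cast_nonneg Z)
    ((range (m + 1)).filter fun t => 2 * (univ.filter fun a => Z < t - pv (Bk a) t).card < n)
  refine ⟨Sel.image (· - Z), card_image_le.trans ?_, fun t ht => ?_⟩
  · have h1 : ∀ g ∈ Sel, n ≤ 2 * (univ.filter fun a => ¬ Z < g - pv (Bk a) g).card := by
      intro g hg
      have h2 := (mem_filter.1 (hsub hg)).2
      have h3 := card_filter_add_card_filter_not (s := (univ : Finset (Fin n)))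
        (fun a => Z < g - pv (Bk a) g)
      rw [card_univ, Fintype.card_fin] at h3
      omega
    have h2 : ∀ a, (Sel.filter fun g => ¬ Z < g - pv (Bk a) g).card ≤ k := by
      intro a
      refine le_trans (card_le_card_of_injOn (fun g => pv (Bk a) g) (fun g _ => ?_)
        (fun g hg g' hg' he => ?_)) (hk a)
      · have := pv_mem (Bk a) g
        rwa [insert_eq_of_mem (h0 a)] at this
      · obtain ⟨h3, h4⟩ := mem_filter.1 (mem_coe.1 hg)
        obtain ⟨h5, h6⟩ := mem_filter.1 (mem_coe.1 hg')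
        have h7 := pv_le (Bk a) g
        have h8 := pv_le (Bk a) g'
        simp only at he
        have e1 : g ≤ g' + Z := by omega
        have e2 : g' ≤ g + Z := by omega
        have e1' : (g : ℝ) ≤ g' + Z := by exact_mod_cast e1
        have e2' : (g' : ℝ) ≤ g + Z := by exact_mod_cast e2
        exact hdis g h3 g' h5 (by linarith) (by linarith)
    have h3 : ∑ g ∈ Sel, (univ.filter fun a => ¬ Z < g - pv (Bk a) g).card =
        ∑ a, (Sel.filter fun g => ¬ Z < g - pv (Bk a) g).card := by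
      simp only [card_filter]
      exact Finset.sum_comm
    have h4 : ∑ a, (Sel.filter fun g => ¬ Z < g - pv (Bk a) g).card ≤ n * k := by
      simpa using Finset.sum_le_sum (s := univ) fun a _ => h2 a
    have h5 := Finset.sum_le_sum h1
    rw [sum_const, smul_eq_mul, ← Finset.mul_sum, h3] at h5
    have h6 : Sel.card * n ≤ 2 * k * n := by nlinarith
    exact Nat.le_of_mul_le_mul_right h6 hn
  · by_cases hc : n ≤ 2 * (univ.filter fun a => Z < t - pv (Bk a) t).card
    · exact Or.inr hc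
    · obtain ⟨g, hg, -, h1, h2⟩ := hcov t (mem_filter.2 ⟨mem_range.2 (by omega), not_le.1 hc⟩)
      have e1 : (t : ℝ) ≤ g + Z := by linarith
      have e2 : (g : ℝ) ≤ t + Z := by linarith
      have e1' : t ≤ g + Z := by exact_mod_cast e1
      have e2' : g ≤ t + Z := by exact_mod_cast e2
      exact Or.inl ⟨g - Z, mem_image_of_mem _ hg, by omega, by omega⟩

lemma mim_tl_nat {n : ℕ} (x0 : ℕ) (j : Fin n) (t : ℕ) : tl x0 j t ≤ (t - x0) / n + 1 := by
  unfold tl
  rw [← card_range ((t - x0) / n + 1)]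
  refine card_le_card_of_injOn (fun p => (p - x0) / n) (fun p hp => ?_) (fun p hp q hq he => ?_)
  · have h1 := mem_Ico.1 (mem_filter.1 (mem_coe.1 hp)).1
    have h2 : (p - x0) / n ≤ (t - x0) / n := Nat.div_le_div_right (by omega)
    exact mem_coe.2 (mem_range.2 (Nat.lt_succ_of_le h2))
  · obtain ⟨h1, h2⟩ := mem_filter.1 (mem_coe.1 hp)
    obtain ⟨h3, h4⟩ := mem_filter.1 (mem_coe.1 hq)
    have h5 := (mem_Ico.1 h1).1
    have h6 := (mem_Ico.1 h3).1
    have h7 : p - x0 + x0 ≡ q - x0 + x0 [MOD n] := by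
      rw [Nat.sub_add_cancel h5, Nat.sub_add_cancel h6, Nat.ModEq, h2, h4]
    have h8 : (p - x0) % n = (q - x0) % n := Nat.ModEq.add_right_cancel' x0 h7
    have h9 := Nat.div_add_mod (p - x0) n
    have h10 := Nat.div_add_mod (q - x0) n
    simp only at he
    rw [he, h8] at h9
    omega

lemma tl_le {n : ℕ} (x0 : ℕ) (j : Fin n) (t : ℕ) :
    (tl x0 j t : ℝ) ≤ ((t - x0 : ℕ) : ℝ) / n + 1 := by
  have h1 : (tl x0 j t : ℝ) ≤ (((t - x0) / n + 1 : ℕ) : ℝ) := by exact_mod_cast mim_tl_nat x0 j t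
  have h2 : (((t - x0) / n : ℕ) : ℝ) ≤ ((t - x0 : ℕ) : ℝ) / n := Nat.cast_div_le
  rw [Nat.cast_add, Nat.cast_one] at h1
  linarith

lemma tl_le' {n : ℕ} {x0 Z : ℕ} (hZ : 0 < Z) (hZn : Z ≤ n) (j : Fin n)
    (h : ∀ p, x0 ≤ p → p < x0 + Z → p % n ≠ j) (t : ℕ) :
    (tl x0 j t : ℝ) ≤ 2 * ((t - x0 : ℕ) : ℝ) / Z := by
  have hZ' : (0 : ℝ) < Z := by exact_mod_cast hZ
  by_cases ht : t - x0 ≤ Z
  · have : tl x0 j t = 0 := by
      unfold tl
      rw [card_eq_zero, filter_eq_empty_iff]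
      intro p hp
      have := mem_Ico.1 hp
      exact h p this.1 (by omega)
    rw [this, Nat.cast_zero]
    positivity
  · have h1 := tl_le x0 j t
    have h2 : ((t - x0 : ℕ) : ℝ) / n ≤ ((t - x0 : ℕ) : ℝ) / Z :=
      div_le_div_of_nonneg_left (Nat.cast_nonneg _) hZ' (by exact_mod_cast hZn)
    have h3 : 1 ≤ ((t - x0 : ℕ) : ℝ) / Z := by
      rw [le_div_iff₀ hZ', one_mul]
      exact_mod_cast (not_le.1 ht).le
    rw [mul_div_assoc]
    linarith

lemma mim_val (m : ℕ) (w : ℕ → ℝ) (q : ℕ → Prop) [DecidablePred q] :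
    Val m w (fun t => ((range t).filter q).card) = ∑ p ∈ (range m).filter q, w p := by
  unfold Val
  rw [Finset.sum_filter]
  refine Finset.sum_congr rfl fun p _ => ?_
  simp only [range_add_one, filter_insert]
  split_ifs with h
  · rw [card_insert_of_notMem (by simp)]; push_cast; ring
  · ring

lemma mim_val_eq {n : ℕ} (m : ℕ) (w : ℕ → ℝ) (bun : ℕ → Fin n) (xb x0 : ℕ) (j : Fin n) :
    Val m w (fun t => cnt bun xb j t + tl x0 j t) =
      ∑ p ∈ (range m).filter (fun p => p < xb ∧ bun p = j), w p +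
        ∑ p ∈ (range m).filter (fun p => x0 ≤ p ∧ p % n = j), w p := by
  rw [Val_add, ← mim_val, ← mim_val]
  congr 2
  · funext t
    unfold cnt
    congr 1
    ext p
    simp only [mem_filter, mem_range]
    tauto
  · funext t
    unfold tl
    congr 1
    ext p
    simp only [mem_filter, mem_range, mem_Ico]
    tauto

lemma mim_mod_le {n : ℕ} (I : Inst n) (b j : Fin n) :
    ∑ p ∈ (range I.m).filter (fun p => p % n = j), I.w b p ≤ 2 := by
  have hn' : (0 : ℝ) < n := by exact_mod_cast j.pos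
  have h5 := abel_bound (I.w b)
    (fun t => (((range t).filter fun p => p % n = j).card : ℝ) - t / n) (I.anti b) (I.nonneg b) 0
    (by simp) (fun t => by linarith [card_mod_le j.pos j t]) I.m (Nat.zero_le _)
  have h6 : ∑ p ∈ Ico 0 I.m, (((((range (p + 1)).filter fun p => p % n = j).card : ℝ) -
      ((p + 1 : ℕ) : ℝ) / n) - ((((range p).filter fun p => p % n = j).card : ℝ) - p / n)) * I.w b p =
      ∑ p ∈ (range I.m).filter (fun p => p % n = j), I.w b p - (∑ p ∈ range I.m, I.w b p) / n := by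
    rw [Finset.sum_filter, Finset.sum_div, ← Finset.sum_sub_distrib, range_eq_Ico]
    refine Finset.sum_congr rfl fun p _ => ?_
    rw [range_add_one, filter_insert]
    split_ifs with h
    · rw [card_insert_of_notMem (by simp)]; push_cast; ring
    · push_cast; ring
  rw [h6, I.total, div_self hn'.ne'] at h5
  linarith [I.w_le_one b 0]

lemma mim_sum {n : ℕ} (I : Inst n) (bun : ℕ → Fin n) (xb x0 : ℕ) (b : Fin n) :
    (n : ℝ) - ((x0 - xb : ℕ) : ℝ) ≤
      ∑ j, Val I.m (I.w b) (fun t => cnt bun xb j t + tl x0 j t) := by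
  simp only [mim_val_eq, Finset.sum_filter, ← Finset.sum_add_distrib]
  rw [Finset.sum_comm]
  have h1 : ∀ p ∈ range I.m, I.w b p - (if p ∈ Ico xb x0 then (1 : ℝ) else 0) ≤
      ∑ j : Fin n, ((if p < xb ∧ bun p = j then I.w b p else 0) +
        if x0 ≤ p ∧ p % n = j then I.w b p else 0) := by
    intro p _
    have e1 : ∑ j : Fin n, (if p < xb ∧ bun p = j then I.w b p else 0) =
        if p < xb then I.w b p else 0 := by
      by_cases hp : p < xb <;> simp [hp]
    have e2 : ∑ j : Fin n, (if x0 ≤ p ∧ p % n = j then I.w b p else 0) =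
        if x0 ≤ p then I.w b p else 0 := by
      by_cases hp : x0 ≤ p
      · rw [Finset.sum_eq_single (⟨p % n, Nat.mod_lt _ b.pos⟩ : Fin n)]
        · simp [hp]
        · intro j _ hj
          rw [if_neg]
          exact fun hc => hj (Fin.ext hc.2.symm)
        · simp
      · simp [hp]
    rw [Finset.sum_add_distrib, e1, e2]
    have h2 := I.w_le_one b p
    have h3 := I.nonneg b p
    simp only [mem_Ico]
    split_ifs <;> first | linarith | omega
  have h2 := Finset.sum_le_sum h1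
  rw [Finset.sum_sub_distrib, I.total, ← Finset.sum_filter, sum_const, nsmul_eq_mul, mul_one] at h2
  have h3 : ((range I.m).filter fun p => p ∈ Ico xb x0).card ≤ x0 - xb := by
    rw [← Nat.card_Ico]
    exact card_le_card fun p hp => (mem_filter.1 hp).2
  have h4 : (((range I.m).filter fun p => p ∈ Ico xb x0).card : ℝ) ≤ ((x0 - xb : ℕ) : ℝ) := by
    exact_mod_cast h3
  linarith

theorem mimic {n : ℕ} (I : Inst n) {r : ℕ} (hr : 2 ≤ r) (bun : ℕ → Fin n) (xb x0 : ℕ)
    (hx : xb ≤ x0) (hR : ∀ j, ((range xb).filter fun p => bun p = j).card ≤ 2 * r)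
    (Gs : Finset ℕ) (Ex : Finset (Fin n)) (Z Lmin : ℕ)
    (h : r * (2 * r + 2) * (Lmin + Ex.card + (Gs.card + 1) * Z) + r * (x0 - xb) ≤ n) (b : Fin n) :
    ∃ L : Finset (Fin n), Lmin ≤ L.card ∧ ∀ j ∈ L, j ∉ Ex ∧
      (∀ g ∈ Gs, ∀ p, g ≤ p → p < g + Z → p < xb → bun p ≠ j) ∧
      (∀ p, x0 ≤ p → p < x0 + Z → p % n ≠ j) ∧
      1 - 1 / (r : ℝ) ≤ Val I.m (I.w b) (fun t => cnt bun xb j t + tl x0 j t) := by
  classical
  have hr' : (0 : ℝ) < r := by exact_mod_cast (by omega : 0 < r)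
  have hr1 : (1 : ℝ) ≤ r := by exact_mod_cast (by omega : 1 ≤ r)
  set val : Fin n → ℝ := fun j => Val I.m (I.w b) (fun t => cnt bun xb j t + tl x0 j t) with hval
  have hup : ∀ j, val j ≤ 2 * r + 2 := by
    intro j
    simp only [hval, mim_val_eq]
    have h1 : ∑ p ∈ (range I.m).filter (fun p => p < xb ∧ bun p = j), I.w b p ≤ 2 * r := by
      calc _ ≤ ∑ _p ∈ (range I.m).filter (fun p => p < xb ∧ bun p = j), (1 : ℝ) :=
            Finset.sum_le_sum fun p _ => I.w_le_one b p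
        _ = ((range I.m).filter fun p => p < xb ∧ bun p = j).card := by simp
        _ ≤ ((range xb).filter fun p => bun p = j).card := by
            refine Nat.cast_le.2 (card_le_card fun p hp => ?_)
            exact mem_filter.2 ⟨mem_range.2 (mem_filter.1 hp).2.1, (mem_filter.1 hp).2.2⟩
        _ ≤ 2 * r := by exact_mod_cast hR j
    have h2 : ∑ p ∈ (range I.m).filter (fun p => x0 ≤ p ∧ p % n = j), I.w b p ≤
        ∑ p ∈ (range I.m).filter (fun p => p % n = j), I.w b p :=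
      Finset.sum_le_sum_of_subset_of_nonneg
        (fun p hp => mem_filter.2 ⟨(mem_filter.1 hp).1, (mem_filter.1 hp).2.2⟩)
        fun p _ _ => I.nonneg b p
    linarith [mim_mod_le I b j]
  set K := univ.filter fun j => 1 - 1 / (r : ℝ) ≤ val j with hK
  have hε : 0 ≤ 1 - 1 / (r : ℝ) := sub_nonneg.2 ((div_le_one hr').2 hr1)
  have h1 : ∑ j, val j ≤ ∑ j : Fin n, ((if j ∈ K then 2 * (r : ℝ) + 2 else 0) + (1 - 1 / r)) := by
    refine Finset.sum_le_sum fun j _ => ?_
    split_ifs with hj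
    · linarith [hup j]
    · have : ¬ 1 - 1 / (r : ℝ) ≤ val j := fun hc => hj (mem_filter.2 ⟨mem_univ _, hc⟩)
      linarith [not_le.1 this]
  rw [Finset.sum_add_distrib, ← Finset.sum_filter, filter_mem_eq_inter, univ_inter, sum_const,
    sum_const, card_univ, Fintype.card_fin, nsmul_eq_mul, nsmul_eq_mul] at h1
  have h2 := (mim_sum I bun xb x0 b).trans h1
  have h3 : (n : ℝ) ≤ r * (2 * r + 2) * K.card + r * ((x0 - xb : ℕ) : ℝ) := by
    have e : (n : ℝ) * (1 - 1 / r) = n - n / r := by ring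
    rw [e] at h2
    have h4 : (n : ℝ) / r ≤ K.card * (2 * r + 2) + ((x0 - xb : ℕ) : ℝ) := by linarith
    rw [div_le_iff₀ hr'] at h4
    linarith
  have h4 : n ≤ r * (2 * r + 2) * K.card + r * (x0 - xb) := by exact_mod_cast h3
  have h5 : Lmin + Ex.card + (Gs.card + 1) * Z ≤ K.card :=
    Nat.le_of_mul_le_mul_left (c := r * (2 * r + 2)) (by omega) (by positivity)
  set B1 := (Gs.biUnion fun g => Ico g (g + Z)).image bun with hB1
  set B2 := (Ico x0 (x0 + Z)).image fun p => (⟨p % n, Nat.mod_lt _ b.pos⟩ : Fin n) with hB2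
  have c1 : B1.card ≤ Gs.card * Z := by
    refine card_image_le.trans (card_biUnion_le.trans (le_of_eq ?_))
    simp
  have c2 : B2.card ≤ Z := card_image_le.trans (by simp)
  refine ⟨K \ (Ex ∪ (B1 ∪ B2)), ?_, fun j hj => ?_⟩
  · have c3 := le_card_sdiff (Ex ∪ (B1 ∪ B2)) K
    have c4 := card_union_le Ex (B1 ∪ B2)
    have c5 := card_union_le B1 B2
    have c6 : (Gs.card + 1) * Z = Gs.card * Z + Z := by ring
    omega
  · obtain ⟨j1, j2⟩ := mem_sdiff.1 hj
    rw [mem_union, mem_union, not_or, not_or] at j2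
    refine ⟨j2.1, fun g hg p p1 p2 _ he => j2.2.1 ?_, fun p p1 p2 he => j2.2.2 ?_,
      (mem_filter.1 j1).2⟩
    · exact mem_image.2 ⟨p, mem_biUnion.2 ⟨g, hg, mem_Ico.2 ⟨p1, p2⟩⟩, he⟩
    · exact mem_image.2 ⟨p, mem_Ico.2 ⟨p1, p2⟩, Fin.ext he⟩

end Pool.Agent.Lib.MP_5049a2_lc.TR
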