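import Pool.Agent.Lib.MP_5049a2_lc.TRExch
import Pool.Agent.Lib.MP_5049a2_lc.TRFrac
import Pool.Agent.Lib.MP_5049a2_lc.TRMim
import Pool.Agent.Lib.MP_5049a2_lc.TRLate
import Pool.Agent.Lib.MP_5049a2_lc.TRLev

/-! Rounding and exchange put together. -/

namespace Pool.Agent.Lib.MP_5049a2_lc.TR

open Finset

section Aux

variable {n k : ℕ} {I : Inst n} {r : ℕ} (P : P0 I r k)

/-- Large items demanded by an option. -/
noncomputable def core_big (a : Fin n) : Opt n → ℕ → ℕ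
  | .inl j => I.ob r a j
  | .inr (.inl j) => P.u0 j
  | .inr (.inr j) => cnt P.bun P.xb j

/-- Small items demanded by an option, before rounding down. -/
noncomputable def core_smR (W : ℕ) (a : Fin n) : Opt n → ℕ → ℝ
  | .inl j => fun t => I.sig r a j * ((t - (I.T r a + W) : ℕ) : ℝ)
  | .inr (.inl j) => fun t => P.σ j * ((t - P.x0 : ℕ) : ℝ)
  | .inr (.inr j) => fun t => (tl P.x0 j t : ℝ)

/-- Small items demanded by an option. -/
noncomputable def core_sm (W : ℕ) (a : Fin n) (o : Opt n) (t : ℕ) : ℕ := ⌊core_smR P W a o t⌋₊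

/-- Slope of the demand of small items. -/
noncomputable def core_sl (a : Fin n) : Opt n → ℝ
  | .inl j => I.sig r a j
  | .inr (.inl j) => P.σ j
  | .inr (.inr _) => 1 / n

/-- Options with a positive share of small items. -/
def core_pos (a : Fin n) : Opt n → Prop
  | .inl j => 0 < I.sig r a j
  | .inr (.inl j) => 0 < P.σ j
  | .inr (.inr _) => False

lemma core_cnt_le (j : Fin n) (t : ℕ) : cnt P.bun P.xb j t ≤ 2 * r :=
  (cnt_le _ _ _ _).trans (P.hR j)

lemma core_u0_le (j : Fin n) (t : ℕ) : P.u0 j t ≤ 2 * r := core_cnt_le P j _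

lemma core_u0_mono (j : Fin n) : Monotone (P.u0 j) := fun _ _ h =>
  cnt_mono _ _ _ (pv_mono _ h)

lemma core_u0_le_cnt (j : Fin n) (t : ℕ) : P.u0 j t ≤ cnt P.bun P.xb j t :=
  cnt_mono _ _ _ (pv_le _ _)

lemma core_u0_pv (j : Fin n) (t : ℕ) : P.u0 j t = P.u0 j (pv P.B t) := by
  unfold P0.u0; rw [pv_pv]

lemma core_sum_u0 (t : ℕ) : ∑ j, P.u0 j t ≤ min t P.xb := by
  unfold P0.u0
  rw [sum_cnt]
  have := pv_le P.B t
  omega

lemma core_big_le (hr : 2 ≤ r) (a : Fin n) (o : Opt n) (t : ℕ) : core_big P a o t ≤ 2 * r := by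
  rcases o with j | j | j
  · have := I.ob_le hr a j t
    change I.ob r a j t ≤ _
    omega
  · exact core_u0_le P j t
  · exact core_cnt_le P j t

lemma core_big_mono (a : Fin n) (o : Opt n) : Monotone (core_big P a o) := by
  rcases o with j | j | j
  · exact I.ob_mono a j
  · exact core_u0_mono P j
  · exact cnt_mono _ _ _

lemma core_sl_nonneg (hr : 2 ≤ r) (a : Fin n) (o : Opt n) : 0 ≤ core_sl P a o := by
  rcases o with j | j | j
  · exact I.sig_nonneg (by omega) a j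
  · exact P.hσ j
  · change (0 : ℝ) ≤ 1 / n
    positivity

lemma core_smR_nonneg (hr : 2 ≤ r) (W : ℕ) (a : Fin n) (o : Opt n) (t : ℕ) :
    0 ≤ core_smR P W a o t := by
  rcases o with j | j | j
  · exact mul_nonneg (I.sig_nonneg (by omega) a j) (Nat.cast_nonneg _)
  · exact mul_nonneg (P.hσ j) (Nat.cast_nonneg _)
  · exact Nat.cast_nonneg _

lemma core_lin_mono {σ : ℝ} (hσ : 0 ≤ σ) (y : ℕ) :
    Monotone fun t : ℕ => σ * ((t - y : ℕ) : ℝ) := fun _ _ hst =>
  mul_le_mul_of_nonneg_left (by exact_mod_cast Nat.sub_le_sub_right hst _) hσ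

lemma core_smR_mono (hr : 2 ≤ r) (W : ℕ) (a : Fin n) (o : Opt n) :
    Monotone (core_smR P W a o) := by
  rcases o with j | j | j
  · exact core_lin_mono (I.sig_nonneg (by omega) a j) _
  · exact core_lin_mono (P.hσ j) _
  · intro s t hst
    change (tl P.x0 j s : ℝ) ≤ tl P.x0 j t
    exact_mod_cast tl_mono _ _ hst

lemma core_sm_mono (hr : 2 ≤ r) (W : ℕ) (a : Fin n) (o : Opt n) :
    Monotone (core_sm P W a o) := fun _ _ hst => Nat.floor_le_floor (core_smR_mono P hr W a o hst)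

lemma core_sm_le (hr : 2 ≤ r) (W : ℕ) (a : Fin n) (o : Opt n) (t : ℕ) :
    (core_sm P W a o t : ℝ) ≤ core_smR P W a o t := Nat.floor_le (core_smR_nonneg P hr W a o t)

lemma core_smR_le (hr : 2 ≤ r) (W : ℕ) (a : Fin n) (o : Opt n) (t : ℕ) :
    core_smR P W a o t ≤ core_sl P a o * t + 1 := by
  have hlin : ∀ {σ : ℝ}, 0 ≤ σ → ∀ y : ℕ, σ * ((t - y : ℕ) : ℝ) ≤ σ * t + 1 := by
    intro σ hσ y
    have : σ * ((t - y : ℕ) : ℝ) ≤ σ * t :=
      mul_le_mul_of_nonneg_left (by exact_mod_cast Nat.sub_le _ _) hσ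
    linarith
  rcases o with j | j | j
  · exact hlin (I.sig_nonneg (by omega) a j) _
  · exact hlin (P.hσ j) _
  · change (tl P.x0 j t : ℝ) ≤ 1 / n * t + 1
    refine (tl_le _ _ _).trans ?_
    have h1 : ((t - P.x0 : ℕ) : ℝ) ≤ t := by exact_mod_cast Nat.sub_le _ _
    have h2 : ((t - P.x0 : ℕ) : ℝ) / n ≤ t / n := by gcongr
    have h3 : (1 : ℝ) / n * t = t / n := by ring
    linarith

lemma core_sm_mim (W : ℕ) (a j : Fin n) : core_sm P W a (.inr (.inr j)) = tl P.x0 j := by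
  funext t
  exact Nat.floor_natCast _

end Aux

/-- Rounding of three monotone families. -/
lemma core_round3 {n : ℕ} {O : Type} [Fintype O] [DecidableEq O] (m : ℕ) (E h ω : ℝ) (hE : 0 < E)
    (hh : 0 < h) (hω : h + 6 * (n * E / h + 1) * E ≤ ω) (f0 f1 f2 : Fin n → O → ℕ → ℝ)
    (x : Fin n → O → ℝ) (hx : ∀ a o, 0 ≤ x a o) (hs : ∀ a, ∑ o, x a o = 1)
    (p0 : ∀ a o t, 0 ≤ f0 a o t) (p1 : ∀ a o t, 0 ≤ f1 a o t) (p2 : ∀ a o t, 0 ≤ f2 a o t)
    (m0 : ∀ a o, Monotone (f0 a o)) (m1 : ∀ a o, Monotone (f1 a o)) (m2 : ∀ a o, Monotone (f2 a o))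
    (e0 : ∀ a o t, 0 < x a o → f0 a o t ≤ E) (e1 : ∀ a o t, 0 < x a o → f1 a o t ≤ E)
    (e2 : ∀ a o t, 0 < x a o → f2 a o t ≤ E) :
    ∃ ch : Fin n → O, (∀ a, 0 < x a (ch a)) ∧
      (∀ t ≤ m, ∑ a, f0 a (ch a) t ≤ ∑ a, ∑ o, x a o * f0 a o t + ω) ∧
      (∀ t ≤ m, ∑ a, f1 a (ch a) t ≤ ∑ a, ∑ o, x a o * f1 a o t + ω) ∧
      (∀ t ≤ m, ∑ a, f2 a (ch a) t ≤ ∑ a, ∑ o, x a o * f2 a o t + ω) := by
  obtain ⟨ch, h1, h2⟩ := round2 3 m E h hE hh ![f0, f1, f2]
    (fun i => by fin_cases i <;> assumption) (fun i => by fin_cases i <;> assumption) x hx hs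
    (fun i => by fin_cases i <;> assumption)
  have hω' : h + 2 * ((3 : ℕ) : ℝ) * (Fintype.card (Fin n) * E / h + 1) * E ≤ ω := by
    rw [Fintype.card_fin]
    push_cast
    linarith
  refine ⟨ch, h1, fun t ht => ?_, fun t ht => ?_, fun t ht => ?_⟩
  · exact (h2 0 t ht).trans (add_le_add_right hω' _)
  · exact (h2 1 t ht).trans (add_le_add_right hω' _)
  · exact (h2 2 t ht).trans (add_le_add_right hω' _)

section Rd

variable {n k : ℕ} {I : Inst n} {r : ℕ} (P : P0 I r k)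

open Classical in
/-- Rounding of the fractional solution. -/
lemma core_round (hr : 2 ≤ r) (W tm : ℕ) (E h ω Vn : ℝ) (bd : Prop) (hh : 0 < h) (hVn : 0 < Vn)
    (hE : 2 * r + tm / Vn + 1 ≤ E) (hω : h + 6 * (n * E / h + 1) * E ≤ ω)
    (x : Fin n → Opt n → ℝ) (hx : ∀ a o, 0 ≤ x a o) (hs : ∀ a, ∑ o, x a o = 1)
    (hsl : ¬ bd → ∀ a o, 0 < x a o → core_sl P a o * Vn ≤ 1) :
    ∃ ch : Fin n → Opt n, (∀ a, 0 < x a (ch a)) ∧
      (∀ t ≤ I.m, ∑ a, (core_big P a (ch a) t : ℝ) ≤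
        ∑ a, ∑ o, x a o * (core_big P a o t : ℝ) + ω) ∧
      (bd → ∑ a, (if core_pos P a (ch a) then (1 : ℝ) else 0) ≤
        ∑ a, ∑ o, x a o * (if core_pos P a o then (1 : ℝ) else 0) + ω) ∧
      (¬ bd → ∀ t ≤ I.m, t ≤ tm → ∑ a, ((core_big P a (ch a) t : ℝ) + core_smR P W a (ch a) t) ≤
        ∑ a, ∑ o, x a o * ((core_big P a o t : ℝ) + core_smR P W a o t) + ω) ∧
      (¬ bd → ∑ a, core_sl P a (ch a) * Vn ≤ ∑ a, ∑ o, x a o * (core_sl P a o * Vn) + ω) := by
  have hr' : (0 : ℝ) ≤ r := Nat.cast_nonneg _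
  have htm : (0 : ℝ) ≤ tm / Vn := by positivity
  have hE0 : 0 < E := by linarith
  have hbig : ∀ a o t, (core_big P a o t : ℝ) ≤ 2 * r := fun a o t => by
    exact_mod_cast core_big_le P hr a o t
  have hbm : ∀ a o, Monotone fun t => (core_big P a o t : ℝ) := fun a o s t hst => by
    have := core_big_mono P a o hst
    change (core_big P a o s : ℝ) ≤ core_big P a o t
    exact_mod_cast this
  by_cases hbd : bd
  · obtain ⟨ch, h0, h1, h2, -⟩ := core_round3 I.m E h ω hE0 hh hω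
      (fun a o t => (core_big P a o t : ℝ)) (fun a o _ => if core_pos P a o then (1 : ℝ) else 0)
      (fun _ _ _ => 0) x hx hs (fun _ _ _ => Nat.cast_nonneg _)
      (fun _ _ _ => by split_ifs <;> norm_num) (fun _ _ _ => le_rfl) hbm
      (fun _ _ => monotone_const) (fun _ _ => monotone_const)
      (fun a o t _ => by linarith [hbig a o t])
      (fun _ _ _ _ => by split_ifs <;> linarith) (fun _ _ _ _ => hE0.le)
    exact ⟨ch, h0, h1, fun _ => h2 0 (Nat.zero_le _), fun h => absurd hbd h, fun h => absurd hbd h⟩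
  · obtain ⟨ch, h0, h1, h2, h3⟩ := core_round3 I.m E h ω hE0 hh hω
      (fun a o t => (core_big P a o t : ℝ))
      (fun a o t => (core_big P a o t : ℝ) + core_smR P W a o (min t tm))
      (fun a o _ => core_sl P a o * Vn) x hx hs (fun _ _ _ => Nat.cast_nonneg _)
      (fun a o t => add_nonneg (Nat.cast_nonneg _) (core_smR_nonneg P hr W a o _))
      (fun a o _ => mul_nonneg (core_sl_nonneg P hr a o) hVn.le) hbm
      (fun a o s t hst => add_le_add (hbm a o hst)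
        (core_smR_mono P hr W a o (min_le_min_right _ hst)))
      (fun _ _ => monotone_const)
      (fun a o t _ => by linarith [hbig a o t])
      (fun a o t hxo => by
        have e1 := core_smR_mono P hr W a o (min_le_right t tm)
        have e2 := core_smR_le P hr W a o tm
        have e3 : core_sl P a o ≤ 1 / Vn := by
          rw [le_div_iff₀ hVn]; exact hsl hbd a o hxo
        have e4 : core_sl P a o * tm ≤ 1 / Vn * tm :=
          mul_le_mul_of_nonneg_right e3 (Nat.cast_nonneg _)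
        have e5 : 1 / Vn * tm = tm / Vn := by ring
        linarith [hbig a o t])
      (fun a o _ hxo => by linarith [hsl hbd a o hxo])
    refine ⟨ch, h0, h1, fun h => absurd h hbd, fun _ t ht htm => ?_, fun _ => h3 0 (Nat.zero_le _)⟩
    have := h2 t ht
    simpa only [min_eq_left htm] using this

lemma core_card {α : Type*} (s : Finset α) (p q : α → Prop) [DecidablePred p] [DecidablePred q]
    (h : ∀ j, p j ↔ q j) : ∑ j ∈ s, (if p j then (1 : ℝ) else 0) = (s.filter q).card := by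
  rw [Finset.sum_boole, Finset.filter_congr fun j _ => h j]

lemma core_load {load : Fin n → ℝ} {η γ : ℝ} (hload : ∀ j, 0 ≤ load j ∧ load j ≤ η) (hη : η ≤ γ)
    (t : ℕ) : ∑ j, load j * ((cnt P.bun P.xb j t : ℝ) - P.u0 j t) ≤
      γ * ((min t P.xb : ℕ) - ∑ j, (P.u0 j t : ℝ)) := by
  rw [← sum_cnt P.bun P.xb t, Nat.cast_sum, ← Finset.sum_sub_distrib, Finset.mul_sum]
  refine Finset.sum_le_sum fun j _ => mul_le_mul_of_nonneg_right ((hload j).2.trans hη) ?_
  have := core_u0_le_cnt P j t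
  exact sub_nonneg.2 (by exact_mod_cast this)

open Classical in
/-- Properties of the rounded solution. -/
lemma core_rd (hr : 2 ≤ r) (hn : 0 < n) (H L : Fin n → Finset (Fin n)) (bd : Prop)
    (g Z W tm : ℕ) (η Vn ω : ℝ) (hVn : 0 < Vn) (hZ0 : 0 < Z) (hZn : Z ≤ n)
    (x : Fin n → Opt n → ℝ) (load : Fin n → ℝ) (ch : Fin n → Opt n) (Bad : Finset (Fin n))
    (hBad : ∀ a, a ∈ Bad ↔ bd ∧ core_pos P a (ch a))
    (hload : ∀ j, 0 ≤ load j ∧ load j ≤ η) (hη : η ≤ k * g / n)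
    (hx1 : ∀ a j, 0 < x a (.inl j) → a ∈ P.out ∧ j ∉ H a)
    (hx3 : ∀ a j, 0 < x a (.inr (.inr j)) → a ∈ P.out ∧ (H a).Nonempty ∧ j ∈ L a)
    (hL : ∀ a, ∀ j ∈ L a, ∀ p, P.x0 ≤ p → p < P.x0 + Z → p % n ≠ j)
    (hkey : ∀ (Ψ : Fin n → Opt n → ℝ) (fh fm : Fin n → ℝ), (∀ a j, Ψ a (.inr (.inl j)) = fh j) →
      (∀ a j, Ψ a (.inr (.inr j)) = fm j) → (∀ j, 0 ≤ fh j) →
      ∑ a, ∑ o, x a o * Ψ a o ≤
        (∑ a ∈ P.out, (∑ j ∈ (H a)ᶜ, Ψ a (.inl j) + ∑ j ∈ H a, fh j) + k * g * ∑ j, fh j) / n +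
          ∑ j, load j * (fm j - fh j))
    (hch : ∀ a, 0 < x a (ch a))
    (c0 : ∀ t ≤ I.m, ∑ a, (core_big P a (ch a) t : ℝ) ≤
      ∑ a, ∑ o, x a o * (core_big P a o t : ℝ) + ω)
    (c1 : bd → ∑ a, (if core_pos P a (ch a) then (1 : ℝ) else 0) ≤
      ∑ a, ∑ o, x a o * (if core_pos P a o then (1 : ℝ) else 0) + ω)
    (c2 : ¬ bd → ∀ t ≤ I.m, t ≤ tm →
      ∑ a, ((core_big P a (ch a) t : ℝ) + core_smR P W a (ch a) t) ≤
        ∑ a, ∑ o, x a o * ((core_big P a o t : ℝ) + core_smR P W a o t) + ω)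
    (c3 : ¬ bd → ∑ a, core_sl P a (ch a) * Vn ≤ ∑ a, ∑ o, x a o * (core_sl P a o * Vn) + ω) :
    P.Rd H bd g Z W tm η Vn ω (fun t => ∑ a, core_big P a (ch a) t)
      (fun t => ∑ a ∈ Badᶜ, core_sm P W a (ch a) t) Bad.card := by
  have hn' : (0 : ℝ) < n := by exact_mod_cast hn
  have hCD : ∀ t, ((∑ a ∈ Badᶜ, core_sm P W a (ch a) t : ℕ) : ℝ) ≤
      ∑ a, core_smR P W a (ch a) t := by
    intro t
    rw [Nat.cast_sum]
    calc ∑ a ∈ Badᶜ, (core_sm P W a (ch a) t : ℝ) ≤ ∑ a ∈ Badᶜ, core_smR P W a (ch a) t :=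
          Finset.sum_le_sum fun a _ => core_sm_le P hr W a _ t
      _ ≤ _ := Finset.sum_le_sum_of_subset_of_nonneg (subset_univ _)
          fun a _ _ => core_smR_nonneg P hr W a _ t
  refine ⟨fun t => ?_, fun t ht => ?_, fun hbd t ht htm => ?_, fun hbd => ?_, fun hbd => ?_,
    fun hbd t => ?_, fun hbd t => ?_, fun t ht h => ?_⟩
  · calc ∑ a, core_big P a (ch a) t ≤ ∑ _a : Fin n, 2 * r :=
          Finset.sum_le_sum fun a _ => core_big_le P hr a _ t
      _ = 2 * r * n := by simp [mul_comm]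
  · have e1 := hkey (fun a o => (core_big P a o t : ℝ)) (fun j => (P.u0 j t : ℝ))
      (fun j => (cnt P.bun P.xb j t : ℝ)) (fun _ _ => rfl) (fun _ _ => rfl)
      (fun _ => Nat.cast_nonneg _)
    have e2 := core_load P hload hη t
    have e3 := c0 t ht
    have e4 : ∑ a ∈ P.out, (∑ j ∈ (H a)ᶜ, (core_big P a (.inl j) t : ℝ) +
        ∑ j ∈ H a, (P.u0 j t : ℝ)) = ∑ a ∈ P.out, (P.Hb H a t : ℝ) := by
      refine Finset.sum_congr rfl fun a _ => ?_
      unfold P0.Hb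
      push_cast
      rfl
    rw [e4] at e1
    rw [Nat.cast_sum]
    have e5 : (∑ a ∈ P.out, (P.Hb H a t : ℝ) + k * g * (min t P.xb : ℕ)) / n =
        (∑ a ∈ P.out, (P.Hb H a t : ℝ) + k * g * ∑ j, (P.u0 j t : ℝ)) / n +
          k * g / n * ((min t P.xb : ℕ) - ∑ j, (P.u0 j t : ℝ)) := by ring
    linarith
  · have hy : (0 : ℝ) ≤ ((t - P.x0 : ℕ) : ℝ) := Nat.cast_nonneg _
    have e1 := hkey (fun a o => (core_big P a o t : ℝ) + core_smR P W a o t)
      (fun j => (P.u0 j t : ℝ) + P.σ j * ((t - P.x0 : ℕ) : ℝ))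
      (fun j => (cnt P.bun P.xb j t : ℝ) + tl P.x0 j t) (fun _ _ => rfl) (fun _ _ => rfl)
      (fun j => add_nonneg (Nat.cast_nonneg _) (mul_nonneg (P.hσ j) hy))
    have e2 := core_load P hload hη t
    have e3 := c2 hbd t ht htm
    have e4 : ∑ a ∈ P.out, (∑ j ∈ (H a)ᶜ, ((core_big P a (.inl j) t : ℝ) +
        core_smR P W a (.inl j) t) +
        ∑ j ∈ H a, ((P.u0 j t : ℝ) + P.σ j * ((t - P.x0 : ℕ) : ℝ))) =
        ∑ a ∈ P.out, ((P.Hb H a t : ℝ) +
          (∑ j ∈ (H a)ᶜ, I.sig r a j) * ((t - (I.T r a + W) : ℕ) : ℝ) +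
          (∑ j ∈ H a, P.σ j) * ((t - P.x0 : ℕ) : ℝ)) := by
      refine Finset.sum_congr rfl fun a _ => ?_
      unfold P0.Hb
      rw [Finset.sum_add_distrib, Finset.sum_add_distrib, Finset.sum_mul, Finset.sum_mul,
        Nat.cast_add, Nat.cast_sum, Nat.cast_sum]
      change ∑ j ∈ (H a)ᶜ, (I.ob r a j t : ℝ) +
        ∑ j ∈ (H a)ᶜ, I.sig r a j * ((t - (I.T r a + W) : ℕ) : ℝ) + _ = _
      ring
    have e6 : ∑ j, load j * ((cnt P.bun P.xb j t : ℝ) + tl P.x0 j t -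
        ((P.u0 j t : ℝ) + P.σ j * ((t - P.x0 : ℕ) : ℝ))) ≤
        ∑ j, load j * ((cnt P.bun P.xb j t : ℝ) - P.u0 j t) + η * ((t - P.x0 : ℕ) : ℝ) := by
      conv_rhs => rw [← sum_tl hn P.x0 t, Nat.cast_sum, Finset.mul_sum, ← Finset.sum_add_distrib]
      refine Finset.sum_le_sum fun j _ => ?_
      have a1 := mul_nonneg (hload j).1 (mul_nonneg (P.hσ j) hy)
      have a2 := mul_le_mul_of_nonneg_right (hload j).2 (Nat.cast_nonneg (α := ℝ) (tl P.x0 j t))
      nlinarith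
    rw [e4, Finset.sum_add_distrib (s := univ), ← Finset.sum_mul] at e1
    rw [Finset.sum_add_distrib] at e3
    rw [Nat.cast_sum]
    have e7 := hCD t
    set S := ∑ a ∈ P.out, ((P.Hb H a t : ℝ) +
      (∑ j ∈ (H a)ᶜ, I.sig r a j) * ((t - (I.T r a + W) : ℕ) : ℝ) +
      (∑ j ∈ H a, P.σ j) * ((t - P.x0 : ℕ) : ℝ))
    have e5 : (S + k * g * ((min t P.xb : ℕ) + (∑ j, P.σ j) * ((t - P.x0 : ℕ) : ℝ))) / n =
        (S + k * g * (∑ j, (P.u0 j t : ℝ) + (∑ j, P.σ j) * ((t - P.x0 : ℕ) : ℝ))) / n +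
          k * g / n * ((min t P.xb : ℕ) - ∑ j, (P.u0 j t : ℝ)) := by ring
    linarith
  · have e1 := hkey (fun a o => if core_pos P a o then (1 : ℝ) else 0)
      (fun j => if 0 < P.σ j then (1 : ℝ) else 0) (fun _ => 0)
      (fun a j => if_congr Iff.rfl rfl rfl) (fun a j => if_neg not_false)
      (fun j => by split_ifs <;> norm_num)
    have e2 : ∑ j, load j * ((0 : ℝ) - if 0 < P.σ j then (1 : ℝ) else 0) ≤ 0 :=
      Finset.sum_nonpos fun j _ => mul_nonpos_of_nonneg_of_nonpos (hload j).1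
        (by split_ifs <;> norm_num)
    have e3 := c1 hbd
    have e4 : ∑ a, (if core_pos P a (ch a) then (1 : ℝ) else 0) = Bad.card := by
      rw [core_card univ _ (fun a => a ∈ Bad) fun a => by rw [hBad]; tauto]
      simp
    have e5 : ∑ a ∈ P.out, (∑ j ∈ (H a)ᶜ, (if core_pos P a (.inl j) then (1 : ℝ) else 0) +
        ∑ j ∈ H a, (if 0 < P.σ j then (1 : ℝ) else 0)) =
        ∑ a ∈ P.out, ((((H a)ᶜ.filter fun j => 0 < I.sig r a j).card : ℝ) +
          ((H a).filter fun j => 0 < P.σ j).card) := by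
      refine Finset.sum_congr rfl fun a _ => ?_
      rw [core_card _ (fun j => core_pos P a (.inl j)) (fun j => 0 < I.sig r a j) fun j => Iff.rfl,
        core_card _ _ (fun j => 0 < P.σ j) fun j => Iff.rfl]
    rw [e5, core_card _ _ (fun j => 0 < P.σ j) fun j => Iff.rfl] at e1
    linarith
  · rw [card_eq_zero, eq_empty_iff_forall_notMem]
    exact fun a ha => hbd ((hBad a).1 ha).1
  · have e1 := hkey (fun a o => core_sl P a o * Vn) (fun j => P.σ j * Vn) (fun _ => 1 / n * Vn)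
      (fun _ _ => rfl) (fun _ _ => rfl) (fun j => mul_nonneg (P.hσ j) hVn.le)
    have e2 : ∑ j, load j * (1 / n * Vn - P.σ j * Vn) ≤ η * Vn := by
      calc _ ≤ ∑ _j : Fin n, η * (1 / n * Vn) := by
            refine Finset.sum_le_sum fun j _ => ?_
            have a1 := mul_nonneg (hload j).1 (mul_nonneg (P.hσ j) hVn.le)
            have a2 := mul_le_mul_of_nonneg_right (hload j).2
              (show (0 : ℝ) ≤ 1 / n * Vn by positivity)
            nlinarith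
        _ = _ := by
            rw [sum_const, card_univ, Fintype.card_fin, nsmul_eq_mul]
            field_simp
    have e3 := c3 hbd
    have e4 : ∑ a ∈ P.out, (∑ j ∈ (H a)ᶜ, core_sl P a (.inl j) * Vn + ∑ j ∈ H a, P.σ j * Vn) =
        (∑ a ∈ P.out, (∑ j ∈ (H a)ᶜ, I.sig r a j + ∑ j ∈ H a, P.σ j)) * Vn := by
      rw [Finset.sum_mul]
      refine Finset.sum_congr rfl fun a _ => ?_
      rw [add_mul, Finset.sum_mul, Finset.sum_mul]
      rfl
    rw [e4, ← Finset.sum_mul (s := univ) (f := P.σ)] at e1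
    rw [← Finset.sum_mul] at e3
    set S := ∑ a ∈ P.out, (∑ j ∈ (H a)ᶜ, I.sig r a j + ∑ j ∈ H a, P.σ j)
    have e5 : ∑ a, core_sl P a (ch a) ≤ (S + k * g * ∑ j, P.σ j) / n + η + ω / Vn := by
      refine le_of_mul_le_mul_right ?_ hVn
      have : ((S + k * g * ∑ j, P.σ j) / n + η + ω / Vn) * Vn =
          (S * Vn + k * g * ((∑ j, P.σ j) * Vn)) / n + η * Vn + ω := by
        field_simp
      linarith
    have e6 : ∑ a, core_smR P W a (ch a) t ≤ (∑ a, core_sl P a (ch a)) * t + n := by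
      calc _ ≤ ∑ a, (core_sl P a (ch a) * t + 1) :=
            Finset.sum_le_sum fun a _ => core_smR_le P hr W a _ t
        _ = _ := by rw [Finset.sum_add_distrib, Finset.sum_mul]; simp
    have e7 := mul_le_mul_of_nonneg_right e5 (Nat.cast_nonneg (α := ℝ) t)
    linarith [hCD t]
  · have hy : (0 : ℝ) ≤ 2 * ((t - P.x0 : ℕ) : ℝ) / Z := by positivity
    rw [Nat.cast_sum]
    calc ∑ a ∈ Badᶜ, (core_sm P W a (ch a) t : ℝ)
        ≤ ∑ a ∈ Badᶜ, (if a ∈ P.out.filter (fun a => (H a).Nonempty) then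
            2 * ((t - P.x0 : ℕ) : ℝ) / Z else 0) := by
          refine Finset.sum_le_sum fun a ha => ?_
          have h0 : (0 : ℝ) ≤ if a ∈ P.out.filter (fun a => (H a).Nonempty) then
              2 * ((t - P.x0 : ℕ) : ℝ) / Z else 0 := by split_ifs <;> first | exact hy | exact le_rfl
          have hp : ¬ core_pos P a (ch a) := fun h => mem_compl.1 ha ((hBad a).2 ⟨hbd, h⟩)
          have hc := hch a
          refine (core_sm_le P hr W a _ t).trans ?_
          generalize ch a = o at hp hc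
          rcases o with j | j | j
          · have : I.sig r a j = 0 := le_antisymm (not_lt.1 hp) (I.sig_nonneg (by omega) a j)
            change I.sig r a j * _ ≤ _
            rw [this, zero_mul]
            exact h0
          · have : P.σ j = 0 := le_antisymm (not_lt.1 hp) (P.hσ j)
            change P.σ j * _ ≤ _
            rw [this, zero_mul]
            exact h0
          · obtain ⟨a1, a2, a3⟩ := hx3 a j hc
            rw [if_pos (mem_filter.2 ⟨a1, a2⟩)]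
            exact tl_le' hZ0 hZn j (hL a j a3) t
      _ ≤ ∑ a, (if a ∈ P.out.filter (fun a => (H a).Nonempty) then
            2 * ((t - P.x0 : ℕ) : ℝ) / Z else 0) :=
          Finset.sum_le_sum_of_subset_of_nonneg (subset_univ _)
            fun a _ _ => by split_ifs <;> first | exact hy | exact le_rfl
      _ = _ := by rw [Finset.sum_ite_mem, univ_inter, sum_const, nsmul_eq_mul]
  · refine Finset.sum_eq_zero fun a _ => ?_
    have hc := hch a
    have ht' : t - P.x0 = 0 := by omega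
    generalize ch a = o at hc
    rcases o with j | j | j
    · change ⌊I.sig r a j * ((t - (I.T r a + W) : ℕ) : ℝ)⌋₊ = 0
      rcases h a (hx1 a j hc).1 j (hx1 a j hc).2 with h | h
      · simp [h]
      · rw [Nat.sub_eq_zero_of_le h]; simp
    · change ⌊P.σ j * ((t - P.x0 : ℕ) : ℝ)⌋₊ = 0
      rw [ht']; simp
    · rw [core_sm_mim]
      exact tl_of_le j ht

end Rd

theorem core {n k : ℕ} (I : Inst n) {r : ℕ} (hr : 2 ≤ r) (hn : 0 < n) (hk : 0 < k) (P : P0 I r k)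
    (Gs : Finset ℕ) (hGs : Gs ⊆ P.B) (q g Z W Lmin Φ f D Bn F tm : ℕ) (E h ω Vn sJ : ℝ)
    (bd : Prop) (H : Fin n → Finset (Fin n)) (cap : ℕ → ℕ)
    (hq : P.B.card + 1 ≤ q) (hg : ∀ i, (P.G i).card = g) (hF : FF q (2 * r) D Bn ≤ F)
    (hZ0 : 0 < Z) (hZn : Z ≤ n) (hL0 : 0 < Lmin) (hΦ0 : 0 < Φ) (hh : 0 < h)
    (hmim : r * (2 * r + 2) * (Lmin + ((univ.filter fun j => P.cls j ≠ none).card +
      (2 * r + 1) ^ q * Φ) + (Gs.card + 1) * Z) + r * (P.x0 - P.xb) ≤ n)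
    (hf : ∑ a ∈ P.out, (H a).card ≤ f * n)
    (h1 : 2 * f * n ≤ k * g * Lmin) (h2 : 4 * F * n ≤ g * Φ)
    (h3 : k * g * (univ.filter fun j => P.cls j ≠ none).card +
      (f + (2 * r + 1) ^ q * (2 * F)) * n < g * n)
    (hown : ¬ bd → ∀ a ∈ P.out, ∀ j ∉ H a,
      I.sig r a j = 0 ∨ ((W : ℝ) ≤ I.V r a ∧ Vn ≤ I.V r a))
    (hσ : ¬ bd → ∀ j, P.σ j * Vn ≤ 1) (hVn : 0 < Vn) (hVn' : Vn ≤ n)
    (hE : 2 * r + tm / Vn + 1 ≤ E) (hω : h + 6 * (n * E / h + 1) * E ≤ ω)
    (hsJ : ∀ A : Finset (Fin n), A.card ≤ F → ∑ j ∈ A, P.σ j ≤ sJ)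
    (hcap : ∀ t ≤ I.m, min t P.xb ≤ cap t)
    (hver : ∀ (BB CD : ℕ → ℕ) (nb : ℕ), P.Rd H bd g Z W tm (f / Lmin) Vn ω BB CD nb →
      P.Ok Gs cap Z D Bn F sJ BB CD nb) :
    I.Solv (1 - 6 / r) := by
  classical
  have hn' : (0 : ℝ) < n := by exact_mod_cast hn
  have hr' : (0 : ℝ) < r := by exact_mod_cast (show 0 < r by omega)
  obtain ⟨e, -, he⟩ := exists_enum (insert 0 P.B) (mem_insert_self _ _) (q := q)
    ((card_insert_le _ _).trans hq)
  let ty : Fin n → Fin q → Fin (2 * r + 1) := fun j i =>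
    ⟨P.u0 j (e i), Nat.lt_succ_of_le (core_u0_le P j _)⟩
  have hty : ∀ j j', ty j = ty j' → P.u0 j = P.u0 j' := by
    intro j j' hj
    funext t
    obtain ⟨i, hi⟩ := he _ (pv_mem P.B t)
    rw [core_u0_pv P j t, core_u0_pv P j' t, ← hi]
    exact congrArg Fin.val (congrFun hj i)
  let Fr : Finset (Fin q → Fin (2 * r + 1)) :=
    univ.filter fun π => Φ ≤ (univ.filter fun j => P.cls j = none ∧ ty j = π).card
  have hcT : (univ : Finset (Fin q → Fin (2 * r + 1))).card = (2 * r + 1) ^ q := by simp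
  have hFr : Fr.card ≤ (2 * r + 1) ^ q := hcT ▸ card_le_card (subset_univ _)
  let Ex : Finset (Fin n) := (univ.filter fun j => P.cls j ≠ none) ∪
    Frᶜ.biUnion fun π => univ.filter fun j => P.cls j = none ∧ ty j = π
  have hEx : Ex.card ≤ (univ.filter fun j => P.cls j ≠ none).card + (2 * r + 1) ^ q * Φ := by
    refine (card_union_le _ _).trans (Nat.add_le_add_left (card_biUnion_le.trans ?_) _)
    calc _ ≤ ∑ _π ∈ Frᶜ, Φ := Finset.sum_le_sum fun π hπ => by
          have := mem_compl.1 hπ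
          simp only [Fr, mem_filter, mem_univ, true_and, not_le] at this
          exact this.le
      _ ≤ _ := by
          rw [sum_const, smul_eq_mul]
          exact Nat.mul_le_mul_right _ (hcT ▸ card_le_card (subset_univ _))
  have hEx' : ∀ j ∉ Ex, P.cls j = none ∧ ty j ∈ Fr := by
    intro j hj
    have a1 : P.cls j = none := by
      by_contra hc
      exact hj (mem_union_left _ (mem_filter.2 ⟨mem_univ _, hc⟩))
    refine ⟨a1, ?_⟩
    by_contra hc
    exact hj (mem_union_right _ (mem_biUnion.2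
      ⟨ty j, mem_compl.2 hc, mem_filter.2 ⟨mem_univ _, a1, rfl⟩⟩))
  choose L hL hLj using mimic I hr P.bun P.xb P.x0 P.hx P.hR Gs Ex Z Lmin
    (le_trans (by gcongr) hmim)
  obtain ⟨x, load, hx, hs, hload, hx1, hx2, hx3, hres, hkey⟩ := frac hn hk P.G g hg P.disj P.cls ty
    Fr H L Lmin Φ (2 * F) f hL0 hL (fun a j hj => (hEx' j (hLj a j hj).1).1) hΦ0
    (fun π hπ => (mem_filter.1 hπ).2) hf h1 (by linarith)
    (lt_of_le_of_lt (by gcongr) h3)
  have hx1' : ∀ a j, 0 < x a (.inl j) → a ∈ P.out ∧ j ∉ H a := fun a j h =>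
    ⟨mem_compl.2 (hx1 a j h).1, (hx1 a j h).2⟩
  have hx3' : ∀ a j, 0 < x a (.inr (.inr j)) → a ∈ P.out ∧ (H a).Nonempty ∧ j ∈ L a :=
    fun a j h => ⟨mem_compl.2 (hx3 a j h).1, (hx3 a j h).2⟩
  obtain ⟨ch, hch, c0, c1, c2, c3⟩ := core_round P hr W tm E h ω Vn bd hh hVn hE hω x hx hs (by
    intro hbd a o hxo
    rcases o with j | j | j
    · change I.sig r a j * Vn ≤ 1
      rcases hown hbd a (hx1' a j hxo).1 j (hx1' a j hxo).2 with h | h
      · rw [h, zero_mul]; exact zero_le_one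
      · rw [← le_div_iff₀ hVn]
        exact I.sig_le (by omega) a j hVn h.2
    · exact hσ hbd j
    · change 1 / (n : ℝ) * Vn ≤ 1
      rw [one_div_mul_eq_div, div_le_one hn']
      exact hVn')
  let Bad : Finset (Fin n) := univ.filter fun a => bd ∧ core_pos P a (ch a)
  have hBad : ∀ a, a ∈ Bad ↔ bd ∧ core_pos P a (ch a) := fun a => by simp [Bad]
  have hη : (f : ℝ) / Lmin ≤ k * g / n := by
    have a1 : (0 : ℝ) < Lmin := by exact_mod_cast hL0
    rw [div_le_div_iff₀ a1 hn']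
    have a2 : f * n ≤ k * g * Lmin := le_trans (by nlinarith) h1
    exact_mod_cast a2
  obtain ⟨k1, k2, k3⟩ := hver _ _ _ (core_rd P hr hn H L bd g Z W tm (f / Lmin) Vn ω hVn hZ0 hZn x
    load ch Bad hBad hload hη hx1' hx3' (fun a j hj => (hLj a j hj).2.2.1) (by
      intro Ψ fh fm a1 a2 a3
      have := hkey (fun a j => Ψ a (.inl j)) fh fm a3
      refine le_trans (le_of_eq (Finset.sum_congr rfl fun a _ => ?_)) this
      rw [Fintype.sum_sum_type, Fintype.sum_sum_type, add_assoc]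
      simp only [a1, a2]) hch c0 c1 c2 c3)
  have hne : ∀ b, ∃ j, j ∈ L b := fun b => card_pos.1 (hL0.trans_le (hL b))
  choose jj hjj using hne
  have h16 : 1 - 6 / (r : ℝ) ≤ 1 - 1 / r := by gcongr; norm_num
  refine exchange I _ q (2 * r) D Bn F hk P.B hq hF (fun a => core_big P a (ch a))
    (fun a => core_sm P W a (ch a)) P.u0 (fun j t => ⌊P.σ j * ((t - P.x0 : ℕ) : ℝ)⌋₊)
    (fun b => cnt P.bun P.xb (jj b)) (fun b => tl P.x0 (jj b)) (fun b => P.u0 (jj b)) cap Bad P.G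
    P.cls (fun a => core_big_mono P a _) (fun a => core_sm_mono P hr W a _) (core_u0_mono P)
    (fun j s t hst => Nat.floor_le_floor (core_lin_mono (P.hσ j) _ hst))
    (fun b => cnt_mono _ _ _) (fun b => tl_mono _ _) (fun a t => core_big_le P hr a _ t)
    (core_u0_le P) (fun b t => core_cnt_le P _ t) (core_u0_pv P) (fun a ha => ?_) P.like
    (fun b => h16.trans (hLj b _ (hjj b)).2.2.2) (fun i b => ?_)
    (fun t ht => (core_sum_u0 P t).trans (hcap t ht)) k2 k1 (fun t ht A hA => ?_)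
  · have hc := hch a
    rw [hBad] at ha
    generalize ch a = o at ha hc
    rcases o with j | j | j
    · refine I.like_own hr a j W ?_
      by_cases hbd : bd
      · exact Or.inl (le_antisymm (not_lt.1 fun h => ha ⟨hbd, h⟩) (I.sig_nonneg (by omega) a j))
      · exact (hown hbd a (hx1' a j hc).1 j (hx1' a j hc).2).imp id And.left
    · obtain ⟨i, a1, a2⟩ := hx2 a j hc
      exact P.like i a a1 j a2
    · rw [core_sm_mim]
      exact h16.trans (hLj a j (hx3' a j hc).2.2).2.2.2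
  · obtain ⟨S, a1, a2, a3⟩ := hres i (ty (jj b)) (hEx' _ (hLj b _ (hjj b)).1).2
    refine ⟨S, a1, a2.ge, fun a ha => ?_⟩
    obtain ⟨j, b1, b2⟩ := a3 a ha _ (hch a)
    rw [b1]
    exact hty _ _ b2
  · have hy : (0 : ℝ) ≤ ((t - P.x0 : ℕ) : ℝ) := Nat.cast_nonneg _
    have a1 : ((∑ j ∈ A, ⌊P.σ j * ((t - P.x0 : ℕ) : ℝ)⌋₊ : ℕ) : ℝ) ≤
        sJ * ((t - P.x0 : ℕ) : ℝ) := by
      rw [Nat.cast_sum]
      calc _ ≤ ∑ j ∈ A, P.σ j * ((t - P.x0 : ℕ) : ℝ) :=
            Finset.sum_le_sum fun j _ => Nat.floor_le (mul_nonneg (P.hσ j) hy)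
        _ ≤ _ := by
            rw [← Finset.sum_mul]
            exact mul_le_mul_of_nonneg_right (hsJ A hA) hy
    have a2 : ((∑ b ∈ A, tl P.x0 (jj b) t : ℕ) : ℝ) ≤ 2 * F / Z * ((t - P.x0 : ℕ) : ℝ) := by
      rw [Nat.cast_sum]
      calc _ ≤ ∑ _b ∈ A, 2 * ((t - P.x0 : ℕ) : ℝ) / Z :=
            Finset.sum_le_sum fun b _ => tl_le' hZ0 hZn _ (hLj b _ (hjj b)).2.2.1 t
        _ = A.card * (2 * ((t - P.x0 : ℕ) : ℝ) / Z) := by rw [sum_const, nsmul_eq_mul]
        _ ≤ F * (2 * ((t - P.x0 : ℕ) : ℝ) / Z) :=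
            mul_le_mul_of_nonneg_right (by exact_mod_cast hA) (by positivity)
        _ = _ := by ring
    rcases k3 t ht with ⟨hz, hb⟩ | hb
    · refine Or.inl ⟨fun b => ?_, ?_⟩
      · rcases hz with ⟨z, z1, z2, z3⟩ | hz
        · unfold P0.u0 cnt
          refine card_le_card fun p hp => ?_
          obtain ⟨p1, p2, p3⟩ := mem_filter.1 hp
          refine mem_filter.2 ⟨p1, p2, lt_of_lt_of_le ?_ (le_pv (hGs z1) z2)⟩
          by_contra hc
          exact (hLj b _ (hjj b)).2.1 z z1 p (not_lt.1 hc) (by omega) (mem_range.1 p1) p2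
        · exact (cnt_of_le P.bun _ hz (le_pv P.hxB hz)).le
      · rw [← Nat.cast_le (α := ℝ), Nat.cast_add, Nat.cast_add, Nat.cast_add]
        linarith
    · refine Or.inr ?_
      rw [← Nat.cast_le (α := ℝ), Nat.cast_add, Nat.cast_add, Nat.cast_add, Nat.cast_add,
        Nat.cast_mul, Nat.cast_mul, Nat.cast_mul, Nat.cast_ofNat]
      linarith

end Pool.Agent.Lib.MP_5049a2_lc.TR
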