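import Pool.Agent.Lib.MP_5049a2_lc.Estimate
import Pool.Agent.Lib.MP_5049a2_lc.H7Stein

/-! Definitions and basic facts for the tight rate. -/

namespace Pool.Agent.Lib.MP_5049a2_lc

open Finset

namespace TR

/-- The last element of `B` not exceeding `t` (zero if there is none). -/
def pv (B : Finset ℕ) (t : ℕ) : ℕ := (B.filter (· ≤ t)).sup id

/-- Number of positions below `x` and below `t` which lie in bundle `j`. -/
def cnt {n : ℕ} (bun : ℕ → Fin n) (x : ℕ) (j : Fin n) (t : ℕ) : ℕ :=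
  ((range x).filter fun p => bun p = j ∧ p < t).card

/-- Round robin share of the positions from `x0` on. -/
def tl {n : ℕ} (x0 : ℕ) (j : Fin n) (t : ℕ) : ℕ := ((Ico x0 t).filter fun p => p % n = j).card

def ell (q R : ℕ) : ℕ := (4 * q * R + 1) ^ q

def FF (q R D Bn : ℕ) : ℕ := Bn + 2 * ell q R * (D + R * ell q R + R * Bn + 1) + q

def GC (k Q M : ℕ) : ℕ := (Nat.log 2 M + 1) * (4096 * Q ^ 2 * k ^ 3)

/-- Options: own bundle, held bundle of the leader, imitated bundle of the leader. -/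
abbrev Opt (n : ℕ) := Fin n ⊕ Fin n ⊕ Fin n

/-- Number of levels. -/
def dd (r : ℕ) : ℕ := r * (Nat.log 2 r + 1)

/-- Level thresholds. -/
noncomputable def ph (r i : ℕ) : ℝ := max ((1 - 1 / (r : ℝ)) ^ i) (1 / r)

lemma pv_le (B : Finset ℕ) (t : ℕ) : pv B t ≤ t :=
  Finset.sup_le fun _ hb => (mem_filter.1 hb).2

lemma le_pv {B : Finset ℕ} {β t : ℕ} (hβ : β ∈ B) (ht : β ≤ t) : β ≤ pv B t :=
  Finset.le_sup (f := id) (mem_filter.2 ⟨hβ, ht⟩)

lemma pv_mem (B : Finset ℕ) (t : ℕ) : pv B t ∈ insert 0 B := by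
  rcases (B.filter (· ≤ t)).eq_empty_or_nonempty with h | h
  · unfold pv; rw [h]; simp
  · obtain ⟨b, hb, he⟩ := Finset.exists_mem_eq_sup _ h id
    unfold pv; rw [he]
    exact mem_insert_of_mem (mem_filter.1 hb).1

lemma pv_mono (B : Finset ℕ) : Monotone (pv B) := fun _ _ hst =>
  Finset.sup_mono fun _ hb => mem_filter.2 ⟨(mem_filter.1 hb).1, (mem_filter.1 hb).2.trans hst⟩

lemma pv_pv (B : Finset ℕ) (t : ℕ) : pv B (pv B t) = pv B t := by
  refine le_antisymm (pv_le _ _) ?_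
  rcases mem_insert.1 (pv_mem B t) with h | h
  · omega
  · exact le_pv h le_rfl

lemma pv_subset {B B' : Finset ℕ} (h : B ⊆ B') (t : ℕ) : pv B t ≤ pv B' t :=
  Finset.sup_mono (filter_subset_filter _ h)

lemma cnt_mono {n : ℕ} (bun : ℕ → Fin n) (x : ℕ) (j : Fin n) : Monotone (cnt bun x j) :=
  fun _ _ hst => card_le_card fun _ hp => mem_filter.2
    ⟨(mem_filter.1 hp).1, (mem_filter.1 hp).2.1, (mem_filter.1 hp).2.2.trans_le hst⟩

lemma cnt_le {n : ℕ} (bun : ℕ → Fin n) (x : ℕ) (j : Fin n) (t : ℕ) :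
    cnt bun x j t ≤ ((range x).filter fun p => bun p = j).card :=
  card_le_card fun _ hp => mem_filter.2 ⟨(mem_filter.1 hp).1, (mem_filter.1 hp).2.1⟩

lemma cnt_zero {n : ℕ} (bun : ℕ → Fin n) (x : ℕ) (j : Fin n) : cnt bun x j 0 = 0 := by
  simp [cnt]

lemma sum_cnt {n : ℕ} (bun : ℕ → Fin n) (x t : ℕ) : ∑ j, cnt bun x j t = min t x := by
  have h : ((range x).filter fun p => p < t) = range (min t x) := by
    ext p; simp only [mem_filter, mem_range]; omega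
  rw [← card_range (min t x), ← h,
    card_eq_sum_card_fiberwise (f := bun) (t := univ) (fun _ _ => mem_univ _)]
  refine Finset.sum_congr rfl fun j _ => ?_
  unfold cnt
  rw [filter_filter]
  congr 1
  ext p; simp only [mem_filter]; tauto

lemma cnt_of_le {n : ℕ} (bun : ℕ → Fin n) {x : ℕ} (j : Fin n) {s t : ℕ} (hs : x ≤ s) (ht : x ≤ t) :
    cnt bun x j s = cnt bun x j t := by
  unfold cnt
  congr 1
  refine filter_congr fun p hp => ?_
  have := mem_range.1 hp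
  constructor <;> rintro ⟨h1, -⟩ <;> exact ⟨h1, by omega⟩

lemma tl_mono {n : ℕ} (x0 : ℕ) (j : Fin n) : Monotone (tl x0 j) :=
  fun _ _ hst => card_le_card (filter_subset_filter _ (Ico_subset_Ico_right hst))

lemma tl_of_le {n : ℕ} {x0 t : ℕ} (j : Fin n) (h : t ≤ x0) : tl x0 j t = 0 := by
  unfold tl; rw [Ico_eq_empty (by omega)]; simp

lemma sum_tl {n : ℕ} (hn : 0 < n) (x0 t : ℕ) : ∑ j : Fin n, tl x0 j t = t - x0 := by
  rw [← Nat.card_Ico, card_eq_sum_card_fiberwise (f := fun p => (⟨p % n, Nat.mod_lt _ hn⟩ : Fin n))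
    (t := univ) (fun _ _ => mem_univ _)]
  refine Finset.sum_congr rfl fun j _ => ?_
  unfold tl
  congr 1
  ext p; simp [Fin.ext_iff]

/-- Demanding earlier is worth more. -/
lemma Val_le (m : ℕ) (w : ℕ → ℝ) (hw : Antitone w) (hw0 : ∀ p, 0 ≤ w p) (U U' : ℕ → ℕ)
    (h0 : U' 0 ≤ U 0) (h : ∀ t, U t ≤ U' t) : Val m w U ≤ Val m w U' := by
  have key : ∀ M, ((U' M : ℝ) - U M) * w M ≤ Val M w U' - Val M w U := by
    intro M
    induction M with
    | zero =>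
      have : (U' 0 : ℝ) = U 0 := by exact_mod_cast le_antisymm h0 (h 0)
      simp [Val, this]
    | succ M ih =>
      simp only [Val, sum_range_succ] at ih ⊢
      have h1 : (U (M + 1) : ℝ) ≤ U' (M + 1) := by exact_mod_cast h _
      have h2 := hw (Nat.le_succ M)
      nlinarith
  have h1 : (U m : ℝ) ≤ U' m := by exact_mod_cast h _
  nlinarith [key m, hw0 m]

lemma Val_nonneg (m : ℕ) (w : ℕ → ℝ) (hw0 : ∀ p, 0 ≤ w p) (U : ℕ → ℕ) (hU : Monotone U) :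
    0 ≤ Val m w U :=
  Finset.sum_nonneg fun p _ => mul_nonneg
    (sub_nonneg.2 (by exact_mod_cast hU (Nat.le_succ p))) (hw0 p)

/-- Value of a bundle whose items are postponed to the next point of `B`. -/
lemma Val_cnt {n : ℕ} (m : ℕ) (w : ℕ → ℝ) (hw : Antitone w) (hw0 : ∀ p, 0 ≤ w p)
    (bun : ℕ → Fin n) (x : ℕ) (j : Fin n) (B : Finset ℕ) (v : ℕ → ℝ)
    (h : ∀ p < x, bun p = j → ∃ β ∈ B, p < β ∧ β ≤ m ∧ v p ≤ w (β - 1)) :
    ∑ p ∈ (range x).filter (fun p => bun p = j), v p ≤ Val m w (fun t => cnt bun x j (pv B t)) := by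
  classical
  have h' : ∀ p, ∃ β, p < x → bun p = j → β ∈ B ∧ p < β ∧ β ≤ m ∧ v p ≤ w (β - 1) := by
    intro p
    by_cases hp : p < x ∧ bun p = j
    · obtain ⟨β, h1, h2⟩ := h p hp.1 hp.2
      exact ⟨β, fun _ _ => ⟨h1, h2⟩⟩
    · exact ⟨0, fun h1 h2 => absurd ⟨h1, h2⟩ hp⟩
  choose b hb using h'
  set s := (range x).filter (fun p => bun p = j) with hs
  have hb' : ∀ p ∈ s, b p ∈ B ∧ p < b p ∧ b p ≤ m ∧ v p ≤ w (b p - 1) := fun p hp =>
    hb p (mem_range.1 (mem_filter.1 hp).1) (mem_filter.1 hp).2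
  calc ∑ p ∈ s, v p ≤ ∑ p ∈ s, w (b p - 1) := sum_le_sum fun p hp => (hb' p hp).2.2.2
    _ = Val m w (fun t => (s.filter fun i => b i ≤ t).card) :=
        (Val_steps m w s b fun p hp => ⟨by have := (hb' p hp).2.1; omega, (hb' p hp).2.2.1⟩).symm
    _ ≤ _ := by
        refine Val_le m w hw hw0 _ _ ?_ fun t => ?_
        · have : pv B 0 = 0 := Nat.le_zero.1 (pv_le B 0)
          simp only [this, cnt_zero]; exact Nat.zero_le _
        · refine card_le_card fun p hp => ?_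
          obtain ⟨h1, h2⟩ := mem_filter.1 hp
          have h3 := hb' p h1
          exact mem_filter.2 ⟨(mem_filter.1 h1).1, (mem_filter.1 h1).2,
            h3.2.1.trans_le (le_pv h3.1 h2)⟩

/-- Value of a share of the positions from `x` on, seen from a later starting point `st`. -/
lemma Val_share (m : ℕ) (w : ℕ → ℝ) (hw : Antitone w) (hw0 : ∀ p, 0 ≤ w p) {σ : ℝ} (hσ : 0 ≤ σ)
    {x st : ℕ} (h : x ≤ st) :
    σ * ∑ p ∈ Ico st m, w p - w st ≤ Val m w (fun t => ⌊σ * ((t - x : ℕ) : ℝ)⌋₊) := by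
  have hm : ∀ y : ℕ, Monotone fun t : ℕ => ⌊σ * ((t - y : ℕ) : ℝ)⌋₊ := fun y s t hst =>
    Nat.floor_le_floor (mul_le_mul_of_nonneg_left
      (by exact_mod_cast Nat.sub_le_sub_right hst _) hσ)
  by_cases hst : st ≤ m
  · refine (Val_dust m w hw hw0 σ st hst).trans (Val_le m w hw hw0 _ _ (by simp) fun t => ?_)
    exact Nat.floor_le_floor (mul_le_mul_of_nonneg_left
      (by exact_mod_cast Nat.sub_le_sub_left h _) hσ)
  · rw [Ico_eq_empty (by omega)]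
    have := Val_nonneg m w hw0 _ (hm x)
    have := hw0 st
    simp only [sum_empty, mul_zero]
    linarith

end TR

namespace Inst

open TR

variable {n : ℕ} (I : Inst n) (r : ℕ)

/-- End of level `i` for agent `a`; index `dd r + 1` is a virtual level for the small items. -/
noncomputable def ta (a : Fin n) (i : ℕ) : ℕ :=
  if i = 0 then 0 else if i ≤ dd r then ((range I.m).filter fun p => ph r i ≤ I.w a p).card
  else I.T r a + ⌊(r : ℝ) ^ 2 * I.V r a⌋₊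

/-- Breakpoints of agent `a`. -/
noncomputable def Bk (a : Fin n) : Finset ℕ := (range (dd r + 1)).image (I.ta r a)

/-- Large items of an own bundle, postponed to the end of their level. -/
noncomputable def ob (a j : Fin n) (t : ℕ) : ℕ := cnt (I.bun a) (I.T r a) j (pv (I.Bk r a) t)

end Inst

namespace TR

/-- The partition of the leader, together with agents who like its bundles. -/
structure P0 {n : ℕ} (I : Inst n) (r k : ℕ) where
  bun : ℕ → Fin n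
  xb : ℕ
  x0 : ℕ
  B : Finset ℕ
  σ : Fin n → ℝ
  cls : Fin n → Option (Fin k)
  G : Fin k → Finset (Fin n)
  hR : ∀ j, ((range xb).filter fun p => bun p = j).card ≤ 2 * r
  hx : xb ≤ x0
  hxB : xb ∈ B
  hσ : ∀ j, 0 ≤ σ j
  disj : ∀ h h', h ≠ h' → Disjoint (G h) (G h')
  like : ∀ h, ∀ a ∈ G h, ∀ j, (cls j = none ∨ cls j = some h) →
    1 - 6 / (r : ℝ) ≤ Val I.m (I.w a)
      (fun t => cnt bun xb j (pv B t) + ⌊σ j * ((t - x0 : ℕ) : ℝ)⌋₊)

namespace P0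

variable {n : ℕ} {I : Inst n} {r k : ℕ} (P : P0 I r k)

/-- Agents outside the groups. -/
def out : Finset (Fin n) := (univ.biUnion P.G)ᶜ

/-- Demand of a bundle of the leader. -/
def u0 (j : Fin n) (t : ℕ) : ℕ := cnt P.bun P.xb j (pv P.B t)

/-- Demand of the hybrid partition of agent `a`. -/
noncomputable def Hb (H : Fin n → Finset (Fin n)) (a : Fin n) (t : ℕ) : ℕ :=
  ∑ j ∈ (H a)ᶜ, I.ob r a j t + ∑ j ∈ H a, P.u0 j t

/-- What is known about the rounded solution: `BB` large items, `CD` small items of the agents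
which are kept, `nb` number of agents which must be released. -/
structure Rd (H : Fin n → Finset (Fin n)) (bd : Prop) (g Z W tm : ℕ) (η Vn ω : ℝ)
    (BB CD : ℕ → ℕ) (nb : ℕ) : Prop where
  r0 : ∀ t, BB t ≤ 2 * r * n
  r1 : ∀ t ≤ I.m, (BB t : ℝ) ≤
    (∑ a ∈ P.out, (P.Hb H a t : ℝ) + k * g * (min t P.xb : ℕ)) / n + ω
  r2 : ¬ bd → ∀ t ≤ I.m, t ≤ tm → (BB t : ℝ) + CD t ≤
    (∑ a ∈ P.out, ((P.Hb H a t : ℝ) +
        (∑ j ∈ (H a)ᶜ, I.sig r a j) * ((t - (I.T r a + W) : ℕ) : ℝ) +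
        (∑ j ∈ H a, P.σ j) * ((t - P.x0 : ℕ) : ℝ)) +
      k * g * ((min t P.xb : ℕ) + (∑ j, P.σ j) * ((t - P.x0 : ℕ) : ℝ))) / n +
      η * ((t - P.x0 : ℕ) : ℝ) + ω
  r3 : bd → (nb : ℝ) ≤
    (∑ a ∈ P.out, ((((H a)ᶜ.filter fun j => 0 < I.sig r a j).card : ℝ) +
        ((H a).filter fun j => 0 < P.σ j).card) +
      k * g * (univ.filter fun j => 0 < P.σ j).card) / n + ω
  r3' : ¬ bd → nb = 0
  r4 : ¬ bd → ∀ t, (CD t : ℝ) ≤
    ((∑ a ∈ P.out, (∑ j ∈ (H a)ᶜ, I.sig r a j + ∑ j ∈ H a, P.σ j) + k * g * ∑ j, P.σ j) / n +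
      η + ω / Vn) * t + n
  r5 : bd → ∀ t, (CD t : ℝ) ≤
    (P.out.filter fun a => (H a).Nonempty).card * (2 * ((t - P.x0 : ℕ) : ℝ) / Z)
  r5' : ∀ t ≤ P.x0, (∀ a ∈ P.out, ∀ j ∉ H a, I.sig r a j = 0 ∨ t ≤ I.T r a + W) → CD t = 0

/-- What has to be checked about the rounded solution. -/
def Ok (Gs : Finset ℕ) (cap : ℕ → ℕ) (Z D Bn F : ℕ) (sJ : ℝ) (BB CD : ℕ → ℕ) (nb : ℕ) : Prop :=
  nb ≤ Bn ∧ (∀ t ≤ I.m, BB t ≤ cap t + D) ∧ ∀ t ≤ I.m,
    (((∃ g ∈ Gs, g ≤ t ∧ t ≤ g + Z) ∨ P.xb ≤ t) ∧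
      (cap t : ℝ) + CD t + (sJ + 2 * F / Z) * ((t - P.x0 : ℕ) : ℝ) ≤ t) ∨
    (BB t : ℝ) + CD t + 4 * r * F + (sJ + 2 * F / Z) * ((t - P.x0 : ℕ) : ℝ) ≤ t

end P0

/-- The numerical parameters. -/
structure Par (r n Λ ν : ℕ) : Prop where
  hr : 2 ≤ r
  poly : 4096 * r ^ 4 * (dd r + 1) ^ 2 ≤ Λ
  hell : ell (4 * (dd r + 1) + 2) (2 * r) ≤ Λ
  hPi : (2 * r + 1) ^ (4 * (dd r + 1) + 2) ≤ Λ
  hGC : GC (dd r + 1) (64 * r ^ 3 * (dd r + 1)) (2 * r ^ 2 * n) ^ (dd r + 1) ≤ Λ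
  lo : Λ ^ 70 * ν ≤ n
  hi : n ≤ 2 * (Λ ^ 70 * ν)
  big : Λ ^ 123 ≤ ν

end TR

end Pool.Agent.Lib.MP_5049a2_lc
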