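import Pool.Agent.Lib.MP_5049a2_lc.TRProx

/-! The final exchange. -/

namespace Pool.Agent.Lib.MP_5049a2_lc.TR

open Finset

theorem exchange {n k : ℕ} (I : Inst n) (α : ℝ) (q R D Bn F : ℕ) (hk : 0 < k) (B : Finset ℕ)
    (hB : B.card + 1 ≤ q) (hF : FF q R D Bn ≤ F) (cb cd u0 d0 mb md Sh : Fin n → ℕ → ℕ)
    (cap : ℕ → ℕ) (Bad : Finset (Fin n)) (G : Fin k → Finset (Fin n))
    (cls : Fin n → Option (Fin k))
    (m1 : ∀ a, Monotone (cb a)) (m2 : ∀ a, Monotone (cd a)) (m3 : ∀ a, Monotone (u0 a))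
    (m4 : ∀ a, Monotone (d0 a)) (m5 : ∀ a, Monotone (mb a)) (m6 : ∀ a, Monotone (md a))
    (b1 : ∀ a t, cb a t ≤ R) (b2 : ∀ a t, u0 a t ≤ R) (b3 : ∀ a t, mb a t ≤ R)
    (hstep : ∀ a t, u0 a t = u0 a (pv B t))
    (l1 : ∀ a ∉ Bad, α ≤ Val I.m (I.w a) fun t => cb a t + cd a t)
    (l2 : ∀ h, ∀ a ∈ G h, ∀ j, (cls j = none ∨ cls j = some h) →
      α ≤ Val I.m (I.w a) fun t => u0 j t + d0 j t)
    (l3 : ∀ b, α ≤ Val I.m (I.w b) fun t => mb b t + md b t)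
    (hres : ∀ h b, ∃ S ⊆ G h, 2 * F ≤ S.card ∧ ∀ a ∈ S, cb a = Sh b)
    (h0 : ∀ t ≤ I.m, ∑ a, u0 a t ≤ cap t) (h1 : ∀ t ≤ I.m, ∑ a, cb a t ≤ cap t + D)
    (hBad : Bad.card ≤ Bn)
    (hfin : ∀ t ≤ I.m, ∀ A : Finset (Fin n), A.card ≤ F →
      ((∀ b, mb b t ≤ Sh b t) ∧
        cap t + ∑ a ∈ Badᶜ, cd a t + ∑ a ∈ A, d0 a t + ∑ a ∈ A, md a t ≤ t) ∨
      ∑ a, cb a t + ∑ a ∈ Badᶜ, cd a t + 2 * R * F + ∑ a ∈ A, d0 a t + ∑ a ∈ A, md a t ≤ t) :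
    I.Solv α := by
  classical
  rcases isEmpty_or_nonempty (Fin n) with hn | hn
  · exact ⟨cb, m1, fun t _ => by simp, fun a => hn.elim a⟩
  obtain ⟨A, hBA, hA, hcap⟩ := prox2 q R D Bn I.m B hB cb u0 cap Bad m1 b1 b2 hstep h0 h1 hBad
  have hAF : A.card ≤ F := hA.trans hF
  choose S hS using fun b => hres ((cls b).getD ⟨0, hk⟩) b
  obtain ⟨f, hfi, hf⟩ := exists_injOn_choice A (fun b => S b \ A) fun b _ => by
    have := le_card_sdiff A (S b)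
    have := (hS b).2.1
    omega
  have hfA : ∀ b ∈ A, f b ∉ A := fun b hb => (mem_sdiff.1 (hf b hb)).2
  have hfS : ∀ b ∈ A, f b ∈ S b := fun b hb => (mem_sdiff.1 (hf b hb)).1
  obtain ⟨U, hU, hUs⟩ := exists_split A f hfi hfA (fun b t => mb b t + md b t)
    (fun b t => u0 b t + d0 b t) (fun a t => cb a t + cd a t)
  refine ⟨U, fun a => ?_, fun t ht => ?_, fun a => ?_⟩
  · rcases hU a with ⟨-, e⟩ | ⟨b, -, -, e⟩ | ⟨-, e⟩ <;> rw [e]
    exacts [(m5 a).add (m6 a), (m3 b).add (m4 b), (m1 a).add (m2 a)]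
  · have e1 : ∑ a ∈ (A ∪ A.image f)ᶜ, cd a t ≤ ∑ a ∈ Badᶜ, cd a t :=
      sum_le_sum_of_subset (compl_subset_compl.2 (hBA.trans subset_union_left))
    rw [hUs t]
    simp only [sum_add_distrib]
    rcases hfin t ht A hAF with ⟨k1, k2⟩ | k
    · have e2 : ∑ b ∈ A, mb b t ≤ ∑ a ∈ A.image f, cb a t := by
        rw [sum_image hfi]
        exact sum_le_sum fun b hb => by
          rw [(hS b).2.2 _ (hfS b hb)]
          exact k1 b
      have e3 : ∑ a ∈ A.image f, cb a t + ∑ a ∈ (A ∪ A.image f)ᶜ, cb a t ≤ ∑ a ∈ Aᶜ, cb a t := by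
        rw [← sum_union (disjoint_left.2 fun a ha h => mem_compl.1 h (mem_union_right _ ha))]
        refine sum_le_sum_of_subset (union_subset (fun a ha => ?_)
          (compl_subset_compl.2 subset_union_left))
        obtain ⟨b, hb, rfl⟩ := mem_image.1 ha
        exact mem_compl.2 (hfA b hb)
      have e4 := hcap t ht
      omega
    · have e2 : ∑ b ∈ A, mb b t ≤ F * R :=
        (sum_le_card_nsmul A _ R fun b _ => b3 b t).trans (Nat.mul_le_mul_right R hAF)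
      have e3 : ∑ b ∈ A, u0 b t ≤ F * R :=
        (sum_le_card_nsmul A _ R fun b _ => b2 b t).trans (Nat.mul_le_mul_right R hAF)
      have e4 : ∑ a ∈ (A ∪ A.image f)ᶜ, cb a t ≤ ∑ a, cb a t := sum_le_sum_of_subset (subset_univ _)
      have e5 : 2 * R * F = F * R + F * R := by ring
      omega
  · rcases hU a with ⟨-, e⟩ | ⟨b, hb, rfl, e⟩ | ⟨ha, e⟩ <;> rw [e]
    · exact l3 a
    · refine l2 _ _ ((hS b).1 (hfS b hb)) b ?_
      cases cls b <;> simp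
    · exact l1 a fun h => ha (hBA h)

end Pool.Agent.Lib.MP_5049a2_lc.TR
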