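import Pool.Agent.Lib.MP_5049a2_lc.TRDefs

/-! A large group of agents whose breakpoints come in well separated blocks. -/

namespace Pool.Agent.Lib.MP_5049a2_lc.TR

open Finset

lemma grp_cell {ι : Type*} (s : Finset ι) (f : ι → ℕ) (L : ℕ) (hL : 0 < L)
    (hf : ∀ a ∈ s, f a < L) : ∃ v, s.card ≤ L * (s.filter fun a => f a = v).card := by
  obtain ⟨v, -, hv⟩ := exists_max_image (range L)
    (fun v => (s.filter fun a => f a = v).card) ⟨0, mem_range.2 hL⟩
  refine ⟨v, ?_⟩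
  rw [card_eq_sum_card_fiberwise (f := f) (s := s) (t := range L)
    (fun a ha => mem_coe.2 (mem_range.2 (hf a (mem_coe.1 ha))))]
  calc _ ≤ ∑ _w ∈ range L, (s.filter fun a => f a = v).card := sum_le_sum hv
    _ = _ := by simp

lemma grp_vec {ι : Type*} (N : Finset ι) (c : ι → ℕ → ℕ) (L : ℕ) (hL : 0 < L) (k : ℕ)
    (hc : ∀ a, ∀ i, i < k → c a i < L) :
    ∃ G ⊆ N, N.card ≤ L ^ k * G.card ∧ ∀ a ∈ G, ∀ a' ∈ G, ∀ i, i < k → c a i = c a' i := by
  induction k with
  | zero => exact ⟨N, Subset.rfl, by simp, fun _ _ _ _ i hi => absurd hi (Nat.not_lt_zero i)⟩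
  | succ k ih =>
    obtain ⟨G, hG, h1, h2⟩ := ih fun a i hi => hc a i (by omega)
    obtain ⟨v, hv⟩ := grp_cell G (fun a => c a k) L hL fun a _ => hc a k (by omega)
    refine ⟨G.filter fun a => c a k = v, (filter_subset _ _).trans hG, ?_, ?_⟩
    · calc N.card ≤ L ^ k * G.card := h1
        _ ≤ L ^ k * (L * (G.filter fun a => c a k = v).card) := Nat.mul_le_mul_left _ hv
        _ = _ := by ring
    · intro a ha a' ha' i hi
      rw [mem_filter] at ha ha'
      rcases Nat.lt_succ_iff_lt_or_eq.1 hi with h | h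
      · exact h2 a ha.1 a' ha'.1 i h
      · rw [h, ha.2, ha'.2]

/-- The scale class of a gap. -/
def grp_cls (S y : ℕ) : ℕ := Nat.log 2 y * (4 * S) + y / max 1 (2 ^ Nat.log 2 y / S)

lemma grp_quot_lt {S : ℕ} (hS : 0 < S) (y : ℕ) : y / max 1 (2 ^ Nat.log 2 y / S) < 4 * S := by
  have h1 : y < 2 ^ (Nat.log 2 y + 1) := Nat.lt_pow_succ_log_self (by norm_num) y
  have h2 : 2 ^ Nat.log 2 y < S * (2 ^ Nat.log 2 y / S + 1) := Nat.lt_mul_div_succ _ hS
  rw [pow_succ] at h1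
  rw [Nat.div_lt_iff_lt_mul (by omega)]
  have h3 : 2 ^ Nat.log 2 y / S + 1 ≤ 2 * max 1 (2 ^ Nat.log 2 y / S) := by omega
  have h4 := Nat.mul_le_mul_left S h3
  nlinarith

lemma grp_cls_lt {S : ℕ} (hS : 0 < S) {y M : ℕ} (h : y ≤ M) :
    grp_cls S y < (Nat.log 2 M + 1) * (4 * S) := by
  have h1 := grp_quot_lt hS y
  have h2 := Nat.mul_le_mul_right (4 * S) (Nat.log_mono_right (b := 2) h)
  unfold grp_cls
  rw [add_mul, one_mul]
  omega

lemma grp_cls_eq {S : ℕ} (hS : 0 < S) {y y' : ℕ} (h : grp_cls S y = grp_cls S y') :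
    S * y ≤ S * y' + y' := by
  have h1 := grp_quot_lt hS y
  have h2 := grp_quot_lt hS y'
  have key : ∀ e q : ℕ, q < 4 * S → (e * (4 * S) + q) / (4 * S) = e := fun e q hq => by
    rw [add_comm, Nat.add_mul_div_right _ _ (by omega), Nat.div_eq_of_lt hq, zero_add]
  unfold grp_cls at h
  have he : Nat.log 2 y = Nat.log 2 y' := by
    rw [← key (Nat.log 2 y) _ h1, h, key _ _ h2]
  rw [he] at h
  have hq := Nat.add_left_cancel h
  rcases le_total (2 ^ Nat.log 2 y' / S) 1 with hw | hw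
  · rw [max_eq_left hw, Nat.div_one, Nat.div_one] at hq
    rw [hq]
    omega
  · rw [max_eq_right hw] at hq
    have h3 : S * (2 ^ Nat.log 2 y' / S) ≤ 2 ^ Nat.log 2 y' := Nat.mul_div_le _ _
    have h4 : y < (2 ^ Nat.log 2 y' / S) * (y / (2 ^ Nat.log 2 y' / S) + 1) :=
      Nat.lt_mul_div_succ _ (by omega)
    have h5 : (2 ^ Nat.log 2 y' / S) * (y' / (2 ^ Nat.log 2 y' / S)) ≤ y' := Nat.mul_div_le _ _
    rw [hq, mul_add, mul_one] at h4
    rcases Nat.eq_zero_or_pos y' with h0 | h0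
    · subst h0
      simp only [Nat.log_zero_right, pow_zero, Nat.zero_div, mul_zero, zero_add] at h4
      have h6 : 1 / S ≤ 1 := Nat.div_le_self _ _
      have h7 : y = 0 := by omega
      simp [h7]
    · have h6 : 2 ^ Nat.log 2 y' ≤ y' := Nat.pow_log_le_self 2 (by omega)
      have h7 : y ≤ y' + 2 ^ Nat.log 2 y' / S := by omega
      have h8 := Nat.mul_le_mul_left S h7
      rw [mul_add] at h8
      omega

lemma grp_blocks (P : ℕ → Prop) (k : ℕ) (h1 : P 1) :
    ∃ top last : ℕ → ℕ, ∀ i, 1 ≤ i → i ≤ k →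
      (1 ≤ top i ∧ top i ≤ i ∧ i ≤ last i ∧ last i ≤ k) ∧ P (top i) ∧
      (∀ s, top i < s → s ≤ last i → ¬ P s) ∧
      ∀ i', top i ≤ i' → i' ≤ last i → top i' = top i ∧ last i' = last i := by
  classical
  have hex : ∀ i, ∃ s, i < s ∧ (P s ∨ k < s) := fun i =>
    ⟨i + k + 1, by omega, Or.inr (by omega)⟩
  refine ⟨fun i => Nat.findGreatest P i, fun i => Nat.find (hex i) - 1, fun i hi hik => ?_⟩
  beta_reduce
  have a1 : 1 ≤ Nat.findGreatest P i := Nat.le_findGreatest hi h1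
  have a2 : Nat.findGreatest P i ≤ i := Nat.findGreatest_le i
  have a3 : P (Nat.findGreatest P i) := Nat.findGreatest_spec hi h1
  have a4 := Nat.find_spec (hex i)
  have a5 : Nat.find (hex i) ≤ k + 1 := Nat.find_min' _ ⟨by omega, Or.inr (by omega)⟩
  have a6 : ∀ s, Nat.findGreatest P i < s → s ≤ Nat.find (hex i) - 1 → ¬ P s := by
    intro s hs hs' hP
    rcases le_or_gt s i with h | h
    · exact Nat.findGreatest_is_greatest hs h hP
    · exact Nat.find_min (hex i) (m := s) (by omega) ⟨h, Or.inl hP⟩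
  refine ⟨⟨a1, a2, by omega, by omega⟩, a3, a6, fun i' hi' hi'' => ⟨?_, ?_⟩⟩
  · rw [Nat.findGreatest_eq_iff]
    exact ⟨hi', fun _ => a3, fun s hs hs' => a6 s hs (hs'.trans hi'')⟩
  · have a7 : Nat.find (hex i') = Nat.find (hex i) := by
      rw [Nat.find_eq_iff]
      refine ⟨⟨by omega, a4.2⟩, fun s hs h => ?_⟩
      rcases h.2 with h' | h'
      · exact a6 s (by omega) (by omega) h'
      · omega
    rw [a7]

/-- All gaps between position `j` and gap `i` are at most as large as gap `i`. -/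
def grp_near (Y : ℕ → ℕ) (i j : ℕ) : Prop :=
  ∀ j', (j < j' ∧ j' ≤ i) ∨ (i ≤ j' ∧ j' ≤ j) → Y j' ≤ Y i

/-- Some position near gap `i` is almost constant on `G`, at the scale of gap `i`. -/
def grp_pin {ι : Type*} (τ : ι → ℕ → ℕ) (Y : ℕ → ℕ) (k Q : ℕ) (G : Finset ι) (i : ℕ) : Prop :=
  ∃ j, j ≤ k ∧ grp_near Y i j ∧ ∀ a ∈ G, ∀ a' ∈ G, 8 * Q * τ a j ≤ 8 * Q * τ a' j + Y i

lemma grp_tele {S k B : ℕ} {u v Y : ℕ → ℕ} (h1 : ∀ j, j < k → v j + Y (j + 1) ≤ v (j + 1))
    (h2 : ∀ j, j < k → S * u (j + 1) ≤ S * u j + S * Y (j + 1) + Y (j + 1)) {j j2 : ℕ}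
    (hj : j ≤ j2) (hk : j2 ≤ k) (hB : ∀ j', j < j' → j' ≤ j2 → Y j' ≤ B) :
    S * u j2 + S * v j ≤ S * v j2 + S * u j + (j2 - j) * B := by
  induction j2, hj using Nat.le_induction with
  | base => simp [add_comm]
  | succ m hm ih =>
    have a1 := ih (by omega) fun j' h h' => hB j' h (by omega)
    have a2 := Nat.mul_le_mul_left S (h1 m (by omega))
    have a3 := h2 m (by omega)
    have a4 := hB (m + 1) (by omega) le_rfl
    rw [mul_add] at a2
    rw [show m + 1 - j = (m - j) + 1 by omega, add_mul, one_mul]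
    omega

lemma grp_diam {k B : ℕ} {u Y : ℕ → ℕ} (h2 : ∀ j, j < k → u (j + 1) ≤ u j + 2 * Y (j + 1))
    {j j2 : ℕ} (hj : j ≤ j2) (hk : j2 ≤ k) (hB : ∀ j', j < j' → j' ≤ j2 → Y j' ≤ B) :
    u j2 ≤ u j + (j2 - j) * (2 * B) := by
  induction j2, hj using Nat.le_induction with
  | base => simp
  | succ m hm ih =>
    have a1 := ih (by omega) fun j' h h' => hB j' h (by omega)
    have a3 := h2 m (by omega)
    have a4 := hB (m + 1) (by omega) le_rfl
    rw [show m + 1 - j = (m - j) + 1 by omega, add_mul, one_mul]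
    omega

section Core

variable {ι : Type*} {τ : ι → ℕ → ℕ} {Y : ℕ → ℕ} {k Q : ℕ}

lemma grp_fact {G : Finset ι} (hk : 1 ≤ k)
    (h1 : ∀ a ∈ G, ∀ j, j < k → τ a j + Y (j + 1) ≤ τ a (j + 1))
    (h2 : ∀ a ∈ G, ∀ j, j < k →
      8 * Q * k * τ a (j + 1) ≤ 8 * Q * k * τ a j + 8 * Q * k * Y (j + 1) + Y (j + 1))
    {i j j2 : ℕ} (hj : j ≤ k) (hj2 : j2 ≤ k) (n1 : grp_near Y i j) (n2 : grp_near Y i j2)
    {a a' : ι} (ha : a ∈ G) (ha' : a' ∈ G) :
    8 * Q * τ a j2 + 8 * Q * τ a' j ≤ 8 * Q * τ a' j2 + 8 * Q * τ a j + Y i := by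
  have key : ∀ {j j2 : ℕ}, j ≤ j2 → j2 ≤ k → grp_near Y i j → grp_near Y i j2 → ∀ {a a' : ι},
      a ∈ G → a' ∈ G →
      8 * Q * τ a j2 + 8 * Q * τ a' j ≤ 8 * Q * τ a' j2 + 8 * Q * τ a j + Y i := by
    intro j j2 hjj hj2 n1 n2 a a' ha ha'
    have a1 := grp_tele (B := Y i) (h1 a' ha') (h2 a ha) hjj hj2 fun j' h h' => by
      rcases le_total j' i with h3 | h3
      · exact n1 j' (Or.inl ⟨h, h3⟩)
      · exact n2 j' (Or.inr ⟨h3, h'⟩)
    have a2 : (j2 - j) * Y i ≤ k * Y i := Nat.mul_le_mul_right _ (by omega)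
    refine Nat.le_of_mul_le_mul_left ?_ (show 0 < k by omega)
    nlinarith
  rcases le_total j j2 with h | h
  · exact key h hj2 n1 n2 ha ha'
  · have := key h hj n2 n1 ha' ha
    omega

lemma grp_pin_mono {G G' : Finset ι} (h : G' ⊆ G) {i : ℕ} (hp : grp_pin τ Y k Q G i) :
    grp_pin τ Y k Q G' i := by
  obtain ⟨j, h1, h2, h3⟩ := hp
  exact ⟨j, h1, h2, fun a ha a' ha' => h3 a (h ha) a' (h ha')⟩

/-- A subgroup on which no further gap can be pinned cheaply. -/
lemma grp_spread (τ : ι → ℕ → ℕ) (Y : ℕ → ℕ) {G1 : Finset ι} (hG1 : G1.Nonempty) (hk : 1 ≤ k)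
    (hQ : 1 ≤ Q) :
    ∃ G ⊆ G1, G.Nonempty ∧ G1.card ≤ (128 * Q * k ^ 2) ^ k * G.card ∧
      ∀ i j z, 1 ≤ i → i ≤ k → j ≤ k → ¬ grp_pin τ Y k Q G i → grp_near Y i j →
        4 * k * (G.filter fun a => z ≤ τ a j ∧ τ a j < z + 2 * k * Y i).card < G.card := by
  classical
  obtain ⟨G, hG, hmax⟩ := exists_max_image (G1.powerset.filter fun G => G.Nonempty)
    (fun G => G.card * (128 * Q * k ^ 2) ^ ((Icc 1 k).filter (grp_pin τ Y k Q G)).card)
    ⟨G1, mem_filter.2 ⟨mem_powerset.2 Subset.rfl, hG1⟩⟩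
  rw [mem_filter, mem_powerset] at hG
  have hρ : 0 < 128 * Q * k ^ 2 := by positivity
  refine ⟨G, hG.1, hG.2, ?_, ?_⟩
  · have a1 := hmax G1 (mem_filter.2 ⟨mem_powerset.2 Subset.rfl, hG1⟩)
    have a2 : ((Icc 1 k).filter (grp_pin τ Y k Q G)).card ≤ k :=
      (card_filter_le _ _).trans (by simp)
    calc G1.card ≤ G1.card * (128 * Q * k ^ 2) ^ ((Icc 1 k).filter (grp_pin τ Y k Q G1)).card :=
          Nat.le_mul_of_pos_right _ (by positivity)
      _ ≤ _ := a1
      _ ≤ G.card * (128 * Q * k ^ 2) ^ k := Nat.mul_le_mul_left _ (Nat.pow_le_pow_right hρ a2)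
      _ = _ := mul_comm _ _
  · intro i j z hi hik hj hnp hn
    by_contra hcon
    rw [not_lt] at hcon
    have hd : Y i < 8 * Q * (Y i / (8 * Q) + 1) := Nat.lt_mul_div_succ _ (by omega)
    obtain ⟨v, hv⟩ := grp_cell (G.filter fun a => z ≤ τ a j ∧ τ a j < z + 2 * k * Y i)
      (fun a => (τ a j - z) / (Y i / (8 * Q) + 1)) (16 * k * Q) (by positivity) fun a ha => by
        rw [Nat.div_lt_iff_lt_mul (by positivity)]
        have a1 := (mem_filter.1 ha).2
        have a2 := Nat.mul_le_mul_left (2 * k) hd.le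
        have a3 : 2 * k * (8 * Q * (Y i / (8 * Q) + 1)) = 16 * k * Q * (Y i / (8 * Q) + 1) := by
          ring
        omega
    set G' := (G.filter fun a => z ≤ τ a j ∧ τ a j < z + 2 * k * Y i).filter
      fun a => (τ a j - z) / (Y i / (8 * Q) + 1) = v with hG'
    have hsub : G' ⊆ G := (filter_subset _ _).trans (filter_subset _ _)
    have hc : G.card ≤ 64 * Q * k ^ 2 * G'.card :=
      calc G.card ≤ _ := hcon
        _ ≤ 4 * k * (16 * k * Q * G'.card) := Nat.mul_le_mul_left _ hv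
        _ = _ := by ring
    have hpos : 0 < G'.card := by
      rcases Nat.eq_zero_or_pos G'.card with h | h
      · rw [h, mul_zero] at hc
        have := hG.2.card_pos
        omega
      · exact h
    have hpin : grp_pin τ Y k Q G' i := by
      refine ⟨j, hj, hn, fun a ha a' ha' => ?_⟩
      rw [hG', mem_filter, mem_filter] at ha ha'
      have a1 : τ a j - z < (Y i / (8 * Q) + 1) * ((τ a j - z) / (Y i / (8 * Q) + 1) + 1) :=
        Nat.lt_mul_div_succ _ (by positivity)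
      have a2 : (Y i / (8 * Q) + 1) * ((τ a' j - z) / (Y i / (8 * Q) + 1)) ≤ τ a' j - z :=
        Nat.mul_div_le _ _
      rw [ha.2, mul_add, mul_one] at a1
      rw [ha'.2] at a2
      have a3 : τ a j ≤ τ a' j + Y i / (8 * Q) := by omega
      have a4 := Nat.mul_le_mul_left (8 * Q) a3
      have a5 : 8 * Q * (Y i / (8 * Q)) ≤ Y i := Nat.mul_div_le _ _
      rw [mul_add] at a4
      omega
    have hlt : ((Icc 1 k).filter (grp_pin τ Y k Q G)).card + 1 ≤
        ((Icc 1 k).filter (grp_pin τ Y k Q G')).card := by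
      refine card_lt_card ⟨fun s hs => ?_, fun h => hnp ?_⟩
      · rw [mem_filter] at hs ⊢
        exact ⟨hs.1, grp_pin_mono hsub hs.2⟩
      · exact (mem_filter.1 (h (mem_filter.2 ⟨mem_Icc.2 ⟨hi, hik⟩, hpin⟩))).2
    have a1 := hmax G' (mem_filter.2 ⟨mem_powerset.2 (hsub.trans hG.1), card_pos.1 hpos⟩)
    have a2 := Nat.mul_le_mul_left G'.card (Nat.pow_le_pow_right hρ hlt)
    have a3 := a2.trans a1
    rw [pow_succ', ← mul_assoc] at a3
    have a4 := Nat.le_of_mul_le_mul_right a3 (by positivity)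
    have a5 : 0 < 64 * Q * k ^ 2 * G'.card := by positivity
    nlinarith

/-- Few agents lie in the upper tail. -/
lemma grp_tail (G : Finset ι) (t : ι → ℕ) (k D : ℕ)
    (h : ∀ z, 4 * k * (G.filter fun a => z ≤ t a ∧ t a < z + D).card < G.card) :
    4 * k * (G.filter fun a =>
      4 * k * (G.filter fun a' => t a + D ≤ t a').card < G.card).card ≤ 2 * G.card := by
  classical
  rcases (G.filter fun a => 4 * k * (G.filter fun a' => t a + D ≤ t a').card <
    G.card).eq_empty_or_nonempty with he | hne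
  · rw [he]
    simp
  · obtain ⟨a1, ha1, hmin⟩ := exists_min_image _ t hne
    have a2 := (mem_filter.1 ha1).2
    have a3 := h (t a1)
    have a4 : (G.filter fun a => 4 * k * (G.filter fun a' => t a + D ≤ t a').card < G.card) ⊆
        (G.filter fun a => t a1 ≤ t a ∧ t a < t a1 + D) ∪ G.filter fun a' => t a1 + D ≤ t a' := by
      intro a ha
      have a5 := hmin a ha
      have a6 := (mem_filter.1 ha).1
      rw [mem_union, mem_filter, mem_filter]
      rcases lt_or_ge (t a) (t a1 + D) with h' | h'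
      · exact Or.inl ⟨a6, a5, h'⟩
      · exact Or.inr ⟨a6, h'⟩
    have a7 := Nat.mul_le_mul_left (4 * k) ((card_le_card a4).trans (card_union_le _ _))
    rw [mul_add] at a7
    omega

lemma grp_core {G1 : Finset ι} (hG1 : G1.Nonempty) (hk : 1 ≤ k) (hQ : 1 ≤ Q)
    (h0 : ∀ a, τ a 0 = 0) (hmono : ∀ a, Monotone (τ a))
    (h1 : ∀ a ∈ G1, ∀ j, j < k → τ a j + Y (j + 1) ≤ τ a (j + 1))
    (h2 : ∀ a ∈ G1, ∀ j, j < k →
      8 * Q * k * τ a (j + 1) ≤ 8 * Q * k * τ a j + 8 * Q * k * Y (j + 1) + Y (j + 1)) :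
    ∃ (G : Finset ι) (a0 : ι) (top last C : ℕ → ℕ), G ⊆ G1 ∧ a0 ∈ G ∧
      G1.card ≤ (128 * Q * k ^ 2) ^ k * G.card ∧ ∀ i, 1 ≤ i → i ≤ k →
        (1 ≤ top i ∧ top i ≤ i ∧ i ≤ last i ∧ last i ≤ k) ∧
        (∀ i', top i ≤ i' → i' ≤ last i → top i' = top i ∧ last i' = last i ∧ C i' = C i) ∧
        (∀ a ∈ G, C i ≤ τ a (top i)) ∧
        G.card ≤ 4 * k * (G.filter fun a => τ a0 (last i) ≤ τ a (top i)).card ∧
        Q * (τ a0 (last i) - C i) ≤ τ a0 (last i) - τ a0 (top i - 1) := by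
  classical
  obtain ⟨G, hsub, hne, hcard, hspread⟩ := grp_spread τ Y hG1 hk hQ
  have hpos := hne.card_pos
  obtain ⟨top, last, hb⟩ := grp_blocks (grp_pin τ Y k Q G) k
    ⟨0, Nat.zero_le _, fun j' hj' => by rw [show j' = 1 by omega],
      fun a _ a' _ => by simp [h0]⟩
  have h3 : ∀ a ∈ G, ∀ j, j < k → τ a (j + 1) ≤ τ a j + 2 * Y (j + 1) := fun a ha j hj => by
    have a1 := h2 a (hsub ha) j hj
    have a2 : 0 < 8 * Q * k := by positivity
    have a3 := Nat.le_mul_of_pos_left (Y (j + 1)) a2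
    refine Nat.le_of_mul_le_mul_left ?_ a2
    nlinarith
  have hD : ∀ i, ∃ D, 1 ≤ i → i ≤ k → (∀ a ∈ G, τ a (last i) ≤ τ a (top i) + D) ∧
      ∀ z, 4 * k * (G.filter fun a => z ≤ τ a (top i) ∧ τ a (top i) < z + D).card < G.card := by
    intro i
    by_cases hi : 1 ≤ i ∧ i ≤ k
    swap
    · exact ⟨0, fun h h' => absurd ⟨h, h'⟩ hi⟩
    obtain ⟨⟨b1, b2, b3, b4⟩, -, b5, -⟩ := hb i hi.1 hi.2
    rcases (Ioc (top i) (last i)).eq_empty_or_nonempty with he | hn
    · refine ⟨0, fun _ _ => ⟨fun a _ => ?_, fun z => ?_⟩⟩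
      · rw [Ioc_eq_empty_iff, not_lt] at he
        exact hmono a he
      · rw [filter_false_of_mem fun a _ => by omega]
        simpa using hpos
    · obtain ⟨s, hs, hmax⟩ := exists_max_image _ Y hn
      rw [mem_Ioc] at hs
      refine ⟨2 * k * Y s, fun _ _ => ⟨fun a ha => ?_, fun z => ?_⟩⟩
      · have a1 := grp_diam (B := Y s) (h3 a ha) (b2.trans b3) b4
          fun j' h h' => hmax j' (mem_Ioc.2 ⟨h, h'⟩)
        have a2 : (last i - top i) * (2 * Y s) ≤ k * (2 * Y s) :=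
          Nat.mul_le_mul_right _ (by omega)
        have a3 : k * (2 * Y s) = 2 * k * Y s := by ring
        omega
      · refine hspread s (top i) z (by omega) (by omega) (by omega) (b5 s hs.1 hs.2)
          fun j' hj' => hmax j' (mem_Ioc.2 ⟨by omega, by omega⟩)
  choose D hD using hD
  have hX : ((Icc 1 k).biUnion fun i => G.filter fun a =>
      4 * k * (G.filter fun a' => τ a (top i) + D i ≤ τ a' (top i)).card < G.card).card <
        G.card := by
    have a1 : 4 * k * ((Icc 1 k).biUnion fun i => G.filter fun a =>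
        4 * k * (G.filter fun a' => τ a (top i) + D i ≤ τ a' (top i)).card < G.card).card ≤
          k * (2 * G.card) := by
      refine (Nat.mul_le_mul_left _ card_biUnion_le).trans ?_
      rw [mul_sum]
      refine (sum_le_card_nsmul _ _ (2 * G.card) fun i hi => ?_).trans (by simp)
      rw [mem_Icc] at hi
      exact grp_tail G (fun a => τ a (top i)) k (D i) (hD i hi.1 hi.2).2
    by_contra hcon
    have a2 := Nat.mul_le_mul_left (4 * k) (not_lt.1 hcon)
    nlinarith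
  obtain ⟨a0, ha0, hout⟩ := exists_mem_notMem_of_card_lt_card hX
  refine ⟨G, a0, top, last, fun i => G.inf' hne fun a => τ a (top i), hsub, ha0, hcard,
    fun i hi hik => ?_⟩
  obtain ⟨⟨b1, b2, b3, b4⟩, ⟨j, hj, hn, hp⟩, -, b6⟩ := hb i hi hik
  obtain ⟨d1, d2⟩ := hD i hi hik
  refine ⟨⟨b1, b2, b3, b4⟩, fun i' h h' => ⟨(b6 i' h h').1, (b6 i' h h').2, ?_⟩,
    fun a ha => inf'_le (fun a => τ a (top i)) ha, ?_, ?_⟩
  · simp only [(b6 i' h h').1]
  · have a1 : ¬ 4 * k * (G.filter fun a' => τ a0 (top i) + D i ≤ τ a' (top i)).card < G.card :=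
      fun h => hout (mem_biUnion.2 ⟨i, mem_Icc.2 ⟨hi, hik⟩, mem_filter.2 ⟨ha0, h⟩⟩)
    refine (not_lt.1 a1).trans (Nat.mul_le_mul_left _ (card_le_card fun a ha => ?_))
    rw [mem_filter] at ha ⊢
    exact ⟨ha.1, (d1 a0 ha0).trans ha.2⟩
  · obtain ⟨am, ham, hC⟩ := exists_mem_eq_inf' hne fun a => τ a (top i)
    have hU : ∀ a ∈ G, 8 * Q * τ a (top i) ≤ 8 * Q * τ am (top i) + 2 * Y (top i) := by
      intro a ha
      have a1 := grp_fact hk (fun a ha => h1 a (hsub ha)) (fun a ha => h2 a (hsub ha))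
        (j2 := top i) hj (by omega) hn (fun j' hj' => by rw [show j' = top i by omega]) ha ham
      have a2 := hp a ha am ham
      omega
    have hfar : ∃ a ∈ G, τ am (top i) + D i ≤ τ a (top i) := by
      by_contra hcon
      have a1 := d2 (τ am (top i))
      rw [filter_true_of_mem fun a ha => ⟨by
        rw [← hC]
        exact inf'_le (fun a => τ a (top i)) ha, by
        by_contra h
        exact hcon ⟨a, ha, not_lt.1 h⟩⟩] at a1
      nlinarith
    obtain ⟨a1, ha1, hf⟩ := hfar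
    have c1 := Nat.mul_le_mul_left (8 * Q) hf
    have c2 := hU a1 ha1
    have c3 := hU a0 ha0
    have c4 := Nat.mul_le_mul_left (8 * Q) (d1 a0 ha0)
    have c5 := h1 a0 (hsub ha0) (top i - 1) (by omega)
    have c6 : τ a0 (top i) ≤ τ a0 (last i) := hmono a0 (b2.trans b3)
    rw [show top i - 1 + 1 = top i by omega] at c5
    rw [mul_add] at c1 c4
    change Q * (τ a0 (last i) - G.inf' hne fun a => τ a (top i)) ≤ _
    rw [hC, Nat.mul_sub]
    have c7 : 8 * Q * τ a0 (last i) = 8 * (Q * τ a0 (last i)) := by ring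
    have c8 : 8 * Q * τ am (top i) = 8 * (Q * τ am (top i)) := by ring
    omega

end Core

theorem group {ι : Type*} [DecidableEq ι] (N : Finset ι) (hN : N.Nonempty) (k Q M : ℕ)
    (hk : 1 ≤ k) (hQ : 1 ≤ Q) (τ : ι → ℕ → ℕ) (h0 : ∀ a, τ a 0 = 0) (hmono : ∀ a, Monotone (τ a))
    (hM : ∀ a, τ a k ≤ M) :
    ∃ (G : Finset ι) (a0 : ι) (top last C : ℕ → ℕ), G ⊆ N ∧ a0 ∈ G ∧
      N.card ≤ GC k Q M ^ k * G.card ∧ ∀ i, 1 ≤ i → i ≤ k →
        (1 ≤ top i ∧ top i ≤ i ∧ i ≤ last i ∧ last i ≤ k) ∧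
        (∀ i', top i ≤ i' → i' ≤ last i → top i' = top i ∧ last i' = last i ∧ C i' = C i) ∧
        (∀ a ∈ G, C i ≤ τ a (top i)) ∧
        G.card ≤ 4 * k * (G.filter fun a => τ a0 (last i) ≤ τ a (top i)).card ∧
        Q * (τ a0 (last i) - C i) ≤ τ a0 (last i) - τ a0 (top i - 1) ∧
        ∀ a ∈ G, ∀ a' ∈ G, Q * ((τ a i - τ a (i - 1)) - (τ a' i - τ a' (i - 1))) ≤
          τ a' i - τ a' (i - 1) := by
  have hS : 0 < 8 * Q * k := by positivity
  obtain ⟨G1, hsub1, hc1, hcl⟩ := grp_vec N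
    (fun a j => grp_cls (8 * Q * k) (τ a (j + 1) - τ a j))
    ((Nat.log 2 M + 1) * (4 * (8 * Q * k))) (by positivity) k
    fun a j hj => grp_cls_lt hS
      ((Nat.sub_le _ _).trans ((hmono a (show j + 1 ≤ k from hj)).trans (hM a)))
  have hG1 : G1.Nonempty := by
    rw [← card_pos]
    rcases Nat.eq_zero_or_pos G1.card with h | h
    · rw [h, mul_zero] at hc1
      have := hN.card_pos
      omega
    · exact h
  have hgap : ∀ a ∈ G1, ∀ a' ∈ G1, ∀ j, j < k → 8 * Q * k * (τ a (j + 1) - τ a j) ≤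
      8 * Q * k * (τ a' (j + 1) - τ a' j) + (τ a' (j + 1) - τ a' j) :=
    fun a ha a' ha' j hj => grp_cls_eq hS (hcl a ha a' ha' j hj)
  obtain ⟨G, a0, top, last, C, hsub, ha0, hc, hall⟩ := grp_core
    (Y := fun i => G1.inf' hG1 fun a => τ a i - τ a (i - 1)) hG1 hk hQ h0 hmono
    (fun a ha j _ => by
      have a1 := inf'_le (fun a => τ a (j + 1) - τ a (j + 1 - 1)) ha
      have a2 : τ a j ≤ τ a (j + 1) := hmono a (Nat.le_succ j)
      simp only [Nat.add_sub_cancel] at a1 ⊢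
      omega)
    (fun a ha j hj => by
      obtain ⟨am, ham, he⟩ := exists_mem_eq_inf' hG1 fun a => τ a (j + 1) - τ a (j + 1 - 1)
      have a1 := hgap a ha am ham j hj
      have a2 := Nat.mul_le_mul_left (8 * Q * k) (hmono a (Nat.le_succ j))
      rw [he, Nat.add_sub_cancel]
      rw [Nat.mul_sub] at a1
      simp only [Nat.succ_eq_add_one] at a2
      omega)
  refine ⟨G, a0, top, last, C, hsub.trans hsub1, ha0, ?_, fun i hi hik => ?_⟩
  · calc N.card ≤ _ := hc1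
      _ ≤ ((Nat.log 2 M + 1) * (4 * (8 * Q * k))) ^ k * ((128 * Q * k ^ 2) ^ k * G.card) :=
          Nat.mul_le_mul_left _ hc
      _ = GC k Q M ^ k * G.card := by
          rw [← mul_assoc, ← mul_pow]
          unfold GC
          congr 2
          ring
  · obtain ⟨b1, b2, b3, b4, b5⟩ := hall i hi hik
    refine ⟨b1, b2, b3, b4, b5, fun a ha a' ha' => ?_⟩
    have a1 := hgap a (hsub ha) a' (hsub ha') (i - 1) (by omega)
    rw [show i - 1 + 1 = i by omega] at a1
    have a2 : Q ≤ 8 * Q * k := by nlinarith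
    refine (Nat.mul_le_mul_right _ a2).trans ?_
    rw [Nat.mul_sub]
    omega

end Pool.Agent.Lib.MP_5049a2_lc.TR
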