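import Pool.Agent.Lib.MP_5049a2_lc.TRDefs

/-! Numerical estimates. -/

namespace Pool.Agent.Lib.MP_5049a2_lc.TR

def NN (r : ℕ) : ℕ := (64 * r) ^ (4400 * (dd r + 1))

theorem num_dd {r : ℕ} (hr : 1 ≤ r) : dd r + 1 ≤ 2 * r ^ 2 := by
  have h1 : Nat.log 2 r < r := Nat.log_lt_self 2 (by omega)
  have h2 : r * (Nat.log 2 r + 1) ≤ r * r := Nat.mul_le_mul_left _ h1
  unfold dd
  nlinarith

theorem num_log2 {r n : ℕ} (hr : 2 ≤ r) (h2 : n < NN (r + 1)) :
    Nat.log 2 (2 * r ^ 2 * n) + 1 ≤ (64 * r) ^ 3 := by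
  have h3 : r < 2 ^ r := Nat.lt_two_pow_self
  have h4 : 64 * (r + 1) ≤ 2 ^ (r + 6) := by rw [pow_add]; omega
  have h5 : NN (r + 1) ≤ 2 ^ ((r + 6) * (4400 * (2 * (r + 1) ^ 2))) := by
    rw [pow_mul]
    exact (Nat.pow_le_pow_left h4 _).trans (Nat.pow_le_pow_right (by positivity)
      (Nat.mul_le_mul_left _ (num_dd (by omega))))
  have h6 : 2 * r ^ 2 ≤ 2 ^ (2 * r + 1) := by
    rw [pow_succ 2, mul_comm 2 r, pow_mul, mul_comm]
    exact Nat.mul_le_mul_right _ (Nat.pow_le_pow_left h3.le _)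
  have h7 : 2 * r ^ 2 * n < 2 ^ (2 * r + 1 + (r + 6) * (4400 * (2 * (r + 1) ^ 2))) := by
    rw [pow_add]
    exact Nat.mul_lt_mul_of_le_of_lt h6 (h2.trans_le h5) (by positivity)
  have h8 : (r + 6) * (4400 * (2 * (r + 1) ^ 2)) ≤ (4 * r) * (4400 * (2 * (2 * r) ^ 2)) :=
    Nat.mul_le_mul (by omega) (Nat.mul_le_mul_left _ (Nat.mul_le_mul_left _
      (Nat.pow_le_pow_left (by omega) _)))
  have h9 : r ≤ r ^ 3 := Nat.le_self_pow (by norm_num) r
  have h10 : Nat.log 2 (2 * r ^ 2 * n) < 2 * r + 1 + (r + 6) * (4400 * (2 * (r + 1) ^ 2)) :=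
    Nat.log_lt_of_lt_pow' (by omega) h7
  have h11 : (4 * r) * (4400 * (2 * (2 * r) ^ 2)) = 140800 * r ^ 3 := by ring
  have h12 : (64 * r) ^ 3 = 262144 * r ^ 3 := by ring
  omega

theorem par_exists {r n : ℕ} (hr : 2 ≤ r) (h1 : NN r ≤ n) (h2 : n < NN (r + 1)) :
    ∃ Λ ν, Par r n Λ ν := by
  have hk := num_dd (r := r) (by omega)
  have hlog := num_log2 hr h2
  have hk1 : 1 ≤ dd r + 1 := Nat.le_add_left _ _
  have hNN : NN r = ((64 * r) ^ (22 * (dd r + 1))) ^ 200 := by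
    rw [NN, ← pow_mul]; congr 1; ring
  obtain ⟨k, hkd⟩ : ∃ k, k = dd r + 1 := ⟨_, rfl⟩
  have hs : 0 < 64 * r := by omega
  obtain ⟨Λ, hΛ⟩ : ∃ Λ, Λ = (64 * r) ^ (22 * k) := ⟨_, rfl⟩
  rw [← hkd] at hk hk1 hNN
  rw [hNN, ← hΛ] at h1
  have hpos : 0 < Λ := hΛ ▸ pow_pos hs _
  have hup : ∀ e, e ≤ 22 * k → (64 * r) ^ e ≤ Λ := fun e he => hΛ ▸ Nat.pow_le_pow_right hs he
  have hbig : Λ ^ 123 ≤ n / Λ ^ 70 := by
    rw [Nat.le_div_iff_mul_le (pow_pos hpos _), ← pow_add]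
    exact (Nat.pow_le_pow_right hpos (by norm_num)).trans h1
  have hν : 1 ≤ n / Λ ^ 70 := (pow_pos hpos 123).trans_le hbig
  refine ⟨Λ, n / Λ ^ 70, hr, ?_, ?_, ?_, ?_, Nat.mul_div_le _ _, ?_, hbig⟩
  · rw [← hkd]
    refine le_trans ?_ (hup 8 (by omega))
    calc 4096 * r ^ 4 * k ^ 2 ≤ 4096 * r ^ 4 * (2 * r ^ 2) ^ 2 :=
          Nat.mul_le_mul_left _ (Nat.pow_le_pow_left hk _)
      _ = 16384 * r ^ 8 := by ring
      _ ≤ 64 ^ 8 * r ^ 8 := Nat.mul_le_mul_right _ (by norm_num)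
      _ = _ := (mul_pow _ _ _).symm
  · rw [← hkd]
    refine le_trans ?_ (hup (3 * (4 * k + 2)) (by omega))
    rw [pow_mul, ell]
    refine Nat.pow_le_pow_left ?_ _
    have h3 : 1 ≤ r ^ 3 := Nat.one_le_pow _ _ (by omega)
    have h4 : 4 * (4 * k + 2) * (2 * r) ≤ 4 * (6 * (2 * r ^ 2)) * (2 * r) :=
      Nat.mul_le_mul_right _ (Nat.mul_le_mul_left _ (by omega))
    have h5 : 4 * (6 * (2 * r ^ 2)) * (2 * r) = 96 * r ^ 3 := by ring
    have h6 : (64 * r) ^ 3 = 262144 * r ^ 3 := by ring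
    omega
  · rw [← hkd]
    exact (Nat.pow_le_pow_left (by omega) _).trans (hup (4 * k + 2) (by omega))
  · rw [← hkd, hΛ, pow_mul]
    refine Nat.pow_le_pow_left ?_ _
    have h3 : 4096 * (64 * r ^ 3 * k) ^ 2 * k ^ 3 ≤ (64 * r) ^ 16 :=
      calc 4096 * (64 * r ^ 3 * k) ^ 2 * k ^ 3 = 4096 * 64 ^ 2 * r ^ 6 * k ^ 5 := by ring
        _ ≤ 4096 * 64 ^ 2 * r ^ 6 * (2 * r ^ 2) ^ 5 :=
          Nat.mul_le_mul_left _ (Nat.pow_le_pow_left hk _)
        _ = 536870912 * r ^ 16 := by ring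
        _ ≤ 64 ^ 16 * r ^ 16 := Nat.mul_le_mul_right _ (by norm_num)
        _ = _ := (mul_pow _ _ _).symm
    refine (Nat.mul_le_mul hlog h3).trans ?_
    rw [← pow_add]
    exact Nat.pow_le_pow_right hs (by norm_num)
  · have h3 := Nat.lt_mul_div_succ n (pow_pos hpos 70)
    have h4 : Λ ^ 70 * 1 ≤ Λ ^ 70 * (n / Λ ^ 70) := Nat.mul_le_mul_left _ hν
    rw [mul_add] at h3
    omega

theorem num_logNN (r : ℕ) :
    Real.log (NN r) = 4400 * ((dd r : ℝ) + 1) * Real.log (64 * r) := by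
  rw [NN, Nat.cast_pow, Real.log_pow]
  push_cast
  rfl

theorem num_NN_ge {r : ℕ} (hr : 1 ≤ r) : r ≤ NN r :=
  le_trans (by omega) (Nat.le_self_pow (by positivity) (64 * r))

theorem rate (n : ℕ) (hn : 16 ≤ n) :
    1 ≤ 2000000 * Real.log (Real.log n) ^ 2 / Real.log n ∨
      ∃ r : ℕ, 2 ≤ r ∧ NN r ≤ n ∧ n < NN (r + 1) ∧
        6 / (r : ℝ) ≤ 2000000 * Real.log (Real.log n) ^ 2 / Real.log n := by
  have l2 := Real.log_two_gt_d9
  have l2' := Real.log_two_lt_d9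
  have hn' : (16 : ℝ) ≤ n := by exact_mod_cast hn
  have hL : Real.exp 1 ≤ Real.log n := by
    have h1 : Real.log 16 ≤ Real.log n := Real.log_le_log (by norm_num) hn'
    have h2 : Real.log 16 = 4 * Real.log 2 := by
      rw [show (16 : ℝ) = 2 ^ 4 by norm_num, Real.log_pow]; norm_num
    have h3 := Real.exp_one_lt_d9
    linarith
  have hL0 : 0 < Real.log n := (Real.exp_pos 1).trans_le hL
  have hLL : 1 ≤ Real.log (Real.log n) := (Real.le_log_iff_exp_le hL0).2 hL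
  have hup : ∀ r, n < NN r → Real.log n ≤ 4400 * ((dd r : ℝ) + 1) * Real.log (64 * r) := by
    intro r h
    rw [← num_logNN]
    exact Real.log_le_log (by linarith) (by exact_mod_cast h.le)
  by_cases hc : n < NN 2
  · left
    have h1 := hup 2 hc
    clear hc
    have h2 : dd 2 = 4 := by decide
    have h3 : Real.log (64 * ((2 : ℕ) : ℝ)) = 7 * Real.log 2 := by
      rw [show (64 * ((2 : ℕ) : ℝ)) = 2 ^ 7 by norm_num, Real.log_pow]; norm_num
    rw [h2, h3] at h1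
    rw [le_div_iff₀ hL0]
    push_cast at h1
    nlinarith
  · right
    have hex : ∃ j, n < NN (j + 3) := ⟨n, lt_of_lt_of_le (by omega) (num_NN_ge (by omega))⟩
    obtain ⟨r, hr, h1, h2⟩ : ∃ r : ℕ, 2 ≤ r ∧ NN r ≤ n ∧ n < NN (r + 1) := by
      refine ⟨Nat.find hex + 2, by omega, ?_, Nat.find_spec hex⟩
      rcases Nat.eq_zero_or_pos (Nat.find hex) with h | h
      · rw [h]; exact not_lt.1 hc
      · have h3 := Nat.find_min hex (Nat.sub_lt h one_pos)
        rw [show Nat.find hex - 1 + 3 = Nat.find hex + 2 by omega] at h3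
        exact not_lt.1 h3
    clear hc
    refine ⟨r, hr, h1, h2, ?_⟩
    have hr' : (2 : ℝ) ≤ r := by exact_mod_cast hr
    have h3 : 1 ≤ Real.log (64 * r) := by
      rw [Real.le_log_iff_exp_le (by linarith)]
      have := Real.exp_one_lt_d9
      linarith
    have h4 : (r : ℝ) ≤ dd r := by
      have : r ≤ dd r := Nat.le_mul_of_pos_right _ (Nat.succ_pos _)
      exact_mod_cast this
    have h5 : 4400 * ((dd r : ℝ) + 1) * Real.log (64 * r) ≤ Real.log n := by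
      rw [← num_logNN]
      refine Real.log_le_log ?_ (by exact_mod_cast h1)
      exact_mod_cast lt_of_lt_of_le (by omega) (num_NN_ge (r := r) (by omega))
    have h11 := hup _ h2
    push_cast at h11
    clear h1 h2 hup hex
    have h6 : 64 * ((r : ℝ) + 1) ≤ Real.log n := by nlinarith
    have h7 : Real.log (64 * ((r : ℝ) + 1)) ≤ Real.log (Real.log n) :=
      Real.log_le_log (by linarith) h6
    have h8 : (Nat.log 2 (r + 1) : ℝ) * Real.log 2 ≤ Real.log (Real.log n) := by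
      rw [← Real.log_pow]
      refine Real.log_le_log (by positivity) ?_
      have h9 : 2 ^ Nat.log 2 (r + 1) ≤ r + 1 := Nat.pow_log_le_self 2 (by omega)
      have h10 : (2 : ℝ) ^ Nat.log 2 (r + 1) ≤ r + 1 := by exact_mod_cast h9
      linarith
    have h9 : (Nat.log 2 (r + 1) : ℝ) + 1 ≤ 3 * Real.log (Real.log n) := by
      have : (0 : ℝ) ≤ Nat.log 2 (r + 1) := Nat.cast_nonneg _
      nlinarith
    have h10 : (dd (r + 1) : ℝ) + 1 ≤ 7 * r * Real.log (Real.log n) := by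
      have h14 : ((r : ℝ) + 1) * ((Nat.log 2 (r + 1) : ℝ) + 1) ≤
          (2 * r) * (3 * Real.log (Real.log n)) :=
        mul_le_mul (by linarith) h9 (by positivity) (by linarith)
      rw [dd]
      push_cast
      nlinarith
    have h12 : 4400 * ((dd (r + 1) : ℝ) + 1) * Real.log (64 * ((r : ℝ) + 1)) ≤
        4400 * (7 * r * Real.log (Real.log n)) * Real.log (Real.log n) :=
      mul_le_mul (by linarith) h7 (Real.log_nonneg (by linarith)) (by positivity)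
    rw [div_le_div_iff₀ (by linarith) hL0]
    have h13 : 0 ≤ (r : ℝ) * Real.log (Real.log n) ^ 2 := by positivity
    nlinarith

end Pool.Agent.Lib.MP_5049a2_lc.TR
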