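import Pool.Agent.Lib.MP_5049a2_lc.TRCaseA
import Pool.Agent.Lib.MP_5049a2_lc.TRCaseB
import Pool.Agent.Lib.MP_5049a2_lc.TRNum

/-! The tight rate for ordered instances. -/

namespace Pool.Agent.Lib.MP_5049a2_lc.TR

open Finset

theorem solv_int {r n : ℕ} (hr : 2 ≤ r) (h1 : NN r ≤ n) (h2 : n < NN (r + 1)) (I : Inst n) :
    I.Solv (1 - 6 / r) := by
  obtain ⟨Λ, ν, p⟩ := par_exists hr h1 h2
  rcases le_or_gt (univ.filter fun a => ((Λ ^ 60 * ν : ℕ) : ℝ) ≤ I.V r a).card (Λ ^ 64 * ν)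
    with h | h
  · exact caseA p I h
  · exact caseB p I h

theorem solv_real {n : ℕ} (hn : 16 ≤ n) (I : Inst n) :
    I.Solv (1 - 2000000 * Real.log (Real.log n) ^ 2 / Real.log n) := by
  rcases rate n hn with h | ⟨r, hr, h1, h2, h3⟩
  · exact ⟨fun _ _ => 0, fun _ => monotone_const, fun t _ => by simp, fun a => by
      simp only [Val, sub_self, zero_mul, sum_const_zero]; linarith⟩
  · obtain ⟨U, e1, e2, e3⟩ := solv_int hr h1 h2 I
    exact ⟨U, e1, e2, fun a => le_trans (by linarith) (e3 a)⟩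

end Pool.Agent.Lib.MP_5049a2_lc.TR
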