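import Pool.Agent.Lib.MP_5049a2_lc.TRDefs

/-! Proximity with rows chosen according to the current slack. -/

namespace Pool.Agent.Lib.MP_5049a2_lc.TR

open Finset

/-- A short subfamily with nonnegative sum. -/
theorem piece {ι : Type*} [DecidableEq ι] {q : ℕ} (S : Finset ι) (z : ι → Fin q → ℤ) (R D : ℕ)
    (hR : ∀ i ∈ S, ∀ t, |z i t| ≤ R) (hD : ∀ t, -(D : ℤ) ≤ ∑ i ∈ S, z i t)
    (hS : 2 * ell q R * (D + 1) + q ≤ S.card) :
    ∃ P ⊆ S, P.Nonempty ∧ P.card ≤ ell q R ∧ ∀ t, 0 ≤ ∑ i ∈ P, z i t := by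
  classical
  set L := ell q R with hL
  have hL0 : 0 < L := by rw [hL]; unfold ell; positivity
  obtain ⟨K, hK⟩ : ∃ K, S.card = q + K := ⟨S.card - q, by omega⟩
  have hKL : 2 * L * (D + 1) ≤ K := by omega
  have hK0 : 0 < K := lt_of_lt_of_le (by positivity) hKL
  have hN : (0 : ℝ) < q + K := by positivity
  set xr : ι → Fin q → ℝ := fun i t => z i t with hxr
  set Y : Fin q → ℝ := fun t => (∑ i ∈ S, xr i t) / (q + K) with hY
  have hstep : ∀ (k : ℕ) (A : Finset ι),
      ∃ A' ⊆ A, H7.Chain xr Y (k + 1) A → H7.Chain xr Y k A' := by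
    intro k A
    by_cases h : H7.Chain xr Y (k + 1) A
    · obtain ⟨A', h1, h2⟩ := H7.chain_step xr Y k A h
      exact ⟨A', h1, fun _ => h2⟩
    · exact ⟨A, Subset.rfl, fun h' => absurd h' h⟩
  choose st hst1 hst2 using hstep
  let A : ℕ → Finset ι := fun j => Nat.rec S (fun j B => st (K - (j + 1)) B) j
  have hanti : Antitone A := antitone_nat_of_succ_le fun j => hst1 _ _
  have hch : ∀ j ≤ K, H7.Chain xr Y (K - j) (A j) := by
    intro j
    induction j with
    | zero =>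
      intro _
      refine ⟨hK, fun _ => K / (q + K), fun _ _ => ⟨by positivity, ?_⟩, ?_, fun t => ?_⟩
      · rw [div_le_one hN]; linarith [Nat.cast_nonneg (α := ℝ) q]
      · show ∑ _i ∈ S, (K : ℝ) / (q + K) = K
        rw [sum_const, hK, nsmul_eq_mul]; push_cast; field_simp
      · show ∑ i ∈ S, xr i t * ((K : ℝ) / (q + K)) = K * Y t
        rw [← sum_mul, hY]; field_simp
    | succ j ih =>
      intro hj
      have := ih (by omega)
      rw [show K - j = K - (j + 1) + 1 by omega] at this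
      exact hst2 _ _ this
  have hsub : ∀ j, A j ⊆ S := fun j => hanti (Nat.zero_le j)
  have hLK : L ≤ K := by nlinarith
  obtain ⟨k, hk, k', hk', hne, he⟩ := Finset.exists_ne_map_eq_of_card_lt_of_maps_to
    (s := range (L + 1))
    (t := Fintype.piFinset fun _ : Fin q => Icc (-(2 * q * R : ℤ)) (2 * q * R))
    (f := fun k t => ⌊2 * (∑ i ∈ A (K - k), xr i t - k * Y t)⌋)
    (by
      rw [Fintype.card_piFinset, card_range, prod_const, card_univ, Fintype.card_fin, Int.card_Icc,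
        show (2 * q * R + 1 - -(2 * q * R) : ℤ) = ((4 * q * R + 1 : ℕ) : ℤ) by push_cast; ring,
        Int.toNat_natCast]
      have : L = (4 * q * R + 1) ^ q := hL
      omega)
    (fun k hk => by
      have hk1 : k ≤ L := Nat.lt_succ_iff.1 (mem_range.1 hk)
      refine Finset.mem_coe.2 (Fintype.mem_piFinset.2 fun t => ?_)
      have h1 := hch (K - k) (Nat.sub_le _ _)
      rw [show K - (K - k) = k by omega] at h1
      have h2 := H7.chain_bound h1 (R := R) (fun i hi t => by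
        simp only [hxr]; exact_mod_cast hR i (hsub _ hi) t) t
      obtain ⟨h3, h4⟩ := abs_le.1 h2
      rw [mem_Icc]
      constructor
      · rw [Int.le_floor]; push_cast; linarith
      · rw [← Int.cast_le (R := ℝ)]
        refine (Int.floor_le _).trans ?_
        push_cast; linarith)
  wlog hlt : k < k' generalizing k k'
  · exact this k' hk' k hk hne.symm he.symm (by omega)
  have hk1 : k' ≤ L := Nat.lt_succ_iff.1 (mem_range.1 hk')
  have hs : A (K - k) ⊆ A (K - k') := hanti (by omega)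
  have hcard : (A (K - k') \ A (K - k)).card = k' - k := by
    rw [card_sdiff_of_subset hs, (hch _ (Nat.sub_le _ _)).1, (hch _ (Nat.sub_le _ _)).1]
    omega
  refine ⟨A (K - k') \ A (K - k), sdiff_subset.trans (hsub _), ?_, by omega, fun t => ?_⟩
  · rw [← card_pos, hcard]; omega
  · have e1 := sum_sdiff (f := fun i => xr i t) hs
    have e2 : ⌊2 * (∑ i ∈ A (K - k), xr i t - k * Y t)⌋ =
        ⌊2 * (∑ i ∈ A (K - k'), xr i t - k' * Y t)⌋ := congrFun he t
    have e3 := Int.lt_floor_add_one (2 * (∑ i ∈ A (K - k), xr i t - k * Y t))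
    have e4 := Int.floor_le (2 * (∑ i ∈ A (K - k'), xr i t - k' * Y t))
    rw [e2] at e3
    have e5 : -(1 / 2 : ℝ) ≤ ((k' : ℝ) - k) * Y t := by
      have f1 : -(D : ℝ) ≤ ∑ i ∈ S, xr i t := by simp only [hxr]; exact_mod_cast hD t
      have f2 : (0 : ℝ) ≤ (k' : ℝ) - k := sub_nonneg.2 (by exact_mod_cast hlt.le)
      have f3 : 2 * (((k' : ℝ) - k) * D) ≤ q + K := by
        have g1 : 2 * (k' * D) ≤ q + K := by nlinarith
        have g2 : 2 * ((k' : ℝ) * D) ≤ q + K := by exact_mod_cast g1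
        have g3 : (0 : ℝ) ≤ (k : ℝ) * D := by positivity
        linarith
      rw [hY, ← mul_div_assoc, le_div_iff₀ hN]
      nlinarith [mul_le_mul_of_nonneg_left f1 f2]
    have e6 : (-1 : ℝ) < ∑ i ∈ A (K - k') \ A (K - k), xr i t := by linarith
    simp only [hxr] at e6
    have e7 : (-1 : ℤ) < ∑ i ∈ A (K - k') \ A (K - k), z i t := by exact_mod_cast e6
    omega

theorem prox2 {n : ℕ} (q R D Bn m : ℕ) (B : Finset ℕ) (hB : B.card + 1 ≤ q)
    (u u0 : Fin n → ℕ → ℕ) (cap : ℕ → ℕ) (Bad : Finset (Fin n))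
    (hu : ∀ a, Monotone (u a)) (huR : ∀ a t, u a t ≤ R) (hu0R : ∀ a t, u0 a t ≤ R)
    (hstep : ∀ a t, u0 a t = u0 a (pv B t))
    (h0 : ∀ t ≤ m, ∑ a, u0 a t ≤ cap t) (h1 : ∀ t ≤ m, ∑ a, u a t ≤ cap t + D)
    (hBad : Bad.card ≤ Bn) :
    ∃ A : Finset (Fin n), Bad ⊆ A ∧ A.card ≤ FF q R D Bn ∧
      ∀ t ≤ m, ∑ a ∈ Aᶜ, u a t + ∑ a ∈ A, u0 a t ≤ cap t := by
  classical
  obtain ⟨A, hA, hmin⟩ := Finset.exists_min_image
    ((univ : Finset (Finset (Fin n))).filter fun A => Bad ⊆ A ∧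
      ∀ t ≤ m, ∑ a ∈ Aᶜ, u a t + ∑ a ∈ A, u0 a t ≤ cap t) card
    ⟨univ, mem_filter.2 ⟨mem_univ _, subset_univ _, fun t ht => by
      rw [compl_univ, sum_empty, zero_add]; exact h0 t ht⟩⟩
  obtain ⟨hBA, hfe⟩ := (mem_filter.1 hA).2
  refine ⟨A, hBA, ?_, hfe⟩
  by_contra hbig
  set L := ell q R with hL
  obtain ⟨e, -, he⟩ := exists_enum (insert 0 B) (mem_insert_self _ _) (q := q)
    ((card_insert_le _ _).trans hB)
  set Z : Fin q → Finset ℕ := fun i => (range (m + 1)).filter fun t =>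
    pv B t = e i ∧ cap t < ∑ a ∈ Aᶜ, u a t + ∑ a ∈ A, u0 a t + R * L with hZ
  set tm : Fin q → ℕ := fun i => (Z i).sup id with htm
  have htmZ : ∀ i, (Z i).Nonempty → tm i ∈ Z i := fun i hi => by
    obtain ⟨b, hb, hbe⟩ := Finset.exists_mem_eq_sup _ hi id
    simp only [htm]; rw [hbe]; exact hb
  set z : Fin n → Fin q → ℤ := fun a i =>
    if (Z i).Nonempty then (u0 a (tm i) : ℤ) - u a (tm i) else 0 with hz
  have hzs : ∀ (P : Finset (Fin n)) (i : Fin q), (Z i).Nonempty → ∑ a ∈ P, z a i =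
      ((∑ a ∈ P, u0 a (tm i) : ℕ) : ℤ) - ((∑ a ∈ P, u a (tm i) : ℕ) : ℤ) := fun P i hi => by
    simp only [hz, if_pos hi, sum_sub_distrib]; push_cast; rfl
  have hbd : ∀ (P : Finset (Fin n)) (v : Fin n → ℕ), (∀ a, v a ≤ R) →
      ∑ a ∈ P, v a ≤ R * P.card := fun P v hv => by
    have := sum_le_card_nsmul P v R fun a _ => hv a
    rwa [smul_eq_mul, mul_comm] at this
  obtain ⟨P, hPS, hPne, hPc, hP⟩ := piece (A \ Bad) z R (D + R * L + R * Bn)
    (fun a _ i => by
      have := huR a (tm i); have := hu0R a (tm i)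
      simp only [hz]
      split_ifs
      · rw [abs_le]; omega
      · simp)
    (fun i => by
      by_cases hi : (Z i).Nonempty
      · rw [hzs _ i hi]
        obtain ⟨f1, -, f2⟩ := mem_filter.1 (htmZ i hi)
        have f3 := h1 (tm i) (Nat.lt_succ_iff.1 (mem_range.1 f1))
        have f4 := sum_add_sum_compl A fun a => u a (tm i)
        have f5 := sum_sdiff (f := fun a => u a (tm i)) hBA
        have f6 := sum_sdiff (f := fun a => u0 a (tm i)) hBA
        have f7 := hbd Bad (fun a => u0 a (tm i)) fun a => hu0R a _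
        have f8 : R * Bad.card ≤ R * Bn := Nat.mul_le_mul_left _ hBad
        generalize R * L = X at *
        generalize R * Bn = W at *
        omega
      · simp only [hz, if_neg hi, sum_const_zero]
        omega)
    (by
      have f1 := card_sdiff_of_subset hBA
      have f2 : FF q R D Bn = Bn + 2 * L * (D + R * L + R * Bn + 1) + q := rfl
      rw [← hL]
      generalize 2 * L * (D + R * L + R * Bn + 1) = X at *
      omega)
  have hPA : P ⊆ A := hPS.trans sdiff_subset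
  have hlt : (A \ P).card < A.card := card_lt_card (sdiff_ssubset hPA hPne)
  refine absurd (hmin (A \ P) (mem_filter.2 ⟨mem_univ _, fun a ha => ?_, fun t ht => ?_⟩))
    (not_le.2 hlt)
  · exact mem_sdiff.2 ⟨hBA ha, fun hp => (mem_sdiff.1 (hPS hp)).2 ha⟩
  · have f1 := sum_add_sum_compl A fun a => u a t
    have f2 := sum_add_sum_compl (A \ P) fun a => u a t
    have f3 := sum_sdiff (f := fun a => u a t) hPA
    have f4 := sum_sdiff (f := fun a => u0 a t) hPA
    have f5 := hfe t ht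
    by_cases hs : cap t < ∑ a ∈ Aᶜ, u a t + ∑ a ∈ A, u0 a t + R * L
    · obtain ⟨i, hi⟩ := he _ (pv_mem B t)
      have g1 : t ∈ Z i := mem_filter.2 ⟨mem_range.2 (Nat.lt_succ_iff.2 ht), hi.symm, hs⟩
      have g2 : t ≤ tm i := Finset.le_sup (f := id) g1
      have g3 : pv B (tm i) = e i := (mem_filter.1 (htmZ i ⟨t, g1⟩)).2.1
      have g4 : ∑ a ∈ P, u0 a t = ∑ a ∈ P, u0 a (tm i) :=
        sum_congr rfl fun a _ => by rw [hstep a t, hstep a (tm i), g3, hi]
      have g5 : ∑ a ∈ P, u a t ≤ ∑ a ∈ P, u a (tm i) := sum_le_sum fun a _ => hu a g2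
      have g6 := hP i
      rw [hzs _ i ⟨t, g1⟩] at g6
      omega
    · have g1 := hbd P (fun a => u a t) fun a => huR a _
      have g2 : R * P.card ≤ R * L := Nat.mul_le_mul_left _ hPc
      omega

end Pool.Agent.Lib.MP_5049a2_lc.TR
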